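import Pool.Agent.PnLG.NCSet

open Finset Filter Complex
open scoped ArithmeticFunction.Moebius ArithmeticFunction.vonMangoldt

namespace Pool.Agent.PnLG

open Pool.Agent.ANT
open Pool.Agent.PnPoly.NC (np)
open Pool.Agent.HL26
open Pool.Agent.PnPoly.NC hiding np

/-- the index `min j r` of `Fin (r+1)` -/
def ncprimeIdx (r : ℕ) (j : ℕ) : Fin (r + 1) := ⟨min j r, by omega⟩

/-- the nodes: first the `l`-th offset, then the first `d+1` offsets -/
def ncprimeNodes (d r : ℕ) (I : Fin (r + 1) → ℕ) (l : Fin (r + 1)) : Fin (d + 2) → ℤ :=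
  Fin.cons (I l : ℤ) (fun j : Fin (d + 1) => (I (ncprimeIdx r j) : ℤ))

theorem ncprime_coprime {q : ℕ} (hq : q.Prime) {x : ℤ} (h0 : 0 < x) (h1 : x < q) :
    IsCoprime x (q : ℤ) := by
  rw [isCoprime_comm, (Nat.prime_iff_prime_int.mp hq).coprime_iff_not_dvd]
  intro h
  have := Int.le_of_dvd h0 h
  omega

/-- the hits of an integer valued polynomial follow one pattern modulo a prime -/
theorem ncprime_pat (r d : ℕ) {q : ℕ} (hq : q.Prime) {Z : ℝ} (hZq : Z ≤ q) {P : Polynomial ℚ}
    (hP : P.natDegree ≤ d) (hint : IntVal P) (S : Finset ℕ)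
    (hS : ∀ n ∈ S, (q : ℤ) ∣ (np n : ℤ) + ⌊P.eval (n : ℚ)⌋) : Pat r (d + 1) q 1 Z S := by
  refine ⟨fun _ I l e => -(Int.gcdA (wt (ncprimeNodes d r I l) 0) q *
    ∑ j : Fin (d + 1), wt (ncprimeNodes d r I l) j.succ * (e (ncprimeIdx r j) : ℤ)), ?_, ?_⟩
  · intro τ I l e e' h
    have h1 : ∀ j : Fin (d + 1), e (ncprimeIdx r j) = e' (ncprimeIdx r j) := by
      intro j
      apply h
      have := j.2
      simp only [ncprimeIdx]
      omega
    simp only [h1]
  · intro n hn hnS hlast m hm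
    refine ⟨0, one_pos, fun l hl => ?_⟩
    simp only
    set v : Fin (d + 2) → ℤ := ncprimeNodes d r (fun l => n l - n 0) l with hv
    -- the indices
    set N : Fin (d + 2) → ℕ := Fin.cons (n l) (fun j : Fin (d + 1) => n (ncprimeIdx r j)) with hN
    have hmono : ∀ i, n 0 ≤ n i := fun i => hn.monotone (Fin.zero_le i)
    have hNv : ∀ i, ((n 0 : ℕ) : ℤ) + v i = (N i : ℤ) := by
      intro i
      refine Fin.cases ?_ (fun j => ?_) i
      · have := hmono l
        simp only [hv, hN, ncprimeNodes, Fin.cons_zero]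
        omega
      · have := hmono (ncprimeIdx r j)
        simp only [hv, hN, ncprimeNodes, Fin.cons_succ]
        omega
    have hNS : ∀ i, (q : ℤ) ∣ (np (N i) : ℤ) + ⌊P.eval ((N i : ℕ) : ℚ)⌋ := by
      intro i
      refine Fin.cases ?_ (fun j => ?_) i
      · simp only [hN, Fin.cons_zero]
        exact hS _ (hnS l)
      · simp only [hN, Fin.cons_succ]
        exact hS _ (hnS _)
    have hNm : ∀ i, n 0 ≤ N i := by
      intro i
      refine Fin.cases ?_ (fun j => ?_) i
      · simp only [hN, Fin.cons_zero]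
        exact hmono l
      · simp only [hN, Fin.cons_succ]
        exact hmono _
    -- the relation for the values of `P`
    have hsumP : ∑ i, wt v i * ⌊P.eval ((N i : ℕ) : ℚ)⌋ = 0 := by
      have h1 := wt_sum_eval v P (by omega) ((n 0 : ℕ) : ℚ)
      have h2 : ∀ i, P.eval (((n 0 : ℕ) : ℚ) + (v i : ℚ)) =
          ((⌊P.eval ((N i : ℕ) : ℚ)⌋ : ℤ) : ℚ) := by
        intro i
        have h3 : ((n 0 : ℕ) : ℚ) + (v i : ℚ) = ((N i : ℕ) : ℚ) := by
          have h5 : ((((n 0 : ℕ) : ℤ) + v i : ℤ) : ℚ) = ((N i : ℤ) : ℚ) := by rw [hNv i]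
          push_cast at h5
          exact h5
        rw [h3]
        obtain ⟨k, hk⟩ := hint (N i : ℤ)
        have h4 : P.eval ((N i : ℕ) : ℚ) = (k : ℚ) := by
          rw [← hk]
          norm_cast
        rw [h4, Int.floor_intCast]
      simp only [h2] at h1
      exact_mod_cast h1
    have hsum0 : ∑ i, wt v i = 0 := wt_sum (by omega) v
    -- the relation for the primes
    have hsumA : (q : ℤ) ∣ ∑ i, wt v i * ((np (N i) : ℤ) - m) := by
      have h1 : ∑ i, wt v i * ((np (N i) : ℤ) - m) =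
          ∑ i, wt v i * ((np (N i) : ℤ) + ⌊P.eval ((N i : ℕ) : ℚ)⌋) -
            ∑ i, wt v i * ⌊P.eval ((N i : ℕ) : ℚ)⌋ - m * ∑ i, wt v i := by
        rw [Finset.mul_sum, ← Finset.sum_sub_distrib, ← Finset.sum_sub_distrib]
        refine Finset.sum_congr rfl fun i _ => ?_
        ring
      rw [h1, hsumP, hsum0, mul_zero, sub_zero, sub_zero]
      exact Finset.dvd_sum fun i _ => (hNS i).mul_left _
    rw [Fin.sum_univ_succ] at hsumA
    -- the weight of the first node is a unit
    have hcop : IsCoprime (wt v 0) (q : ℤ) := by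
      rw [wt_zero]
      refine IsCoprime.mul_left (IsCoprime.pow_left (isCoprime_one_left.neg_left)) ?_
      refine IsCoprime.prod_left fun i _ => IsCoprime.prod_left fun j hj => ?_
      rw [Finset.mem_Ioi] at hj
      have hr : d + 1 ≤ r := by have := l.2; omega
      have hij : (ncprimeIdx r i) < (ncprimeIdx r j) := by
        rw [Fin.lt_def]
        simp only [ncprimeIdx]
        have h1 : (i : ℕ) < j := hj
        have h2 := i.2
        have h3 := j.2
        omega
      have h1 := hn hij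
      have h2 : n (ncprimeIdx r j) ≤ n (Fin.last r) := hn.monotone (Fin.le_last _)
      have h3 := hmono (ncprimeIdx r i)
      have h4 := hmono (ncprimeIdx r j)
      have h5 : n (Fin.last r) < n 0 + q := by
        have : (n (Fin.last r) : ℝ) < n 0 + q := by linarith
        exact_mod_cast this
      have h6 : v j.succ - v i.succ = ((n (ncprimeIdx r j) : ℕ) : ℤ) - (n (ncprimeIdx r i) : ℕ) := by
        simp only [hv, ncprimeNodes, Fin.cons_succ]
        omega
      rw [h6]
      apply ncprime_coprime hq <;> omega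
    have hbez : (q : ℤ) ∣ Int.gcdA (wt v 0) q * wt v 0 - 1 := by
      have h1 := Int.gcd_eq_gcd_ab (wt v 0) (q : ℤ)
      rw [Int.isCoprime_iff_gcd_eq_one.mp hcop] at h1
      refine ⟨-Int.gcdB (wt v 0) q, ?_⟩
      push_cast at h1
      linarith
    -- conclusion
    have hcast : ∀ i, ((np (N i) - m : ℕ) : ℤ) = (np (N i) : ℤ) - m := by
      intro i
      have h1 : np (n 0) ≤ np (N i) := np_strictMono.monotone (hNm i)
      have := hm.trans h1
      omega
    have hN0 : N 0 = n l := by simp [hN]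
    have hNs : ∀ j : Fin (d + 1), N j.succ = n (ncprimeIdx r j) := by
      intro j; simp [hN]
    have hsum : ∑ j : Fin (d + 1), wt v j.succ * ((np (n (ncprimeIdx r j)) - m : ℕ) : ℤ) =
        ∑ j : Fin (d + 1), wt v j.succ * ((np (N j.succ) : ℤ) - m) := by
      refine Finset.sum_congr rfl fun j _ => ?_
      rw [← hcast, hNs]
    rw [hsum]
    rw [hN0] at hsumA
    set T := ∑ j : Fin (d + 1), wt v j.succ * ((np (N j.succ) : ℤ) - m) with hT
    set g := Int.gcdA (wt v 0) q with hg
    have h1 : (np (n l) : ℤ) - m - -(g * T) =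
        g * (wt v 0 * ((np (n l) : ℤ) - m) + T) - (g * wt v 0 - 1) * ((np (n l) : ℤ) - m) := by
      ring
    rw [h1]
    exact dvd_sub (hsumA.mul_left _) (hbez.mul_right _)

/-- polynomials modulo a large prime -/
theorem nc_prime (d : ℕ) (ε : ℝ) (hε : 0 < ε) : ∃ C : ℝ, 0 < C ∧ ∀ N q : ℕ, q.Prime → ∀ Z : ℝ, 1 ≤ Z →
    Z ≤ q → Z ≤ Real.log N → ∀ P : Polynomial ℚ, P.natDegree ≤ d → IntVal P →
    (((range N).filter (fun n => (q : ℤ) ∣ (np n : ℤ) + ⌊P.eval (n : ℚ)⌋)).card : ℝ) ≤
      C * N * Z ^ (-(1 / 2) + ε) := by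
  obtain ⟨r, C, hC, h⟩ := nc_set 0 1 (d + 1) (by omega) ε hε
  refine ⟨C, hC, fun N q hq Z hZ hZq hZN P hP hint => ?_⟩
  refine h N q Z hq.one_lt.le hZ hZq hZN 1 (by simp) _ (Finset.filter_subset _ _) ?_
  exact ncprime_pat r d hq hZq hP hint _ fun n hn => (Finset.mem_filter.mp hn).2

end Pool.Agent.PnLG
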