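import Pool.Agent.PnLG.NCPer
import Pool.Agent.PnLG.NCPrime

open Finset Filter Complex
open scoped ArithmeticFunction.Moebius ArithmeticFunction.vonMangoldt

namespace Pool.Agent.PnLG

open Pool.Agent.ANT
open Pool.Agent.PnPoly.NC (np)
open Pool.Agent.HL26
open Pool.Agent.PnPoly.NC hiding np

open scoped fwdDiff Nat in
theorem NCPoly_dvd_choose (q d k : ℕ) (hk : 1 ≤ k) (hkd : k ≤ d) : q ∣ (q * d !).choose k := by
  obtain ⟨c, hc⟩ := Nat.dvd_factorial hk hkd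
  obtain ⟨j, rfl⟩ : ∃ j, k = j + 1 := ⟨k - 1, by omega⟩
  rcases Nat.eq_zero_or_pos (q * d !) with h0 | h0
  · rw [h0]; simp
  · obtain ⟨M, hM⟩ : ∃ M, q * d ! = M + 1 := ⟨(q * (d !)) - 1, by omega⟩
    have h1 := Nat.add_one_mul_choose_eq M j
    rw [← hM, hc] at h1
    rw [hc]
    refine ⟨c * M.choose j, ?_⟩
    have h2 : (j + 1) * (q * (c * M.choose j)) = (j + 1) * (q * ((j + 1) * c)).choose (j + 1) := by
      rw [mul_comm (j + 1) ((q * ((j + 1) * c)).choose (j + 1)), ← h1]; ring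
    exact (Nat.eq_of_mul_eq_mul_left (Nat.succ_pos j) h2).symm

open scoped fwdDiff Nat in
theorem NCPoly_period (P : Polynomial ℚ) (hP : IntVal P) (d : ℕ) (hd : P.natDegree ≤ d) (q n : ℕ) :
    (q : ℤ) ∣ ⌊P.eval ((n + q * d ! : ℕ) : ℚ)⌋ - ⌊P.eval (n : ℚ)⌋ := by
  have hint : ∀ k : ℕ, ∃ z : ℤ, (fwdDiff (1:ℚ))^[k] P.eval (n : ℚ) = (z : ℚ) := by
    intro k
    rw [fwdDiff_iter_eq_sum_shift]
    choose g hg using hP
    refine ⟨∑ i ∈ range (k + 1), ((-1 : ℤ) ^ (k - i) * k.choose i) * g (n + i), ?_⟩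
    push_cast
    refine Finset.sum_congr rfl fun i _ => ?_
    have : (n : ℚ) + i • (1 : ℚ) = ((n + i : ℤ) : ℚ) := by push_cast; simp
    rw [this, hg, zsmul_eq_mul]
    push_cast; ring
  choose z hz using hint
  have h0 : z 0 = ⌊P.eval (n : ℚ)⌋ := by
    have := hz 0
    simp only [Function.iterate_zero, id_eq] at this
    rw [this, Int.floor_intCast]
  have hbig : ∀ k, d < k → z k = 0 := by
    intro k hk
    have h1 := Polynomial.fwdDiff_iter_eq_zero_of_degree_lt (P := P) (n := k) (by omega)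
    have h2 := hz k
    rw [h1, Pi.zero_apply] at h2
    exact_mod_cast h2.symm
  have h3 := shift_eq_sum_fwdDiff_iter (1 : ℚ) P.eval (q * d !) (n : ℚ)
  have h4 : P.eval ((n + q * d ! : ℕ) : ℚ) = ((∑ k ∈ range (q * d ! + 1), ((q * d !).choose k : ℤ) * z k : ℤ) : ℚ) := by
    have : ((n + q * d ! : ℕ) : ℚ) = (n : ℚ) + (q * d !) • (1 : ℚ) := by push_cast; simp
    rw [this, h3]
    push_cast
    refine Finset.sum_congr rfl fun i _ => ?_
    rw [hz, nsmul_eq_mul]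
  rw [h4, Int.floor_intCast, ← h0, Finset.sum_range_succ']
  simp only [Nat.choose_zero_right, Nat.cast_one, one_mul, add_sub_cancel_right]
  apply Finset.dvd_sum
  intro k _
  by_cases hk : k + 1 ≤ d
  · exact Dvd.dvd.mul_right (by exact_mod_cast NCPoly_dvd_choose q d (k + 1) (by omega) hk) _
  · rw [hbig (k + 1) (by omega), mul_zero]; exact dvd_zero _

/-- a divisor in `[Z, Z²]` if all prime factors are below `Z` -/
theorem NCPoly_divisor (q : ℕ) (hq : 1 ≤ q) (Z : ℝ) (hZ : 1 ≤ Z) (hZq : Z ≤ q)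
    (hp : ∀ p : ℕ, p.Prime → p ∣ q → (p : ℝ) < Z) :
    ∃ q' : ℕ, q' ∣ q ∧ 1 ≤ q' ∧ Z ≤ q' ∧ (q' : ℝ) ≤ Z ^ 2 := by
  classical
  have hex : ∃ m : ℕ, m ∣ q ∧ Z ≤ m := ⟨q, dvd_rfl, hZq⟩
  obtain ⟨h1, h2⟩ := Nat.find_spec hex
  set m := Nat.find hex with hm
  have hm0 : 0 < m := Nat.pos_of_dvd_of_pos h1 hq
  refine ⟨m, h1, hm0, h2, ?_⟩
  rcases eq_or_ne m 1 with h | h
  · rw [h]; push_cast; nlinarith
  · obtain ⟨p, hpp, hpm⟩ := Nat.exists_prime_and_dvd h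
    obtain ⟨c, hc⟩ := hpm
    have hc0 : 0 < c := by
      rcases Nat.eq_zero_or_pos c with h' | h'
      · rw [h', mul_zero] at hc; omega
      · exact h'
    have hclt : c < m := by
      rw [hc]; nlinarith [hpp.two_le]
    have hcq : c ∣ q := (Dvd.intro_left p hc.symm).trans h1
    have hcZ : (c : ℝ) < Z := by
      by_contra hcon
      push Not at hcon
      exact Nat.find_min hex hclt ⟨hcq, hcon⟩
    have hpZ := hp p hpp ((Dvd.intro c hc.symm).trans h1)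
    rw [hc]; push_cast
    have : (0 : ℝ) < c := by exact_mod_cast hc0
    nlinarith

open scoped Nat in
/-- polynomials modulo an arbitrary `q` -/
theorem nc_poly (d : ℕ) (ε : ℝ) (hε : 0 < ε) : ∃ C : ℝ, 0 < C ∧ ∀ N q : ℕ, 1 ≤ q → ∀ Z : ℝ, 1 ≤ Z →
    Z ≤ q → Z ≤ Real.log N → ∀ P : Polynomial ℚ, P.natDegree ≤ d → IntVal P →
    (((range N).filter (fun n => (q : ℤ) ∣ (np n : ℤ) + ⌊P.eval (n : ℚ)⌋)).card : ℝ) ≤
      C * N * Z ^ (-(1 / 2) + ε) := by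
  obtain ⟨C1, hC1, h1⟩ := nc_prime d ε hε
  obtain ⟨C2, hC2, h2⟩ := nc_periodic (d ! + 2) ε hε
  refine ⟨C1 + C2, by positivity, ?_⟩
  intro N q hq Z hZ hZq hZN P hPd hP
  have hZ0 : (0 : ℝ) < Z := by linarith
  have hpow : 0 < Z ^ (-(1 / 2) + ε : ℝ) := Real.rpow_pos_of_pos hZ0 _
  by_cases hp : ∃ p : ℕ, p.Prime ∧ p ∣ q ∧ Z ≤ p
  · obtain ⟨p, hpp, hpq, hpZ⟩ := hp
    have h3 := h1 N p hpp Z hZ hpZ hZN P hPd hP
    calc (((range N).filter (fun n => (q : ℤ) ∣ (np n : ℤ) + ⌊P.eval (n : ℚ)⌋)).card : ℝ)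
        ≤ (((range N).filter (fun n => (p : ℤ) ∣ (np n : ℤ) + ⌊P.eval (n : ℚ)⌋)).card : ℝ) := by
          exact_mod_cast Finset.card_le_card (Finset.monotone_filter_right _ fun n _ hn =>
            (Int.natCast_dvd_natCast.mpr hpq).trans hn)
      _ ≤ C1 * N * Z ^ (-(1 / 2) + ε) := h3
      _ ≤ (C1 + C2) * N * Z ^ (-(1 / 2) + ε) := by
          gcongr
          linarith
  · push Not at hp
    obtain ⟨q', hq'q, hq'1, hq'Z, hq'Z2⟩ := NCPoly_divisor q hq Z hZ hZq hp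
    have hM1 : 1 ≤ q' * d ! := Nat.mul_pos hq'1 (Nat.factorial_pos d)
    have hMle : ((q' * d ! : ℕ) : ℝ) ≤ ((d ! + 2 : ℕ) : ℝ) * Z ^ (d ! + 2) := by
      push_cast
      have e1 : Z ^ 2 ≤ Z ^ (d ! + 2) := pow_le_pow_right₀ hZ (by omega)
      have e2 : (0 : ℝ) ≤ (d ! : ℝ) := by positivity
      calc (q' : ℝ) * (d ! : ℝ) ≤ Z ^ (d ! + 2) * ((d ! : ℝ) + 2) := by
            gcongr
            · linarith
            · linarith
        _ = _ := by ring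
    have hF : ∀ n : ℕ, (-⌊P.eval ((n + q' * d ! : ℕ) : ℚ)⌋) % (q' : ℤ) = (-⌊P.eval (n : ℚ)⌋) % (q' : ℤ) := by
      intro n
      apply Int.ModEq.symm
      apply (Int.modEq_iff_dvd).mpr
      have h := NCPoly_period P hP d hPd q' n
      have e : -⌊P.eval ((n + q' * d ! : ℕ) : ℚ)⌋ - -⌊P.eval (n : ℚ)⌋ =
        -(⌊P.eval ((n + q' * d ! : ℕ) : ℚ)⌋ - ⌊P.eval (n : ℚ)⌋) := by ring
      rw [e]
      exact (dvd_neg).mpr h
    have h3 := h2 N q' (q' * d !) Z hq'1 hZ hq'Z hZN hM1 hMle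
      (fun n => (-⌊P.eval (n : ℚ)⌋) % (q' : ℤ)) hF
    calc (((range N).filter (fun n => (q : ℤ) ∣ (np n : ℤ) + ⌊P.eval (n : ℚ)⌋)).card : ℝ)
        ≤ (((range N).filter (fun n => (q' : ℤ) ∣ (np n : ℤ) - (-⌊P.eval (n : ℚ)⌋) % (q' : ℤ))).card : ℝ) := by
          refine Nat.cast_le.mpr (Finset.card_le_card (Finset.monotone_filter_right _ fun n _ hn => ?_))
          have h4 : (q' : ℤ) ∣ (np n : ℤ) + ⌊P.eval (n : ℚ)⌋ := (Int.natCast_dvd_natCast.mpr hq'q).trans hn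
          have h5 : (q' : ℤ) ∣ (-⌊P.eval (n : ℚ)⌋) - (-⌊P.eval (n : ℚ)⌋) % (q' : ℤ) := Int.dvd_self_sub_emod
          have : (np n : ℤ) - (-⌊P.eval (n : ℚ)⌋) % (q' : ℤ) =
              ((np n : ℤ) + ⌊P.eval (n : ℚ)⌋) + ((-⌊P.eval (n : ℚ)⌋) - (-⌊P.eval (n : ℚ)⌋) % (q' : ℤ)) := by ring
          rw [this]
          exact dvd_add h4 h5
      _ ≤ C2 * N * Z ^ (-(1 / 2) + ε) := h3
      _ ≤ (C1 + C2) * N * Z ^ (-(1 / 2) + ε) := by
          gcongr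
          linarith

end Pool.Agent.PnLG
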