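import Pool.Agent.PnLG.Defs3

open Finset Filter Complex
open scoped ArithmeticFunction.Moebius ArithmeticFunction.vonMangoldt

namespace Pool.Agent.PnLG

open Pool.Agent.ANT
open Pool.Agent.PnPoly.NC (np)

private theorem AdmQuad_floor (m : ℕ) (n : ℤ) :
    ⌊(Polynomial.C (m : ℚ) * Polynomial.X ^ 2 : Polynomial ℚ).eval (n : ℚ)⌋ = m * n ^ 2 := by
  rw [Polynomial.eval_mul, Polynomial.eval_C, Polynomial.eval_pow, Polynomial.eval_X]
  have h : (m : ℚ) * (n : ℚ) ^ 2 = ((m * n ^ 2 : ℤ) : ℚ) := by push_cast; ring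
  rw [h, Int.floor_intCast]

private theorem AdmQuad_three (n : ZMod 3) : n ^ 2 + 1 ≠ 0 := by
  revert n
  decide

private theorem AdmQuad_val (p : ℕ) [Fact p.Prime] (hp2 : p ≠ 2) (M B : ZMod p) (hM : M ≠ 0)
    (h3 : p = 3 → B - M ≠ 0) : ∃ v : ZMod p, v + B ≠ 0 ∧ ∀ n : ZMod p, M * n ^ 2 - v ≠ 0 := by
  have hp : p.Prime := Fact.out
  by_cases hp3 : p = 3
  · subst hp3
    refine ⟨-M, ?_, fun n => ?_⟩
    · have h := h3 rfl
      rwa [neg_add_eq_sub]
    · have h4 : M * n ^ 2 - -M = M * (n ^ 2 + 1) := by ring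
      rw [h4]
      exact mul_ne_zero hM (AdmQuad_three n)
  · have hp5 : 5 ≤ p := by
      have h1 := hp.two_le
      rcases Nat.lt_or_ge p 5 with h | h
      · interval_cases p
        · exact absurd rfl hp2
        · exact absurd rfl hp3
        · exact absurd hp (by decide)
      · exact h
    have hchar : ringChar (ZMod p) ≠ 2 := by
      rw [ZMod.ringChar_zmod_n]; exact hp2
    obtain ⟨u, hu⟩ := FiniteField.exists_nonsquare hchar
    have hns : ∀ n : ZMod p, M * n ^ 2 - M * u ≠ 0 := by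
      intro n h
      apply hu
      have h1 : M * (n ^ 2 - u) = 0 := by rw [← h]; ring
      rcases mul_eq_zero.1 h1 with h2 | h2
      · exact absurd h2 hM
      · exact ⟨n, by rw [← sub_eq_zero.1 h2]; ring⟩
    have h2ne : (2 : ZMod p) ≠ 0 := by
      intro h
      have h1 : ((2 : ℕ) : ZMod p) = 0 := by exact_mod_cast h
      rw [ZMod.natCast_eq_zero_iff] at h1
      have := Nat.le_of_dvd (by norm_num) h1
      omega
    have h3ne : (3 : ZMod p) ≠ 0 := by
      intro h
      have h1 : ((3 : ℕ) : ZMod p) = 0 := by exact_mod_cast h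
      rw [ZMod.natCast_eq_zero_iff] at h1
      have := Nat.le_of_dvd (by norm_num) h1
      omega
    have hu0 : u ≠ 0 := by
      intro h
      exact hu ⟨0, by rw [h]; ring⟩
    by_cases hv : M * u + B = 0
    · refine ⟨M * (4 * u), ?_, fun n h => ?_⟩
      · intro h
        have h1 : 3 * (M * u) = 0 := by
          have : 3 * (M * u) = (M * (4 * u) + B) - (M * u + B) := by ring
          rw [this, h, hv, sub_zero]
        rcases mul_eq_zero.1 h1 with h2 | h2
        · exact h3ne h2
        · rcases mul_eq_zero.1 h2 with h4 | h4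
          · exact hM h4
          · exact hu0 h4
      · apply hns (n / 2)
        have h1 : M * n ^ 2 = M * (4 * u) := sub_eq_zero.1 h
        have h5 : M * (n / 2) ^ 2 * 4 = M * u * 4 := by
          have : M * (n / 2) ^ 2 * 4 = M * n ^ 2 := by
            field_simp
            ring
          rw [this, h1]
          ring
        have h4ne : (4 : ZMod p) ≠ 0 := by
          have : (4 : ZMod p) = 2 * 2 := by norm_num
          rw [this]
          exact mul_ne_zero h2ne h2ne
        rw [mul_right_cancel₀ h4ne h5, sub_self]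
    · exact ⟨M * u, hv, hns⟩

/-- for `Q = m x^2` the second alternative holds for all `b` (if `3 ∣ m`) or all `b ≢ m (mod 3)` -/
theorem adm_quad (m : ℕ) (hm : 1 ≤ m) (y : ℕ) (b : ℤ) (h : 3 ∣ m ∨ ¬ (3 : ℤ) ∣ b - m) :
    Adm (Polynomial.C (m : ℚ) * Polynomial.X ^ 2) y b := by
  right
  intro p hpy hp2
  have hp : p.Prime := by
    simp only [Py, Finset.mem_filter] at hpy
    exact hpy.2
  have : Fact p.Prime := ⟨hp⟩
  have hp3 : 3 ≤ p := by
    have := hp.two_le
    omega
  simp only [AdmQuad_floor]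
  by_cases hpm : p ∣ m
  · have hpm' : (p : ℤ) ∣ m := Int.natCast_dvd_natCast.2 hpm
    have h1 : ¬ (p : ℤ) ∣ 1 := by
      intro h
      have := Int.le_of_dvd (by norm_num) h
      omega
    have h2 : ¬ (p : ℤ) ∣ 2 := by
      intro h
      have := Int.le_of_dvd (by norm_num) h
      omega
    have hred : ∀ a n : ℤ, (p : ℤ) ∣ a + 2 * (m * n ^ 2 + b) → (p : ℤ) ∣ a + 2 * b := by
      intro a n h
      have h3 : (p : ℤ) ∣ 2 * (m * n ^ 2) := Dvd.dvd.mul_left (Dvd.dvd.mul_right hpm' _) _
      have h4 := dvd_sub h h3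
      have h5 : a + 2 * (m * n ^ 2 + b) - 2 * (m * n ^ 2) = a + 2 * b := by ring
      rwa [h5] at h4
    by_cases hc : (p : ℤ) ∣ 1 + 2 * b
    · refine ⟨2, h2, fun n hn => h1 ?_⟩
      have h3 := dvd_sub (hred 2 n hn) hc
      have h4 : (2 : ℤ) + 2 * b - (1 + 2 * b) = 1 := by ring
      rwa [h4] at h3
    · exact ⟨1, h1, fun n hn => hc (hred 1 n hn)⟩
  · have hM : ((m : ℤ) : ZMod p) ≠ 0 := by
      intro h0
      rw [ZMod.intCast_zmod_eq_zero_iff_dvd] at h0
      exact hpm (Int.natCast_dvd_natCast.1 h0)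
    obtain ⟨v, hv, hn⟩ := AdmQuad_val p hp2 ((m : ℤ) : ZMod p) ((b : ℤ) : ZMod p) hM (by
      intro h3
      subst h3
      rcases h with h | h
      · exact absurd h hpm
      · intro h0
        apply h
        rw [← Int.cast_sub, ZMod.intCast_zmod_eq_zero_iff_dvd] at h0
        exact_mod_cast h0)
    obtain ⟨V, rfl⟩ := ZMod.intCast_surjective v
    have h2ne : ((2 : ℤ) : ZMod p) ≠ 0 := by
      intro h0
      rw [ZMod.intCast_zmod_eq_zero_iff_dvd] at h0
      have := Int.le_of_dvd (by norm_num) h0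
      omega
    refine ⟨-2 * (V + b), fun hd => ?_, fun n hd => ?_⟩
    · rw [← ZMod.intCast_zmod_eq_zero_iff_dvd] at hd
      have h1 : ((-2 * (V + b) : ℤ) : ZMod p) = -(((2 : ℤ) : ZMod p) * ((V : ZMod p) + b)) := by
        push_cast; ring
      rw [h1, neg_eq_zero] at hd
      rcases mul_eq_zero.1 hd with h2 | h2
      · exact h2ne h2
      · exact hv h2
    · rw [← ZMod.intCast_zmod_eq_zero_iff_dvd] at hd
      have h1 : ((-2 * (V + b) + 2 * (m * n ^ 2 + b) : ℤ) : ZMod p) =
          ((2 : ℤ) : ZMod p) * (((m : ℤ) : ZMod p) * (n : ZMod p) ^ 2 - V) := by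
        push_cast; ring
      rw [h1] at hd
      rcases mul_eq_zero.1 hd with h2 | h2
      · exact h2ne h2
      · exact hn _ h2

end Pool.Agent.PnLG
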