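import Pool.Agent.PnLG.AdmFin
import Pool.Agent.PnLG.AdmQuad

open Finset Filter Complex
open scoped ArithmeticFunction.Moebius ArithmeticFunction.vonMangoldt

namespace Pool.Agent.PnLG

open Pool.Agent.ANT
open Pool.Agent.PnPoly.NC (np)

/-- the counting functions agree for `Q = m X^2` -/
lemma AdmQuadFin_cntP (m N b : ℕ) :
    cntP (Polynomial.C (m : ℚ) * Polynomial.X ^ 2) N (b : ℤ) =
      {n : ℕ | 1 ≤ n ∧ n ≤ N ∧
        (Nat.nth Nat.Prime (n - 1) + 2 * (m * n ^ 2 + b)).Prime}.ncard := by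
  unfold cntP
  congr 1
  ext n
  refine and_congr_right (fun _ => and_congr_right (fun _ => ?_))
  have h1 : ((Nat.nth Nat.Prime (n - 1) : ℕ) : ℚ) +
      2 * (Polynomial.C (m : ℚ) * Polynomial.X ^ 2 +
        Polynomial.C ((b : ℤ) : ℚ)).eval (n : ℚ) =
      ((Nat.nth Nat.Prime (n - 1) + 2 * (m * n ^ 2 + b) : ℕ) : ℚ) := by
    simp only [Polynomial.eval_add, Polynomial.eval_mul, Polynomial.eval_C, Polynomial.eval_X,
      Polynomial.eval_pow]
    push_cast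
    ring
  rw [h1]
  constructor
  · rintro ⟨r, hr, h⟩
    have : r = Nat.nth Nat.Prime (n - 1) + 2 * (m * n ^ 2 + b) := by exact_mod_cast h
    rwa [← this]
  · intro h
    exact ⟨_, h, rfl⟩

/-- `P(x) = m x^2 + b` -/
theorem quad_final (m : ℕ) (hm : 1 ≤ m) (C0 : ℕ) (ε : ℝ) (hε : 0 < ε) :
    ∃ c : ℝ, 0 < c ∧ ∀ᶠ H : ℕ in atTop, ∀ N : ℕ, (H : ℝ) ≤ (N : ℝ) ^ 2 * Real.log H ^ C0 →
      (Nat.nth Nat.Prime (N - 1) : ℝ) + 2 * m * (N : ℝ) ^ 2 ≤ H →
      (((Icc 1 H).filter (fun b : ℕ => (3 ∣ m ∨ ¬ (3 : ℤ) ∣ (b : ℤ) - m) ∧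
        ((({n : ℕ | 1 ≤ n ∧ n ≤ N ∧ (Nat.nth Nat.Prime (n - 1) + 2 * (m * n ^ 2 + b)).Prime}.ncard : ℕ) : ℝ) <
          c * (N / Real.log H)))).card : ℝ) ≤ ε * H := by
  classical
  have hmq : (m : ℚ) ≠ 0 := by
    have : m ≠ 0 := by omega
    exact_mod_cast this
  have hQ : IntVal (Polynomial.C (m : ℚ) * Polynomial.X ^ 2) := by
    intro k
    refine ⟨(m : ℤ) * k ^ 2, ?_⟩
    simp
  have hlc : 0 ≤ (Polynomial.C (m : ℚ) * Polynomial.X ^ 2).leadingCoeff := by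
    rw [Polynomial.leadingCoeff_mul, Polynomial.leadingCoeff_C, Polynomial.leadingCoeff_X_pow, mul_one]
    exact Nat.cast_nonneg m
  have hdeg : (Polynomial.C (m : ℚ) * Polynomial.X ^ 2).natDegree = 2 :=
    Polynomial.natDegree_C_mul_X_pow 2 _ hmq
  obtain ⟨y, c, hc, hev⟩ := adm_classes (Polynomial.C (m : ℚ) * Polynomial.X ^ 2) hQ hlc C0 ε hε
  refine ⟨c, hc, ?_⟩
  filter_upwards [hev, Filter.eventually_ge_atTop 1] with H h1 h2
  intro N hN1 hN2
  have hHpos : (0:ℝ) < H := by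
    have : 0 < H := by omega
    exact_mod_cast this
  have hN0 : 1 ≤ N := by
    by_contra hcon
    have hN00 : N = 0 := by omega
    rw [hN00] at hN1
    simp only [Nat.cast_zero, ne_eq, OfNat.ofNat_ne_zero, not_false_eq_true, zero_pow, zero_mul] at hN1
    linarith
  -- admissibility of the pair
  have hOK : OK (Polynomial.C (m : ℚ) * Polynomial.X ^ 2) C0 H N := by
    constructor
    · rw [hdeg]
      exact hN1
    · have hqv : qv (Polynomial.C (m : ℚ) * Polynomial.X ^ 2) (N - 1 + 1) = (m:ℤ) * N ^ 2 := by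
        unfold qv
        rw [Nat.sub_add_cancel hN0]
        have : (Polynomial.C (m : ℚ) * Polynomial.X ^ 2).eval (N : ℚ) = (((m:ℤ) * N ^ 2 : ℤ) : ℚ) := by
          simp
        rw [this, Int.floor_intCast]
      unfold sv
      rw [hqv]
      have h4 : ((Nat.nth Nat.Prime (N - 1) + 2 * (m * N ^ 2) : ℕ) : ℝ) ≤ ((H:ℕ) : ℝ) := by
        push_cast
        linarith
      have h5 : Nat.nth Nat.Prime (N - 1) + 2 * (m * N ^ 2) ≤ H := by exact_mod_cast h4
      have h8 : ((np (N - 1) : ℕ) : ℤ) + 2 * ((m:ℤ) * N ^ 2) =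
          ((Nat.nth Nat.Prime (N - 1) + 2 * (m * N ^ 2) : ℕ) : ℤ) := by
        unfold np
        push_cast
        ring
      rw [h8]
      exact_mod_cast h5
  have hmain := h1 N hOK
  refine le_trans ?_ hmain
  rw [Nat.cast_le]
  apply Finset.card_le_card
  intro b hb
  rw [Finset.mem_filter] at hb ⊢
  refine ⟨hb.1, adm_quad m hm y (b : ℤ) hb.2.1, ?_⟩
  rw [AdmQuadFin_cntP]
  exact hb.2.2

end Pool.Agent.PnLG
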