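import Pool.Agent.PnLG.Defs

open Finset Filter Complex
open scoped ArithmeticFunction.Moebius ArithmeticFunction.vonMangoldt

namespace Pool.Agent.PnLG

open Pool.Agent.ANT
open Pool.Agent.PnPoly.NC (np)

namespace RootAux

/-- values of `Q` are periodic modulo `p` with period `p ^ (v_p(D) + 1)` -/
theorem period (Q : Polynomial ℚ) (hQ : IntVal Q) : ∃ D : ℕ, 0 < D ∧ ∀ p : ℕ, p.Prime → ∀ m m' : ℤ,
    ((p : ℤ) ^ (D.factorization p + 1) ∣ m - m') →
    (p : ℤ) ∣ ⌊Q.eval (m : ℚ)⌋ - ⌊Q.eval (m' : ℚ)⌋ := by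
  obtain ⟨b, hb0, hb⟩ := IsLocalization.integerNormalization_spec (nonZeroDivisors ℤ) Q
  set P := IsLocalization.integerNormalization (nonZeroDivisors ℤ) Q with hP
  have hb1 : b ≠ 0 := nonZeroDivisors.ne_zero hb0
  have hval : ∀ m : ℤ, ((⌊Q.eval (m : ℚ)⌋ : ℤ) : ℚ) = Q.eval (m : ℚ) := by
    intro m
    obtain ⟨k, hk⟩ := hQ m
    rw [hk, Int.floor_intCast]
  have hPv : ∀ m : ℤ, P.eval m = b * ⌊Q.eval (m : ℚ)⌋ := by
    intro m
    have h1 : (P.map (algebraMap ℤ ℚ)).eval (m : ℚ) = algebraMap ℤ ℚ (P.eval m) :=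
      Polynomial.eval_intCast_map _ _ _
    rw [hb, Polynomial.eval_smul] at h1
    have h2 : ((P.eval m : ℤ) : ℚ) = ((b * ⌊Q.eval (m : ℚ)⌋ : ℤ) : ℚ) := by
      push_cast
      rw [hval m]
      simpa using h1.symm
    exact_mod_cast h2
  refine ⟨b.natAbs, Int.natAbs_pos.mpr hb1, fun p hp m m' hd => ?_⟩
  by_contra hnd
  set d := ⌊Q.eval (m : ℚ)⌋ - ⌊Q.eval (m' : ℚ)⌋ with hdd
  have h1 : (p : ℤ) ^ (b.natAbs.factorization p + 1) ∣ b * d := by
    have h2 : m - m' ∣ P.eval m - P.eval m' := Polynomial.sub_dvd_eval_sub m m' P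
    have h3 : P.eval m - P.eval m' = b * d := by rw [hPv, hPv, hdd]; ring
    rw [h3] at h2
    exact hd.trans h2
  have hcop : IsCoprime ((p : ℤ) ^ (b.natAbs.factorization p + 1)) d := by
    apply IsCoprime.pow_left
    exact (Nat.prime_iff_prime_int.mp hp).coprime_iff_not_dvd.mpr hnd
  have h4 : (p : ℤ) ^ (b.natAbs.factorization p + 1) ∣ b := hcop.dvd_of_dvd_mul_right h1
  have h5 : p ^ (b.natAbs.factorization p + 1) ∣ b.natAbs := by
    have := Int.natAbs_dvd_natAbs.mpr h4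
    simpa [Int.natAbs_pow] using this
  exact Nat.pow_succ_factorization_not_dvd (Int.natAbs_pos.mpr hb1).ne' hp h5

theorem Py_eq (y : ℕ) : Py y = (range (y + 1)).filter Nat.Prime := by
  ext p
  simp only [Py, Finset.mem_filter, Finset.mem_Icc, Finset.mem_range]
  constructor
  · rintro ⟨⟨_, h⟩, hp⟩; exact ⟨by omega, hp⟩
  · rintro ⟨h, hp⟩; exact ⟨⟨hp.one_lt.le, by omega⟩, hp⟩

theorem prod_bound (D y : ℕ) (hD : 0 < D) :
    ∏ p ∈ Py y, p ^ (D.factorization p + 1) ≤ D * 4 ^ y := by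
  have h1 : ∏ p ∈ Py y, p ^ (D.factorization p + 1)
      = (∏ p ∈ Py y, p ^ D.factorization p) * ∏ p ∈ Py y, p := by
    rw [← Finset.prod_mul_distrib]
    exact Finset.prod_congr rfl fun p _ => pow_succ _ _
  rw [h1]
  refine Nat.mul_le_mul ?_ ?_
  · have hpos : ∀ p ∈ Py y ∪ D.factorization.support, 1 ≤ p ^ D.factorization p := by
      intro p hp
      apply Nat.one_le_pow
      rcases Finset.mem_union.mp hp with h | h
      · exact ((Finset.mem_filter.mp h).2).pos
      · rw [Nat.support_factorization] at h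
        exact (Nat.prime_of_mem_primeFactors h).pos
    calc ∏ p ∈ Py y, p ^ D.factorization p
        ≤ ∏ p ∈ Py y ∪ D.factorization.support, p ^ D.factorization p :=
          Finset.prod_le_prod_of_subset_of_one_le' Finset.subset_union_left
            (fun p hp _ => hpos p hp)
      _ = ∏ p ∈ D.factorization.support, p ^ D.factorization p := by
          symm
          apply Finset.prod_subset Finset.subset_union_right
          intro p _ hp
          rw [Finsupp.notMem_support_iff.mp hp, pow_zero]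
      _ = D := Nat.prod_factorization_pow_eq_self hD.ne'
      _ ≤ D := le_rfl
  · rw [Py_eq]
    exact primorial_le_four_pow y

end RootAux

open RootAux in
/-- roots modulo the small primes, with a common period -/
theorem crt_root (Q : Polynomial ℚ) (hQ : IntVal Q) : ∃ C1 : ℝ, 0 < C1 ∧ ∀ y : ℕ, 1 ≤ y →
    ∃ G : ℕ, 0 < G ∧ (G : ℝ) ≤ Real.exp (C1 * y) ∧ ∀ β : ℤ,
      (∀ p ∈ Py y, ∃ ν : ℤ, (p : ℤ) ∣ ⌊Q.eval (ν : ℚ)⌋ + β) →
      ∃ ν : ℕ, ν < G ∧ ∀ n : ℕ, n % G = ν → ∀ p ∈ Py y, (p : ℤ) ∣ qv Q (n + 1) + β := by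
  obtain ⟨D, hD, hper⟩ := period Q hQ
  have hD1 : (1 : ℝ) ≤ D := by exact_mod_cast hD
  have hlD : 0 ≤ Real.log D := Real.log_nonneg hD1
  have hl4 : 0 < Real.log 4 := Real.log_pos (by norm_num)
  refine ⟨Real.log D + Real.log 4, by positivity, fun y hy => ?_⟩
  have hprime : ∀ p ∈ Py y, p.Prime := fun p hp => (Finset.mem_filter.mp hp).2
  have hs : ∀ p ∈ Py y, p ^ (D.factorization p + 1) ≠ 0 := fun p hp =>
    (pow_pos (hprime p hp).pos _).ne'
  have hGpos : 0 < ∏ p ∈ Py y, p ^ (D.factorization p + 1) :=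
    Finset.prod_pos fun p hp => pow_pos (hprime p hp).pos _
  refine ⟨∏ p ∈ Py y, p ^ (D.factorization p + 1), hGpos, ?_, fun β hβ => ?_⟩
  · have h1 : ((∏ p ∈ Py y, p ^ (D.factorization p + 1) : ℕ) : ℝ) ≤ ((D * 4 ^ y : ℕ) : ℝ) :=
      Nat.cast_le.mpr (prod_bound D y hD)
    refine h1.trans ?_
    push_cast
    have hy1 : (1 : ℝ) ≤ y := by exact_mod_cast hy
    have h2 : (D : ℝ) ≤ Real.exp (Real.log D * y) := by
      calc (D : ℝ) = Real.exp (Real.log D) := (Real.exp_log (by positivity)).symm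
        _ ≤ _ := Real.exp_le_exp.mpr (by nlinarith)
    have h3 : (4 : ℝ) ^ y = Real.exp (Real.log 4 * y) := by
      rw [Real.exp_mul, Real.exp_log (by norm_num), Real.rpow_natCast]
    rw [add_mul, Real.exp_add, h3]
    exact mul_le_mul_of_nonneg_right h2 (Real.exp_pos _).le
  · classical
    choose! r hr using hβ
    set s : ℕ → ℕ := fun p => p ^ (D.factorization p + 1) with hsdef
    set a : ℕ → ℕ := fun p => ((r p - 1) % (s p : ℤ)).toNat with hadef
    have pp : Set.Pairwise (↑(Py y)) (Function.onFun Nat.Coprime s) := by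
      intro p hp q hq hpq
      exact Nat.coprime_pow_primes _ _ (hprime p hp) (hprime q hq) hpq
    refine ⟨Nat.chineseRemainderOfFinset a s (Py y) hs pp, ?_, ?_⟩
    · exact Nat.chineseRemainderOfFinset_lt_prod a s hs pp
    · intro n hn p hp
      have h1 : (Nat.chineseRemainderOfFinset a s (Py y) hs pp : ℕ) ≡ a p [MOD s p] :=
        (Nat.chineseRemainderOfFinset a s (Py y) hs pp).2 p hp
      have h2 : n ≡ (Nat.chineseRemainderOfFinset a s (Py y) hs pp : ℕ) [MOD s p] := by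
        have h3 : n ≡ n % (∏ p ∈ Py y, p ^ (D.factorization p + 1))
            [MOD (∏ p ∈ Py y, p ^ (D.factorization p + 1))] := (Nat.mod_modEq _ _).symm
        rw [hn] at h3
        exact h3.of_dvd (Finset.dvd_prod_of_mem (fun p => p ^ (D.factorization p + 1)) hp)
      have h4 : n ≡ a p [MOD s p] := h2.trans h1
      have h5 : (s p : ℤ) ∣ ((n : ℤ) + 1) - r p := by
        have h6 : (s p : ℤ) ∣ (n : ℤ) - a p := (Nat.modEq_iff_dvd.mp h4.symm)
        have hsp : (0 : ℤ) < s p := by exact_mod_cast Nat.pos_of_ne_zero (hs p hp)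
        have h7 : ((a p : ℕ) : ℤ) = (r p - 1) % (s p : ℤ) := by
          rw [hadef]
          exact Int.toNat_of_nonneg (Int.emod_nonneg _ hsp.ne')
        have h8 : (s p : ℤ) ∣ (r p - 1) - (a p : ℤ) := by
          rw [h7]; exact Int.dvd_self_sub_emod
        have : ((n : ℤ) + 1) - r p = ((n : ℤ) - a p) - ((r p - 1) - (a p : ℤ)) := by ring
        rw [this]
        exact dvd_sub h6 h8
      have h9 := hper p (hprime p hp) ((n : ℤ) + 1) (r p) (by
        have : ((s p : ℕ) : ℤ) = (p : ℤ) ^ (D.factorization p + 1) := by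
          rw [hsdef]; push_cast; rfl
        rw [← this]; exact h5)
      have h10 := dvd_add h9 (hr p hp)
      have h11 : qv Q (n + 1) = ⌊Q.eval (((n : ℤ) + 1 : ℤ) : ℚ)⌋ := by
        unfold qv; push_cast; rfl
      rw [h11]
      have h12 : ⌊Q.eval (((n : ℤ) + 1 : ℤ) : ℚ)⌋ + β
          = (⌊Q.eval (((n : ℤ) + 1 : ℤ) : ℚ)⌋ - ⌊Q.eval ((r p : ℤ) : ℚ)⌋)
            + (⌊Q.eval ((r p : ℤ) : ℚ)⌋ + β) := by ring
      rw [h12]
      exact h10

end Pool.Agent.PnLG
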