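import Pool.Agent.PnLG.Defs

open Finset Filter Complex
open scoped ArithmeticFunction.Moebius ArithmeticFunction.vonMangoldt

namespace Pool.Agent.PnLG

open Pool.Agent.ANT
open Pool.Agent.PnPoly.NC (np)

/-- group the fractions `b/d` by reduced denominators -/
lemma gexp_group {d : ℕ} (hd : 0 < d) (F : ℝ → ℂ) :
    ∑ b ∈ range d, F ((b : ℝ) / d) =
      ∑ q ∈ d.divisors, ∑ a ∈ (range q).filter (fun a => Nat.Coprime a q), F ((a : ℝ) / q) := by
  rw [Finset.sum_sigma']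
  refine Finset.sum_bij' (fun b _ => (⟨d / Nat.gcd b d, b / Nat.gcd b d⟩ : (_ : ℕ) × ℕ))
    (fun x _ => x.2 * (d / x.1)) ?_ ?_ ?_ ?_ ?_
  · intro b hb
    rw [mem_range] at hb
    have hg : 0 < Nat.gcd b d := Nat.gcd_pos_of_pos_right b hd
    rw [mem_sigma, Nat.mem_divisors, mem_filter, mem_range]
    refine ⟨⟨Nat.div_dvd_of_dvd (Nat.gcd_dvd_right _ _), hd.ne'⟩,
      Nat.div_lt_div_of_lt_of_dvd (Nat.gcd_dvd_right _ _) hb, Nat.coprime_div_gcd_div_gcd hg⟩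
  · rintro ⟨q, a⟩ hx
    rw [mem_sigma, Nat.mem_divisors, mem_filter, mem_range] at hx
    obtain ⟨⟨hq, -⟩, ha, -⟩ := hx
    simp only at hq ha
    obtain ⟨e, rfl⟩ := hq
    have hq0 : 0 < q := Nat.pos_of_mul_pos_right hd
    have he0 : 0 < e := Nat.pos_of_mul_pos_left hd
    rw [mem_range]
    simp only
    rw [Nat.mul_div_cancel_left _ hq0]
    exact Nat.mul_lt_mul_of_pos_right ha he0
  · intro b hb
    simp only
    have hg : 0 < Nat.gcd b d := Nat.gcd_pos_of_pos_right b hd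
    rw [Nat.div_div_self (Nat.gcd_dvd_right _ _) hd.ne', Nat.div_mul_cancel (Nat.gcd_dvd_left _ _)]
  · rintro ⟨q, a⟩ hx
    rw [mem_sigma, Nat.mem_divisors, mem_filter, mem_range] at hx
    obtain ⟨⟨hq, -⟩, ha, hc⟩ := hx
    simp only at hq ha hc
    obtain ⟨e, rfl⟩ := hq
    have hq0 : 0 < q := Nat.pos_of_mul_pos_right hd
    have he0 : 0 < e := Nat.pos_of_mul_pos_left hd
    simp only
    rw [Nat.mul_div_cancel_left _ hq0]
    have h1 : Nat.gcd (a * e) (q * e) = e := by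
      rw [Nat.gcd_mul_right, hc, one_mul]
    rw [h1, Nat.mul_div_cancel _ he0, Nat.mul_div_cancel _ he0]
  · intro b hb
    simp only
    have hg : 0 < Nat.gcd b d := Nat.gcd_pos_of_pos_right b hd
    congr 1
    have h1 : ((b / Nat.gcd b d : ℕ) : ℝ) * (Nat.gcd b d : ℕ) = b := by
      rw [← Nat.cast_mul, Nat.div_mul_cancel (Nat.gcd_dvd_left _ _)]
    have h2 : ((d / Nat.gcd b d : ℕ) : ℝ) * (Nat.gcd b d : ℕ) = d := by
      rw [← Nat.cast_mul, Nat.div_mul_cancel (Nat.gcd_dvd_right _ _)]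
    have hg' : ((Nat.gcd b d : ℕ) : ℝ) ≠ 0 := by exact_mod_cast hg.ne'
    conv_lhs => rw [← h1, ← h2]
    rw [mul_div_mul_right _ _ hg']

lemma gexp_ee_one {θ : ℝ} (h : ee θ = 1) : ∃ k : ℤ, θ = k := by
  rw [ee, Complex.exp_eq_one_iff] at h
  obtain ⟨k, hk⟩ := h
  refine ⟨k, ?_⟩
  have h1 : (2 * Real.pi * (θ : ℂ)) * I = (2 * Real.pi * (k : ℂ)) * I := by
    push_cast at hk
    linear_combination hk
  have h2 := mul_right_cancel₀ I_ne_zero h1
  have h3 : (2 * Real.pi : ℂ) ≠ 0 := by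
    have := Real.pi_ne_zero
    simp [this]
  have h4 := mul_left_cancel₀ h3 h2
  exact_mod_cast h4

/-- orthogonality -/
lemma gexp_orth {d : ℕ} (hd : 0 < d) (m : ℤ) :
    ∑ b ∈ range d, ee ((m : ℝ) * ((b : ℝ) / d)) = if (d : ℤ) ∣ m then (d : ℂ) else 0 := by
  have hd' : (d : ℝ) ≠ 0 := by exact_mod_cast hd.ne'
  by_cases h : (d : ℤ) ∣ m
  · rw [if_pos h]
    obtain ⟨k, rfl⟩ := h
    have h1 : ∀ b ∈ range d, ee ((((d : ℤ) * k : ℤ) : ℝ) * ((b : ℝ) / d)) = 1 := by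
      intro b _
      have h2 : ((((d : ℤ) * k : ℤ) : ℝ) * ((b : ℝ) / d)) = ((k * b : ℤ) : ℝ) := by
        push_cast
        field_simp
      rw [h2, ee_int]
    rw [sum_congr rfl h1]
    simp
  · rw [if_neg h]
    set z : ℂ := ee ((m : ℝ) / d) with hz
    have h1 : ∀ b ∈ range d, ee ((m : ℝ) * ((b : ℝ) / d)) = z ^ b := by
      intro b _
      rw [hz, ← ee_nat_mul]
      congr 1
      ring
    rw [sum_congr rfl h1]
    have hz1 : z ≠ 1 := by
      intro h2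
      obtain ⟨k, hk⟩ := gexp_ee_one h2
      apply h
      rw [div_eq_iff hd'] at hk
      refine ⟨k, ?_⟩
      have h3 : (m : ℝ) = (((d : ℤ) * k : ℤ) : ℝ) := by
        rw [hk]; push_cast; ring
      exact_mod_cast h3
    have hzd : z ^ d = 1 := by
      rw [hz, ← ee_nat_mul, mul_div_cancel₀ _ hd', ee_int]
    rw [geom_sum_eq hz1, hzd, sub_self, zero_div]

lemma gexp_rs {d : ℕ} (hd : 0 < d) (m : ℤ) :
    ∑ q ∈ d.divisors, rs q m = if (d : ℤ) ∣ m then (d : ℂ) else 0 := by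
  rw [← gexp_orth hd, gexp_group hd (fun x => ee ((m : ℝ) * x))]
  rfl

/-- Ramanujan expansion of `g_D`. -/
theorem gD_expand (D m : ℕ) (hm : 0 < m) :
    ((gD D m : ℝ) : ℂ) = ∑ q ∈ Ioc 0 D, ((aD D q : ℝ) : ℂ) * rs q (m : ℤ) := by
  have h1 : ∀ q ∈ Ioc 0 D, ((aD D q : ℝ) : ℂ) * rs q (m : ℤ) =
      ∑ d ∈ Ioc 0 D, if q ∣ d then
        ((((μ d : ℤ) : ℝ) / d * Real.log ((D : ℝ) / d) : ℝ) : ℂ) * rs q (m : ℤ) else 0 := by
    intro q _
    rw [aD, Complex.ofReal_sum, sum_mul, sum_filter]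
  rw [sum_congr rfl h1, sum_comm, gD, Complex.ofReal_sum, sum_filter]
  refine sum_congr rfl (fun d hd => ?_)
  rw [mem_Ioc] at hd
  have h2 : ∑ q ∈ Ioc 0 D, (if q ∣ d then
        ((((μ d : ℤ) : ℝ) / d * Real.log ((D : ℝ) / d) : ℝ) : ℂ) * rs q (m : ℤ) else 0) =
      ∑ q ∈ d.divisors, ((((μ d : ℤ) : ℝ) / d * Real.log ((D : ℝ) / d) : ℝ) : ℂ) *
        rs q (m : ℤ) := by
    rw [← sum_filter]
    refine sum_congr ?_ (fun _ _ => rfl)
    ext q
    rw [mem_filter, mem_Ioc, Nat.mem_divisors]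
    constructor
    · rintro ⟨_, h⟩
      exact ⟨h, by omega⟩
    · rintro ⟨h, _⟩
      exact ⟨⟨Nat.pos_of_dvd_of_pos h hd.1, (Nat.le_of_dvd hd.1 h).trans hd.2⟩, h⟩
  rw [h2, ← mul_sum, gexp_rs hd.1]
  have hd0 : (d : ℂ) ≠ 0 := by
    have := hd.1.ne'
    exact_mod_cast this
  by_cases h : d ∣ m
  · rw [if_pos h, if_pos (by exact_mod_cast h)]
    push_cast
    field_simp
  · rw [if_neg h, if_neg (by
      intro h'
      exact h (by exact_mod_cast h')), mul_zero]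

theorem abs_aD_le (D q : ℕ) (hq : 1 ≤ q) (hD : 1 ≤ D) : |aD D q| ≤ (1 + Real.log D) ^ 2 / q := by
  have hq0 : (0 : ℝ) < q := by exact_mod_cast hq
  have hD1 : (1 : ℝ) ≤ D := by exact_mod_cast hD
  have hlog : 0 ≤ Real.log D := Real.log_nonneg hD1
  rw [aD]
  have h1 : |∑ d ∈ (Ioc 0 D).filter (fun d => q ∣ d), ((μ d : ℤ) : ℝ) / d *
      Real.log ((D : ℝ) / d)| ≤ ∑ d ∈ (Ioc 0 D).filter (fun d => q ∣ d), Real.log D * (1 / d) := by
    refine (abs_sum_le_sum_abs _ _).trans (sum_le_sum (fun d hd => ?_))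
    rw [mem_filter, mem_Ioc] at hd
    have hd0 : (0 : ℝ) < d := by exact_mod_cast hd.1.1
    have hd1 : (1 : ℝ) ≤ d := by exact_mod_cast hd.1.1
    have hdD : (d : ℝ) ≤ D := by exact_mod_cast hd.1.2
    rw [abs_mul, abs_div, Nat.abs_cast]
    have h2 : |((μ d : ℤ) : ℝ)| ≤ 1 := by
      rw [← Int.cast_abs]
      exact_mod_cast ArithmeticFunction.abs_moebius_le_one
    have h3 : 0 ≤ Real.log ((D : ℝ) / d) := Real.log_nonneg ((one_le_div hd0).mpr hdD)
    have h4 : Real.log ((D : ℝ) / d) ≤ Real.log D :=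
      Real.log_le_log (by positivity) (div_le_self (by linarith) hd1)
    rw [abs_of_nonneg h3, mul_comm (Real.log D)]
    refine mul_le_mul ?_ h4 h3 (by positivity)
    exact div_le_div_of_nonneg_right h2 hd0.le
  refine h1.trans ?_
  rw [← mul_sum]
  have h2 : ∑ d ∈ (Ioc 0 D).filter (fun d => q ∣ d), (1 / (d : ℝ)) =
      (1 / q) * ∑ k ∈ Icc 1 (D / q), (1 / (k : ℝ)) := by
    rw [mul_sum]
    symm
    refine Finset.sum_bij' (fun k _ => q * k) (fun d _ => d / q) ?_ ?_ ?_ ?_ ?_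
    · intro k hk
      rw [mem_Icc] at hk
      rw [mem_filter, mem_Ioc]
      refine ⟨⟨Nat.mul_pos hq hk.1, ?_⟩, dvd_mul_right _ _⟩
      have := Nat.mul_le_mul_left q hk.2
      exact this.trans (Nat.mul_div_le D q)
    · intro d hd
      rw [mem_filter, mem_Ioc] at hd
      rw [mem_Icc]
      exact ⟨Nat.div_pos (Nat.le_of_dvd hd.1.1 hd.2) hq, Nat.div_le_div_right hd.1.2⟩
    · intro k _
      exact Nat.mul_div_cancel_left k hq
    · intro d hd
      rw [mem_filter] at hd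
      exact Nat.mul_div_cancel' hd.2
    · intro k _
      push_cast
      rw [div_mul_div_comm, one_mul]
  rw [h2]
  have h3 : ∑ k ∈ Icc 1 (D / q), (1 / (k : ℝ)) ≤ 1 + Real.log D := by
    have h4 := harmonic_le_one_add_log (D / q)
    have h5 : ((harmonic (D / q) : ℚ) : ℝ) = ∑ k ∈ Icc 1 (D / q), (1 / (k : ℝ)) := by
      rw [harmonic_eq_sum_Icc]
      push_cast
      refine sum_congr rfl (fun k _ => ?_)
      rw [one_div]
    rw [← h5]
    refine h4.trans ?_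
    rcases Nat.eq_zero_or_pos (D / q) with h6 | h6
    · rw [h6, Nat.cast_zero, Real.log_zero]
      linarith
    · have h7 : ((D / q : ℕ) : ℝ) ≤ D := by exact_mod_cast Nat.div_le_self D q
      have h8 : (0 : ℝ) < ((D / q : ℕ) : ℝ) := by exact_mod_cast h6
      linarith [Real.log_le_log h8 h7]
  have h4 : 0 ≤ ∑ k ∈ Icc 1 (D / q), (1 / (k : ℝ)) := sum_nonneg (fun k _ => by positivity)
  calc Real.log D * (1 / q * ∑ k ∈ Icc 1 (D / q), (1 / (k : ℝ)))
      ≤ (1 + Real.log D) * (1 / q * (1 + Real.log D)) := by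
        apply mul_le_mul (by linarith) _ (by positivity) (by linarith)
        exact mul_le_mul_of_nonneg_left h3 (by positivity)
    _ = (1 + Real.log D) ^ 2 / q := by ring

end Pool.Agent.PnLG
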