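import Pool.Agent.PnLG.Defs

open Finset Filter Complex
open scoped ArithmeticFunction.Moebius ArithmeticFunction.vonMangoldt

namespace Pool.Agent.PnLG

open Pool.Agent.ANT
open Pool.Agent.PnPoly.NC (np)

namespace RsSumAux

/-- triangle inequality for the distance to the nearest integer -/
lemma nn_sub_le (a b : ℝ) : nn (a - b) ≤ nn a + nn b := by
  have h := nn_le_abs_sub_int (a - b) (round a - round b)
  refine h.trans ?_
  unfold nn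
  push_cast
  have e : a - b - ((round a : ℝ) - (round b : ℝ)) = (a - round a) - (b - round b) := by ring
  rw [e]
  exact abs_sub _ _

/-- geometric sum -/
noncomputable def G (X : ℕ) (θ : ℝ) : ℂ := ∑ m ∈ Ioc 0 X, ee (m * θ)

lemma norm_G_le (X : ℕ) (θ : ℝ) : ‖G X θ‖ ≤ X := by
  unfold G
  calc ‖∑ m ∈ Ioc 0 X, ee (m * θ)‖ ≤ ∑ m ∈ Ioc 0 X, (1 : ℝ) :=
        (norm_sum_le _ _).trans (Finset.sum_le_sum fun l _ => le_of_eq (norm_ee _))
    _ = X := by simp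

lemma norm_G_le_inv (X : ℕ) {θ s : ℝ} (hs : 0 < s) (h : 1 / s ≤ nn θ) : ‖G X θ‖ ≤ s := by
  have hY : (0 : ℝ) < (X : ℝ) + 1 := by positivity
  have h1 := norm_geom_le (Y := (X : ℝ) + 1) (θ := θ) hY (A := 0) (B := X) (by simp)
  refine h1.trans ?_
  unfold Fy
  have h2 : 1 / s ≤ max ((X : ℝ) + 1)⁻¹ (nn θ) := h.trans (le_max_right _ _)
  calc (max ((X : ℝ) + 1)⁻¹ (nn θ))⁻¹ ≤ (1 / s)⁻¹ := inv_anti₀ (by positivity) h2
    _ = s := by rw [one_div, inv_inv]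

/-- exchange of summations -/
lemma swap (D X : ℕ) (c : ℕ → ℂ) (t : ℝ) :
    ∑ m ∈ Ioc 0 X, (∑ q ∈ Ioc 0 D, c q * rs q (m : ℤ)) * ee (m * t) =
      ∑ x ∈ Farey D, c x.1 * G X ((x.2 : ℝ) / x.1 + t) := by
  rw [Farey, Finset.sum_sigma]
  have h1 : ∀ m ∈ Ioc 0 X, (∑ q ∈ Ioc 0 D, c q * rs q (m : ℤ)) * ee (m * t) =
      ∑ q ∈ Ioc 0 D, ∑ a ∈ (range q).filter (fun a => Nat.Coprime a q),
        c q * ee (m * ((a : ℝ) / q + t)) := by
    intro m _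
    rw [Finset.sum_mul]
    refine Finset.sum_congr rfl fun q _ => ?_
    unfold rs
    rw [Finset.mul_sum, Finset.sum_mul]
    refine Finset.sum_congr rfl fun a _ => ?_
    rw [mul_add, ee_add]
    push_cast
    ring
  rw [Finset.sum_congr rfl h1, Finset.sum_comm]
  refine Finset.sum_congr rfl fun q _ => ?_
  rw [Finset.sum_comm]
  refine Finset.sum_congr rfl fun a _ => ?_
  unfold G
  rw [Finset.mul_sum]

lemma card_farey (D : ℕ) : (((Farey D).card : ℕ) : ℝ) ≤ (D : ℝ) ^ 2 := by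
  have h : (Farey D).card ≤ D ^ 2 := by
    rw [Farey, Finset.card_sigma]
    calc ∑ q ∈ Ioc 0 D, ((range q).filter (fun a => Nat.Coprime a q)).card
        ≤ ∑ q ∈ Ioc 0 D, D := by
          refine Finset.sum_le_sum fun q hq => ?_
          refine (Finset.card_filter_le _ _).trans ?_
          rw [Finset.card_range]
          exact (Finset.mem_Ioc.mp hq).2
      _ = D ^ 2 := by simp [sq]
  exact_mod_cast h

lemma mem_farey_fst {D : ℕ} {x : Σ _ : ℕ, ℕ} (hx : x ∈ Farey D) : x.1 ∈ Ioc 0 D := by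
  rw [Farey, Finset.mem_sigma] at hx
  exact hx.1

lemma sum_G_le (D X : ℕ) (hD : 1 ≤ D) (t : ℝ) (F : Finset (Σ _ : ℕ, ℕ)) (hF : F ⊆ Farey D)
    (h : ∀ x ∈ F, 1 / (2 * (D : ℝ) ^ 2) ≤ nn ((x.2 : ℝ) / x.1 + t)) :
    ∑ x ∈ F, ‖G X ((x.2 : ℝ) / x.1 + t)‖ ≤ 2 * (D : ℝ) ^ 4 := by
  have hDR : (1 : ℝ) ≤ D := by exact_mod_cast hD
  have hs : (0 : ℝ) < 2 * (D : ℝ) ^ 2 := by positivity
  calc ∑ x ∈ F, ‖G X ((x.2 : ℝ) / x.1 + t)‖ ≤ ∑ x ∈ F, 2 * (D : ℝ) ^ 2 :=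
        Finset.sum_le_sum fun x hx => norm_G_le_inv X hs (h x hx)
    _ = (F.card : ℝ) * (2 * (D : ℝ) ^ 2) := by rw [Finset.sum_const, nsmul_eq_mul]
    _ ≤ (D : ℝ) ^ 2 * (2 * (D : ℝ) ^ 2) := by
        refine mul_le_mul_of_nonneg_right ?_ hs.le
        refine le_trans ?_ (card_farey D)
        exact_mod_cast Finset.card_le_card hF
    _ = 2 * (D : ℝ) ^ 4 := by ring

end RsSumAux

open RsSumAux

/-- An exponential polynomial supported on the Farey fractions of order `D` is bounded by the nearest fraction. -/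
theorem rs_sum_le (D X : ℕ) (hD : 1 ≤ D) (c : ℕ → ℂ) (κ : ℝ) (hc : ∀ q ∈ Ioc 0 D, ‖c q‖ ≤ κ) (t : ℝ) :
    ‖∑ m ∈ Ioc 0 X, (∑ q ∈ Ioc 0 D, c q * rs q (m : ℤ)) * ee (m * t)‖ ≤ κ * (X + 2 * (D : ℝ) ^ 4) := by
  classical
  have hκ : 0 ≤ κ := (norm_nonneg _).trans (hc 1 (Finset.mem_Ioc.mpr ⟨by norm_num, hD⟩))
  have hDR : (1 : ℝ) ≤ D := by exact_mod_cast hD
  rw [swap]
  have h1 : ‖∑ x ∈ Farey D, c x.1 * G X ((x.2 : ℝ) / x.1 + t)‖ ≤
      κ * ∑ x ∈ Farey D, ‖G X ((x.2 : ℝ) / x.1 + t)‖ := by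
    rw [Finset.mul_sum]
    refine (norm_sum_le _ _).trans (Finset.sum_le_sum fun x hx => ?_)
    rw [norm_mul]
    exact mul_le_mul_of_nonneg_right (hc _ (mem_farey_fst hx)) (norm_nonneg _)
  refine h1.trans (mul_le_mul_of_nonneg_left ?_ hκ)
  by_cases hall : ∀ x ∈ Farey D, 1 / (2 * (D : ℝ) ^ 2) ≤ nn ((x.2 : ℝ) / x.1 + t)
  · have h2 := sum_G_le D X hD t (Farey D) (Finset.Subset.refl _) hall
    have h3 : (0 : ℝ) ≤ X := Nat.cast_nonneg _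
    linarith
  · push Not at hall
    obtain ⟨x0, hx0, hlt⟩ := hall
    rw [← Finset.add_sum_erase _ _ hx0]
    refine add_le_add (norm_G_le X _) ?_
    refine sum_G_le D X hD t _ (Finset.erase_subset _ _) fun x hx => ?_
    rw [Finset.mem_erase] at hx
    have h4 := farey_spaced x x0 hx.2 hx0 hx.1
    have h5 : nn ((x.2 : ℝ) / x.1 - (x0.2 : ℝ) / x0.1) ≤
        nn ((x.2 : ℝ) / x.1 + t) + nn ((x0.2 : ℝ) / x0.1 + t) := by
      have h6 := nn_sub_le ((x.2 : ℝ) / x.1 + t) ((x0.2 : ℝ) / x0.1 + t)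
      have e : (x.2 : ℝ) / x.1 + t - ((x0.2 : ℝ) / x0.1 + t) = (x.2 : ℝ) / x.1 - (x0.2 : ℝ) / x0.1 := by
        ring
      rw [e] at h6
      exact h6
    push_cast at h4
    have h7 : 1 / (D : ℝ) ^ 2 = 2 * (1 / (2 * (D : ℝ) ^ 2)) := by
      field_simp
    rw [h7] at h4
    linarith

/-- value at a fraction with small denominator: only that fraction contributes -/
theorem rs_sum_at (D X q a : ℕ) (hq : q ∈ Ioc 0 D) (ha : Nat.Coprime a q) (c : ℕ → ℂ) (κ : ℝ)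
    (hc : ∀ q ∈ Ioc 0 D, ‖c q‖ ≤ κ) :
    ‖∑ m ∈ Ioc 0 X, (∑ r ∈ Ioc 0 D, c r * rs r (m : ℤ)) * ee (m * (-((a : ℝ) / q))) - c q * X‖ ≤
      κ * (2 * (D : ℝ) ^ 4) := by
  classical
  have hκ : 0 ≤ κ := (norm_nonneg _).trans (hc q hq)
  rw [Finset.mem_Ioc] at hq
  have hD : 1 ≤ D := by omega
  have hDR : (1 : ℝ) ≤ D := by exact_mod_cast hD
  have hqR : (0 : ℝ) < q := by exact_mod_cast hq.1
  rw [swap]
  set t : ℝ := -((a : ℝ) / q) with ht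
  set x0 : Σ _ : ℕ, ℕ := ⟨q, a % q⟩ with hx0def
  obtain ⟨k, hk⟩ : ∃ k : ℕ, k = a / q := ⟨_, rfl⟩
  have hdiv : (a : ℝ) = (q : ℝ) * (k : ℝ) + ((a % q : ℕ) : ℝ) := by
    rw [hk]
    exact_mod_cast (Nat.div_add_mod a q).symm
  have hx0 : x0 ∈ Farey D := by
    rw [Farey, Finset.mem_sigma, Finset.mem_filter, Finset.mem_range, Finset.mem_Ioc]
    refine ⟨⟨hq.1, hq.2⟩, Nat.mod_lt _ hq.1, ?_⟩
    have : Nat.gcd (a % q) q = 1 := by
      rw [← Nat.gcd_rec q a, Nat.gcd_comm]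
      exact ha
    exact this
  have hfrac : (x0.2 : ℝ) / x0.1 + t = ((-(k : ℤ) : ℤ) : ℝ) := by
    have : (x0.2 : ℝ) / x0.1 + t = ((a % q : ℕ) : ℝ) / q - (a : ℝ) / q := by
      rw [hx0def, ht]; ring
    rw [this, hdiv]
    push_cast
    field_simp
    ring
  have hG0 : G X ((x0.2 : ℝ) / x0.1 + t) = X := by
    unfold G
    have h1 : ∀ m ∈ Ioc 0 X, ee (m * ((x0.2 : ℝ) / x0.1 + t)) = 1 := by
      intro m _
      rw [hfrac]
      have : (m : ℝ) * ((-(k : ℤ) : ℤ) : ℝ) = (((m : ℤ) * (-(k : ℤ)) : ℤ) : ℝ) := by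
        push_cast; ring
      rw [this, ee_int]
    rw [Finset.sum_congr rfl h1]
    simp
  rw [← Finset.add_sum_erase _ _ hx0, hG0]
  have e1 : x0.1 = q := rfl
  rw [e1, add_sub_cancel_left]
  have h1 : ‖∑ x ∈ (Farey D).erase x0, c x.1 * G X ((x.2 : ℝ) / x.1 + t)‖ ≤
      κ * ∑ x ∈ (Farey D).erase x0, ‖G X ((x.2 : ℝ) / x.1 + t)‖ := by
    rw [Finset.mul_sum]
    refine (norm_sum_le _ _).trans (Finset.sum_le_sum fun x hx => ?_)
    rw [norm_mul]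
    exact mul_le_mul_of_nonneg_right (hc _ (mem_farey_fst (Finset.mem_of_mem_erase hx))) (norm_nonneg _)
  refine h1.trans (mul_le_mul_of_nonneg_left ?_ hκ)
  refine sum_G_le D X hD t _ (Finset.erase_subset _ _) fun x hx => ?_
  rw [Finset.mem_erase] at hx
  have h4 := farey_spaced x x0 hx.2 hx0 hx.1
  have h5 : nn ((x.2 : ℝ) / x.1 - (x0.2 : ℝ) / x0.1) ≤ nn ((x.2 : ℝ) / x.1 + t) := by
    have h6 := nn_sub_le ((x.2 : ℝ) / x.1 + t) ((x0.2 : ℝ) / x0.1 + t)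
    have e : (x.2 : ℝ) / x.1 + t - ((x0.2 : ℝ) / x0.1 + t) = (x.2 : ℝ) / x.1 - (x0.2 : ℝ) / x0.1 := by
      ring
    rw [e] at h6
    have h8 : nn ((x0.2 : ℝ) / x0.1 + t) = 0 := by
      rw [hfrac]
      unfold nn
      rw [round_intCast, sub_self, abs_zero]
    rw [h8, add_zero] at h6
    exact h6
  push_cast at h4
  have h7 : 1 / (D : ℝ) ^ 2 = 2 * (1 / (2 * (D : ℝ) ^ 2)) := by
    field_simp
  have h8 : 0 ≤ 1 / (2 * (D : ℝ) ^ 2) := by positivity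
  rw [h7] at h4
  linarith

end Pool.Agent.PnLG
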