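import Pool.Agent.PnLG.LamG
import Pool.Agent.PnLG.GExp
import Pool.Agent.PnLG.RsSum
import Pool.Agent.Lib.ANT.SW

open Finset Filter Complex
open scoped ArithmeticFunction.Moebius ArithmeticFunction.vonMangoldt

namespace Pool.Agent.PnLG

open Pool.Agent.ANT
open Pool.Agent.PnPoly.NC (np)

/-- Ramanujan sum at `-1` -/
noncomputable def AApprox_cc (q : ℕ) : ℂ :=
  ∑ b ∈ (range q).filter (fun b => Nat.Coprime b q), ee (-((b : ℝ) / q))

lemma AApprox_ee_pow (n b : ℕ) : ee (-((b : ℝ) / n)) = (Complex.exp (2 * Real.pi * I / n))⁻¹ ^ b := by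
  rw [← Complex.exp_neg, ← Complex.exp_nat_mul]
  unfold ee
  congr 1
  push_cast
  ring

lemma AApprox_full (n : ℕ) (hn : 0 < n) :
    ∑ b ∈ range n, ee (-((b : ℝ) / n)) = if n = 1 then 1 else 0 := by
  split_ifs with h
  · subst h
    simp [ee_zero]
  · have h1 : 1 < n := by omega
    simp_rw [AApprox_ee_pow]
    exact ((Complex.isPrimitiveRoot_exp n hn.ne').inv).geom_sum_eq_zero h1

lemma AApprox_split {M : Type*} [AddCommMonoid M] (n : ℕ) (hn : 0 < n) (f : ℕ → M) :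
    ∑ b ∈ range n, f b =
      ∑ d ∈ n.divisors, ∑ b ∈ (range d).filter (fun b => Nat.Coprime b d), f (b * (n / d)) := by
  have hmaps : ∀ b ∈ range n, n / Nat.gcd b n ∈ n.divisors := by
    intro b _
    rw [Nat.mem_divisors]
    exact ⟨Nat.div_dvd_of_dvd (Nat.gcd_dvd_right b n), hn.ne'⟩
  rw [← Finset.sum_fiberwise_of_maps_to hmaps]
  refine Finset.sum_congr rfl fun d hd => ?_
  have hdn : d ∣ n := Nat.dvd_of_mem_divisors hd
  have hd0 : 0 < d := Nat.pos_of_dvd_of_pos hdn hn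
  obtain ⟨k, hk⟩ := hdn
  have hk0 : 0 < k := by
    rcases Nat.eq_zero_or_pos k with h | h
    · subst h; simp at hk; omega
    · exact h
  have hnd : n / d = k := by rw [hk]; exact Nat.mul_div_cancel_left k hd0
  symm
  refine Finset.sum_bij (fun b _ => b * (n / d)) ?_ ?_ ?_ ?_
  · intro b hb
    rw [mem_filter, mem_range] at hb
    rw [mem_filter, mem_range, hnd]
    refine ⟨?_, ?_⟩
    · rw [hk]; exact Nat.mul_lt_mul_of_pos_right hb.1 hk0
    · have : Nat.gcd (b * k) n = k := by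
        rw [hk, Nat.gcd_mul_right, hb.2, one_mul]
      rw [this, hk]
      exact Nat.mul_div_cancel _ hk0
  · intro a _ b _ h
    rw [hnd] at h
    exact Nat.eq_of_mul_eq_mul_right hk0 h
  · intro b hb
    rw [mem_filter, mem_range] at hb
    obtain ⟨hb1, hb2⟩ := hb
    have hg : Nat.gcd b n ∣ n := Nat.gcd_dvd_right b n
    have hg0 : 0 < Nat.gcd b n := Nat.gcd_pos_of_pos_right b hn
    have hgk : Nat.gcd b n = k := by
      have h1 : n = d * Nat.gcd b n := by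
        rw [← hb2]; exact (Nat.div_mul_cancel hg).symm
      have h2 : d * k = d * Nat.gcd b n := by rw [← h1]; exact hk.symm
      exact (Nat.eq_of_mul_eq_mul_left hd0 h2).symm
    obtain ⟨c, hc⟩ : k ∣ b := hgk ▸ Nat.gcd_dvd_left b n
    refine ⟨c, ?_, ?_⟩
    · rw [mem_filter, mem_range]
      refine ⟨?_, ?_⟩
      · have : k * c < k * d := by rw [← hc, mul_comm k d, ← hk]; exact hb1
        exact Nat.lt_of_mul_lt_mul_left this
      · have h3 : Nat.gcd b n = k * Nat.gcd c d := by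
          rw [hc, hk, mul_comm d k, Nat.gcd_mul_left]
        rw [hgk] at h3
        have : k * Nat.gcd c d = k * 1 := by rw [← h3, mul_one]
        exact Nat.eq_of_mul_eq_mul_left hk0 this
    · rw [hnd, hc, mul_comm]
  · intro b _
    rfl

lemma AApprox_cc_sum (n : ℕ) (hn : 0 < n) :
    ∑ d ∈ n.divisors, AApprox_cc d = if n = 1 then 1 else 0 := by
  rw [← AApprox_full n hn, AApprox_split n hn]
  refine Finset.sum_congr rfl fun d hd => ?_
  have hdn : d ∣ n := Nat.dvd_of_mem_divisors hd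
  have hd0 : 0 < d := Nat.pos_of_dvd_of_pos hdn hn
  unfold AApprox_cc
  refine Finset.sum_congr rfl fun b _ => ?_
  congr 1
  obtain ⟨k, hk⟩ := hdn
  have hnd : n / d = k := by rw [hk]; exact Nat.mul_div_cancel_left k hd0
  have hk0 : 0 < k := by
    rcases Nat.eq_zero_or_pos k with h | h
    · subst h; simp at hk; omega
    · exact h
  rw [hnd, hk]
  have h1 : (d:ℝ) ≠ 0 := by positivity
  have h2 : (k:ℝ) ≠ 0 := by positivity
  push_cast
  field_simp

lemma AApprox_cc_eq (n : ℕ) (hn : 0 < n) : AApprox_cc n = ((μ n : ℤ) : ℂ) := by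
  have h := (ArithmeticFunction.sum_eq_iff_sum_mul_moebius_eq (R := ℂ) (f := AApprox_cc)
    (g := fun n => if n = 1 then 1 else 0)).mp (fun n hn => AApprox_cc_sum n hn) n hn
  rw [← h]
  rw [Finset.sum_eq_single (n, 1)]
  · simp
  · rintro ⟨a, b⟩ hab hne
    have hab' := (Nat.mem_divisorsAntidiagonal.mp hab).1
    simp only at hab'
    have : b ≠ 1 := by
      rintro rfl
      apply hne
      rw [mul_one] at hab'
      rw [hab']
    simp [this]
  · intro h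
    exfalso
    apply h
    rw [Nat.mem_divisorsAntidiagonal]
    exact ⟨by simp, hn.ne'⟩


lemma AApprox_ee_norm (x : ℝ) : ‖ee x‖ = 1 := by
  unfold ee
  rw [mul_comm]
  exact Complex.norm_exp_ofReal_mul_I _

lemma AApprox_ee_mod (m q : ℕ) (hq : 0 < q) :
    ee (m * (-(((1:ℕ) : ℝ) / q))) = ee (-(((m % q : ℕ) : ℝ) / q)) := by
  have h : (m : ℝ) * (-(((1:ℕ) : ℝ) / q)) = -(((m % q : ℕ) : ℝ) / q) - ((m / q : ℕ) : ℤ) := by
    have h1 : (m : ℝ) = (q : ℝ) * ((m / q : ℕ) : ℝ) + ((m % q : ℕ) : ℝ) := by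
      exact_mod_cast (Nat.div_add_mod m q).symm
    have hq' : (q : ℝ) ≠ 0 := by positivity
    rw [Int.cast_natCast, h1]
    field_simp
    push_cast
    ring
  rw [h, ee_sub_int]

lemma AApprox_q_le {B X q : ℕ} (hq : q ∈ Ioc 0 (RX B X)) : (q : ℝ) ≤ Real.log X ^ B := by
  rw [mem_Ioc] at hq
  refine le_trans (by exact_mod_cast hq.2) (Nat.floor_le ?_)
  exact pow_nonneg (Real.log_natCast_nonneg _) _

lemma AApprox_lam (A B : ℕ) : ∃ C : ℝ, 0 < C ∧ ∀ X : ℕ, 3 ≤ X → ∀ q ∈ Ioc 0 (RX B X),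
    ‖∑ m ∈ Ioc 0 X, (((Λ m : ℝ) : ℂ)) * ee (m * (-(((1:ℕ) : ℝ) / q))) -
      (X : ℂ) * (((μ q : ℤ) : ℂ) / (q.totient : ℂ))‖ ≤ C * X / Real.log X ^ A := by
  obtain ⟨C1, hC1, h1⟩ := psi_ap (A + 2 * B) (show (0:ℝ) < 1 by norm_num)
  obtain ⟨L, hL, hlog⟩ := log_pow_le_rpow (A + B + 1) (show (0:ℝ) < 1 by norm_num)
  refine ⟨C1 + 2 * L, by positivity, fun X hX q hq => ?_⟩
  have hqb := AApprox_q_le hq
  have hq0 : 0 < q := (mem_Ioc.mp hq).1
  have : NeZero q := ⟨hq0.ne'⟩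
  have hX3 : (3:ℝ) ≤ X := by exact_mod_cast hX
  have hX0 : (0:ℝ) < X := by linarith
  have hl1 : 1 ≤ Real.log X := one_le_log hX3
  have hl0 : 0 < Real.log X := by linarith
  have hq1 : (1:ℝ) ≤ q := by exact_mod_cast hq0
  -- splitting
  set F : ℕ → ℂ := fun m => (((Λ m : ℝ) : ℂ)) * ee (m * (-(((1:ℕ) : ℝ) / q))) with hF
  have hsplit : ∑ m ∈ Ioc 0 X, F m = ∑ m ∈ (Ioc 0 X).filter (fun m => m.Coprime q), F m +
      ∑ m ∈ (Ioc 0 X).filter (fun m => ¬ m.Coprime q), F m :=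
    (Finset.sum_filter_add_sum_filter_not _ _ _).symm
  have hnc : ‖∑ m ∈ (Ioc 0 X).filter (fun m => ¬ m.Coprime q), F m‖ ≤
      2 * L * X / Real.log X ^ A := by
    refine (norm_sum_le _ _).trans ?_
    have h2 : ∑ m ∈ (Ioc 0 X).filter (fun m => ¬ m.Coprime q), ‖F m‖ =
        ∑ m ∈ (Ioc 0 X).filter (fun m => ¬ m.Coprime q), Λ m := by
      refine Finset.sum_congr rfl fun m _ => ?_
      rw [hF]
      simp only
      rw [norm_mul, AApprox_ee_norm, mul_one, Complex.norm_real,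
        Real.norm_of_nonneg ArithmeticFunction.vonMangoldt_nonneg]
    rw [h2]
    refine (sum_vonMangoldt_not_coprime_le hq0.ne' (by omega : X ≠ 0)).trans ?_
    have h3 := card_primeFactors_le_log hq0.ne'
    have h4 : Real.log q ≤ q := (Real.log_le_sub_one_of_pos (by linarith)).trans (by linarith)
    have h5 := hlog X (by linarith)
    rw [Real.rpow_one] at h5
    rw [le_div_iff₀ (by positivity)]
    calc (q.primeFactors.card : ℝ) * Real.log X * Real.log X ^ A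
        ≤ (2 * Real.log X ^ B) * Real.log X * Real.log X ^ A := by
          gcongr
          linarith
      _ = 2 * Real.log X ^ (A + B + 1) := by ring
      _ ≤ 2 * (L * X) := by gcongr
      _ = 2 * L * X := by ring
  have hcop : ∑ m ∈ (Ioc 0 X).filter (fun m => m.Coprime q), F m =
      ∑ b ∈ (range q).filter (fun b => Nat.Coprime b q), ee (-((b : ℝ) / q)) *
        ((∑ n ∈ (Finset.Icc 1 ⌊(X:ℝ)⌋₊).filter (fun n : ℕ => (n : ZMod q) = ((b : ℕ) : ZMod q)), Λ n : ℝ) : ℂ) := by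
    have hmaps : ∀ m ∈ (Ioc 0 X).filter (fun m => m.Coprime q),
        m % q ∈ (range q).filter (fun b => Nat.Coprime b q) := by
      intro m hm
      rw [mem_filter] at hm
      rw [mem_filter, mem_range]
      refine ⟨Nat.mod_lt _ hq0, ?_⟩
      rw [Nat.Coprime, ← Nat.gcd_rec, Nat.gcd_comm]
      exact hm.2
    rw [← Finset.sum_fiberwise_of_maps_to hmaps]
    refine Finset.sum_congr rfl fun b hb => ?_
    rw [mem_filter, mem_range] at hb
    rw [Complex.ofReal_sum, Finset.mul_sum, Nat.floor_natCast]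
    have hset : ((Ioc 0 X).filter (fun m => m.Coprime q)).filter (fun m => m % q = b) =
        (Finset.Icc 1 X).filter (fun n : ℕ => (n : ZMod q) = ((b : ℕ) : ZMod q)) := by
      ext m
      simp only [mem_filter, mem_Ioc, mem_Icc]
      rw [ZMod.natCast_eq_natCast_iff', Nat.mod_eq_of_lt hb.1]
      constructor
      · rintro ⟨⟨h1, _⟩, h3⟩
        exact ⟨⟨by omega, h1.2⟩, h3⟩
      · rintro ⟨h1, h3⟩
        refine ⟨⟨⟨by omega, h1.2⟩, ?_⟩, h3⟩
        have h5 : Nat.gcd (m % q) q = 1 := by rw [h3]; exact hb.2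
        rwa [← Nat.gcd_rec, Nat.gcd_comm] at h5
    rw [hset]
    refine Finset.sum_congr rfl fun m hm => ?_
    rw [mem_filter] at hm
    have h6 : m % q = b := by
      have := hm.2
      rwa [ZMod.natCast_eq_natCast_iff', Nat.mod_eq_of_lt hb.1] at this
    rw [hF]
    simp only
    rw [AApprox_ee_mod m q hq0, h6, mul_comm]
  have hmain : ‖∑ m ∈ (Ioc 0 X).filter (fun m => m.Coprime q), F m -
      (X : ℂ) * (((μ q : ℤ) : ℂ) / (q.totient : ℂ))‖ ≤ C1 * X / Real.log X ^ A := by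
    have h7 : (X : ℂ) * (((μ q : ℤ) : ℂ) / (q.totient : ℂ)) =
        ∑ b ∈ (range q).filter (fun b => Nat.Coprime b q), ee (-((b : ℝ) / q)) *
          (((X : ℝ) / (q.totient : ℝ) : ℝ) : ℂ) := by
      rw [← Finset.sum_mul]
      have : ∑ b ∈ (range q).filter (fun b => Nat.Coprime b q), ee (-((b : ℝ) / q)) =
        ((μ q : ℤ) : ℂ) := AApprox_cc_eq q hq0
      rw [this]
      push_cast
      ring
    rw [hcop, h7, ← Finset.sum_sub_distrib]
    refine (norm_sum_le _ _).trans ?_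
    have h8 : ∀ b ∈ (range q).filter (fun b => Nat.Coprime b q),
        ‖ee (-((b : ℝ) / q)) *
        ((∑ n ∈ (Finset.Icc 1 ⌊(X:ℝ)⌋₊).filter (fun n : ℕ => (n : ZMod q) = ((b : ℕ) : ZMod q)), Λ n : ℝ) : ℂ) -
          ee (-((b : ℝ) / q)) * (((X : ℝ) / (q.totient : ℝ) : ℝ) : ℂ)‖ ≤
        C1 * (q:ℝ) * X / Real.log X ^ (A + 2 * B) := by
      intro b hb
      rw [mem_filter, mem_range] at hb
      rw [← mul_sub, norm_mul, AApprox_ee_norm, one_mul, ← Complex.ofReal_sub, Complex.norm_real,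
        Real.norm_eq_abs]
      have h9 := h1 q (b : ZMod q) ((ZMod.isUnit_iff_coprime b q).mpr hb.2) X hX3
      rwa [Real.rpow_one] at h9
    refine (Finset.sum_le_sum h8).trans ?_
    rw [Finset.sum_const, nsmul_eq_mul]
    have h10 : (((range q).filter (fun b => Nat.Coprime b q)).card : ℝ) ≤ q := by
      have := Finset.card_filter_le (range q) (fun b => Nat.Coprime b q)
      rw [card_range] at this
      exact_mod_cast this
    have hlA : 0 < Real.log X ^ A := by positivity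
    have hlB : 0 < Real.log X ^ (A + 2 * B) := by positivity
    calc (((range q).filter (fun b => Nat.Coprime b q)).card : ℝ) *
        (C1 * (q:ℝ) * X / Real.log X ^ (A + 2 * B))
        ≤ (Real.log X ^ B) * (C1 * (Real.log X ^ B) * X / Real.log X ^ (A + 2 * B)) := by
          gcongr
          exact h10.trans hqb
      _ = C1 * X / Real.log X ^ A := by
          rw [pow_add, pow_mul']
          field_simp
  have hsum : ∑ m ∈ Ioc 0 X, F m - (X : ℂ) * (((μ q : ℤ) : ℂ) / (q.totient : ℂ)) =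
      (∑ m ∈ (Ioc 0 X).filter (fun m => m.Coprime q), F m -
      (X : ℂ) * (((μ q : ℤ) : ℂ) / (q.totient : ℂ))) +
      ∑ m ∈ (Ioc 0 X).filter (fun m => ¬ m.Coprime q), F m := by
    rw [hsplit]; ring
  rw [hsum]
  refine (norm_add_le _ _).trans ((add_le_add hmain hnc).trans ?_)
  rw [← add_div]
  gcongr
  linarith

lemma AApprox_log_DX {X : ℕ} (hX : 3 ≤ X) : 1 ≤ DX X ∧ (DX X : ℝ) ≤ (X : ℝ) ^ (1 / 10 : ℝ) ∧
    0 ≤ Real.log (DX X) ∧ Real.log (DX X) ≤ Real.log X := by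
  have hX1 : (1:ℝ) ≤ X := by exact_mod_cast (by omega : 1 ≤ X)
  have h1 : 1 ≤ DX X := by
    unfold DX
    refine Nat.le_floor ?_
    rw [Nat.cast_one]
    exact Real.one_le_rpow hX1 (by norm_num)
  have h2 : (DX X : ℝ) ≤ (X : ℝ) ^ (1 / 10 : ℝ) := Nat.floor_le (by positivity)
  refine ⟨h1, h2, Real.log_natCast_nonneg _, ?_⟩
  refine Real.log_le_log (by exact_mod_cast h1) (h2.trans ?_)
  calc (X : ℝ) ^ (1 / 10 : ℝ) ≤ (X : ℝ) ^ (1 : ℝ) :=
        Real.rpow_le_rpow_of_exponent_le hX1 (by norm_num)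
    _ = X := Real.rpow_one _

lemma AApprox_mu_phi (q : ℕ) (hq : 0 < q) : |((μ q : ℤ) : ℝ) / (q.totient : ℝ)| ≤ 1 := by
  have h1 : |((μ q : ℤ) : ℝ)| ≤ 1 := by
    exact_mod_cast (ArithmeticFunction.abs_moebius_le_one (n := q))
  have h2 : (1:ℝ) ≤ q.totient := by exact_mod_cast Nat.totient_pos.mpr hq
  rw [abs_div, abs_of_nonneg (by linarith : (0:ℝ) ≤ q.totient)]
  rw [div_le_one (by linarith)]
  linarith

theorem aD_approx (A B : ℕ) : ∃ C : ℝ, 0 < C ∧ ∀ X : ℕ, 3 ≤ X → ∀ q ∈ Ioc 0 (RX B X),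
    |aD (DX X) q - ((μ q : ℤ) : ℝ) / (q.totient : ℝ)| ≤ C / Real.log X ^ A := by
  obtain ⟨C1, hC1, h1⟩ := AApprox_lam A B
  obtain ⟨C2, hC2, h2⟩ := lambda_sub_gD A
  obtain ⟨L3, hL3, h3⟩ := log_pow_le_rpow (A + 2) (show (0:ℝ) < 1/2 by norm_num)
  obtain ⟨L4, hL4, h4⟩ := log_pow_le_rpow B (show (0:ℝ) < 1/20 by norm_num)
  refine ⟨8 * L3 + C1 + C2 + 5 * L3 * L4 ^ 10, by positivity, fun X hX q hq => ?_⟩
  have hqb := AApprox_q_le hq
  have hq0 : 0 < q := (mem_Ioc.mp hq).1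
  have hX3 : (3:ℝ) ≤ X := by exact_mod_cast hX
  have hX0 : (0:ℝ) < X := by linarith
  have hX1 : (1:ℝ) ≤ X := by linarith
  have hl1 : 1 ≤ Real.log X := one_le_log hX3
  have hl0 : 0 < Real.log X := by linarith
  have hlA : 0 < Real.log X ^ A := by positivity
  have hq1 : (1:ℝ) ≤ q := by exact_mod_cast hq0
  obtain ⟨hD1, hD2, hD3, hD4⟩ := AApprox_log_DX hX
  have hkap : (1 + Real.log (DX X)) ^ 2 ≤ 4 * Real.log X ^ 2 := by
    have : (1 + Real.log (DX X)) ≤ 2 * Real.log X := by linarith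
    calc (1 + Real.log (DX X)) ^ 2 ≤ (2 * Real.log X) ^ 2 := by gcongr
      _ = 4 * Real.log X ^ 2 := by ring
  have h3X := h3 X hX1
  have h4X := h4 X hX1
  have haD : ∀ r ∈ Ioc 0 (DX X), ‖((aD (DX X) r : ℝ) : ℂ)‖ ≤ (1 + Real.log (DX X)) ^ 2 := by
    intro r hr
    have hr1 : 1 ≤ r := (mem_Ioc.mp hr).1
    rw [Complex.norm_real, Real.norm_eq_abs]
    refine (abs_aD_le (DX X) r hr1 hD1).trans ?_
    refine div_le_self (by positivity) (by exact_mod_cast hr1)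
  rcases le_or_gt L4 ((X:ℝ) ^ (1/20 : ℝ)) with hbig | hsmall
  · -- large X
    have hqD : q ∈ Ioc 0 (DX X) := by
      rw [mem_Ioc]
      refine ⟨hq0, (mem_Ioc.mp hq).2.trans ?_⟩
      unfold RX DX
      refine Nat.floor_mono (h4X.trans ?_)
      calc L4 * (X:ℝ) ^ (1/20 : ℝ) ≤ (X:ℝ) ^ (1/20 : ℝ) * (X:ℝ) ^ (1/20 : ℝ) := by gcongr
        _ = (X:ℝ) ^ (1/10 : ℝ) := by rw [← Real.rpow_add hX0]; norm_num
    have h5 := rs_sum_at (DX X) X q 1 hqD (Nat.coprime_one_left q)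
      (fun r => ((aD (DX X) r : ℝ) : ℂ)) ((1 + Real.log (DX X)) ^ 2) haD
    have h6 : ∑ m ∈ Ioc 0 X, (∑ r ∈ Ioc 0 (DX X), ((aD (DX X) r : ℝ) : ℂ) * rs r (m : ℤ)) *
        ee (m * (-(((1:ℕ) : ℝ) / q))) =
        ∑ m ∈ Ioc 0 X, ((gD (DX X) m : ℝ) : ℂ) * ee (m * (-(((1:ℕ) : ℝ) / q))) := by
      refine Finset.sum_congr rfl fun m hm => ?_
      rw [gD_expand (DX X) m (mem_Ioc.mp hm).1]
    rw [h6] at h5
    have h7 := h2 X hX (-(((1:ℕ) : ℝ) / q))
    have h8 := h1 X hX q hq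
    set G : ℂ := ∑ m ∈ Ioc 0 X, ((gD (DX X) m : ℝ) : ℂ) * ee (m * (-(((1:ℕ) : ℝ) / q))) with hG
    set Lm : ℂ := ∑ m ∈ Ioc 0 X, (((Λ m : ℝ) : ℂ)) * ee (m * (-(((1:ℕ) : ℝ) / q))) with hLm
    have h9 : ∑ m ∈ Ioc 0 X, (((Λ m - gD (DX X) m : ℝ) : ℂ)) * ee (m * (-(((1:ℕ) : ℝ) / q))) =
        Lm - G := by
      rw [hG, hLm, ← Finset.sum_sub_distrib]
      refine Finset.sum_congr rfl fun m _ => ?_
      push_cast
      ring
    rw [h9] at h7
    have h10 : (1 + Real.log (DX X)) ^ 2 * (2 * (DX X : ℝ) ^ 4) ≤ 8 * L3 * X / Real.log X ^ A := by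
      rw [le_div_iff₀ hlA]
      have hD5 : (DX X : ℝ) ^ 4 ≤ (X:ℝ) ^ (1/2 : ℝ) := by
        calc (DX X : ℝ) ^ 4 ≤ ((X : ℝ) ^ (1 / 10 : ℝ)) ^ 4 := by gcongr
          _ = (X:ℝ) ^ (4/10 : ℝ) := by
              rw [← Real.rpow_natCast, ← Real.rpow_mul hX0.le]; norm_num
          _ ≤ (X:ℝ) ^ (1/2 : ℝ) := Real.rpow_le_rpow_of_exponent_le hX1 (by norm_num)
      calc (1 + Real.log (DX X)) ^ 2 * (2 * (DX X : ℝ) ^ 4) * Real.log X ^ A
          ≤ (4 * Real.log X ^ 2) * (2 * (X:ℝ) ^ (1/2 : ℝ)) * Real.log X ^ A := by gcongr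
        _ = 8 * (Real.log X ^ (A + 2)) * (X:ℝ) ^ (1/2 : ℝ) := by ring
        _ ≤ 8 * (L3 * (X:ℝ) ^ (1/2 : ℝ)) * (X:ℝ) ^ (1/2 : ℝ) := by gcongr
        _ = 8 * L3 * ((X:ℝ) ^ (1/2 : ℝ) * (X:ℝ) ^ (1/2 : ℝ)) := by ring
        _ = 8 * L3 * X := by
            rw [← Real.rpow_add hX0]; norm_num
    have h11 : (((aD (DX X) q - ((μ q : ℤ) : ℝ) / (q.totient : ℝ) : ℝ) : ℂ)) * (X : ℂ) =
        -(G - ((aD (DX X) q : ℝ) : ℂ) * X) - (Lm - G) +
        (Lm - (X : ℂ) * (((μ q : ℤ) : ℂ) / (q.totient : ℂ))) := by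
      push_cast
      ring
    have h12 : |aD (DX X) q - ((μ q : ℤ) : ℝ) / (q.totient : ℝ)| * X ≤
        8 * L3 * X / Real.log X ^ A + C2 * X / Real.log X ^ A + C1 * X / Real.log X ^ A := by
      have h13 : |aD (DX X) q - ((μ q : ℤ) : ℝ) / (q.totient : ℝ)| * X =
          ‖(((aD (DX X) q - ((μ q : ℤ) : ℝ) / (q.totient : ℝ) : ℝ) : ℂ)) * (X : ℂ)‖ := by
        rw [norm_mul, Complex.norm_real, Complex.norm_natCast, Real.norm_eq_abs]
      rw [h13, h11]
      refine (norm_add_le _ _).trans (add_le_add ((norm_sub_le _ _).trans (add_le_add ?_ h7)) h8)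
      rw [norm_neg]
      exact h5.trans h10
    have h14 : |aD (DX X) q - ((μ q : ℤ) : ℝ) / (q.totient : ℝ)| ≤
        (8 * L3 + C1 + C2) / Real.log X ^ A := by
      have : |aD (DX X) q - ((μ q : ℤ) : ℝ) / (q.totient : ℝ)| * X ≤
          (8 * L3 + C1 + C2) / Real.log X ^ A * X := by
        refine h12.trans (le_of_eq ?_)
        field_simp
        ring
      exact le_of_mul_le_mul_right this hX0
    refine h14.trans (div_le_div_of_nonneg_right ?_ hlA.le)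
    have : 0 ≤ 5 * L3 * L4 ^ 10 := by positivity
    linarith
  · -- bounded X
    have h5 : |aD (DX X) q| ≤ 4 * Real.log X ^ 2 := by
      refine (abs_aD_le (DX X) q hq0 hD1).trans ((div_le_self (by positivity) hq1).trans hkap)
    have h6 := AApprox_mu_phi q hq0
    have h7 : (1:ℝ) ≤ Real.log X ^ 2 := one_le_pow₀ hl1
    have h8 : |aD (DX X) q - ((μ q : ℤ) : ℝ) / (q.totient : ℝ)| ≤ 5 * Real.log X ^ 2 := by
      refine (abs_sub _ _).trans ?_
      linarith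
    refine h8.trans ?_
    rw [le_div_iff₀ hlA]
    have h9 : (X:ℝ) ^ (1/2 : ℝ) ≤ L4 ^ 10 := by
      calc (X:ℝ) ^ (1/2 : ℝ) = ((X:ℝ) ^ (1/20 : ℝ)) ^ 10 := by
            rw [← Real.rpow_natCast, ← Real.rpow_mul hX0.le]; norm_num
        _ ≤ L4 ^ 10 := by gcongr
    calc 5 * Real.log X ^ 2 * Real.log X ^ A = 5 * Real.log X ^ (A + 2) := by ring
      _ ≤ 5 * (L3 * (X:ℝ) ^ (1/2 : ℝ)) := by gcongr
      _ ≤ 5 * (L3 * L4 ^ 10) := by gcongr
      _ ≤ 8 * L3 + C1 + C2 + 5 * L3 * L4 ^ 10 := by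
          have : 0 ≤ 8 * L3 + C1 + C2 := by positivity
          linarith

end Pool.Agent.PnLG
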