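import Pool.Agent.PnLG.Defs

open Finset Filter Complex
open scoped ArithmeticFunction.Moebius ArithmeticFunction.vonMangoldt

namespace Pool.Agent.PnLG

open Pool.Agent.ANT
open Pool.Agent.PnPoly.NC (np)

lemma LyExp_coprime_mod (x n : ℕ) : Nat.Coprime (x % n) n ↔ Nat.Coprime x n := by
  unfold Nat.Coprime
  rw [← Nat.gcd_rec n x, Nat.gcd_comm]

lemma LyExp_rs_mul (q r : ℕ) (hq : q ≠ 0) (hr : r ≠ 0) (hqr : Nat.Coprime q r) (m : ℤ) :
    rs (q * r) m = rs q m * rs r m := by
  classical
  unfold rs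
  rw [Finset.sum_mul_sum, ← Finset.sum_product']
  set T := ((range q).filter (fun a => Nat.Coprime a q)) ×ˢ
    ((range r).filter (fun a => Nat.Coprime a r)) with hT
  set g : ℕ × ℕ → ℕ := fun x => (x.1 * r + x.2 * q) % (q * r) with hg
  have hpos : 0 < q * r := Nat.mul_pos (Nat.pos_of_ne_zero hq) (Nat.pos_of_ne_zero hr)
  have hinj : Set.InjOn g (T : Set (ℕ × ℕ)) := by
    rintro ⟨a, b⟩ hx ⟨a', b'⟩ hy hxy
    simp only [hT, Finset.coe_product, Set.mem_prod, Finset.mem_coe, Finset.mem_filter,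
      Finset.mem_range] at hx hy
    obtain ⟨⟨ha, -⟩, hb, -⟩ := hx
    obtain ⟨⟨ha', -⟩, hb', -⟩ := hy
    have h1 : (a * r + b * q) ≡ (a' * r + b' * q) [MOD (q * r)] := hxy
    have h2 : a * r ≡ a' * r [MOD q] := by
      have := h1.of_mul_right r
      have e1 : a * r + b * q ≡ a * r [MOD q] := by
        simp [Nat.ModEq]
      have e2 : a' * r + b' * q ≡ a' * r [MOD q] := by
        simp [Nat.ModEq]
      exact e1.symm.trans (this.trans e2)
    have h3 : b * q ≡ b' * q [MOD r] := by
      have := h1.of_mul_left q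
      have e1 : a * r + b * q ≡ b * q [MOD r] := by
        simp [Nat.ModEq, Nat.add_mod]
      have e2 : a' * r + b' * q ≡ b' * q [MOD r] := by
        simp [Nat.ModEq, Nat.add_mod]
      exact e1.symm.trans (this.trans e2)
    have h4 : a ≡ a' [MOD q] := Nat.ModEq.cancel_right_of_coprime hqr h2
    have h5 : b ≡ b' [MOD r] := Nat.ModEq.cancel_right_of_coprime hqr.symm h3
    have h6 : a = a' := Nat.ModEq.eq_of_lt_of_lt h4 ha ha'
    have h7 : b = b' := Nat.ModEq.eq_of_lt_of_lt h5 hb hb'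
    rw [h6, h7]
  have hsub : T.image g ⊆ (range (q * r)).filter (fun a => Nat.Coprime a (q * r)) := by
    intro c hc
    obtain ⟨⟨a, b⟩, hx, rfl⟩ := Finset.mem_image.mp hc
    simp only [hT, Finset.mem_product, Finset.mem_filter, Finset.mem_range] at hx
    obtain ⟨⟨ha, hac⟩, hb, hbc⟩ := hx
    refine Finset.mem_filter.mpr ⟨Finset.mem_range.mpr (Nat.mod_lt _ hpos), ?_⟩
    simp only [hg]
    rw [LyExp_coprime_mod, Nat.coprime_mul_iff_right]
    constructor
    · rw [Nat.coprime_add_mul_right_left]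
      exact Nat.Coprime.mul_left hac hqr.symm
    · rw [add_comm, Nat.coprime_add_mul_right_left]
      exact Nat.Coprime.mul_left hbc hqr
  have hcardT : T.card = q.totient * r.totient := by
    rw [hT, Finset.card_product]
    congr 1
    · rw [Nat.totient_eq_card_coprime]
      congr 1
      ext a
      simp [Nat.coprime_comm]
    · rw [Nat.totient_eq_card_coprime]
      congr 1
      ext a
      simp [Nat.coprime_comm]
  have hcard : ((range (q * r)).filter (fun a => Nat.Coprime a (q * r))).card =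
      q.totient * r.totient := by
    rw [← Nat.totient_mul hqr, Nat.totient_eq_card_coprime]
    congr 1
    ext a
    simp [Nat.coprime_comm]
  have heq : T.image g = (range (q * r)).filter (fun a => Nat.Coprime a (q * r)) := by
    apply Finset.eq_of_subset_of_card_le hsub
    rw [Finset.card_image_of_injOn hinj, hcard, hcardT]
  rw [← heq, Finset.sum_image hinj]
  apply Finset.sum_congr rfl
  rintro ⟨a, b⟩ -
  simp only [hg]
  rw [← ee_add]
  set x := a * r + b * q with hx
  have hmod : ((x % (q * r) : ℕ) : ℝ) = (x : ℝ) - (q * r : ℝ) * ((x / (q * r) : ℕ) : ℝ) := by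
    have := Nat.mod_add_div x (q * r)
    have h := congrArg (fun z : ℕ => (z : ℝ)) this
    push_cast at h
    linarith
  have hq' : (q : ℝ) ≠ 0 := by exact_mod_cast hq
  have hr' : (r : ℝ) ≠ 0 := by exact_mod_cast hr
  have hxr : (x : ℝ) = (a : ℝ) * r + (b : ℝ) * q := by rw [hx]; push_cast; ring
  generalize x / (q * r) = k at hmod
  have hval : (m : ℝ) * (((x % (q * r) : ℕ) : ℝ) / ((q * r : ℕ) : ℝ)) =
      ((m : ℝ) * ((a : ℝ) / q) + (m : ℝ) * ((b : ℝ) / r)) -
        ((m * (k : ℤ) : ℤ) : ℝ) := by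
    rw [hmod, hxr]
    push_cast
    field_simp
  rw [hval, ee_sub_int]

lemma LyExp_rs_one (m : ℤ) : rs 1 m = 1 := by
  unfold rs
  rw [Finset.range_one]
  simp [Finset.filter_singleton, ee_zero]

lemma LyExp_rs_prime (p : ℕ) (hp : p.Prime) (m : ℤ) :
    rs p m = (if (p : ℤ) ∣ m then (p : ℂ) - 1 else -1) := by
  classical
  unfold rs
  have hp0 : (p : ℝ) ≠ 0 := by exact_mod_cast hp.ne_zero
  have h1 : (range p).filter (fun a => Nat.Coprime a p) = (range p).erase 0 := by
    ext a
    simp only [Finset.mem_filter, Finset.mem_range, Finset.mem_erase]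
    constructor
    · rintro ⟨ha, hc⟩
      refine ⟨?_, ha⟩
      rintro rfl
      exact hp.one_lt.ne' (by simpa using hc)
    · rintro ⟨h0, ha⟩
      exact ⟨ha, Nat.Coprime.symm (Nat.coprime_of_lt_prime h0 ha hp)⟩
  rw [h1]
  have h2 : ∑ a ∈ (range p).erase 0, ee ((m : ℝ) * ((a : ℝ) / p)) =
      (∑ a ∈ range p, ee ((m : ℝ) * ((a : ℝ) / p))) - 1 := by
    rw [← Finset.sum_erase_add (range p) _ (Finset.mem_range.mpr hp.pos)]
    simp [ee_zero]
  rw [h2]
  have h3 : ∀ a ∈ range p, ee ((m : ℝ) * ((a : ℝ) / p)) = ee ((m : ℝ) / p) ^ a := by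
    intro a _
    rw [← ee_nat_mul]
    congr 1
    ring
  rw [Finset.sum_congr rfl h3]
  split_ifs with hd
  · obtain ⟨k, rfl⟩ := hd
    have : ((((p : ℤ) * k : ℤ) : ℝ) / (p : ℝ)) = (k : ℝ) := by
      push_cast
      field_simp
    rw [this, ee_int]
    simp
  · have hne : ee ((m : ℝ) / p) ≠ 1 := by
      intro h
      unfold ee at h
      rw [Complex.exp_eq_one_iff] at h
      obtain ⟨n, hn⟩ := h
      have hn' : ((2 * Real.pi * ((m : ℝ) / p) : ℝ) : ℂ) = ((n * (2 * Real.pi) : ℝ) : ℂ) := by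
        have : I * ((2 * Real.pi * ((m : ℝ) / p) : ℝ) : ℂ) = I * ((n * (2 * Real.pi) : ℝ) : ℂ) := by
          rw [hn]
          push_cast
          ring
        exact mul_left_cancel₀ Complex.I_ne_zero this
      have h5 : 2 * Real.pi * ((m : ℝ) / p) = n * (2 * Real.pi) := by exact_mod_cast hn'
      have h6 : (m : ℝ) / p = n := by
        have hpi : (2 * Real.pi) ≠ 0 := by positivity
        have : 2 * Real.pi * ((m : ℝ) / p) = 2 * Real.pi * n := by rw [h5]; ring
        exact mul_left_cancel₀ hpi this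
      have h7 : (m : ℝ) = p * n := by
        rw [div_eq_iff hp0] at h6
        rw [h6]; ring
      apply hd
      exact ⟨n, by exact_mod_cast h7⟩
    have h4 : ∑ a ∈ range p, ee ((m : ℝ) / p) ^ a = 0 := by
      have := geom_sum_mul (ee ((m : ℝ) / p)) p
      have h5 : ee ((m : ℝ) / p) ^ p = 1 := by
        rw [← ee_nat_mul]
        have : (p : ℝ) * ((m : ℝ) / p) = (m : ℝ) := by field_simp
        rw [this, ee_int]
      rw [h5, sub_self] at this
      exact (mul_eq_zero.mp this).resolve_right (sub_ne_zero.mpr hne)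
    rw [h4]
    ring

/-- Ramanujan expansion of `Λ_y` -/
theorem Ly_expand (y : ℕ) (m : ℤ) : ((Ly y m : ℝ) : ℂ) =
    ∑ q ∈ (∏ p ∈ Py y, p).divisors, (((μ q : ℤ) : ℂ) / (q.totient : ℂ)) * rs q m := by
  classical
  have hprime : ∀ p ∈ Py y, p.Prime := fun p hp => (Finset.mem_filter.mp hp).2
  let f : ArithmeticFunction ℂ := ⟨fun q => (((μ q : ℤ) : ℂ) / (q.totient : ℂ)) * rs q m, by simp⟩
  have hfa : ∀ q, f q = (((μ q : ℤ) : ℂ) / (q.totient : ℂ)) * rs q m := fun q => rfl
  have hmult : f.IsMultiplicative := by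
    rw [ArithmeticFunction.IsMultiplicative.iff_ne_zero]
    refine ⟨?_, ?_⟩
    · rw [hfa, LyExp_rs_one]
      simp
    · intro a b ha hb hab
      rw [hfa, hfa, hfa, LyExp_rs_mul a b ha hb hab m, Nat.totient_mul hab,
        ArithmeticFunction.isMultiplicative_moebius.map_mul_of_coprime hab]
      push_cast
      rw [mul_div_mul_comm]
      ring
  have hsq : Squarefree (∏ p ∈ Py y, p) := by
    apply Finset.squarefree_prod_of_pairwise_isCoprime
    · intro a ha b hb hab
      exact Nat.coprime_iff_isRelPrime.mp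
        ((Nat.coprime_primes (hprime a ha) (hprime b hb)).mpr hab)
    · intro p hp
      exact (hprime p hp).prime.squarefree
  have key := hmult.prodPrimeFactors_one_add_of_squarefree hsq
  rw [Nat.primeFactors_prod hprime] at key
  have : ∑ q ∈ (∏ p ∈ Py y, p).divisors, (((μ q : ℤ) : ℂ) / (q.totient : ℂ)) * rs q m =
      ∑ q ∈ (∏ p ∈ Py y, p).divisors, f q := rfl
  rw [this, ← key]
  unfold Ly
  rw [Complex.ofReal_prod]
  apply Finset.prod_congr rfl
  intro p hp
  have hpp := hprime p hp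
  rw [hfa, LyExp_rs_prime p hpp m, ArithmeticFunction.moebius_apply_prime hpp,
    Nat.totient_prime hpp]
  have h1 : ((p - 1 : ℕ) : ℂ) = (p : ℂ) - 1 := by
    rw [Nat.cast_sub hpp.one_lt.le]; simp
  have hp1 : (p : ℂ) - 1 ≠ 0 := by
    intro h
    have : (p : ℂ) = ((1 : ℕ) : ℂ) := by rw [sub_eq_zero.mp h]; simp
    exact hpp.one_lt.ne' (by exact_mod_cast this)
  have hp0 : (p : ℂ) ≠ 0 := by exact_mod_cast hpp.ne_zero
  rw [h1]
  split_ifs with hd
  · push_cast
    field_simp
    ring
  · push_cast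
    field_simp
    ring

theorem Ly_nonneg (y : ℕ) (m : ℤ) : 0 ≤ Ly y m := by
  unfold Ly
  apply Finset.prod_nonneg
  intro p hp
  have hpp := (Finset.mem_filter.mp hp).2
  split_ifs
  · exact le_refl _
  · apply inv_nonneg.mpr
    have : (1 : ℝ) ≤ p := by exact_mod_cast hpp.one_lt.le
    have h2 : 1 / (p : ℝ) ≤ 1 := by
      rw [div_le_one (by linarith)]; exact this
    linarith

theorem Ly_le (y : ℕ) (m : ℤ) : Ly y m ≤ ∏ p ∈ Py y, (1 - 1 / (p : ℝ))⁻¹ := by
  unfold Ly
  apply Finset.prod_le_prod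
  · intro p hp
    have hpp := (Finset.mem_filter.mp hp).2
    split_ifs
    · exact le_refl _
    · apply inv_nonneg.mpr
      have : (1 : ℝ) ≤ p := by exact_mod_cast hpp.one_lt.le
      have h2 : 1 / (p : ℝ) ≤ 1 := by
        rw [div_le_one (by linarith)]; exact this
      linarith
  · intro p hp
    have hpp := (Finset.mem_filter.mp hp).2
    split_ifs
    · apply inv_nonneg.mpr
      have : (1 : ℝ) ≤ p := by exact_mod_cast hpp.one_lt.le
      have h2 : 1 / (p : ℝ) ≤ 1 := by
        rw [div_le_one (by linarith)]; exact this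
      linarith
    · exact le_refl _

end Pool.Agent.PnLG
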