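import Pool.Agent.PnLG.SvFacts

open Finset Filter Complex
open scoped ArithmeticFunction.Moebius ArithmeticFunction.vonMangoldt

namespace Pool.Agent.PnLG

open Pool.Agent.ANT
open Pool.Agent.PnPoly.NC (np)

/-- proper prime powers are negligible -/
theorem sum_nonprime_le : ∃ C : ℝ, 0 < C ∧ ∀ X : ℕ, 2 ≤ X →
    ∑ m ∈ (Icc 1 X).filter (fun m => ¬ m.Prime), Λ m ≤ C * Real.sqrt X * Real.log X ^ 2 := by
  refine ⟨4, by norm_num, fun X hX => ?_⟩
  have hX2 : (2:ℝ) ≤ X := by exact_mod_cast hX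
  have h1 := Chebyshev.psi_sub_theta_eq_sum_not_prime (X : ℝ)
  rw [Nat.floor_natCast] at h1
  have h2 : (Icc 1 X) = Ioc 0 X := by
    ext m
    rw [Finset.mem_Icc, Finset.mem_Ioc]
    omega
  rw [h2, ← h1]
  refine (Chebyshev.psi_sub_theta_le (by linarith : (1:ℝ) ≤ X)).trans ?_
  have h3 : (1:ℝ) / 2 ≤ Real.log X := by
    have h4 := Real.log_two_gt_d9
    have h5 : Real.log 2 ≤ Real.log X := Real.log_le_log (by norm_num) hX2
    linarith
  have h4 : Real.log X ≤ 2 * Real.log X ^ 2 := by nlinarith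
  calc 2 * Real.sqrt X * Real.log X ≤ 2 * Real.sqrt X * (2 * Real.log X ^ 2) :=
        mul_le_mul_of_nonneg_left h4 (by positivity)
    _ = _ := by ring

namespace PPowAux

lemma ev_small (C η : ℝ) (hC : 0 < C) (hη : 0 < η) : ∀ᶠ H : ℕ in atTop,
    C * Real.sqrt ((3 * H : ℕ) : ℝ) * Real.log ((3 * H : ℕ) : ℝ) ^ 2 ≤ η * H := by
  have h1 : ∀ᶠ x : ℝ in atTop, ‖Real.log x ^ 4‖ ≤ (η / 3) ^ 2 / C ^ 2 * ‖id x‖ :=
    (Real.isLittleO_pow_log_id_atTop (n := 4)).bound (by positivity)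
  have h2 : Tendsto (fun H : ℕ => ((3 * H : ℕ) : ℝ)) atTop atTop := by
    apply tendsto_natCast_atTop_atTop.comp
    exact tendsto_id.const_mul_atTop' (by norm_num)
  filter_upwards [h2.eventually h1, eventually_ge_atTop 1] with H hH hH1
  have hH0 : (1:ℝ) ≤ H := by exact_mod_cast hH1
  set X : ℝ := ((3 * H : ℕ) : ℝ) with hX
  have hX3 : X = 3 * H := by rw [hX]; push_cast; ring
  have hX1 : 1 ≤ X := by rw [hX3]; linarith
  have hX0 : 0 < X := by linarith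
  rw [id, Real.norm_of_nonneg (by positivity), Real.norm_of_nonneg hX0.le] at hH
  have h3 : (C * Real.log X ^ 2) ^ 2 ≤ ((η / 3) * Real.sqrt X) ^ 2 := by
    rw [mul_pow, mul_pow, Real.sq_sqrt hX0.le, ← pow_mul]
    calc C ^ 2 * Real.log X ^ (2 * 2) ≤ C ^ 2 * ((η / 3) ^ 2 / C ^ 2 * X) :=
          mul_le_mul_of_nonneg_left hH (by positivity)
      _ = (η / 3) ^ 2 * X := by field_simp
  have h4 : C * Real.log X ^ 2 ≤ (η / 3) * Real.sqrt X :=
    (pow_le_pow_iff_left₀ (by positivity) (by positivity) (by norm_num)).1 h3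
  calc C * Real.sqrt X * Real.log X ^ 2 = (C * Real.log X ^ 2) * Real.sqrt X := by ring
    _ ≤ ((η / 3) * Real.sqrt X) * Real.sqrt X :=
        mul_le_mul_of_nonneg_right h4 (Real.sqrt_nonneg _)
    _ = (η / 3) * X := by rw [mul_assoc, Real.mul_self_sqrt hX0.le]
    _ = η * H := by rw [hX3]; ring

lemma inner_le (H : ℕ) {s : ℤ} (hs0 : 0 < s) (hsH : s ≤ H) :
    ∑ c ∈ Icc 1 H, (if (s + 2 * (c : ℤ)).toNat.Prime then (0:ℝ) else
        Λ (s + 2 * (c : ℤ)).toNat) ≤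
      ∑ m ∈ (Icc 1 (3 * H)).filter (fun m => ¬ m.Prime), Λ m := by
  have h1 : ∑ m ∈ (Icc 1 (3 * H)).filter (fun m => ¬ m.Prime), Λ m =
      ∑ m ∈ Icc 1 (3 * H), (if m.Prime then (0:ℝ) else Λ m) := by
    rw [Finset.sum_filter]
    refine Finset.sum_congr rfl fun m _ => ?_
    split_ifs <;> simp_all
  rw [h1]
  have hinj : Set.InjOn (fun c : ℕ => (s + 2 * (c : ℤ)).toNat) (Icc 1 H : Finset ℕ) := by
    intro c _ c' _ h
    simp only at h
    omega
  rw [← Finset.sum_image (f := fun m : ℕ => if m.Prime then (0:ℝ) else Λ m) hinj]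
  refine Finset.sum_le_sum_of_subset_of_nonneg ?_ ?_
  · intro m hm
    rw [Finset.mem_image] at hm
    obtain ⟨c, hc, rfl⟩ := hm
    rw [Finset.mem_Icc] at hc ⊢
    omega
  · intro m _ _
    split_ifs
    · exact le_rfl
    · exact ArithmeticFunction.vonMangoldt_nonneg

end PPowAux

open PPowAux in
theorem pp_small (Q : Polynomial ℚ) (n1 : ℕ)
    (hn1 : ∀ n, n1 ≤ n → 0 ≤ qv Q (n + 1) ∧ sv Q n < sv Q (n + 1)) (C0 : ℕ) (η : ℝ) (hη : 0 < η) :
    ∀ᶠ H : ℕ in atTop, ∀ N : ℕ, OK Q C0 H N →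
      ∑ c ∈ Icc 1 H, ∑ n ∈ Ico n1 N, (if (sv Q n + 2 * (c : ℤ)).toNat.Prime then 0 else
        Λ (sv Q n + 2 * (c : ℤ)).toNat) ≤ η * H * N := by
  obtain ⟨C, hC, hsum⟩ := sum_nonprime_le
  filter_upwards [ev_small C η hC hη, eventually_ge_atTop 1] with H hH hH1 N hOK
  rw [Finset.sum_comm]
  have h1 : ∀ n ∈ Ico n1 N, ∑ c ∈ Icc 1 H, (if (sv Q n + 2 * (c : ℤ)).toNat.Prime then (0:ℝ) else
        Λ (sv Q n + 2 * (c : ℤ)).toNat) ≤ η * H := by
    intro n hn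
    obtain ⟨h2, h3, _⟩ := OK_range Q n1 hn1 C0 H N hOK n hn
    exact (inner_le H h2 h3).trans ((hsum (3 * H) (by omega)).trans hH)
  refine (Finset.sum_le_sum h1).trans ?_
  rw [Finset.sum_const, nsmul_eq_mul, Nat.card_Ico, mul_comm]
  apply mul_le_mul_of_nonneg_left _ (by positivity)
  exact_mod_cast Nat.sub_le N n1

end Pool.Agent.PnLG
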