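import Pool.Agent.PnLG.Mom
import Pool.Agent.PnLG.PPow
import Pool.Agent.PnLG.LyExp

open Finset Filter Complex
open scoped ArithmeticFunction.Moebius ArithmeticFunction.vonMangoldt

namespace Pool.Agent.PnLG

open Pool.Agent.ANT
open Pool.Agent.PnPoly.NC (np)

open scoped Classical in
/-- the counting function as a cardinality of a finset -/
theorem LG_cnt (Q : Polynomial ℚ) (hQ : IntVal Q) (N : ℕ) (b : ℤ) :
    cntP Q N b = ((range N).filter (fun n => ∃ r : ℕ, r.Prime ∧ (r : ℤ) = sv Q n + 2 * b)).card := by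
  have hset : {n : ℕ | 1 ≤ n ∧ n ≤ N ∧ ∃ r : ℕ, r.Prime ∧
      (r : ℚ) = ((Nat.nth Nat.Prime (n - 1) : ℕ) : ℚ) +
        2 * (Q + Polynomial.C (b : ℚ)).eval (n : ℚ)} =
      ((((range N).filter (fun n => ∃ r : ℕ, r.Prime ∧ (r : ℤ) = sv Q n + 2 * b)).image
        (fun n => n + 1) : Finset ℕ) : Set ℕ) := by
    ext n
    simp only [Set.mem_ofPred_eq, coe_image, coe_filter, mem_range, Set.mem_image]
    constructor
    · rintro ⟨h1, h2, r, hr, hr2⟩
      refine ⟨n - 1, ⟨by omega, r, hr, ?_⟩, by omega⟩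
      have hs := sv_cast Q hQ (n - 1)
      have hn : (((n - 1 : ℕ) : ℚ) + 1) = (n : ℚ) := by
        have : ((n - 1 + 1 : ℕ) : ℚ) = (n : ℚ) := by congr 1; omega
        rw [← this]; push_cast; ring
      rw [hn] at hs
      have : ((r : ℤ) : ℚ) = ((sv Q (n - 1) + 2 * b : ℤ) : ℚ) := by
        push_cast
        rw [hs, hr2, Polynomial.eval_add, Polynomial.eval_C]
        show _ = ((Nat.nth Nat.Prime (n - 1) : ℕ) : ℚ) + _ + _
        ring
      exact_mod_cast this
    · rintro ⟨m, ⟨hm, r, hr, hr2⟩, rfl⟩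
      refine ⟨by omega, by omega, r, hr, ?_⟩
      have hs := sv_cast Q hQ m
      have : ((r : ℤ) : ℚ) = ((sv Q m + 2 * b : ℤ) : ℚ) := by rw [hr2]
      push_cast at this
      rw [this, hs, Polynomial.eval_add, Polynomial.eval_C]
      simp only [Nat.add_sub_cancel, Nat.cast_add, Nat.cast_one]
      show ((Nat.nth Nat.Prime m : ℕ) : ℚ) + _ + _ = _
      ring
  unfold cntP
  rw [hset, Set.ncard_coe_finset, card_image_of_injective]
  intro a c h
  simpa using h

/-- the deterministic part of the argument, for one `b` -/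
theorem LG_perb (I : Finset ℕ) (pr : ℕ → Prop) [DecidablePred pr] (lam ly : ℕ → ℝ)
    (N L δ Cε Cy : ℝ) (hN : (I.card : ℝ) ≤ N) (hL : 0 < L) (hδ : 0 < δ) (hCy : 0 ≤ Cy)
    (hCε : 0 ≤ Cε) (h2 : 2 * Cε ≤ L) (h3 : 2 * Cε * (Cy + δ) ≤ δ * L)
    (hS : |∑ n ∈ I, (lam n - ly n)| ≤ δ * N)
    (hq : ∑ n ∈ I, (if pr n then 0 else lam n) ≤ δ * N)
    (hl0 : ∀ n ∈ I, 0 ≤ lam n) (hly : ∀ n ∈ I, ly n ≤ Cy)
    (hlam : ∀ n ∈ I, pr n → |lam n - L| ≤ Cε) :
    |L * ((I.filter pr).card : ℝ) - ∑ n ∈ I, ly n| ≤ 3 * δ * N := by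
  classical
  have hN0 : 0 ≤ N := le_trans (Nat.cast_nonneg _) hN
  set k : ℝ := ((I.filter pr).card : ℝ) with hk
  have hk0 : 0 ≤ k := Nat.cast_nonneg _
  set p : ℝ := ∑ n ∈ I.filter pr, lam n with hp
  set q : ℝ := ∑ n ∈ I, (if pr n then 0 else lam n) with hqd
  have hq0 : 0 ≤ q := by
    refine sum_nonneg fun n hn => ?_
    split_ifs
    · exact le_rfl
    · exact hl0 n hn
  have hpq : ∑ n ∈ I, lam n = p + q := by
    rw [hp, hqd, sum_filter, ← sum_add_distrib]
    refine sum_congr rfl fun n _ => ?_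
    split_ifs <;> simp
  have hpk : |p - L * k| ≤ Cε * k := by
    have : p - L * k = ∑ n ∈ I.filter pr, (lam n - L) := by
      rw [sum_sub_distrib, sum_const, nsmul_eq_mul, hk]; ring
    rw [this]
    refine (abs_sum_le_sum_abs _ _).trans ?_
    calc ∑ n ∈ I.filter pr, |lam n - L| ≤ ∑ _n ∈ I.filter pr, Cε := by
          refine sum_le_sum fun n hn => ?_
          rw [mem_filter] at hn
          exact hlam n hn.1 hn.2
      _ = Cε * k := by rw [sum_const, nsmul_eq_mul, hk]; ring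
  have hlysum : ∑ n ∈ I, ly n ≤ Cy * N := by
    calc ∑ n ∈ I, ly n ≤ ∑ _n ∈ I, Cy := sum_le_sum hly
      _ = I.card * Cy := by rw [sum_const, nsmul_eq_mul]
      _ ≤ N * Cy := by gcongr
      _ = Cy * N := by ring
  have hS' : |p + q - ∑ n ∈ I, ly n| ≤ δ * N := by
    rw [← hpq, ← sum_sub_distrib]; exact hS
  have hp_le : p ≤ (Cy + δ) * N := by
    have := (abs_le.mp hS').2
    linarith only [this, hlysum, hq0]
  have hkL : L * k ≤ 2 * ((Cy + δ) * N) := by
    have h1 := (abs_le.mp hpk).1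
    have h4 : Cε * k ≤ L / 2 * k := by
      apply mul_le_mul_of_nonneg_right _ hk0; linarith
    linarith only [h1, h4, hp_le]
  have hCk : Cε * k ≤ δ * N := by
    have h5 : L * (Cε * k) ≤ L * (δ * N) := by
      calc L * (Cε * k) = Cε * (L * k) := by ring
        _ ≤ Cε * (2 * ((Cy + δ) * N)) := by gcongr
        _ = (2 * Cε * (Cy + δ)) * N := by ring
        _ ≤ (δ * L) * N := by gcongr
        _ = L * (δ * N) := by ring
    exact le_of_mul_le_mul_left h5 hL
  have e1 := abs_le.mp hpk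
  have e2 := abs_le.mp hS'
  rw [abs_le]
  constructor <;> linarith [e1.1, e1.2, e2.1, e2.2]

/-- Markov's inequality for finite sums -/
theorem LG_markov (s : Finset ℕ) (f : ℕ → ℝ) (hf : ∀ b ∈ s, 0 ≤ f b) (c B : ℝ) (hc : 0 < c)
    (hB : ∑ b ∈ s, f b ≤ B) (T : Finset ℕ) (hT : T ⊆ s) (hT2 : ∀ b ∈ T, c ≤ f b) :
    (T.card : ℝ) ≤ B / c := by
  rw [le_div_iff₀ hc]
  calc (T.card : ℝ) * c = ∑ _b ∈ T, c := by rw [sum_const, nsmul_eq_mul]
    _ ≤ ∑ b ∈ T, f b := sum_le_sum hT2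
    _ ≤ ∑ b ∈ s, f b := sum_le_sum_of_subset_of_nonneg hT (fun b hb _ => hf b hb)
    _ ≤ B := hB

/-- logarithms of the values -/
theorem LG_log (ε : ℝ) (hε : 0 < ε) (H : ℕ) (hH : 1 ≤ H) (b : ℕ) (hb : b ≤ H)
    (hb2 : ε / 4 * H ≤ b) (s : ℤ) (hs0 : 0 < s) (hs : s ≤ H) :
    |Real.log ((s + 2 * (b : ℤ)).toNat : ℝ) - Real.log H| ≤ Real.log 3 + |Real.log (ε / 2)| := by
  have hHr : (1 : ℝ) ≤ H := by exact_mod_cast hH
  have hpos : 0 < s + 2 * (b : ℤ) := by positivity
  have hcast : (((s + 2 * (b : ℤ)).toNat : ℕ) : ℝ) = (s : ℝ) + 2 * b := by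
    have : (((s + 2 * (b : ℤ)).toNat : ℕ) : ℤ) = s + 2 * b := Int.toNat_of_nonneg hpos.le
    have h2 : ((((s + 2 * (b : ℤ)).toNat : ℕ) : ℤ) : ℝ) = ((s + 2 * b : ℤ) : ℝ) := by rw [this]
    push_cast at h2
    exact h2
  have hsr : (0 : ℝ) < s := by exact_mod_cast hs0
  have hsr2 : (s : ℝ) ≤ H := by exact_mod_cast hs
  have hbr : (b : ℝ) ≤ H := by exact_mod_cast hb
  rw [hcast]
  have hlow : ε / 2 * H ≤ (s : ℝ) + 2 * b := by linarith
  have hup : (s : ℝ) + 2 * b ≤ 3 * H := by linarith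
  have hx : 0 < (s : ℝ) + 2 * b := by positivity
  have l1 : Real.log (ε / 2) + Real.log H ≤ Real.log ((s : ℝ) + 2 * b) := by
    rw [← Real.log_mul (by positivity) (by positivity)]
    exact Real.log_le_log (by positivity) hlow
  have l2 : Real.log ((s : ℝ) + 2 * b) ≤ Real.log 3 + Real.log H := by
    rw [← Real.log_mul (by positivity) (by positivity)]
    exact Real.log_le_log hx hup
  have h3 : 0 ≤ Real.log 3 := Real.log_nonneg (by norm_num)
  have h4 := neg_abs_le (Real.log (ε / 2))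
  have h5 := abs_nonneg (Real.log (ε / 2))
  rw [abs_le]
  constructor <;> linarith

/-- **local-to-global**: for almost all constant terms `b` the number of `n ≤ N` with `p_n + 2(Q(n)+b)` prime
is as predicted by the joint distribution of `(n, p_n)` modulo the small primes -/
theorem local_global (Q : Polynomial ℚ) (hQ : IntVal Q) (hlc : 0 ≤ Q.leadingCoeff) (C0 : ℕ)
    (ε : ℝ) (hε : 0 < ε) : ∃ y0 : ℕ, ∀ y : ℕ, y0 ≤ y → ∀ᶠ H : ℕ in atTop, ∀ N : ℕ, OK Q C0 H N →
      (((Icc 1 H).filter (fun b : ℕ => ε * (N / Real.log H) <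
        |(cntP Q N b : ℝ) - (1 / Real.log H) * ∑ n ∈ range N, Ly y (sv Q n + 2 * (b : ℤ))|)).card : ℝ) ≤
        ε * H := by
  classical
  obtain ⟨n1, hn1⟩ := sv_facts Q hQ hlc
  set δ : ℝ := ε / 8 with hδ
  have hδ0 : 0 < δ := by positivity
  obtain ⟨y0, hy0⟩ := second_moment Q hQ hlc n1 C0 hn1 (δ ^ 2 * (ε / 4)) (by positivity)
  refine ⟨y0, fun y hy => ?_⟩
  set Cy : ℝ := ∏ p ∈ Py y, (1 - 1 / (p : ℝ))⁻¹ with hCy
  have hCy0 : 0 ≤ Cy := (Ly_nonneg y 0).trans (Ly_le y 0)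
  set Cε : ℝ := Real.log 3 + |Real.log (ε / 2)| with hCε
  have hCε0 : 0 ≤ Cε := add_nonneg (Real.log_nonneg (by norm_num)) (abs_nonneg _)
  set K : ℕ := ⌈((n1 : ℝ) * (1 + Cy)) / δ⌉₊ + 1 with hK
  have hlog : Tendsto (fun H : ℕ => Real.log (H : ℝ)) atTop atTop :=
    Real.tendsto_log_atTop.comp tendsto_natCast_atTop_atTop
  filter_upwards [hy0 y hy, pp_small Q n1 hn1 C0 (δ * (ε / 4)) (by positivity),
    OK_facts Q C0 K, hlog.eventually_ge_atTop (1 + 2 * Cε + 2 * Cε * (Cy + δ) / δ),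
    eventually_ge_atTop 1] with H hsec hpp hfacts hLbig hH1 N hOK
  obtain ⟨hKN, -, -, hKL⟩ := hfacts N hOK
  have hsecN := hsec N hOK
  have hppN := hpp N hOK
  have hrange := OK_range Q n1 hn1 C0 H N hOK
  set L : ℝ := Real.log H with hL
  have hfrac : 0 ≤ 2 * Cε * (Cy + δ) / δ := by positivity
  have hL1 : 1 ≤ L := by linarith
  have hL0 : 0 < L := by linarith
  have hL2 : 2 * Cε ≤ L := by linarith
  have hL3 : 2 * Cε * (Cy + δ) ≤ δ * L := by
    have : 2 * Cε * (Cy + δ) / δ ≤ L := by linarith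
    rw [div_le_iff₀ hδ0] at this
    linarith
  have hK1 : 1 ≤ K := by omega
  have hN1 : 1 ≤ N := hK1.trans hKN
  have hNr : (1 : ℝ) ≤ N := by exact_mod_cast hN1
  have hHr : (1 : ℝ) ≤ H := by exact_mod_cast hH1
  have hn1N : (n1 : ℝ) * (1 + Cy) * L ≤ δ * N := by
    have h1 : ((n1 : ℝ) * (1 + Cy)) / δ ≤ K := by
      rw [hK]; push_cast
      have := Nat.le_ceil (((n1 : ℝ) * (1 + Cy)) / δ)
      linarith
    rw [div_le_iff₀ hδ0] at h1
    calc (n1 : ℝ) * (1 + Cy) * L ≤ (K * δ) * L := by gcongr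
      _ = δ * (K * L) := by ring
      _ ≤ δ * N := by gcongr
  -- the three exceptional sets
  set T1 : Finset ℕ := (Icc 1 H).filter (fun b : ℕ => (b : ℝ) < ε / 4 * H) with hT1
  set Sb : ℕ → ℝ := fun b => ∑ n ∈ Ico n1 N, (Λ (sv Q n + 2 * (b : ℤ)).toNat -
    Ly y (sv Q n + 2 * (b : ℤ))) with hSb
  set Pb : ℕ → ℝ := fun b => ∑ n ∈ Ico n1 N, (if (sv Q n + 2 * (b : ℤ)).toNat.Prime then 0 else
    Λ (sv Q n + 2 * (b : ℤ)).toNat) with hPb
  set T2 : Finset ℕ := (Icc 1 H).filter (fun b : ℕ => δ * N < |Sb b|) with hT2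
  set T3 : Finset ℕ := (Icc 1 H).filter (fun b : ℕ => δ * N < Pb b) with hT3
  have c1 : (T1.card : ℝ) ≤ ε / 4 * H := by
    have hsub : T1 ⊆ Icc 1 ⌊ε / 4 * (H : ℝ)⌋₊ := by
      intro b hb
      rw [hT1, mem_filter, mem_Icc] at hb
      rw [mem_Icc]
      exact ⟨hb.1.1, Nat.le_floor hb.2.le⟩
    calc (T1.card : ℝ) ≤ ((Icc 1 ⌊ε / 4 * (H : ℝ)⌋₊).card : ℝ) := by
          exact_mod_cast card_le_card hsub
      _ = (⌊ε / 4 * (H : ℝ)⌋₊ : ℝ) := by simp
      _ ≤ ε / 4 * H := Nat.floor_le (by positivity)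
  have c2 : (T2.card : ℝ) ≤ ε / 4 * H := by
    have := LG_markov (Icc 1 H) (fun b => Sb b ^ 2) (fun b _ => sq_nonneg _) ((δ * N) ^ 2)
      (δ ^ 2 * (ε / 4) * H * (N : ℝ) ^ 2) (by positivity) hsecN T2 (filter_subset _ _) (by
        intro b hb
        rw [hT2, mem_filter] at hb
        have h0 : 0 ≤ δ * N := by positivity
        calc (δ * N) ^ 2 ≤ |Sb b| ^ 2 := by gcongr; exact hb.2.le
          _ = Sb b ^ 2 := sq_abs _)
    refine this.trans (le_of_eq ?_)
    field_simp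
  have hPb0 : ∀ b ∈ Icc 1 H, 0 ≤ Pb b := by
    intro b _
    refine sum_nonneg fun n _ => ?_
    split_ifs
    · exact le_rfl
    · exact ArithmeticFunction.vonMangoldt_nonneg
  have c3 : (T3.card : ℝ) ≤ ε / 4 * H := by
    have := LG_markov (Icc 1 H) Pb hPb0 (δ * N)
      (δ * (ε / 4) * H * N) (by positivity) hppN T3 (filter_subset _ _) (by
        intro b hb
        rw [hT3, mem_filter] at hb
        exact hb.2.le)
    refine this.trans (le_of_eq ?_)
    field_simp
  -- every other `b` is good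
  have hsub : (Icc 1 H).filter (fun b : ℕ => ε * (N / L) <
      |(cntP Q N b : ℝ) - (1 / L) * ∑ n ∈ range N, Ly y (sv Q n + 2 * (b : ℤ))|) ⊆
      T1 ∪ (T2 ∪ T3) := by
    intro b hb
    by_contra hcon
    rw [mem_filter] at hb
    obtain ⟨hbI, hbad⟩ := hb
    rw [mem_Icc] at hbI
    simp only [mem_union, hT1, hT2, hT3, mem_filter, not_or, not_and, not_lt, mem_Icc] at hcon
    obtain ⟨g1, g2, g3⟩ := hcon
    have g1' := g1 hbI
    have g2' := g2 hbI
    have g3' := g3 hbI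
    have hmain := LG_perb (Ico n1 N) (fun n => (sv Q n + 2 * (b : ℤ)).toNat.Prime)
      (fun n => Λ (sv Q n + 2 * (b : ℤ)).toNat) (fun n => Ly y (sv Q n + 2 * (b : ℤ)))
      N L δ Cε Cy (by
        rw [Nat.card_Ico]
        exact_mod_cast Nat.sub_le N n1) hL0 hδ0 hCy0 hCε0 hL2 hL3 g2' g3'
      (fun n _ => ArithmeticFunction.vonMangoldt_nonneg) (fun n _ => Ly_le y _) (by
        intro n hn hpr
        obtain ⟨s0, s1, -⟩ := hrange n hn
        rw [ArithmeticFunction.vonMangoldt_apply_prime hpr]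
        exact LG_log ε hε H hH1 b hbI.2 g1' (sv Q n) s0 s1)
    -- compare the counting functions
    set R : ℕ → Prop := fun n => ∃ r : ℕ, r.Prime ∧ (r : ℤ) = sv Q n + 2 * (b : ℤ) with hR
    have hcnt : cntP Q N b = ((range N).filter R).card := LG_cnt Q hQ N b
    have hRI : (Ico n1 N).filter R =
        (Ico n1 N).filter (fun n => (sv Q n + 2 * (b : ℤ)).toNat.Prime) := by
      refine filter_congr fun n hn => ?_
      obtain ⟨s0, -, -⟩ := hrange n hn
      have hpos : 0 ≤ sv Q n + 2 * (b : ℤ) := by positivity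
      constructor
      · rintro ⟨r, hr, hr2⟩
        rw [← hr2, Int.toNat_natCast]; exact hr
      · intro h
        exact ⟨_, h, Int.toNat_of_nonneg hpos⟩
    have hk1 : ((Ico n1 N).filter R).card ≤ ((range N).filter R).card := by
      apply card_le_card
      intro n hn
      rw [mem_filter, mem_Ico] at hn
      rw [mem_filter, mem_range]
      exact ⟨hn.1.2, hn.2⟩
    have hk2 : ((range N).filter R).card ≤ ((Ico n1 N).filter R).card + n1 := by
      have : (range N).filter R ⊆ (Ico n1 N).filter R ∪ range n1 := by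
        intro n hn
        rw [mem_filter, mem_range] at hn
        rw [mem_union, mem_filter, mem_Ico, mem_range]
        by_cases h : n < n1
        · exact Or.inr h
        · exact Or.inl ⟨⟨by omega, hn.1⟩, hn.2⟩
      calc ((range N).filter R).card ≤ _ := card_le_card this
        _ ≤ _ := card_union_le _ _
        _ = _ := by rw [card_range]
    set k : ℝ := (((Ico n1 N).filter (fun n => (sv Q n + 2 * (b : ℤ)).toNat.Prime)).card : ℝ)
      with hk
    have hcnt1 : k ≤ (cntP Q N b : ℝ) := by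
      rw [hcnt, hk, ← hRI]; exact_mod_cast hk1
    have hcnt2 : (cntP Q N b : ℝ) ≤ k + n1 := by
      rw [hcnt, hk, ← hRI]; exact_mod_cast hk2
    set A : ℝ := ∑ n ∈ range N, Ly y (sv Q n + 2 * (b : ℤ)) with hA
    set A1 : ℝ := ∑ n ∈ Ico n1 N, Ly y (sv Q n + 2 * (b : ℤ)) with hA1
    have hA_ge : A1 ≤ A := by
      refine sum_le_sum_of_subset_of_nonneg ?_ (fun n _ _ => Ly_nonneg y _)
      intro n hn
      rw [mem_Ico] at hn
      rw [mem_range]; exact hn.2
    have hA_le : A ≤ A1 + n1 * Cy := by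
      have hsubs : range N ⊆ Ico n1 N ∪ range n1 := by
        intro n hn
        rw [mem_range] at hn
        rw [mem_union, mem_Ico, mem_range]
        omega
      calc A ≤ ∑ n ∈ Ico n1 N ∪ range n1, Ly y (sv Q n + 2 * (b : ℤ)) :=
            sum_le_sum_of_subset_of_nonneg hsubs (fun n _ _ => Ly_nonneg y _)
        _ = A1 + ∑ n ∈ range n1, Ly y (sv Q n + 2 * (b : ℤ)) := by
            rw [sum_union]
            rw [disjoint_left]
            intro n h1 h2
            rw [mem_Ico] at h1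
            rw [mem_range] at h2
            omega
        _ ≤ A1 + ∑ _n ∈ range n1, Cy := by
            gcongr with n _
            exact Ly_le y _
        _ = A1 + n1 * Cy := by rw [sum_const, nsmul_eq_mul, card_range]
    have hn10 : (0 : ℝ) ≤ n1 := Nat.cast_nonneg _
    have hfin : |L * (cntP Q N b : ℝ) - A| ≤ ε * N := by
      have e := abs_le.mp hmain
      have e1 : L * k ≤ L * (cntP Q N b : ℝ) := mul_le_mul_of_nonneg_left hcnt1 hL0.le
      have e2 : L * (cntP Q N b : ℝ) ≤ L * k + L * n1 := by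
        rw [← mul_add]; exact mul_le_mul_of_nonneg_left hcnt2 hL0.le
      have e3 : L * n1 ≤ δ * N := by
        refine le_trans ?_ hn1N
        have : 0 ≤ (n1 : ℝ) * Cy * L := by positivity
        linarith only [this]
      have e4 : (n1 : ℝ) * Cy ≤ δ * N := by
        refine le_trans ?_ hn1N
        have h5 : (n1 : ℝ) * Cy ≤ (n1 : ℝ) * Cy * L := by
          have : 0 ≤ (n1 : ℝ) * Cy := by positivity
          exact le_mul_of_one_le_right this (by linarith)
        have : 0 ≤ (n1 : ℝ) * L := by positivity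
        linarith only [this, h5]
      have e5 : 5 * (δ * N) ≤ ε * N := by
        rw [hδ]
        have : 0 ≤ ε * N := by positivity
        linarith only [this]
      rw [abs_le]
      constructor <;> linarith [e.1, e.2]
    have : |(cntP Q N b : ℝ) - (1 / L) * A| ≤ ε * (N / L) := by
      have h6 : (cntP Q N b : ℝ) - (1 / L) * A = (L * (cntP Q N b : ℝ) - A) / L := by
        field_simp
      rw [h6, abs_div, abs_of_pos hL0, ← mul_div_assoc]
      gcongr
    exact absurd hbad (not_lt.mpr this)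
  calc _ ≤ ((T1 ∪ (T2 ∪ T3)).card : ℝ) := by exact_mod_cast card_le_card hsub
    _ ≤ (T1.card : ℝ) + ((T2.card : ℝ) + (T3.card : ℝ)) := by
        have h1 := card_union_le T1 (T2 ∪ T3)
        have h2 := card_union_le T2 T3
        exact_mod_cast h1.trans (by omega)
    _ ≤ ε / 4 * H + (ε / 4 * H + ε / 4 * H) := by gcongr
    _ ≤ ε * H := by
        have : 0 ≤ ε * H := by positivity
        linarith only [this]

end Pool.Agent.PnLG
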