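import Pool.Agent.PnLG.AdmMod
import Pool.Agent.PnLG.Zero

open Finset Filter Complex
open scoped ArithmeticFunction.Moebius ArithmeticFunction.vonMangoldt

namespace Pool.Agent.PnLG

open Pool.Agent.ANT
open Pool.Agent.PnPoly.NC (np)

/-- the local condition depends only on `b` modulo the primes `≤ y` -/
lemma AdmFin_congr (Q : Polynomial ℚ) (y : ℕ) (b b' : ℤ)
    (h : ∀ p ∈ Py y, (p : ℤ) ∣ b - b') (hb : Adm Q y b) : Adm Q y b' := by
  rcases hb with hb | hb
  · left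
    intro p hp
    obtain ⟨ν, hν⟩ := hb p hp
    refine ⟨ν, ?_⟩
    have hd : (p : ℤ) ∣ (⌊Q.eval (ν : ℚ)⌋ + b) - (⌊Q.eval (ν : ℚ)⌋ + b') := by
      have : (⌊Q.eval (ν : ℚ)⌋ + b) - (⌊Q.eval (ν : ℚ)⌋ + b') = b - b' := by ring
      rw [this]
      exact h p hp
    exact (Int.dvd_iff_dvd_of_dvd_sub hd).mp hν
  · right
    intro p hp hp2
    obtain ⟨a, ha, hn⟩ := hb p hp hp2
    refine ⟨a, ha, fun n hdn => hn n ?_⟩
    have hd : (p : ℤ) ∣ (a + 2 * (⌊Q.eval (n : ℚ)⌋ + b)) - (a + 2 * (⌊Q.eval (n : ℚ)⌋ + b')) := by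
      have : (a + 2 * (⌊Q.eval (n : ℚ)⌋ + b)) - (a + 2 * (⌊Q.eval (n : ℚ)⌋ + b')) =
        2 * (b - b') := by ring
      rw [this]
      exact Dvd.dvd.mul_left (h p hp) _
    exact (Int.dvd_iff_dvd_of_dvd_sub hd).mpr hdn

open Classical in
/-- almost all `b` with the local condition -/
theorem adm_classes (Q : Polynomial ℚ) (hQ : IntVal Q) (hlc : 0 ≤ Q.leadingCoeff) (C0 : ℕ)
    (ε : ℝ) (hε : 0 < ε) : ∃ y : ℕ, ∃ c : ℝ, 0 < c ∧ ∀ᶠ H : ℕ in atTop, ∀ N : ℕ, OK Q C0 H N →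
      (((Icc 1 H).filter (fun b : ℕ => Adm Q y (b : ℤ) ∧
        (cntP Q N b : ℝ) < c * (N / Real.log H))).card : ℝ) ≤ ε * H := by
  obtain ⟨y, c, hc, hz⟩ := adm_mod Q hQ (ε / 4) (by positivity)
  have hε' : 0 < min (ε / 4) (c / 2) := lt_min (by positivity) (by positivity)
  obtain ⟨y0, hlg⟩ := local_global Q hQ hlc C0 (min (ε / 4) (c / 2)) hε'
  set y1 := max y y0 with hy1
  set P : ℕ := ∏ p ∈ Py y1, p with hPdef
  have hPpos : 0 < P := Zero_P_pos y1
  have hzN := hz y1 (le_max_left _ _)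
  obtain ⟨N1, hN1⟩ := Filter.eventually_atTop.mp hzN
  refine ⟨y, c / 2, by positivity, ?_⟩
  filter_upwards [hlg y1 (le_max_right _ _), OK_facts Q C0 N1, Filter.eventually_ge_atTop P,
    Filter.eventually_ge_atTop 3] with H hH1 hH2 hH3 hH4 N hN
  have hA := hH1 N hN
  have hNge : N1 ≤ N := (hH2 N hN).1
  have hB := hN1 N hNge
  have hlogpos : 0 < Real.log H := Real.log_pos (by
    have : (3 : ℝ) ≤ H := by exact_mod_cast hH4
    linarith)
  set A : Finset ℕ := (Icc 1 H).filter (fun b : ℕ => (min (ε / 4) (c / 2)) * (N / Real.log H) <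
        |(cntP Q N b : ℝ) - (1 / Real.log H) * ∑ n ∈ range N, Ly y1 (sv Q n + 2 * (b : ℤ))|) with hAdef
  set B : Finset ℕ := (range P).filter (fun b : ℕ =>
        Adm Q y (b : ℤ) ∧
        ∑ n ∈ range N, Ly y1 (sv Q n + 2 * (b : ℤ)) < c * N) with hBdef
  have hsub : ((Icc 1 H).filter (fun b : ℕ =>
        Adm Q y (b : ℤ) ∧
        (cntP Q N b : ℝ) < c / 2 * (N / Real.log H))) ⊆
        A ∪ (Icc 1 H).filter (fun b : ℕ => b % P ∈ B) := by
    intro b hb
    rw [Finset.mem_filter] at hb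
    obtain ⟨hb1, hb2, hb3⟩ := hb
    rw [Finset.mem_union]
    by_cases hbA : (min (ε / 4) (c / 2)) * (N / Real.log H) <
        |(cntP Q N b : ℝ) - (1 / Real.log H) * ∑ n ∈ range N, Ly y1 (sv Q n + 2 * (b : ℤ))|
    · left
      rw [hAdef, Finset.mem_filter]
      exact ⟨hb1, hbA⟩
    · right
      rw [Finset.mem_filter]
      refine ⟨hb1, ?_⟩
      rw [hBdef, Finset.mem_filter]
      have hmod : (P : ℤ) ∣ (b : ℤ) - ((b % P : ℕ) : ℤ) := by
        rw [Int.natCast_mod]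
        exact Int.dvd_self_sub_emod
      refine ⟨Finset.mem_range.mpr (Nat.mod_lt _ hPpos), ?_, ?_⟩
      · exact AdmFin_congr Q y (b : ℤ) ((b % P : ℕ) : ℤ) (fun p hp =>
          (Zero_dvd_P y1 p (Zero_Py_mono y y1 (le_max_left _ _) hp)).trans hmod) hb2
      · have hcong : ∑ n ∈ range N, Ly y1 (sv Q n + 2 * ((b % P : ℕ) : ℤ)) =
            ∑ n ∈ range N, Ly y1 (sv Q n + 2 * (b : ℤ)) := by
          apply Finset.sum_congr rfl
          intro n _
          apply Zero_Ly_congr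
          rw [← hPdef]
          have : (sv Q n + 2 * ((b % P : ℕ) : ℤ)) - (sv Q n + 2 * (b : ℤ)) =
            (-2) * ((b : ℤ) - ((b % P : ℕ) : ℤ)) := by ring
          rw [this]
          exact Dvd.dvd.mul_left hmod _
        rw [hcong]
        have hnot := not_lt.mp hbA
        have h1 := (abs_le.mp hnot).1
        have hNlog : 0 ≤ (N : ℝ) / Real.log H := by positivity
        have h2 : (min (ε / 4) (c / 2)) * ((N : ℝ) / Real.log H) ≤ c / 2 * (N / Real.log H) :=
          mul_le_mul_of_nonneg_right (min_le_right _ _) hNlog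
        have h3 : (1 / Real.log H) * ∑ n ∈ range N, Ly y1 (sv Q n + 2 * (b : ℤ)) <
            c * (N / Real.log H) := by linarith
        have h4 : (∑ n ∈ range N, Ly y1 (sv Q n + 2 * (b : ℤ))) / Real.log H < c * N / Real.log H := by
          have e1 : (1 / Real.log H) * ∑ n ∈ range N, Ly y1 (sv Q n + 2 * (b : ℤ)) =
            (∑ n ∈ range N, Ly y1 (sv Q n + 2 * (b : ℤ))) / Real.log H := by ring
          have e2 : c * ((N : ℝ) / Real.log H) = c * N / Real.log H := by ring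
          rw [← e1, ← e2]
          exact h3
        exact (div_lt_div_iff_of_pos_right hlogpos).mp h4
  have hAc : (A.card : ℝ) ≤ ε / 4 * H := by
    refine le_trans hA ?_
    exact mul_le_mul_of_nonneg_right (min_le_left _ _) (by positivity)
  have hBc : (B.card : ℝ) ≤ ε / 4 * P := hB
  have hcard2 : ((((Icc 1 H).filter (fun b : ℕ => b % P ∈ B)).card : ℕ) : ℝ) ≤ ε / 2 * H := by
    have h1 : ((((Icc 1 H).filter (fun b : ℕ => b % P ∈ B)).card : ℕ) : ℝ) ≤
        ((H / P + 1 : ℕ) : ℝ) * B.card := by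
      exact_mod_cast Zero_card H P B
    have hPr : (0 : ℝ) < P := by exact_mod_cast hPpos
    have h2 : ((H / P + 1 : ℕ) : ℝ) ≤ (H : ℝ) / P + 1 := by
      push_cast
      have := @Nat.cast_div_le ℝ _ _ _ H P
      linarith
    have h3 : (0 : ℝ) ≤ B.card := by positivity
    have hHP : (P : ℝ) ≤ H := by exact_mod_cast hH3
    calc ((((Icc 1 H).filter (fun b : ℕ => b % P ∈ B)).card : ℕ) : ℝ)
        ≤ ((H / P + 1 : ℕ) : ℝ) * B.card := h1
      _ ≤ ((H : ℝ) / P + 1) * B.card := mul_le_mul_of_nonneg_right h2 h3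
      _ ≤ ((H : ℝ) / P + 1) * (ε / 4 * P) := mul_le_mul_of_nonneg_left hBc (by positivity)
      _ = ε / 4 * (H + P) := by field_simp
      _ ≤ ε / 4 * (H + H) := by
          apply mul_le_mul_of_nonneg_left _ (by positivity)
          linarith
      _ = ε / 2 * H := by ring
  have hfin := Finset.card_le_card hsub
  have hfin2 := Finset.card_union_le A ((Icc 1 H).filter (fun b : ℕ => b % P ∈ B))
  have hfin3 : ((((Icc 1 H).filter (fun b : ℕ =>
        Adm Q y (b : ℤ) ∧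
        (cntP Q N b : ℝ) < c / 2 * (N / Real.log H))).card : ℕ) : ℝ) ≤
        (A.card : ℝ) + (((Icc 1 H).filter (fun b : ℕ => b % P ∈ B)).card : ℕ) := by
    exact_mod_cast hfin.trans hfin2
  have hHnn : (0 : ℝ) ≤ H := by positivity
  have : ε / 4 * (H : ℝ) + ε / 2 * H ≤ ε * H := by nlinarith
  linarith

end Pool.Agent.PnLG
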