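import Pool.Agent.PnLG.ExpMom

open Finset Filter Complex
open scoped ArithmeticFunction.Moebius ArithmeticFunction.vonMangoldt

namespace Pool.Agent.PnLG

open Pool.Agent.ANT
open Pool.Agent.PnPoly.NC (np)

/-- the exponent tends to `0` -/
theorem HolPair_exponent (C c C1 : ℝ) (hc : 0 < c) :
    Tendsto (fun y : ℕ => (Real.log C + 2 * C1 * y + C * (y * Real.log y) ^ (1 - c)) /
      (c * (y * Real.log y) / 2)) atTop (nhds 0) := by
  have hlog : Tendsto (fun y : ℕ => Real.log y) atTop atTop :=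
    Real.tendsto_log_atTop.comp tendsto_natCast_atTop_atTop
  have hL : Tendsto (fun y : ℕ => (y : ℝ) * Real.log y) atTop atTop :=
    Tendsto.atTop_mul_atTop₀ tendsto_natCast_atTop_atTop hlog
  have h1 : Tendsto (fun y : ℕ => (2 * Real.log C / c) * ((y : ℝ) * Real.log y)⁻¹) atTop (nhds 0) := by
    have := (tendsto_inv_atTop_zero.comp hL).const_mul (2 * Real.log C / c)
    simpa using this
  have h2 : Tendsto (fun y : ℕ => (4 * C1 / c) * (Real.log y)⁻¹) atTop (nhds 0) := by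
    have := (tendsto_inv_atTop_zero.comp hlog).const_mul (4 * C1 / c)
    simpa using this
  have h3 : Tendsto (fun y : ℕ => (2 * C / c) * ((y : ℝ) * Real.log y) ^ (-c)) atTop (nhds 0) := by
    have := ((tendsto_rpow_neg_atTop hc).comp hL).const_mul (2 * C / c)
    simpa using this
  have h4 := (h1.add h2).add h3
  rw [add_zero, add_zero] at h4
  refine h4.congr' ?_
  filter_upwards [eventually_ge_atTop 2] with y hy
  have hy0 : (0 : ℝ) < y := by
    have : 0 < y := by omega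
    exact_mod_cast this
  have hy1 : (1 : ℝ) < y := by
    have : 1 < y := by omega
    exact_mod_cast this
  have hl : 0 < Real.log y := Real.log_pos hy1
  have hLy : 0 < (y : ℝ) * Real.log y := mul_pos hy0 hl
  have h5 : ((y : ℝ) * Real.log y) ^ (1 - c) = ((y : ℝ) * Real.log y) * ((y : ℝ) * Real.log y) ^ (-c) := by
    rw [sub_eq_add_neg, Real.rpow_add hLy, Real.rpow_one]
  rw [h5]
  field_simp
  ring

theorem holder_pairs (Q : Polynomial ℚ) (hQ : IntVal Q) (C1 η : ℝ) (hC1 : 0 ≤ C1) (hη : 0 < η) :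
    ∃ y0 : ℕ, ∀ y : ℕ, y0 ≤ y → ∀ y1 : ℕ, ∀ᶠ N : ℕ in atTop, ∀ S ⊆ range N,
      (N : ℝ) ≤ Real.exp (C1 * y) * S.card →
      ∑ n ∈ S, ∑ m ∈ S, Real.exp (2 * Xs y y1 (sv Q n - sv Q m)) ≤ (1 + η) * (S.card : ℝ) ^ 2 := by
  obtain ⟨C, c, hC, hc, hc2, hmom⟩ := exp_moment Q hQ
  have hE := HolPair_exponent C c C1 hc
  have hlogη : 0 < Real.log (1 + η) := Real.log_pos (by linarith)
  have hlog : Tendsto (fun y : ℕ => Real.log y) atTop atTop :=
    Real.tendsto_log_atTop.comp tendsto_natCast_atTop_atTop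
  have hL : Tendsto (fun y : ℕ => (y : ℝ) * Real.log y) atTop atTop :=
    Tendsto.atTop_mul_atTop₀ tendsto_natCast_atTop_atTop hlog
  obtain ⟨y0, hy0⟩ := eventually_atTop.mp ((hE.eventually_le_const hlogη).and
    ((hL.eventually_ge_atTop (2 / c)).and (eventually_ge_atTop 2)))
  refine ⟨y0, fun y hy y1 => ?_⟩
  obtain ⟨hE1, hL1, hy2⟩ := hy0 y hy
  filter_upwards [hmom y y1 hy2] with N hN S hS hNS
  set L : ℝ := (y : ℝ) * Real.log y with hLdef
  set μ' : ℝ := c * L / 2 with hμ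
  have hμ1 : 1 ≤ μ' := by
    rw [hμ]
    have : c * (2 / c) ≤ c * L := mul_le_mul_of_nonneg_left hL1 hc.le
    rw [mul_div_cancel₀ _ hc.ne'] at this
    linarith
  have hμ0 : 0 < μ' := by linarith
  rcases S.eq_empty_or_nonempty with hSe | hSne
  · subst hSe; simp
  have hS0 : (0 : ℝ) < S.card := by exact_mod_cast hSne.card_pos
  set M : ℝ := (S.card : ℝ) ^ 2 with hM
  have hM0 : 0 < M := by positivity
  set B : ℝ := Real.log C + 2 * C1 * y + C * L ^ (1 - c) with hB
  -- the mean of the moments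
  have h1 : ∑ z ∈ S ×ˢ S, Real.exp (c * L * Xs y y1 (sv Q z.1 - sv Q z.2)) ≤ M * Real.exp B := by
    calc ∑ z ∈ S ×ˢ S, Real.exp (c * L * Xs y y1 (sv Q z.1 - sv Q z.2))
        ≤ ∑ z ∈ range N ×ˢ range N, Real.exp (c * L * Xs y y1 (sv Q z.1 - sv Q z.2)) :=
          sum_le_sum_of_subset_of_nonneg (product_subset_product hS hS)
            (fun _ _ _ => (Real.exp_pos _).le)
      _ = ∑ n ∈ range N, ∑ m ∈ range N, Real.exp (c * (y * Real.log y) * Xs y y1 (sv Q n - sv Q m)) := by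
          rw [sum_product]
      _ ≤ C * (N : ℝ) ^ 2 * Real.exp (C * L ^ (1 - c)) := hN
      _ ≤ C * (Real.exp (C1 * y) * S.card) ^ 2 * Real.exp (C * L ^ (1 - c)) := by
          gcongr
      _ = M * Real.exp B := by
          rw [hB, Real.exp_add, Real.exp_add, Real.exp_log hC, mul_pow, ← Real.exp_nat_mul, hM]
          have : ((2 : ℕ) : ℝ) * (C1 * y) = 2 * C1 * y := by push_cast; ring
          rw [this]
          ring
  -- power mean inequality
  have h2 := Real.arith_mean_le_rpow_mean (S ×ˢ S) (fun _ => 1 / M)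
    (fun z => Real.exp (2 * Xs y y1 (sv Q z.1 - sv Q z.2))) (fun _ _ => by positivity)
    (by rw [sum_const, card_product, nsmul_eq_mul, hM]; push_cast; field_simp)
    (fun _ _ => (Real.exp_pos _).le) hμ1
  have h3 : ∑ z ∈ S ×ˢ S, 1 / M * Real.exp (2 * Xs y y1 (sv Q z.1 - sv Q z.2)) ^ μ' ≤ Real.exp B := by
    have h4 : ∀ z ∈ S ×ˢ S, 1 / M * Real.exp (2 * Xs y y1 (sv Q z.1 - sv Q z.2)) ^ μ' =
        1 / M * Real.exp (c * L * Xs y y1 (sv Q z.1 - sv Q z.2)) := by
      intro z _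
      rw [← Real.exp_mul]
      congr 2
      rw [hμ]; ring
    rw [sum_congr rfl h4, ← mul_sum, div_mul_eq_mul_div, one_mul, div_le_iff₀ hM0]
    refine h1.trans (le_of_eq (mul_comm _ _))
  have h5 : (∑ z ∈ S ×ˢ S, 1 / M * Real.exp (2 * Xs y y1 (sv Q z.1 - sv Q z.2)) ^ μ') ^ (1 / μ') ≤ 1 + η := by
    calc (∑ z ∈ S ×ˢ S, 1 / M * Real.exp (2 * Xs y y1 (sv Q z.1 - sv Q z.2)) ^ μ') ^ (1 / μ')
        ≤ (Real.exp B) ^ (1 / μ') :=
          Real.rpow_le_rpow (sum_nonneg (fun _ _ => by positivity)) h3 (by positivity)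
      _ = Real.exp (B / μ') := by rw [← Real.exp_mul]; congr 1; ring
      _ ≤ Real.exp (Real.log (1 + η)) := Real.exp_le_exp.mpr hE1
      _ = 1 + η := Real.exp_log (by linarith)
  have h6 := h2.trans h5
  rw [← mul_sum, div_mul_eq_mul_div, one_mul, div_le_iff₀ hM0, sum_product] at h6
  exact h6

end Pool.Agent.PnLG
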