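import Pool.Agent.PnLG.Defs
import Pool.Agent.PnPoly.NC.Const

open Finset Filter Complex
open scoped ArithmeticFunction.Moebius ArithmeticFunction.vonMangoldt

namespace Pool.Agent.PnLG

open Pool.Agent.ANT
open Pool.Agent.PnPoly.NC (np)

lemma qv_cast (Q : Polynomial ℚ) (hQ : IntVal Q) (n : ℕ) :
    ((qv Q n : ℤ) : ℚ) = Q.eval (n : ℚ) := by
  obtain ⟨k, hk⟩ := hQ (n : ℤ)
  rw [Int.cast_natCast] at hk
  unfold qv
  rw [hk, Int.floor_intCast]

/-- monotonicity of `s_n` -/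
theorem sv_facts (Q : Polynomial ℚ) (hQ : IntVal Q) (hlc : 0 ≤ Q.leadingCoeff) :
    ∃ n1 : ℕ, (∀ n, n1 ≤ n → 0 ≤ qv Q (n + 1) ∧ sv Q n < sv Q (n + 1)) := by
  have ev := (PnPoly.NC.eventually_eval_nonneg hlc).and (PnPoly.NC.eventually_mono hlc)
  rw [eventually_atTop] at ev
  obtain ⟨n0, hn0⟩ := ev
  refine ⟨n0, fun n hn => ?_⟩
  have h1 := hn0 (n + 1) (by omega)
  have h2 : (0 : ℤ) ≤ qv Q (n + 1) := by
    have h3 := h1.1
    rw [← qv_cast Q hQ] at h3
    exact_mod_cast h3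
  have h4 : qv Q (n + 1) ≤ qv Q (n + 1 + 1) := by
    have h5 := h1.2
    rw [← qv_cast Q hQ, ← Nat.cast_succ, ← qv_cast Q hQ] at h5
    exact_mod_cast h5
  refine ⟨h2, ?_⟩
  unfold sv
  have h6 := PnPoly.NC.np_strictMono (show n < n + 1 by omega)
  omega

theorem sv_cast (Q : Polynomial ℚ) (hQ : IntVal Q) (n : ℕ) :
    ((sv Q n : ℤ) : ℚ) = (np n : ℚ) + 2 * Q.eval ((n : ℚ) + 1) := by
  unfold sv
  push_cast
  rw [qv_cast Q hQ]
  push_cast
  rfl

/-- consequences of `OK` -/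
theorem OK_facts (Q : Polynomial ℚ) (C0 : ℕ) (K : ℕ) : ∀ᶠ H : ℕ in atTop, ∀ N : ℕ, OK Q C0 H N →
    K ≤ N ∧ Real.log H ≤ (((max Q.natDegree 1 : ℕ) : ℝ) + 1) * Real.log N ∧
    (H : ℝ) ≤ (N : ℝ) ^ (max Q.natDegree 1) * Real.log N ^ (C0 + 1) ∧
    (K : ℝ) * Real.log H ≤ N := by
  set D : ℕ := max Q.natDegree 1 with hD
  have hD1 : 1 ≤ D := le_max_right _ _
  have hDp : (0 : ℝ) < (D : ℝ) + 1 := by positivity
  have hlog : Tendsto (fun H : ℕ => Real.log (H : ℝ)) atTop atTop :=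
    Real.tendsto_log_atTop.comp tendsto_natCast_atTop_atTop
  -- `C0 log x < x / (D+1)` for large `x`
  have e1 : ∀ᶠ x : ℝ in atTop, (C0 : ℝ) * Real.log x < x / ((D : ℝ) + 1) := by
    have h1 : (fun x : ℝ => Real.log x) =o[atTop] (fun x : ℝ => x) := Real.isLittleO_log_id_atTop
    have h2 := h1.bound (show (0 : ℝ) < 1 / ((C0 + 1) * ((D : ℝ) + 1)) by positivity)
    filter_upwards [h2, eventually_gt_atTop (1 : ℝ)] with x hx hx1
    rw [Real.norm_of_nonneg (Real.log_nonneg hx1.le), Real.norm_of_nonneg (by linarith)] at hx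
    have h3 : (C0 : ℝ) * Real.log x < (C0 + 1) * Real.log x := by
      have := Real.log_pos hx1
      nlinarith
    refine h3.trans_le ?_
    calc ((C0 : ℝ) + 1) * Real.log x ≤ (C0 + 1) * (1 / ((C0 + 1) * ((D : ℝ) + 1)) * x) :=
          mul_le_mul_of_nonneg_left hx (by positivity)
      _ = x / ((D : ℝ) + 1) := by field_simp
  -- `K x ≤ exp (x/(D+1))` for large `x`
  have e2 : ∀ᶠ x : ℝ in atTop, (K : ℝ) * x ≤ Real.exp (x / ((D : ℝ) + 1)) := by
    have h1 : Tendsto (fun x : ℝ => Real.exp x / x ^ 1) atTop atTop :=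
      Real.tendsto_exp_div_pow_atTop 1
    have h2 : Tendsto (fun x : ℝ => x / ((D : ℝ) + 1)) atTop atTop :=
      tendsto_id.atTop_div_const hDp
    have h3 := (h1.comp h2).eventually_ge_atTop ((K : ℝ) * ((D : ℝ) + 1))
    filter_upwards [h3, eventually_gt_atTop (0 : ℝ)] with x hx hx0
    simp only [Function.comp_apply, pow_one] at hx
    have h4 : (0 : ℝ) < x / ((D : ℝ) + 1) := by positivity
    rw [le_div_iff₀ h4] at hx
    refine le_trans (le_of_eq ?_) hx
    field_simp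
  filter_upwards [hlog.eventually e1, hlog.eventually e2, hlog.eventually_ge_atTop 1,
    hlog.eventually_ge_atTop (((D : ℝ) + 1) ^ (C0 + 1)), eventually_ge_atTop 1]
    with H h1 h2 h3 h4 hH N hOK
  have hH0 : (0 : ℝ) < H := by exact_mod_cast hH
  obtain ⟨hle, -⟩ := hOK
  rw [← hD] at hle
  have hN0 : N ≠ 0 := by
    rintro rfl
    rw [Nat.cast_zero, zero_pow (by omega), zero_mul] at hle
    linarith
  have hN : (0 : ℝ) < N := by exact_mod_cast Nat.pos_of_ne_zero hN0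
  have hL0 : 0 < Real.log H := by linarith
  have k1 : Real.log H ≤ ((D : ℝ) + 1) * Real.log N := by
    have h5 := Real.log_le_log hH0 hle
    rw [Real.log_mul (by positivity) (by positivity), Real.log_pow, Real.log_pow] at h5
    have h6 : Real.log H / ((D : ℝ) + 1) * ((D : ℝ) + 1) = Real.log H := by field_simp
    have h7 : (D : ℝ) * Real.log H < ((D : ℝ) + 1) * ((D : ℝ) * Real.log N) := by
      nlinarith
    have h8 : (0 : ℝ) < D := by exact_mod_cast hD1
    nlinarith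
  have k2 : 0 < Real.log N := by
    by_contra hcon
    push Not at hcon
    nlinarith
  have k3 : (K : ℝ) * Real.log H ≤ N := by
    refine h2.trans ?_
    rw [← Real.exp_log hN]
    refine Real.exp_le_exp.mpr ?_
    rw [div_le_iff₀ hDp, mul_comm]
    exact k1
  refine ⟨?_, k1, ?_, k3⟩
  · have : (K : ℝ) ≤ N := by
      refine le_trans ?_ k3
      have : (0 : ℝ) ≤ K := Nat.cast_nonneg K
      nlinarith
    exact_mod_cast this
  · refine hle.trans (mul_le_mul_of_nonneg_left ?_ (by positivity))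
    calc Real.log H ^ C0 ≤ (((D : ℝ) + 1) * Real.log N) ^ C0 :=
          pow_le_pow_left₀ hL0.le k1 C0
      _ = ((D : ℝ) + 1) ^ C0 * Real.log N ^ C0 := mul_pow _ _ _
      _ ≤ Real.log N * Real.log N ^ C0 := by
          refine mul_le_mul_of_nonneg_right ?_ (by positivity)
          have h5 : ((D : ℝ) + 1) * ((D : ℝ) + 1) ^ C0 ≤ ((D : ℝ) + 1) * Real.log N := by
            rw [← pow_succ']
            exact h4.trans k1
          exact le_of_mul_le_mul_left h5 hDp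
      _ = Real.log N ^ (C0 + 1) := (pow_succ' _ _).symm

theorem OK_range (Q : Polynomial ℚ) (n1 : ℕ)
    (hn1 : ∀ n, n1 ≤ n → 0 ≤ qv Q (n + 1) ∧ sv Q n < sv Q (n + 1)) (C0 H N : ℕ) (h : OK Q C0 H N) :
    ∀ n ∈ Ico n1 N, 0 < sv Q n ∧ sv Q n ≤ H ∧ N ≤ H + n1 := by
  have hmono : ∀ n, n1 ≤ n → ∀ m, n ≤ m → sv Q n + ((m : ℤ) - n) ≤ sv Q m := by
    intro n hn m hm
    induction m, hm using Nat.le_induction with
    | base => simp
    | succ m hm ih =>
      have h1 := (hn1 m (hn.trans hm)).2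
      push_cast
      omega
  have hpos : ∀ n, n1 ≤ n → 0 < sv Q n := by
    intro n hn
    have h1 := (hn1 n hn).1
    have h2 : 0 < np n := (PnPoly.NC.np_prime n).pos
    unfold sv
    omega
  intro n hn
  rw [mem_Ico] at hn
  have h1 := hmono n hn.1 (N - 1) (by omega)
  have h2 := hmono n1 le_rfl (N - 1) (by omega)
  have h3 := hpos n1 le_rfl
  have h4 := h.2
  have h5 : ((N - 1 : ℕ) : ℤ) = (N : ℤ) - 1 := by omega
  refine ⟨hpos n hn.1, ?_, ?_⟩
  · omega
  · omega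

end Pool.Agent.PnLG
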