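import Pool.Agent.PnLG.WMom
import Pool.Agent.PnLG.HolPair
import Pool.Agent.PnLG.Root
import Pool.Agent.PnLG.SvFacts

open Finset Filter Complex
open scoped ArithmeticFunction.Moebius ArithmeticFunction.vonMangoldt

namespace Pool.Agent.PnLG

open Pool.Agent.ANT
open Pool.Agent.PnPoly.NC (np)

namespace ZM

lemma factor_nonneg {p : ℕ} (hp : p.Prime) (m : ℤ) :
    (0 : ℝ) ≤ (if (p : ℤ) ∣ m then 0 else (1 - 1 / (p : ℝ))⁻¹) := by
  split_ifs
  · exact le_rfl
  · apply inv_nonneg.mpr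
    have h1 : (1 : ℝ) < p := by exact_mod_cast hp.one_lt
    have h2 : 1 / (p : ℝ) ≤ 1 := by
      rw [div_le_one (by linarith)]
      exact h1.le
    linarith

lemma Ly_nonneg (y : ℕ) (m : ℤ) : 0 ≤ Ly y m :=
  prod_nonneg fun _ hp => factor_nonneg (mem_filter.mp hp).2 m

lemma Py_mono {y y1 : ℕ} (h : y ≤ y1) : Py y ⊆ Py y1 := by
  intro p hp
  obtain ⟨h1, h2⟩ := mem_filter.mp hp
  rw [mem_Icc] at h1
  exact mem_filter.mpr ⟨mem_Icc.mpr ⟨h1.1, h1.2.trans h⟩, h2⟩

lemma Lw_nonneg (y y1 : ℕ) (m : ℤ) : 0 ≤ Lw y y1 m :=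
  prod_nonneg fun _ hp => factor_nonneg (mem_filter.mp (mem_sdiff.mp hp).1).2 m

lemma Lw_le_Ly {y y1 : ℕ} (h : y ≤ y1) {m : ℤ} (hm : ∀ p ∈ Py y, ¬ (p : ℤ) ∣ m) :
    Lw y y1 m ≤ Ly y1 m := by
  have h1 : Ly y1 m = Lw y y1 m * ∏ p ∈ Py y, (if (p : ℤ) ∣ m then 0 else (1 - 1 / (p : ℝ))⁻¹) := by
    rw [Ly, Lw, prod_sdiff (Py_mono h)]
  have h2 : 1 ≤ ∏ p ∈ Py y, (if (p : ℤ) ∣ m then 0 else (1 - 1 / (p : ℝ))⁻¹) := by
    have h3 : ∀ p ∈ Py y, (1 : ℝ) ≤ (if (p : ℤ) ∣ m then 0 else (1 - 1 / (p : ℝ))⁻¹) := by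
      intro p hp
      rw [if_neg (hm p hp)]
      have hp' := (mem_filter.mp hp).2
      have h4 : (1 : ℝ) < p := by exact_mod_cast hp'.one_lt
      have h5 : (0 : ℝ) < 1 / p := by positivity
      have h6 : 1 / (p : ℝ) < 1 := by
        rw [div_lt_one (by linarith)]
        exact h4
      rw [le_inv_comm₀ one_pos (by linarith), inv_one]
      linarith
    calc (1 : ℝ) = ∏ p ∈ Py y, (1 : ℝ) := by rw [prod_const_one]
      _ ≤ _ := prod_le_prod (fun _ _ => zero_le_one) h3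
  rw [h1]
  exact le_mul_of_one_le_right (Lw_nonneg y y1 m) h2

/-- the indices in a residue class -/
def Sset (G ν y N : ℕ) : Finset ℕ := (range N).filter (fun n => n % G = ν ∧ y ≤ n)

lemma card_Sset {G ν y N : ℕ} (hG : 0 < G) (hν : ν < G) (hN : 2 * G * (1 + y) ≤ N) :
    (N : ℝ) ≤ 2 * G * (Sset G ν y N).card := by
  have h1 : N / G ≤ ((range N).filter (fun n => n % G = ν)).card := by
    have h2 : (range (N / G)).image (fun k => G * k + ν) ⊆
        (range N).filter (fun n => n % G = ν) := by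
      intro n hn
      obtain ⟨k, hk, rfl⟩ := mem_image.mp hn
      rw [mem_range] at hk
      refine mem_filter.mpr ⟨mem_range.mpr ?_, ?_⟩
      · have h3 : G * (k + 1) ≤ G * (N / G) := Nat.mul_le_mul_left _ hk
        have h4 := Nat.mul_div_le N G
        have h5 : G * (k + 1) = G * k + G := by ring
        omega
      · rw [Nat.mul_add_mod, Nat.mod_eq_of_lt hν]
    have h3 := card_le_card h2
    rwa [card_image_of_injective, card_range] at h3
    intro a b hab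
    have : G * a = G * b := by
      have h4 : G * a + ν = G * b + ν := hab
      omega
    exact Nat.eq_of_mul_eq_mul_left hG this
  have h2 : ((range N).filter (fun n => n % G = ν)).card ≤ (Sset G ν y N).card + y := by
    have h3 : (range N).filter (fun n => n % G = ν) ⊆ Sset G ν y N ∪ range y := by
      intro n hn
      obtain ⟨h4, h5⟩ := mem_filter.mp hn
      by_cases hy : y ≤ n
      · exact mem_union_left _ (mem_filter.mpr ⟨h4, h5, hy⟩)
      · exact mem_union_right _ (mem_range.mpr (not_le.mp hy))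
    exact (card_le_card h3).trans ((card_union_le _ _).trans (by rw [card_range]))
  have h3 : N < G * (N / G) + G := by
    have h4 := Nat.div_add_mod N G
    have h5 := Nat.mod_lt N hG
    omega
  have h4 : G * (N / G) ≤ G * ((Sset G ν y N).card + y) := Nat.mul_le_mul_left _ (h1.trans h2)
  have h5 : N ≤ 2 * G * (Sset G ν y N).card := by
    have h6 : G * ((Sset G ν y N).card + y) = G * (Sset G ν y N).card + G * y := by ring
    have h7 : 2 * G * (1 + y) = 2 * G + 2 * (G * y) := by ring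
    have h8 : 2 * G * (Sset G ν y N).card = 2 * (G * (Sset G ν y N).card) := by ring
    omega
  exact_mod_cast h5

/-- counting by fibres -/
lemma card_fibre {M0 Pi : ℕ} (hM0 : 0 < M0) (B : Finset ℕ) (δ : ℝ)
    (h : ∀ β < M0, ∃ F : Finset ℕ, (F.card : ℝ) ≤ δ * Pi ∧ ∀ k, β + M0 * k ∈ B → k ∈ F) :
    (B.card : ℝ) ≤ δ * (M0 * Pi : ℕ) := by
  classical
  have h1 : B.card = ∑ β ∈ range M0, (B.filter (fun b => b % M0 = β)).card :=
    card_eq_sum_card_fiberwise (fun b _ => mem_coe.mpr (mem_range.mpr (Nat.mod_lt b hM0)))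
  have h2 : ∀ β ∈ range M0, ((B.filter (fun b => b % M0 = β)).card : ℝ) ≤ δ * Pi := by
    intro β hβ
    obtain ⟨F, hF, hFB⟩ := h β (mem_range.mp hβ)
    refine le_trans ?_ hF
    rw [Nat.cast_le]
    refine card_le_card_of_injOn (fun b => b / M0) ?_ ?_
    · intro b hb
      rw [mem_coe, mem_filter] at hb
      rw [mem_coe]
      apply hFB
      have h3 : β + M0 * (b / M0) = b := by
        rw [← hb.2]
        exact Nat.mod_add_div b M0
      rw [h3]
      exact hb.1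
    · intro b hb b' hb' heq
      rw [mem_coe, mem_filter] at hb hb'
      have h3 := Nat.mod_add_div b M0
      have h4 := Nat.mod_add_div b' M0
      have heq' : b / M0 = b' / M0 := heq
      rw [hb.2, heq'] at h3
      rw [hb'.2] at h4
      exact h3.symm.trans h4
  rw [h1, Nat.cast_sum]
  refine (sum_le_sum h2).trans ?_
  rw [sum_const, card_range, nsmul_eq_mul, Nat.cast_mul]
  exact le_of_eq (by ring)

end ZM

open ZM

open Classical in
/-- lower bound for `∑ Λ_{y1}` for almost all residue classes `b` modulo `P(y1)` with zeros mod the primes `≤ y` -/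
theorem zero_mod (Q : Polynomial ℚ) (hQ : IntVal Q) (ε : ℝ) (hε : 0 < ε) :
    ∃ y : ℕ, ∃ c : ℝ, 0 < c ∧ ∀ y1 : ℕ, y ≤ y1 → ∀ᶠ N : ℕ in atTop,
      (((range (∏ p ∈ Py y1, p)).filter (fun b : ℕ =>
        (∀ p ∈ Py y, ∃ ν : ℤ, (p : ℤ) ∣ ⌊Q.eval (ν : ℚ)⌋ + (b : ℤ)) ∧
        ∑ n ∈ range N, Ly y1 (sv Q n + 2 * (b : ℤ)) < c * N)).card : ℝ) ≤
        ε * ((∏ p ∈ Py y1, p : ℕ) : ℝ) := by
  obtain ⟨C1, hC1, hroot⟩ := crt_root Q hQ
  obtain ⟨y0, hy0⟩ := holder_pairs Q hQ (C1 + 1) (ε / 8) (by linarith) (by linarith)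
  obtain ⟨y, hy⟩ : ∃ y, y = max y0 2 := ⟨_, rfl⟩
  have hy2 : 2 ≤ y := hy ▸ le_max_right _ _
  have hyy0 : y0 ≤ y := hy ▸ le_max_left _ _
  obtain ⟨G, hG, hGexp, hGroot⟩ := hroot y (by omega)
  have hGR : (0 : ℝ) < G := by exact_mod_cast hG
  refine ⟨y, 1 / (4 * G), by positivity, ?_⟩
  intro y1 hy1
  obtain ⟨M0, hM0⟩ : ∃ M0, M0 = ∏ p ∈ Py y, p := ⟨_, rfl⟩
  obtain ⟨Pi, hPi⟩ : ∃ Pi, Pi = ∏ p ∈ Py y1 \ Py y, p := ⟨_, rfl⟩
  have hprod : ∏ p ∈ Py y1, p = M0 * Pi := by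
    rw [hM0, hPi, mul_comm, prod_sdiff (Py_mono hy1)]
  have hM0pos : 0 < M0 := by
    rw [hM0]
    exact prod_pos fun p hp => (mem_filter.mp hp).2.pos
  filter_upwards [hy0 y hyy0 y1, eventually_ge_atTop (2 * G * (1 + y))] with N hN hNG
  rw [hprod]
  have hNpos : 0 < N := lt_of_lt_of_le (by positivity) hNG
  refine (card_fibre (Pi := Pi) hM0pos _ (4 * (ε / 8)) ?_).trans
    (mul_le_mul_of_nonneg_right (by linarith) (Nat.cast_nonneg _))
  intro β hβ
  by_cases hadm : ∀ p ∈ Py y, ∃ ν : ℤ, (p : ℤ) ∣ ⌊Q.eval (ν : ℚ)⌋ + (β : ℤ)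
  · obtain ⟨ν, hν, hroots⟩ := hGroot β hadm
    have hScard := card_Sset (y := y) hG hν hNG
    have hSsub : Sset G ν y N ⊆ range N := filter_subset _ _
    have hSpos : (0 : ℝ) < (Sset G ν y N).card := by
      have h1 : (0 : ℝ) < N := by exact_mod_cast hNpos
      by_contra hcon
      have h2 : 2 * (G : ℝ) * (Sset G ν y N).card ≤ 0 :=
        mul_nonpos_of_nonneg_of_nonpos (by positivity) (not_lt.mp hcon)
      linarith
    have hSne : (Sset G ν y N).Nonempty := by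
      rw [← card_pos]
      exact_mod_cast hSpos
    have hexp : (N : ℝ) ≤ Real.exp ((C1 + 1) * y) * (Sset G ν y N).card := by
      refine hScard.trans ?_
      apply mul_le_mul_of_nonneg_right _ hSpos.le
      have h1 : (2 : ℝ) ≤ Real.exp y := by
        have h2 : (1 : ℝ) ≤ y := by exact_mod_cast (by omega : 1 ≤ y)
        have h3 := Real.add_one_le_exp (y : ℝ)
        linarith
      calc 2 * (G : ℝ) ≤ Real.exp y * Real.exp (C1 * y) :=
            mul_le_mul h1 hGexp hGR.le (Real.exp_pos _).le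
        _ = Real.exp ((C1 + 1) * y) := by
            rw [← Real.exp_add]
            congr 1
            ring
    have hpair := hN _ hSsub hexp
    have hW := W_small y y1 hy2 (β : ℤ) (Sset G ν y N) (fun n => sv Q n) (ε / 8) (by linarith)
      hSne hpair
    rw [← hPi, ← hM0] at hW
    refine ⟨_, hW, ?_⟩
    intro k hk
    obtain ⟨hk1, -, hk2⟩ := mem_filter.mp hk
    have hk3 : k < Pi := by
      rw [mem_range] at hk1
      have h1 : M0 * k < M0 * Pi := by omega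
      exact Nat.lt_of_mul_lt_mul_left h1
    refine mem_filter.mpr ⟨mem_range.mpr hk3, ?_⟩
    have hle : ∑ n ∈ Sset G ν y N, Lw y y1 (sv Q n + 2 * ((β : ℤ) + (M0 : ℤ) * (k : ℤ))) ≤
        ∑ n ∈ range N, Ly y1 (sv Q n + 2 * ((β + M0 * k : ℕ) : ℤ)) := by
      refine le_trans (sum_le_sum (f := fun n => Lw y y1 (sv Q n + 2 * ((β : ℤ) +
        (M0 : ℤ) * (k : ℤ)))) (g := fun n => Ly y1 (sv Q n + 2 * ((β + M0 * k : ℕ) : ℤ))) ?_)
        (sum_le_sum_of_subset_of_nonneg hSsub fun n _ _ => Ly_nonneg _ _)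
      intro n hn
      obtain ⟨-, hnG, hny⟩ := mem_filter.mp hn
      have hcast : ((β + M0 * k : ℕ) : ℤ) = (β : ℤ) + (M0 : ℤ) * (k : ℤ) := by push_cast; ring
      rw [hcast]
      apply Lw_le_Ly hy1
      intro p hp hdvd
      have hpP := (mem_filter.mp hp).2
      have hpy : p ≤ y := (mem_Icc.mp (mem_filter.mp hp).1).2
      have h1 : (p : ℤ) ∣ qv Q (n + 1) + β := hroots n hnG p hp
      have h2 : (p : ℤ) ∣ (M0 : ℤ) := by
        rw [hM0]
        exact_mod_cast dvd_prod_of_mem (fun p => p) hp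
      have h3 : (p : ℤ) ∣ (np n : ℤ) := by
        have h4 : (np n : ℤ) = (sv Q n + 2 * ((β : ℤ) + (M0 : ℤ) * (k : ℤ))) -
            2 * (qv Q (n + 1) + β) - (M0 : ℤ) * (2 * k) := by
          rw [sv]; ring
        rw [h4]
        exact dvd_sub (dvd_sub hdvd (h1.mul_left 2)) (h2.mul_right _)
      have h5 : p ∣ np n := by exact_mod_cast h3
      have h6 : p = np n :=
        (Nat.prime_dvd_prime_iff_eq hpP (Pool.Agent.PnPoly.NC.np_prime n)).mp h5
      have h7 := Pool.Agent.PnPoly.NC.lt_np n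
      omega
    show ∑ n ∈ Sset G ν y N, Lw y y1 (sv Q n + 2 * ((β : ℤ) + (M0 : ℤ) * (k : ℤ))) <
      ((Sset G ν y N).card : ℝ) / 2
    refine lt_of_le_of_lt hle (lt_of_lt_of_le hk2 ?_)
    have h1 : 1 / (4 * (G : ℝ)) * N ≤ 1 / (4 * (G : ℝ)) * (2 * G * (Sset G ν y N).card) :=
      mul_le_mul_of_nonneg_left hScard (by positivity)
    refine h1.trans (le_of_eq ?_)
    field_simp
    ring
  · refine ⟨∅, by rw [card_empty, Nat.cast_zero]; positivity, ?_⟩
    intro k hk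
    exfalso
    obtain ⟨-, h2, -⟩ := mem_filter.mp hk
    apply hadm
    intro p hp
    obtain ⟨ν, hν⟩ := h2 p hp
    refine ⟨ν, ?_⟩
    have h3 : (p : ℤ) ∣ (M0 : ℤ) := by
      rw [hM0]
      exact_mod_cast dvd_prod_of_mem (fun p => p) hp
    have h4 : ⌊Q.eval (ν : ℚ)⌋ + (β : ℤ) =
        (⌊Q.eval (ν : ℚ)⌋ + ((β + M0 * k : ℕ) : ℤ)) - (M0 : ℤ) * k := by
      push_cast; ring
    rw [h4]
    exact dvd_sub hν (h3.mul_right _)

end Pool.Agent.PnLG
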