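import Pool.Agent.PnLG.AdmSet
import Pool.Agent.PnLG.ZeroMod

open Finset Filter Complex
open scoped ArithmeticFunction.Moebius ArithmeticFunction.vonMangoldt

namespace Pool.Agent.PnLG

open Pool.Agent.ANT
open Pool.Agent.PnPoly.NC (np)

open ZM

namespace AdmModAux

lemma adm_shift {Q : Polynomial ℚ} {y M0 : ℕ} (hM0 : ∀ p ∈ Py y, (p : ℤ) ∣ (M0 : ℤ)) {β k : ℤ}
    (h : Adm Q y (β + M0 * k)) : Adm Q y β := by
  rcases h with h | h
  · left
    intro p hp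
    obtain ⟨ν, hν⟩ := h p hp
    refine ⟨ν, ?_⟩
    have h4 : ⌊Q.eval (ν : ℚ)⌋ + β = (⌊Q.eval (ν : ℚ)⌋ + (β + M0 * k)) - (M0 : ℤ) * k := by ring
    rw [h4]
    exact dvd_sub hν ((hM0 p hp).mul_right _)
  · right
    intro p hp hp2
    obtain ⟨a, ha, hn⟩ := h p hp hp2
    refine ⟨a, ha, fun n hdvd => hn n ?_⟩
    have h4 : a + 2 * (⌊Q.eval (n : ℚ)⌋ + (β + M0 * k)) =
        (a + 2 * (⌊Q.eval (n : ℚ)⌋ + β)) + (M0 : ℤ) * (2 * k) := by ring
    rw [h4]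
    exact dvd_add hdvd ((hM0 p hp).mul_right _)

end AdmModAux

open Classical in
/-- lower bound for `∑ Λ_{y1}` for almost all admissible residue classes `b` modulo `P(y1)` -/
theorem adm_mod (Q : Polynomial ℚ) (hQ : IntVal Q) (ε : ℝ) (hε : 0 < ε) :
    ∃ y : ℕ, ∃ c : ℝ, 0 < c ∧ ∀ y1 : ℕ, y ≤ y1 → ∀ᶠ N : ℕ in atTop,
      (((range (∏ p ∈ Py y1, p)).filter (fun b : ℕ => Adm Q y (b : ℤ) ∧
        ∑ n ∈ range N, Ly y1 (sv Q n + 2 * (b : ℤ)) < c * N)).card : ℝ) ≤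
        ε * ((∏ p ∈ Py y1, p : ℕ) : ℝ) := by
  obtain ⟨C1, hC1, hadmS⟩ := adm_set Q hQ
  obtain ⟨y0, hy0⟩ := holder_pairs Q hQ C1 (ε / 8) hC1.le (by linarith)
  obtain ⟨y, hy⟩ : ∃ y, y = max y0 2 := ⟨_, rfl⟩
  have hy2 : 2 ≤ y := hy ▸ le_max_right _ _
  have hyy0 : y0 ≤ y := hy ▸ le_max_left _ _
  refine ⟨y, Real.exp (-(C1 * y)) / 2, by positivity, ?_⟩
  intro y1 hy1
  obtain ⟨M0, hM0⟩ : ∃ M0, M0 = ∏ p ∈ Py y, p := ⟨_, rfl⟩
  obtain ⟨Pi, hPi⟩ : ∃ Pi, Pi = ∏ p ∈ Py y1 \ Py y, p := ⟨_, rfl⟩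
  have hprod : ∏ p ∈ Py y1, p = M0 * Pi := by
    rw [hM0, hPi, mul_comm, prod_sdiff (Py_mono hy1)]
  have hM0pos : 0 < M0 := by
    rw [hM0]
    exact prod_pos fun p hp => (mem_filter.mp hp).2.pos
  have hM0dvd : ∀ p ∈ Py y, (p : ℤ) ∣ (M0 : ℤ) := by
    intro p hp
    rw [hM0]
    exact_mod_cast dvd_prod_of_mem (fun p => p) hp
  have hall : ∀ᶠ N : ℕ in atTop, ∀ β ∈ range M0, Adm Q y (β : ℤ) →
      ∃ S ⊆ range N, (N : ℝ) ≤ Real.exp (C1 * y) * (S.card : ℝ) ∧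
        ∀ n ∈ S, ∀ p ∈ Py y, ¬ (p : ℤ) ∣ sv Q n + 2 * (β : ℤ) := by
    rw [Filter.eventually_all_finset]
    intro β _
    by_cases hadm : Adm Q y (β : ℤ)
    · filter_upwards [hadmS y (by omega) (β : ℤ) hadm] with N hN _
      exact hN
    · exact Eventually.of_forall fun N h => absurd h hadm
  filter_upwards [hy0 y hyy0 y1, hall, eventually_gt_atTop 0] with N hN hall hNpos
  rw [hprod]
  refine (card_fibre (Pi := Pi) hM0pos _ (4 * (ε / 8)) ?_).trans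
    (mul_le_mul_of_nonneg_right (by linarith) (Nat.cast_nonneg _))
  intro β hβ
  by_cases hadm : Adm Q y (β : ℤ)
  · obtain ⟨S, hSsub, hexp, hS⟩ := hall β (mem_range.mpr hβ) hadm
    have hSpos : (0 : ℝ) < S.card := by
      have h1 : (0 : ℝ) < N := by exact_mod_cast hNpos
      by_contra hcon
      have h2 : Real.exp (C1 * y) * (S.card : ℝ) ≤ 0 :=
        mul_nonpos_of_nonneg_of_nonpos (Real.exp_pos _).le (not_lt.mp hcon)
      linarith
    have hSne : S.Nonempty := by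
      rw [← card_pos]
      exact_mod_cast hSpos
    have hpair := hN _ hSsub hexp
    have hW := W_small y y1 hy2 (β : ℤ) S (fun n => sv Q n) (ε / 8) (by linarith)
      hSne hpair
    rw [← hPi, ← hM0] at hW
    refine ⟨_, hW, ?_⟩
    intro k hk
    obtain ⟨hk1, -, hk2⟩ := mem_filter.mp hk
    have hk3 : k < Pi := by
      rw [mem_range] at hk1
      have h1 : M0 * k < M0 * Pi := by omega
      exact Nat.lt_of_mul_lt_mul_left h1
    refine mem_filter.mpr ⟨mem_range.mpr hk3, ?_⟩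
    have hle : ∑ n ∈ S, Lw y y1 (sv Q n + 2 * ((β : ℤ) + (M0 : ℤ) * (k : ℤ))) ≤
        ∑ n ∈ range N, Ly y1 (sv Q n + 2 * ((β + M0 * k : ℕ) : ℤ)) := by
      refine le_trans (sum_le_sum (f := fun n => Lw y y1 (sv Q n + 2 * ((β : ℤ) +
        (M0 : ℤ) * (k : ℤ)))) (g := fun n => Ly y1 (sv Q n + 2 * ((β + M0 * k : ℕ) : ℤ))) ?_)
        (sum_le_sum_of_subset_of_nonneg hSsub fun n _ _ => Ly_nonneg _ _)
      intro n hn
      have hcast : ((β + M0 * k : ℕ) : ℤ) = (β : ℤ) + (M0 : ℤ) * (k : ℤ) := by push_cast; ring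
      rw [hcast]
      apply Lw_le_Ly hy1
      intro p hp hdvd
      apply hS n hn p hp
      have h4 : sv Q n + 2 * (β : ℤ) =
          (sv Q n + 2 * ((β : ℤ) + (M0 : ℤ) * (k : ℤ))) - (M0 : ℤ) * (2 * k) := by ring
      rw [h4]
      exact dvd_sub hdvd ((hM0dvd p hp).mul_right _)
    show ∑ n ∈ S, Lw y y1 (sv Q n + 2 * ((β : ℤ) + (M0 : ℤ) * (k : ℤ))) <
      (S.card : ℝ) / 2
    refine lt_of_le_of_lt hle (lt_of_lt_of_le hk2 ?_)
    have h1 : Real.exp (-(C1 * y)) / 2 * N ≤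
        Real.exp (-(C1 * y)) / 2 * (Real.exp (C1 * y) * S.card) :=
      mul_le_mul_of_nonneg_left hexp (by positivity)
    refine h1.trans (le_of_eq ?_)
    have h2 : Real.exp (-(C1 * y)) * Real.exp (C1 * y) = 1 := by
      rw [← Real.exp_add, neg_add_cancel, Real.exp_zero]
    calc Real.exp (-(C1 * y)) / 2 * (Real.exp (C1 * y) * S.card) =
          (Real.exp (-(C1 * y)) * Real.exp (C1 * y)) * S.card / 2 := by ring
      _ = S.card / 2 := by rw [h2, one_mul]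
  · refine ⟨∅, by rw [card_empty, Nat.cast_zero]; positivity, ?_⟩
    intro k hk
    exfalso
    obtain ⟨-, h2, -⟩ := mem_filter.mp hk
    apply hadm
    have hcast : ((β + M0 * k : ℕ) : ℤ) = (β : ℤ) + (M0 : ℤ) * (k : ℤ) := by push_cast; ring
    rw [hcast] at h2
    exact AdmModAux.adm_shift hM0dvd h2

end Pool.Agent.PnLG
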