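import Pool.Agent.PnLG.ApDens
import Pool.Agent.PnLG.Root
import Pool.Agent.PnLG.SvFacts

open Finset Filter Complex
open scoped ArithmeticFunction.Moebius ArithmeticFunction.vonMangoldt

namespace Pool.Agent.PnLG

open Pool.Agent.ANT
open Pool.Agent.PnPoly.NC (np)

/-- the indices in a residue class -/
def AdmSet_S (G ν y N : ℕ) : Finset ℕ := (range N).filter (fun n => n % G = ν ∧ y ≤ n)

lemma AdmSet_card {G ν y N : ℕ} (hG : 0 < G) (hν : ν < G) (hN : 2 * G * (1 + y) ≤ N) :
    (N : ℝ) ≤ 2 * G * (AdmSet_S G ν y N).card := by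
  have h1 : N / G ≤ ((range N).filter (fun n => n % G = ν)).card := by
    have h2 : (range (N / G)).image (fun k => G * k + ν) ⊆
        (range N).filter (fun n => n % G = ν) := by
      intro n hn
      obtain ⟨k, hk, rfl⟩ := mem_image.mp hn
      rw [mem_range] at hk
      refine mem_filter.mpr ⟨mem_range.mpr ?_, ?_⟩
      · have h3 : G * (k + 1) ≤ G * (N / G) := Nat.mul_le_mul_left _ hk
        have h4 := Nat.mul_div_le N G
        have h5 : G * (k + 1) = G * k + G := by ring
        omega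
      · rw [Nat.mul_add_mod, Nat.mod_eq_of_lt hν]
    have h3 := card_le_card h2
    rwa [card_image_of_injective, card_range] at h3
    intro a b hab
    have : G * a = G * b := by
      have h4 : G * a + ν = G * b + ν := hab
      omega
    exact Nat.eq_of_mul_eq_mul_left hG this
  have h2 : ((range N).filter (fun n => n % G = ν)).card ≤ (AdmSet_S G ν y N).card + y := by
    have h3 : (range N).filter (fun n => n % G = ν) ⊆ AdmSet_S G ν y N ∪ range y := by
      intro n hn
      obtain ⟨h4, h5⟩ := mem_filter.mp hn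
      by_cases hy : y ≤ n
      · exact mem_union_left _ (mem_filter.mpr ⟨h4, h5, hy⟩)
      · exact mem_union_right _ (mem_range.mpr (not_le.mp hy))
    exact (card_le_card h3).trans ((card_union_le _ _).trans (by rw [card_range]))
  have h3 : N < G * (N / G) + G := by
    have h4 := Nat.div_add_mod N G
    have h5 := Nat.mod_lt N hG
    omega
  have h4 : G * (N / G) ≤ G * ((AdmSet_S G ν y N).card + y) := Nat.mul_le_mul_left _ (h1.trans h2)
  have h5 : N ≤ 2 * G * (AdmSet_S G ν y N).card := by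
    have h6 : G * ((AdmSet_S G ν y N).card + y) = G * (AdmSet_S G ν y N).card + G * y := by ring
    have h7 : 2 * G * (1 + y) = 2 * G + 2 * (G * y) := by ring
    have h8 : 2 * G * (AdmSet_S G ν y N).card = 2 * (G * (AdmSet_S G ν y N).card) := by ring
    omega
  exact_mod_cast h5

lemma AdmSet_two_mul_exp {y : ℕ} (hy : 1 ≤ y) : (2 : ℝ) ≤ Real.exp y := by
  have h2 : (1 : ℝ) ≤ y := by exact_mod_cast hy
  have h3 := Real.add_one_le_exp (y : ℝ)
  linarith

/-- product of the odd primes `≤ y` -/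
def AdmSet_M (y : ℕ) : ℕ := ∏ p ∈ (Py y).erase 2, p

lemma AdmSet_M_pos (y : ℕ) : 0 < AdmSet_M y :=
  prod_pos fun _ hp => (mem_filter.mp (mem_of_mem_erase hp)).2.pos

lemma AdmSet_M_le (y : ℕ) : AdmSet_M y ≤ 4 ^ y := by
  have h1 : AdmSet_M y ≤ ∏ p ∈ Py y, p := by
    refine Finset.prod_le_prod_of_subset_of_one_le' (erase_subset _ _) ?_
    intro p hp _
    exact (mem_filter.mp hp).2.one_lt.le
  refine h1.trans ?_
  rw [RootAux.Py_eq]
  exact primorial_le_four_pow y

/-- a dense set of indices for which `p_n + 2(Q(n)+b)` has no prime factor `≤ y` -/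
theorem adm_set (Q : Polynomial ℚ) (hQ : IntVal Q) : ∃ C1 : ℝ, 0 < C1 ∧ ∀ y : ℕ, 1 ≤ y → ∀ β : ℤ,
    Adm Q y β → ∀ᶠ N : ℕ in atTop, ∃ S ⊆ range N, (N : ℝ) ≤ Real.exp (C1 * y) * (S.card : ℝ) ∧
      ∀ n ∈ S, ∀ p ∈ Py y, ¬ (p : ℤ) ∣ sv Q n + 2 * β := by
  obtain ⟨C1, hC1, hroot⟩ := crt_root Q hQ
  refine ⟨C1 + 3, by linarith, fun y hy β hadm => ?_⟩
  have hyR : (1 : ℝ) ≤ y := by exact_mod_cast hy
  rcases hadm with hadm | hadm
  · -- first alternative
    obtain ⟨G, hG, hGexp, hGroot⟩ := hroot y hy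
    have hGR : (0 : ℝ) < G := by exact_mod_cast hG
    obtain ⟨ν, hν, hroots⟩ := hGroot β hadm
    filter_upwards [eventually_ge_atTop (2 * G * (1 + y))] with N hNG
    refine ⟨AdmSet_S G ν y N, filter_subset _ _, ?_, ?_⟩
    · refine (AdmSet_card hG hν hNG).trans ?_
      apply mul_le_mul_of_nonneg_right _ (Nat.cast_nonneg _)
      have h1 : (2 : ℝ) ≤ Real.exp (3 * y) :=
        (AdmSet_two_mul_exp hy).trans (Real.exp_le_exp.mpr (by linarith))
      calc 2 * (G : ℝ) ≤ Real.exp (3 * y) * Real.exp (C1 * y) :=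
            mul_le_mul h1 hGexp hGR.le (Real.exp_pos _).le
        _ = Real.exp ((C1 + 3) * y) := by
            rw [← Real.exp_add]
            congr 1
            ring
    · intro n hn p hp hdvd
      obtain ⟨-, hnG, hny⟩ := mem_filter.mp hn
      have hpP := (mem_filter.mp hp).2
      have hpy : p ≤ y := (mem_Icc.mp (mem_filter.mp hp).1).2
      have h1 : (p : ℤ) ∣ qv Q (n + 1) + β := hroots n hnG p hp
      have h3 : (p : ℤ) ∣ (np n : ℤ) := by
        have h4 : (np n : ℤ) = (sv Q n + 2 * β) - 2 * (qv Q (n + 1) + β) := by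
          rw [sv]; ring
        rw [h4]
        exact dvd_sub hdvd (h1.mul_left 2)
      have h5 : p ∣ np n := by exact_mod_cast h3
      have h6 : p = np n :=
        (Nat.prime_dvd_prime_iff_eq hpP (Pool.Agent.PnPoly.NC.np_prime n)).mp h5
      have h7 := Pool.Agent.PnPoly.NC.lt_np n
      omega
  · -- second alternative
    classical
    have hprime : ∀ p ∈ (Py y).erase 2, p.Prime := fun p hp =>
      (mem_filter.mp (mem_of_mem_erase hp)).2
    have hadm' : ∀ p : ℕ, ∃ a : ℤ, p ∈ (Py y).erase 2 → ¬ (p : ℤ) ∣ a ∧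
        ∀ n : ℤ, ¬ (p : ℤ) ∣ a + 2 * (⌊Q.eval (n : ℚ)⌋ + β) := by
      intro p
      by_cases hp : p ∈ (Py y).erase 2
      · obtain ⟨a, ha⟩ := hadm p (mem_of_mem_erase hp) (ne_of_mem_erase hp)
        exact ⟨a, fun _ => ha⟩
      · exact ⟨0, fun h => absurd h hp⟩
    choose a ha using hadm'
    set r : ℕ → ℕ := fun p => (a p % (p : ℤ)).toNat with hrdef
    have hrdvd : ∀ p ∈ (Py y).erase 2, (p : ℤ) ∣ (r p : ℤ) - a p := by
      intro p hp
      have hp0 : (0 : ℤ) < p := by exact_mod_cast (hprime p hp).pos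
      have h7 : ((r p : ℕ) : ℤ) = a p % (p : ℤ) :=
        Int.toNat_of_nonneg (Int.emod_nonneg _ hp0.ne')
      rw [h7]
      have h8 : (p : ℤ) ∣ a p - a p % (p : ℤ) := Int.dvd_self_sub_emod
      have h9 : a p % (p : ℤ) - a p = -(a p - a p % (p : ℤ)) := by ring
      rw [h9]
      exact h8.neg_right
    have hs : ∀ p ∈ (Py y).erase 2, (fun p : ℕ => p) p ≠ 0 := fun p hp => (hprime p hp).pos.ne'
    have pp : Set.Pairwise (↑((Py y).erase 2)) (Function.onFun Nat.Coprime (fun p : ℕ => p)) := by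
      intro p hp q hq hpq
      exact (Nat.coprime_primes (hprime p hp) (hprime q hq)).mpr hpq
    obtain ⟨A, hA⟩ : ∃ A : ℕ, ∀ p ∈ (Py y).erase 2, A ≡ r p [MOD p] :=
      ⟨_, (Nat.chineseRemainderOfFinset r (fun p : ℕ => p) ((Py y).erase 2) hs pp).2⟩
    have hAdvd : ∀ p ∈ (Py y).erase 2, (p : ℤ) ∣ (A : ℤ) - a p := by
      intro p hp
      have h1 : (p : ℤ) ∣ (A : ℤ) - r p := Nat.modEq_iff_dvd.mp (hA p hp).symm
      have h2 : (A : ℤ) - a p = ((A : ℤ) - r p) + ((r p : ℤ) - a p) := by ring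
      rw [h2]
      exact dvd_add h1 (hrdvd p hp)
    have hcop : Nat.Coprime A (AdmSet_M y) := by
      refine Nat.Coprime.prod_right fun p hp => ?_
      refine ((hprime p hp).coprime_iff_not_dvd.mpr fun hd => ?_).symm
      apply (ha p hp).1
      have h1 : (p : ℤ) ∣ (A : ℤ) := by exact_mod_cast hd
      have h2 : a p = (A : ℤ) - ((A : ℤ) - a p) := by ring
      rw [h2]
      exact dvd_sub h1 (hAdvd p hp)
    have hMpos := AdmSet_M_pos y
    have hMR : (0 : ℝ) < AdmSet_M y := by exact_mod_cast hMpos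
    filter_upwards [ap_density (AdmSet_M y) hMpos A hcop,
      eventually_ge_atTop (4 * AdmSet_M y)] with N hN hN4
    refine ⟨(range N).filter (fun n => 1 ≤ n ∧ np n % AdmSet_M y = A % AdmSet_M y),
      filter_subset _ _, ?_, ?_⟩
    · set S := (range N).filter (fun n => 1 ≤ n ∧ np n % AdmSet_M y = A % AdmSet_M y) with hS
      have h1 : ((range N).filter (fun n => np n % AdmSet_M y = A % AdmSet_M y)).card ≤
          S.card + 1 := by
        have h2 : (range N).filter (fun n => np n % AdmSet_M y = A % AdmSet_M y) ⊆ S ∪ {0} := by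
          intro n hn
          obtain ⟨h3, h4⟩ := mem_filter.mp hn
          by_cases hn0 : n = 0
          · exact mem_union_right _ (by simp [hn0])
          · exact mem_union_left _ (mem_filter.mpr ⟨h3, by omega, h4⟩)
        exact (card_le_card h2).trans ((card_union_le _ _).trans (by simp))
      have h2 : (N : ℝ) ≤ 2 * AdmSet_M y * ((S.card : ℝ) + 1) := by
        refine hN.trans (mul_le_mul_of_nonneg_left ?_ (by positivity))
        exact_mod_cast h1
      have h3 : 4 * (AdmSet_M y : ℝ) ≤ N := by exact_mod_cast hN4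
      have h4 : (N : ℝ) ≤ 4 * AdmSet_M y * (S.card : ℝ) := by linarith
      refine h4.trans (mul_le_mul_of_nonneg_right ?_ (Nat.cast_nonneg _))
      have h5 : (AdmSet_M y : ℝ) ≤ (4 : ℝ) ^ y := by exact_mod_cast AdmSet_M_le y
      have h6 : (4 : ℝ) ≤ (4 : ℝ) ^ y := by
        calc (4 : ℝ) = 4 ^ 1 := by norm_num
          _ ≤ 4 ^ y := pow_le_pow_right₀ (by norm_num) hy
      have h7 : (16 : ℝ) ≤ Real.exp 3 := by
        have h8 : (2.7182818283 : ℝ) < Real.exp 1 := Real.exp_one_gt_d9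
        have h9 : Real.exp 3 = Real.exp 1 * Real.exp 1 * Real.exp 1 := by
          rw [← Real.exp_add, ← Real.exp_add]; norm_num
        rw [h9]
        nlinarith [mul_pos (Real.exp_pos 1) (Real.exp_pos 1)]
      calc 4 * (AdmSet_M y : ℝ) ≤ 4 ^ y * 4 ^ y := mul_le_mul h6 h5 hMR.le (by positivity)
        _ = (16 : ℝ) ^ y := by rw [← mul_pow]; norm_num
        _ ≤ (Real.exp 3) ^ y := pow_le_pow_left₀ (by norm_num) h7 y
        _ = Real.exp (3 * y) := by rw [mul_comm, Real.exp_nat_mul]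
        _ ≤ Real.exp ((C1 + 3) * y) := Real.exp_le_exp.mpr (by nlinarith)
    · intro n hn p hp hdvd
      obtain ⟨-, hn1, hnM⟩ := mem_filter.mp hn
      have hpP := (mem_filter.mp hp).2
      by_cases hp2 : p = 2
      · subst hp2
        have h1 : (2 : ℤ) ∣ (np n : ℤ) := by
          have h4 : (np n : ℤ) = (sv Q n + 2 * β) - 2 * (qv Q (n + 1) + β) := by
            rw [sv]; ring
          rw [h4]
          exact dvd_sub (by exact_mod_cast hdvd) (dvd_mul_right 2 _)
        have h5 : 2 ∣ np n := by exact_mod_cast h1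
        have h6 : 2 = np n :=
          (Nat.prime_dvd_prime_iff_eq Nat.prime_two (Pool.Agent.PnPoly.NC.np_prime n)).mp h5
        have h7 : np 0 < np n := Pool.Agent.PnPoly.NC.np_strictMono (by omega)
        have h8 := (Pool.Agent.PnPoly.NC.np_prime 0).two_le
        omega
      · have hpe : p ∈ (Py y).erase 2 := mem_erase.mpr ⟨hp2, hp⟩
        apply (ha p hpe).2 ((n : ℤ) + 1)
        have h1 : (p : ℤ) ∣ (np n : ℤ) - A := by
          have h2 : A ≡ np n [MOD AdmSet_M y] := hnM.symm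
          have h3 : A ≡ np n [MOD p] := h2.of_dvd (dvd_prod_of_mem (fun p => p) hpe)
          exact Nat.modEq_iff_dvd.mp h3
        have h2 : qv Q (n + 1) = ⌊Q.eval (((n : ℤ) + 1 : ℤ) : ℚ)⌋ := by
          unfold qv; push_cast; rfl
        have h3 : a p + 2 * (⌊Q.eval (((n : ℤ) + 1 : ℤ) : ℚ)⌋ + β) =
            (sv Q n + 2 * β) - ((np n : ℤ) - A) - ((A : ℤ) - a p) := by
          rw [← h2, sv]; ring
        rw [h3]
        exact dvd_sub (dvd_sub hdvd h1) (hAdvd p hpe)

end Pool.Agent.PnLG
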