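import Pool.Agent.PnLG.Defs3
import Pool.Agent.Lib.ANT.SW

open Finset Filter Complex
open scoped ArithmeticFunction.Moebius ArithmeticFunction.vonMangoldt

namespace Pool.Agent.PnLG

open Pool.Agent.ANT
open Pool.Agent.PnPoly.NC (np)

namespace ApDensAux

open Pool.Agent.PnPoly.NC (np_prime np_strictMono)

/-- the number of primes `≤ np N` in a class, in terms of the indices -/
lemma card_le (m a N : ℕ) :
    ((Finset.Icc 1 (np N)).filter
      (fun p : ℕ => p.Prime ∧ (p : ZMod m) = (a : ZMod m))).card ≤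
      ((range N).filter (fun n => np n % m = a % m)).card + 1 := by
  classical
  have hsub : (Finset.Icc 1 (np N)).filter
      (fun p : ℕ => p.Prime ∧ (p : ZMod m) = (a : ZMod m)) ⊆
      insert (np N) (((range N).filter (fun n => np n % m = a % m)).image np) := by
    intro p hp
    obtain ⟨h1, h2, h3⟩ := Finset.mem_filter.mp hp
    have h4 : np (Nat.count Nat.Prime p) = p := Nat.nth_count h2
    have h5 : Nat.count Nat.Prime p ≤ N := by
      rw [← np_strictMono.le_iff_le, h4]
      exact (Finset.mem_Icc.mp h1).2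
    rcases h5.lt_or_eq with h6 | h6
    · refine Finset.mem_insert_of_mem (Finset.mem_image.mpr ⟨_, ?_, h4⟩)
      rw [Finset.mem_filter, Finset.mem_range, h4]
      exact ⟨h6, (ZMod.natCast_eq_natCast_iff' _ _ _).mp h3⟩
    · rw [h6] at h4
      rw [h4]
      exact Finset.mem_insert_self _ _
  exact (Finset.card_le_card hsub).trans ((Finset.card_insert_le _ _).trans
    (Nat.add_le_add_right Finset.card_image_le 1))

lemma le_pi (N : ℕ) : N ≤ Nat.primeCounting (np N) := by
  have h1 : Nat.primeCounting' (np N) = N := Nat.primeCounting'_nth_eq N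
  calc N = Nat.primeCounting' (np N) := h1.symm
    _ ≤ Nat.primeCounting' (np N + 1) := Nat.monotone_primeCounting' (Nat.le_succ _)

end ApDensAux

open ApDensAux Pool.Agent.PnPoly.NC in
/-- lower bound for the density of the primes in a residue class, in terms of the index -/
theorem ap_density (m : ℕ) (hm : 1 ≤ m) (a : ℕ) (ha : Nat.Coprime a m) : ∀ᶠ N : ℕ in atTop,
    (N : ℝ) ≤ 2 * m * (((range N).filter (fun n => np n % m = a % m)).card : ℝ) := by
  have : NeZero m := ⟨by omega⟩
  obtain ⟨C, hC, hlow⟩ := pi_ap_lower 1 (ε := 1) one_pos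
  have hm1 : (1 : ℝ) ≤ m := by exact_mod_cast hm
  have hx : Tendsto (fun N : ℕ => ((np N : ℕ) : ℝ)) atTop atTop :=
    tendsto_natCast_atTop_atTop.comp np_strictMono.tendsto_atTop
  have ev1 := Chebyshev.eventually_primeCounting_le (ε := 1 / 10) (by norm_num)
  have ev2 := Real.tendsto_log_atTop.eventually_ge_atTop (8 * C * (m : ℝ) ^ 2 + 1)
  have ev3 : ∀ᶠ x : ℝ in atTop, 8 * (m : ℝ) * Real.log x ≤ x := by
    have h1 := Real.isLittleO_log_id_atTop.bound (show (0 : ℝ) < (8 * (m : ℝ))⁻¹ by positivity)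
    filter_upwards [h1, eventually_ge_atTop 1] with x hx hx1
    rw [id, Real.norm_of_nonneg (Real.log_nonneg hx1), Real.norm_of_nonneg (by linarith)] at hx
    calc 8 * (m : ℝ) * Real.log x ≤ 8 * (m : ℝ) * ((8 * (m : ℝ))⁻¹ * x) :=
          mul_le_mul_of_nonneg_left hx (by positivity)
      _ = x := by field_simp
  filter_upwards [hx.eventually ev1, hx.eventually ev2, hx.eventually ev3,
    hx.eventually (eventually_ge_atTop (3 : ℝ))] with N h1 h2 h3 h4
  set x : ℝ := ((np N : ℕ) : ℝ) with hxdef
  have hx0 : 0 < x := by linarith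
  have hl : 0 < Real.log x := by nlinarith [mul_pos hC (show (0 : ℝ) < (m : ℝ) ^ 2 by positivity)]
  have h5 := hlow m (a : ZMod m) ((ZMod.isUnit_iff_coprime a m).mpr ha) x h4
  have hfl : ⌊x⌋₊ = np N := Nat.floor_natCast _
  rw [hfl] at h1 h5
  set cnt : ℝ := (((range N).filter (fun n => np n % m = a % m)).card : ℝ) with hcnt
  have h6 : ((((Finset.Icc 1 (np N)).filter
      (fun p : ℕ => p.Prime ∧ (p : ZMod m) = (a : ZMod m))).card : ℕ) : ℝ) ≤ cnt + 1 := by
    rw [hcnt]
    exact_mod_cast card_le m a N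
  have h7 : (N : ℝ) ≤ (Real.log 4 + 1 / 10) * x / Real.log x :=
    le_trans (by exact_mod_cast le_pi N) h1
  set y : ℝ := x / Real.log x with hy
  have hy0 : 0 < y := div_pos hx0 hl
  have hlog4 : Real.log 4 ≤ 1.4 := by
    have h8 : Real.log 4 = 2 * Real.log 2 := by
      rw [show (4 : ℝ) = 2 ^ 2 by norm_num, Real.log_pow]
      norm_num
    have := Real.log_two_lt_d9
    rw [h8]
    linarith
  have h8 : (N : ℝ) ≤ 1.5 * y := by
    refine h7.trans ?_
    rw [mul_div_assoc]
    exact mul_le_mul_of_nonneg_right (by linarith) hy0.le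
  have h9 : x / (m.totient * Real.log x) ≥ y / m := by
    have ht : (m.totient : ℝ) ≤ m := by exact_mod_cast Nat.totient_le m
    have ht0 : (0 : ℝ) < m.totient := by exact_mod_cast Nat.totient_pos.mpr hm
    rw [hy, div_div, ge_iff_le, mul_comm (Real.log x)]
    exact div_le_div_of_nonneg_left hx0.le (by positivity)
      (mul_le_mul_of_nonneg_right ht hl.le)
  have h10 : C * (m : ℝ) ^ (1 : ℝ) * x / Real.log x ^ (1 + 1) = C * m / Real.log x * y := by
    rw [Real.rpow_one, hy]
    field_simp
  rw [h10] at h5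
  have h11 : C * m / Real.log x * y ≤ y / (8 * m) := by
    have h12 : C * m / Real.log x ≤ 1 / (8 * m) := by
      rw [div_le_div_iff₀ hl (by positivity)]
      nlinarith
    calc C * m / Real.log x * y ≤ 1 / (8 * m) * y := mul_le_mul_of_nonneg_right h12 hy0.le
      _ = _ := by ring
  have h12 : 8 * (m : ℝ) ≤ y := by
    rw [hy, le_div_iff₀ hl]
    exact h3
  have h13 : y / m - y / (8 * m) ≤ cnt + 1 := by linarith
  have h14 : y / m - y / (8 * m) = 7 / 8 * y / m := by field_simp; ring
  rw [h14, div_le_iff₀ (by linarith)] at h13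
  nlinarith

end Pool.Agent.PnLG
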