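import Pool.Agent.PnLG.Defs2

open Finset Filter Complex
open scoped ArithmeticFunction.Moebius ArithmeticFunction.vonMangoldt

namespace Pool.Agent.PnLG

open Pool.Agent.ANT
open Pool.Agent.PnPoly.NC (np)
open Pool.Agent.HL26
open Pool.Agent.PnPoly.NC hiding np

theorem mem_cls {r L q d' : ℕ} {g : Fin (r + 1) → (Fin (r + 1) → ℕ) → ℤ} {e : Fin (r + 1) → ℕ} :
    e ∈ cls r L q d' g ↔ (∀ l, e l ∈ range (L + 1)) ∧
      ∀ l : Fin (r + 1), d' ≤ (l : ℕ) → (q : ℤ) ∣ (e l : ℤ) - g l e := by
  classical
  unfold cls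
  rw [Finset.mem_filter, Fintype.mem_piFinset]

theorem card_class (L q : ℕ) (hq : 1 ≤ q) (c : ℤ) :
    ((range (L + 1)).filter (fun x : ℕ => (q : ℤ) ∣ (x : ℤ) - c)).card ≤ L / q + 1 := by
  classical
  have h : ((range (L + 1)).filter (fun x : ℕ => (q : ℤ) ∣ (x : ℤ) - c)).card ≤ (range (L / q + 1)).card := by
    apply Finset.card_le_card_of_injOn (fun x => x / q)
    · intro x hx
      simp only [coe_filter, mem_range, Set.mem_ofPred_eq] at hx
      simp only [coe_range, Set.mem_Iio]
      exact Nat.lt_succ_of_le (Nat.div_le_div_right (by omega))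
    · intro x hx y hy hxy
      simp only [coe_filter, mem_range, Set.mem_ofPred_eq] at hx hy
      have h1 : (q : ℤ) ∣ (x : ℤ) - y := by
        have := dvd_sub hx.2 hy.2
        simpa using this
      have h2 : x % q = y % q := by
        have h3 : (y : ℤ) ≡ x [ZMOD q] := (Int.modEq_iff_dvd).2 h1
        have h4 : y ≡ x [MOD q] := (Int.natCast_modEq_iff).1 h3
        exact h4.symm
      have h5 : x / q = y / q := hxy
      rw [← Nat.div_add_mod x q, ← Nat.div_add_mod y q, h5, h2]
  simpa using h

theorem card_cls_le (r L q d' : ℕ) (hq : 1 ≤ q) (hd : d' ≤ r + 1)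
    (g : Fin (r + 1) → (Fin (r + 1) → ℕ) → ℤ)
    (hg : ∀ l e e', (∀ j : Fin (r + 1), (j : ℕ) < d' → e j = e' j) → g l e = g l e') :
    ((cls r L q d' g).card : ℝ) ≤ ((L : ℝ) + 1) ^ d' * ((L : ℝ) / q + 1) ^ (r + 1 - d') := by
  classical
  set f : (Fin (r + 1) → ℕ) → (Fin d' → ℕ) := fun e j => e (Fin.castLE hd j) with hf
  have h1 : (cls r L q d' g).card ≤ (L / q + 1) ^ (r + 1 - d') * ((cls r L q d' g).image f).card := by
    apply Finset.card_le_mul_card_image
    intro b hb
    obtain ⟨e0, he0, rfl⟩ := Finset.mem_image.1 hb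
    have hsub : (cls r L q d' g).filter (fun a => f a = f e0) ⊆
        Fintype.piFinset (fun l : Fin (r + 1) => if (l : ℕ) < d' then ({e0 l} : Finset ℕ) else
          (range (L + 1)).filter (fun x : ℕ => (q : ℤ) ∣ (x : ℤ) - g l e0)) := by
      intro e he
      rw [Finset.mem_filter, mem_cls] at he
      obtain ⟨⟨he1, he2⟩, he3⟩ := he
      have hag : ∀ j : Fin (r + 1), (j : ℕ) < d' → e j = e0 j := by
        intro j hj
        have := congrFun he3 ⟨j, hj⟩
        simpa [hf] using this
      rw [Fintype.mem_piFinset]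
      intro l
      split_ifs with hl
      · rw [Finset.mem_singleton]; exact hag l hl
      · rw [Finset.mem_filter]
        refine ⟨he1 l, ?_⟩
        rw [← hg l e e0 hag]
        exact he2 l (by omega)
    refine (Finset.card_le_card hsub).trans ?_
    rw [Fintype.card_piFinset]
    calc ∏ l : Fin (r + 1), (if (l : ℕ) < d' then ({e0 l} : Finset ℕ) else
          (range (L + 1)).filter (fun x : ℕ => (q : ℤ) ∣ (x : ℤ) - g l e0)).card
        ≤ ∏ l : Fin (r + 1), (if (l : ℕ) < d' then 1 else (L / q + 1)) := by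
          apply Finset.prod_le_prod'
          intro l _
          split_ifs with hl
          · simp
          · exact card_class L q hq _
      _ = (L / q + 1) ^ (r + 1 - d') := by
          rw [Finset.prod_ite, Finset.prod_const_one, one_mul, Finset.prod_const]
          congr 1
          have e1 : (univ : Finset (Fin (r + 1))).filter (fun l : Fin (r + 1) => ¬ (l : ℕ) < d')
              = (univ : Finset (Fin (r + 1))) \ (univ.filter (fun l : Fin (r + 1) => (l : ℕ) < d')) := by
            ext l; simp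
          rw [e1, Finset.card_sdiff_of_subset (Finset.filter_subset _ _), Finset.card_univ, Fintype.card_fin]
          congr 1
          have e2 : ((univ : Finset (Fin (r + 1))).filter (fun l : Fin (r + 1) => (l : ℕ) < d'))
              = (univ : Finset (Fin d')).map (Fin.castLEEmb hd) := by
            ext l
            simp only [Finset.mem_filter, Finset.mem_univ, true_and, Finset.mem_map, Fin.castLEEmb_apply]
            constructor
            · intro hl
              exact ⟨⟨l, hl⟩, by ext; simp⟩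
            · rintro ⟨a, rfl⟩
              simp
          rw [e2, Finset.card_map, Finset.card_univ, Fintype.card_fin]
  have h2 : ((cls r L q d' g).image f).card ≤ (L + 1) ^ d' := by
    have hsub : (cls r L q d' g).image f ⊆ Fintype.piFinset (fun _ : Fin d' => range (L + 1)) := by
      intro b hb
      obtain ⟨e, he, rfl⟩ := Finset.mem_image.1 hb
      rw [mem_cls] at he
      rw [Fintype.mem_piFinset]
      intro j
      exact he.1 _
    refine (Finset.card_le_card hsub).trans ?_
    rw [Fintype.card_piFinset]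
    simp
  have h3 : (cls r L q d' g).card ≤ (L / q + 1) ^ (r + 1 - d') * (L + 1) ^ d' :=
    h1.trans (Nat.mul_le_mul_left _ h2)
  have h4 : ((cls r L q d' g).card : ℝ) ≤ (((L / q : ℕ) : ℝ) + 1) ^ (r + 1 - d') * ((L : ℝ) + 1) ^ d' := by
    exact_mod_cast h3
  have h5 : ((L / q : ℕ) : ℝ) ≤ (L : ℝ) / q := Nat.cast_div_le
  calc ((cls r L q d' g).card : ℝ) ≤ (((L / q : ℕ) : ℝ) + 1) ^ (r + 1 - d') * ((L : ℝ) + 1) ^ d' := h4
    _ ≤ ((L : ℝ) / q + 1) ^ (r + 1 - d') * ((L : ℝ) + 1) ^ d' := by
        apply mul_le_mul_of_nonneg_right _ (by positivity)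
        exact pow_le_pow_left₀ (by positivity) (by linarith) _
    _ = ((L : ℝ) + 1) ^ d' * ((L : ℝ) / q + 1) ^ (r + 1 - d') := mul_comm _ _

theorem card_clsE_le (r L q d' : ℕ) (g : Fin (r + 1) → (Fin (r + 1) → ℕ) → ℤ) :
    (clsE r L q d' g).card ≤ (cls r L q d' g).card := by
  classical
  unfold clsE
  exact (Finset.card_filter_le _ _).trans Finset.card_image_le

theorem clsE_subset (r L q d' : ℕ) (g : Fin (r + 1) → (Fin (r + 1) → ℕ) → ℤ) :
    clsE r L q d' g ⊆ (range (L + 1)).powersetCard (r + 1) := by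
  classical
  intro E hE
  unfold clsE at hE
  rw [Finset.mem_filter] at hE
  obtain ⟨h1, h2, -⟩ := hE
  obtain ⟨e, he, rfl⟩ := Finset.mem_image.1 h1
  rw [mem_cls] at he
  rw [Finset.mem_powersetCard]
  refine ⟨?_, h2⟩
  intro x hx
  obtain ⟨l, -, rfl⟩ := Finset.mem_image.1 hx
  exact he.1 l

end Pool.Agent.PnLG
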