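import Pool.Agent.PnLG.SSPow
import Pool.Agent.PnLG.Cls

open Finset Filter Complex
open scoped ArithmeticFunction.Moebius ArithmeticFunction.vonMangoldt

namespace Pool.Agent.PnLG

open Pool.Agent.ANT
open Pool.Agent.PnPoly.NC (np)
open Pool.Agent.HL26
open Pool.Agent.PnPoly.NC hiding np

theorem ClsSum_card_le (r d' L q : ℕ) (hd : d' ≤ r + 1) (hq : 1 ≤ q) (Z : ℝ) (hZ : 1 ≤ Z) (hZq : Z ≤ q)
    (hZL : Z ≤ L) (g : Fin (r + 1) → (Fin (r + 1) → ℕ) → ℤ)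
    (hg : ∀ l e e', (∀ j : Fin (r + 1), (j : ℕ) < d' → e j = e' j) → g l e = g l e') :
    ((clsE r L q d' g).card : ℝ) ≤ 2 ^ (r + 1) * (((L : ℝ) + 1) ^ (r + 1) * (Z ^ (r + 1 - d'))⁻¹) := by
  have h1 : ((clsE r L q d' g).card : ℝ) ≤ ((cls r L q d' g).card : ℝ) := by
    exact_mod_cast card_clsE_le r L q d' g
  have h2 := card_cls_le r L q d' hq hd g hg
  have hZ0 : 0 < Z := by linarith
  have hL0 : (0:ℝ) ≤ L := Nat.cast_nonneg L
  have h3 : (L : ℝ) / q + 1 ≤ 2 * ((L : ℝ) + 1) / Z := by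
    have h4 : (L : ℝ) / q ≤ (L : ℝ) / Z := div_le_div_of_nonneg_left hL0 hZ0 hZq
    have h5 : 1 ≤ (L : ℝ) / Z := by rw [le_div_iff₀ hZ0]; linarith
    calc (L : ℝ) / q + 1 ≤ (L : ℝ) / Z + (L : ℝ) / Z := by linarith
      _ = 2 * (L : ℝ) / Z := by ring
      _ ≤ 2 * ((L : ℝ) + 1) / Z := by
        apply div_le_div_of_nonneg_right _ hZ0.le
        linarith
  have hq0 : (0:ℝ) < q := by exact_mod_cast hq
  have h6 : ((L : ℝ) / q + 1) ^ (r + 1 - d') ≤ (2 * ((L : ℝ) + 1) / Z) ^ (r + 1 - d') :=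
    pow_le_pow_left₀ (by positivity) h3 _
  have h7 : (2 * ((L : ℝ) + 1) / Z) ^ (r + 1 - d') =
      2 ^ (r + 1 - d') * (((L : ℝ) + 1) ^ (r + 1 - d') * (Z ^ (r + 1 - d'))⁻¹) := by
    rw [div_pow, mul_pow]; ring
  have h8 : (2:ℝ) ^ (r + 1 - d') ≤ 2 ^ (r + 1) := pow_le_pow_right₀ (by norm_num) (Nat.sub_le _ _)
  have h9 : ((L : ℝ) + 1) ^ d' * ((L : ℝ) + 1) ^ (r + 1 - d') = ((L : ℝ) + 1) ^ (r + 1) := by
    rw [← pow_add]; congr 1; omega
  calc ((clsE r L q d' g).card : ℝ) ≤ ((L : ℝ) + 1) ^ d' * ((L : ℝ) / q + 1) ^ (r + 1 - d') := h1.trans h2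
    _ ≤ ((L : ℝ) + 1) ^ d' * (2 ^ (r + 1 - d') * (((L : ℝ) + 1) ^ (r + 1 - d') * (Z ^ (r + 1 - d'))⁻¹)) := by
        rw [← h7]; exact mul_le_mul_of_nonneg_left h6 (by positivity)
    _ = 2 ^ (r + 1 - d') * (((L : ℝ) + 1) ^ d' * ((L : ℝ) + 1) ^ (r + 1 - d') * (Z ^ (r + 1 - d'))⁻¹) := by ring
    _ = 2 ^ (r + 1 - d') * (((L : ℝ) + 1) ^ (r + 1) * (Z ^ (r + 1 - d'))⁻¹) := by rw [h9]
    _ ≤ 2 ^ (r + 1) * (((L : ℝ) + 1) ^ (r + 1) * (Z ^ (r + 1 - d'))⁻¹) :=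
        mul_le_mul_of_nonneg_right h8 (by positivity)

/-- sieve bound summed over a class of patterns -/
theorem sum_clsE_le (r d' t : ℕ) (hr : 1 ≤ r) (hd : d' ≤ r + 1) (ht : 1 ≤ t) : ∃ C : ℝ, 0 < C ∧
    ∀ᶠ x : ℝ in atTop, ∀ L q : ℕ, 1 ≤ q → ∀ Z : ℝ, 1 ≤ Z → Z ≤ q → Z ≤ L →
    ∀ g : Fin (r + 1) → (Fin (r + 1) → ℕ) → ℤ,
    (∀ l e e', (∀ j : Fin (r + 1), (j : ℕ) < d' → e j = e' j) → g l e = g l e') →
      ∑ E ∈ clsE r L q d' g, (tupleCount x E : ℝ) ≤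
        C * (x / Real.log x ^ (r + 1)) * ((L : ℝ) + 1) ^ (r + 1) *
          (Z ^ (r + 1 - d')) ^ (-(1 - 1 / (t : ℝ))) := by
  classical
  obtain ⟨C1, hC1, hev⟩ := exists_sieve_bound (r + 1) (by omega)
  obtain ⟨C2, hC2, hss⟩ := sum_singularSeries_sub_le (r + 1) t (by omega) ht
  refine ⟨C1 * C2 * 2 ^ (r + 1), by positivity, ?_⟩
  filter_upwards [hev, eventually_ge_atTop 3] with x hx hx3
  intro L q hq Z hZ hZq hZL g hg
  have hx0 : 0 < x := by linarith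
  have hlog : 0 < Real.log x := Real.log_pos (by linarith)
  set X : ℝ := x / Real.log x ^ (r + 1) with hXdef
  have hX : 0 ≤ X := by positivity
  have hL1 : (0:ℝ) < (L : ℝ) + 1 := by positivity
  have hZ0 : 0 < Z := by linarith
  have ht0 : (1:ℝ) ≤ t := by exact_mod_cast ht
  set al : ℝ := 1 - 1 / (t : ℝ) with hal
  have hal0 : 0 ≤ al := by
    rw [hal, sub_nonneg, div_le_one (by linarith)]; exact ht0
  have hal1 : al ≤ 1 := by
    have : 0 ≤ 1 / (t:ℝ) := by positivity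
    rw [hal]; linarith
  -- each pattern
  have h1 : ∀ E ∈ clsE r L q d' g, (tupleCount x E : ℝ) ≤ C1 * X * singularSeries E := by
    intro E hE
    unfold clsE at hE
    rw [mem_filter] at hE
    have h2 := hx E hE.2.1 hE.2.2
    calc (tupleCount x E : ℝ) ≤ C1 * (singularSeries E * X) := h2
      _ = C1 * X * singularSeries E := by ring
  have h2 : ∑ E ∈ clsE r L q d' g, (tupleCount x E : ℝ) ≤ C1 * X * ∑ E ∈ clsE r L q d' g, singularSeries E := by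
    rw [mul_sum]; exact sum_le_sum h1
  have h3 := hss L (clsE r L q d' g) (clsE_subset r L q d' g)
  have h4 := ClsSum_card_le r d' L q hd hq Z hZ hZq hZL g hg
  set A : ℝ := ((L : ℝ) + 1) ^ (r + 1) with hA
  have hA0 : 0 < A := by positivity
  set B : ℝ := Z ^ (r + 1 - d') with hB
  have hB0 : 0 < B := by positivity
  have h5 : ((clsE r L q d' g).card : ℝ) ^ al ≤ 2 ^ (r + 1) * (A ^ al * B ^ (-al)) := by
    calc ((clsE r L q d' g).card : ℝ) ^ al ≤ (2 ^ (r + 1) * (A * B⁻¹)) ^ al :=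
          Real.rpow_le_rpow (Nat.cast_nonneg _) h4 hal0
      _ = (2 ^ (r + 1) : ℝ) ^ al * (A ^ al * B ^ (-al)) := by
          rw [Real.mul_rpow (by positivity) (by positivity), Real.mul_rpow hA0.le (by positivity),
            Real.inv_rpow hB0.le, Real.rpow_neg hB0.le]
      _ ≤ 2 ^ (r + 1) * (A ^ al * B ^ (-al)) := by
          apply mul_le_mul_of_nonneg_right _ (by positivity)
          have h6 : (1:ℝ) ≤ 2 ^ (r + 1) := one_le_pow₀ (by norm_num)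
          calc (2 ^ (r + 1) : ℝ) ^ al ≤ (2 ^ (r + 1) : ℝ) ^ (1:ℝ) := Real.rpow_le_rpow_of_exponent_le h6 hal1
            _ = 2 ^ (r + 1) := Real.rpow_one _
  have h6 : A ^ al * A ^ (1 / (t:ℝ)) = A := by
    rw [← Real.rpow_add hA0, hal]
    have : 1 - 1 / (t:ℝ) + 1 / (t:ℝ) = 1 := by ring
    rw [this, Real.rpow_one]
  calc ∑ E ∈ clsE r L q d' g, (tupleCount x E : ℝ)
      ≤ C1 * X * ∑ E ∈ clsE r L q d' g, singularSeries E := h2
    _ ≤ C1 * X * (C2 * ((clsE r L q d' g).card : ℝ) ^ al * A ^ (1 / (t:ℝ))) :=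
        mul_le_mul_of_nonneg_left h3 (by positivity)
    _ ≤ C1 * X * (C2 * (2 ^ (r + 1) * (A ^ al * B ^ (-al))) * A ^ (1 / (t:ℝ))) := by
        apply mul_le_mul_of_nonneg_left _ (by positivity)
        apply mul_le_mul_of_nonneg_right _ (by positivity)
        exact mul_le_mul_of_nonneg_left h5 hC2.le
    _ = C1 * C2 * 2 ^ (r + 1) * X * (A ^ al * A ^ (1 / (t:ℝ))) * B ^ (-al) := by ring
    _ = C1 * C2 * 2 ^ (r + 1) * X * A * B ^ (-al) := by rw [h6]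

end Pool.Agent.PnLG
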