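import Pool.Agent.PnLG.Defs

open Finset Filter Complex
open scoped ArithmeticFunction.Moebius ArithmeticFunction.vonMangoldt

namespace Pool.Agent.PnLG

open Pool.Agent.ANT
open Pool.Agent.PnPoly.NC (np)

lemma CrtSum_two {m n : ℕ} (hm : m ≠ 0) (hn : n ≠ 0) (co : Nat.Coprime m n) (g h : ℕ → ℝ)
    (hg : ∀ k, g (k + m) = g k) (hh : ∀ k, h (k + n) = h k) :
    ∑ k ∈ range (m * n), g k * h k = (∑ i ∈ range m, g i) * ∑ j ∈ range n, h j := by
  have hg' : ∀ k, g (k % m) = g k := fun k => Function.Periodic.map_mod_nat (f := g) hg k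
  have hh' : ∀ k, h (k % n) = h k := fun k => Function.Periodic.map_mod_nat (f := h) hh k
  rw [Finset.sum_mul_sum, ← Finset.sum_product']
  refine Finset.sum_nbij' (fun k => (k % m, k % n))
    (fun x => (Nat.chineseRemainder co x.1 x.2 : ℕ)) ?_ ?_ ?_ ?_ ?_
  · intro k _
    rw [Finset.mem_product, Finset.mem_range, Finset.mem_range]
    exact ⟨Nat.mod_lt _ (Nat.pos_of_ne_zero hm), Nat.mod_lt _ (Nat.pos_of_ne_zero hn)⟩
  · intro x _
    exact Finset.mem_range.2 (Nat.chineseRemainder_lt_mul co x.1 x.2 hm hn)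
  · intro k hk
    have h1 : k ≡ Nat.chineseRemainder co (k % m) (k % n) [MOD m * n] :=
      Nat.chineseRemainder_modEq_unique co (Nat.mod_modEq k m).symm (Nat.mod_modEq k n).symm
    exact (Nat.ModEq.eq_of_lt_of_lt h1 (Finset.mem_range.1 hk)
      (Nat.chineseRemainder_lt_mul co _ _ hm hn)).symm
  · rintro ⟨i, j⟩ hx
    rw [Finset.mem_product, Finset.mem_range, Finset.mem_range] at hx
    obtain ⟨hi, hj⟩ := hx
    have h1 := (Nat.chineseRemainder co i j).2
    simp only at hi hj ⊢
    rw [Prod.mk.injEq]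
    refine ⟨?_, ?_⟩
    · have h2 := h1.1
      rw [Nat.ModEq, Nat.mod_eq_of_lt hi] at h2
      exact h2
    · have h2 := h1.2
      rw [Nat.ModEq, Nat.mod_eq_of_lt hj] at h2
      exact h2
  · intro k _
    simp only
    rw [hg', hh']

/-- sum of a product of `p`-periodic functions over a full period -/
theorem sum_prod_crt (S : Finset ℕ) (hS : ∀ p ∈ S, p.Prime) (f : ℕ → ℕ → ℝ)
    (hf : ∀ p ∈ S, ∀ k, f p (k + p) = f p k) :
    ∑ k ∈ range (∏ p ∈ S, p), ∏ p ∈ S, f p k = ∏ p ∈ S, ∑ k ∈ range p, f p k := by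
  classical
  induction S using Finset.induction_on with
  | empty => simp
  | insert p S hp ih =>
    have hS' : ∀ q ∈ S, q.Prime := fun q hq => hS q (Finset.mem_insert_of_mem hq)
    have hpp : p.Prime := hS p (Finset.mem_insert_self _ _)
    have hf' : ∀ q ∈ S, ∀ k, f q (k + q) = f q k := fun q hq => hf q (Finset.mem_insert_of_mem hq)
    have ih' := ih hS' hf'
    have hn : ∏ q ∈ S, q ≠ 0 := Finset.prod_ne_zero_iff.2 fun q hq => (hS' q hq).ne_zero
    have hco : Nat.Coprime p (∏ q ∈ S, q) := by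
      refine Nat.Coprime.prod_right fun q hq => ?_
      exact (Nat.coprime_primes hpp (hS' q hq)).2 fun h => hp (h ▸ hq)
    have hper : ∀ q ∈ S, ∀ t k, f q (k + q * t) = f q k := by
      intro q hq t k
      induction t with
      | zero => simp
      | succ t iht =>
        rw [Nat.mul_succ, ← add_assoc, hf' q hq, iht]
    rw [Finset.prod_insert hp, Finset.prod_insert hp, ← ih', ← CrtSum_two hpp.ne_zero hn hco (f p)
      (fun k => ∏ q ∈ S, f q k) (hf p (Finset.mem_insert_self _ _))]
    · exact Finset.sum_congr rfl fun k _ => Finset.prod_insert hp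
    · intro k
      refine Finset.prod_congr rfl fun q hq => ?_
      obtain ⟨t, ht⟩ := Finset.dvd_prod_of_mem (fun q => q) hq
      rw [ht]
      exact hper q hq t k

end Pool.Agent.PnLG
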