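import Pool.Agent.PnPoly.NC.NonConc
import Pool.Agent.Lib.ANT.Major
import Pool.Agent.Lib.ANT.WeylE
import Pool.Agent.Lib.ANT.LSieve

/-!
# Local-to-global principle for almost all constant terms: definitions
-/

open Finset Filter Complex
open scoped ArithmeticFunction.Moebius ArithmeticFunction.vonMangoldt

namespace Pool.Agent.PnLG

open Pool.Agent.ANT
open Pool.Agent.PnPoly.NC (np)

/-- `Q` takes integer values at the integers. -/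
def IntVal (Q : Polynomial ℚ) : Prop := ∀ m : ℤ, ∃ k : ℤ, Q.eval (m : ℚ) = (k : ℚ)

/-- `Q(n)` as an integer. -/
noncomputable def qv (Q : Polynomial ℚ) (n : ℕ) : ℤ := ⌊Q.eval (n : ℚ)⌋

/-- `s_n = p_{n+1} + 2 Q(n+1)` (indices start at `0`). -/
noncomputable def sv (Q : Polynomial ℚ) (n : ℕ) : ℤ := (np n : ℤ) + 2 * qv Q (n + 1)

/-- Exponential sum over `s_n`, `a ≤ n < b`. -/
noncomputable def SE (Q : Polynomial ℚ) (a b : ℕ) (t : ℝ) : ℂ :=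
  ∑ n ∈ Ico a b, ee (t * ((sv Q n : ℤ) : ℝ))

/-- Ramanujan sum (complex valued). -/
noncomputable def rs (q : ℕ) (m : ℤ) : ℂ :=
  ∑ a ∈ (range q).filter (fun a => Nat.Coprime a q), ee ((m : ℝ) * ((a : ℝ) / q))

/-- `V_R(m) = ∑_{q ≤ R} μ(q)/φ(q) c_q(m)`. -/
noncomputable def VR (R : ℕ) (m : ℤ) : ℂ :=
  ∑ q ∈ Ioc 0 R, (((μ q : ℤ) : ℂ) / (q.totient : ℂ)) * rs q m

/-- `g_D(m) = ∑_{d ∣ m, d ≤ D} μ(d) log (D/d)`. -/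
noncomputable def gD (D m : ℕ) : ℝ :=
  ∑ d ∈ (Ioc 0 D).filter (fun d => d ∣ m), ((μ d : ℤ) : ℝ) * Real.log ((D : ℝ) / d)

/-- Ramanujan coefficient of `g_D`. -/
noncomputable def aD (D q : ℕ) : ℝ :=
  ∑ d ∈ (Ioc 0 D).filter (fun d => q ∣ d), ((μ d : ℤ) : ℝ) / d * Real.log ((D : ℝ) / d)

/-- The primes `≤ y`. -/
def Py (y : ℕ) : Finset ℕ := (Icc 1 y).filter Nat.Prime

/-- `Λ_y(m) = ∏_{p ≤ y} (1-1/p)^{-1} 1_{p ∤ m}`. -/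
noncomputable def Ly (y : ℕ) (m : ℤ) : ℝ :=
  ∏ p ∈ Py y, (if (p : ℤ) ∣ m then 0 else (1 - 1 / (p : ℝ))⁻¹)

/-- `D = ⌊X^{1/10}⌋`. -/
noncomputable def DX (X : ℕ) : ℕ := ⌊(X : ℝ) ^ (1 / 10 : ℝ)⌋₊

/-- `R = ⌊(log X)^B⌋`. -/
noncomputable def RX (B X : ℕ) : ℕ := ⌊Real.log X ^ B⌋₊

/-- `D_n = 2 Q(n+i+1) - 2 Q(n+i'+1)` as a real number -/
noncomputable def Dn (Q : Polynomial ℚ) (i i' n : ℕ) : ℝ :=
  2 * ((qv Q (n + i + 1) : ℤ) : ℝ) - 2 * ((qv Q (n + i' + 1) : ℤ) : ℝ)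

/-- Admissible pairs `(H, N)`: `H ≤ N^{max(deg Q,1)} (log H)^{C0}` and `p_N + 2 Q(N) ≤ H`. -/
def OK (Q : Polynomial ℚ) (C0 : ℕ) (H N : ℕ) : Prop :=
  (H : ℝ) ≤ (N : ℝ) ^ (max Q.natDegree 1) * Real.log H ^ C0 ∧ sv Q (N - 1) ≤ H

/-- number of `1 ≤ n ≤ N` with `p_n + 2 (Q(n)+b)` prime -/
noncomputable def cntP (Q : Polynomial ℚ) (N : ℕ) (b : ℤ) : ℕ :=
  {n : ℕ | 1 ≤ n ∧ n ≤ N ∧ ∃ r : ℕ, r.Prime ∧
    (r : ℚ) = ((Nat.nth Nat.Prime (n - 1) : ℕ) : ℚ) + 2 * (Q + Polynomial.C (b : ℚ)).eval (n : ℚ)}.ncard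

/-- `∑_{y < p ≤ y1, p ∣ h} 1/p` -/
noncomputable def Xs (y y1 : ℕ) (h : ℤ) : ℝ :=
  ∑ p ∈ (Py y1 \ Py y).filter (fun p : ℕ => (p : ℤ) ∣ h), 1 / (p : ℝ)

/-- partial product over the primes `y < p ≤ y1` -/
noncomputable def Lw (y y1 : ℕ) (m : ℤ) : ℝ :=
  ∏ p ∈ Py y1 \ Py y, (if (p : ℤ) ∣ m then 0 else (1 - 1 / (p : ℝ))⁻¹)

end Pool.Agent.PnLG
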