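import Pool.Agent.PnLG.Defs

/-!
# Non-concentration for general periodic functions: definitions
-/

open Finset Filter

namespace Pool.Agent.PnLG

open Pool.Agent.PnPoly.NC (np)
open Pool.Agent.HL26

/-- number of primes in `[m, m+L]` -/
def wind (L m : ℕ) : ℕ := ((range (L + 1)).filter (fun e => (m + e).Prime)).card

/-- number of hits `n ∈ A` with `p_n ∈ [m, m+L]` -/
noncomputable def hitw (A : Finset ℕ) (L m : ℕ) : ℕ :=
  (A.filter (fun n => m ≤ np n ∧ np n ≤ m + L)).card

/-- ordered patterns in `[0,L]` whose coordinates of index `≥ d'` are prescribed modulo `q` -/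
noncomputable def cls (r L q d' : ℕ) (g : Fin (r + 1) → (Fin (r + 1) → ℕ) → ℤ) :
    Finset (Fin (r + 1) → ℕ) := by
  classical
  exact (Fintype.piFinset (fun _ => range (L + 1))).filter
    (fun e => ∀ l : Fin (r + 1), d' ≤ (l : ℕ) → (q : ℤ) ∣ (e l : ℤ) - g l e)

/-- the admissible sets underlying the patterns -/
noncomputable def clsE (r L q d' : ℕ) (g : Fin (r + 1) → (Fin (r + 1) → ℕ) → ℤ) :
    Finset (Finset ℕ) := by
  classical
  exact ((cls r L q d' g).image (fun e => univ.image e)).filter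
    (fun E => E.card = r + 1 ∧ ∀ p, p.Prime → nu E p < p)

/-- offsets `I` with `I 0 = 0` and values `< k` -/
noncomputable def offs (r k : ℕ) : Finset (Fin (r + 1) → ℕ) := by
  classical
  exact (Fintype.piFinset (fun _ => range k)).filter (fun I => I 0 = 0)

/-- the set `S` of indices follows one of `T` patterns modulo `q`: in any `r+1` hits of diameter `< Z`
the primes of index `≥ d'` are determined modulo `q` by the first `d'` ones and the offsets -/
def Pat (r d' q T : ℕ) (Z : ℝ) (S : Finset ℕ) : Prop :=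
  ∃ Φ : ℕ → (Fin (r + 1) → ℕ) → Fin (r + 1) → (Fin (r + 1) → ℕ) → ℤ,
    (∀ τ I l e e', (∀ j : Fin (r + 1), (j : ℕ) < d' → e j = e' j) → Φ τ I l e = Φ τ I l e') ∧
    ∀ n : Fin (r + 1) → ℕ, StrictMono n → (∀ l, n l ∈ S) → ((n (Fin.last r) : ℝ) < n 0 + Z) →
      ∀ m : ℕ, m ≤ np (n 0) → ∃ τ < T, ∀ l : Fin (r + 1), d' ≤ (l : ℕ) →
        (q : ℤ) ∣ ((np (n l) : ℤ) - m) - Φ τ (fun l => n l - n 0) l (fun j => np (n j) - m)

end Pool.Agent.PnLG
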