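import Pool.Agent.PnLG.Defs

open Finset

namespace Pool.Agent.PnLG

/-- local condition at the primes `≤ y`: either `Q + b` has a zero modulo every prime `p ≤ y`, or for
every odd prime `p ≤ y` there is a residue class `a ≢ 0 (mod p)` such that `a + 2(Q(n)+b) ≢ 0 (mod p)`
for all integers `n`. -/
def Adm (Q : Polynomial ℚ) (y : ℕ) (b : ℤ) : Prop :=
  (∀ p ∈ Py y, ∃ ν : ℤ, (p : ℤ) ∣ ⌊Q.eval (ν : ℚ)⌋ + b) ∨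
  (∀ p ∈ Py y, p ≠ 2 → ∃ a : ℤ, ¬ (p : ℤ) ∣ a ∧
    ∀ n : ℤ, ¬ (p : ℤ) ∣ a + 2 * (⌊Q.eval (n : ℚ)⌋ + b))

end Pool.Agent.PnLG
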