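import Pool.Agent.PnLG.Defs

open Finset Filter Complex
open scoped ArithmeticFunction.Moebius ArithmeticFunction.vonMangoldt

namespace Pool.Agent.PnLG

open Pool.Agent.ANT
open Pool.Agent.PnPoly.NC (np)

namespace DualAux

/-- a number of modulus at most one turning `z` to its modulus -/
lemma exists_phase (z : ℂ) : ∃ c : ℂ, ‖c‖ ≤ 1 ∧ c * z = (‖z‖ : ℂ) := by
  by_cases hz : z = 0
  · exact ⟨0, by simp, by simp [hz]⟩
  · have hn : (‖z‖ : ℂ) ≠ 0 := by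
      exact_mod_cast (norm_ne_zero_iff.2 hz)
    refine ⟨(starRingEnd ℂ) z / (‖z‖ : ℂ), ?_, ?_⟩
    · rw [norm_div, RCLike.norm_conj, Complex.norm_real, norm_norm]
      exact div_self_le_one _
    · rw [div_mul_eq_mul_div, mul_comm ((starRingEnd ℂ) z) z, Complex.mul_conj', sq, mul_div_assoc,
        div_self hn, mul_one]

lemma dual_expand {ι : Type*} (T : Finset ι) (s : Finset ℕ) (c : ι → ℂ) (hc : ∀ j, ‖c j‖ ≤ 1)
    (φ : ι → ℕ → ℂ) :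
    ∑ n ∈ s, ‖∑ j ∈ T, c j * φ j n‖ ^ 2 ≤
      ∑ j ∈ T, ∑ j' ∈ T, ‖∑ n ∈ s, φ j n * (starRingEnd ℂ) (φ j' n)‖ := by
  have h1 : ((∑ n ∈ s, ‖∑ j ∈ T, c j * φ j n‖ ^ 2 : ℝ) : ℂ) =
      ∑ j ∈ T, ∑ j' ∈ T, (c j * (starRingEnd ℂ) (c j')) *
        ∑ n ∈ s, φ j n * (starRingEnd ℂ) (φ j' n) := by
    push_cast
    have h2 : ∀ n ∈ s, ((‖∑ j ∈ T, c j * φ j n‖ : ℂ)) ^ 2 =
        ∑ j ∈ T, ∑ j' ∈ T, (c j * (starRingEnd ℂ) (c j')) *
          (φ j n * (starRingEnd ℂ) (φ j' n)) := by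
      intro n _
      rw [← Complex.mul_conj', map_sum, Finset.sum_mul_sum]
      refine Finset.sum_congr rfl fun j _ => Finset.sum_congr rfl fun j' _ => ?_
      rw [map_mul]
      ring
    rw [Finset.sum_congr rfl h2, Finset.sum_comm]
    refine Finset.sum_congr rfl fun j _ => ?_
    rw [Finset.sum_comm]
    refine Finset.sum_congr rfl fun j' _ => ?_
    rw [Finset.mul_sum]
  have h0 : 0 ≤ ∑ n ∈ s, ‖∑ j ∈ T, c j * φ j n‖ ^ 2 := Finset.sum_nonneg fun n _ => by positivity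
  have h3 : ∑ n ∈ s, ‖∑ j ∈ T, c j * φ j n‖ ^ 2 =
      ‖((∑ n ∈ s, ‖∑ j ∈ T, c j * φ j n‖ ^ 2 : ℝ) : ℂ)‖ := by
    rw [Complex.norm_real, Real.norm_of_nonneg h0]
  rw [h3, h1]
  refine (norm_sum_le _ _).trans (Finset.sum_le_sum fun j _ => ?_)
  refine (norm_sum_le _ _).trans (Finset.sum_le_sum fun j' _ => ?_)
  rw [norm_mul, norm_mul, RCLike.norm_conj]
  have h4 : ‖c j‖ * ‖c j'‖ ≤ 1 := mul_le_one₀ (hc j) (norm_nonneg _) (hc j')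
  exact mul_le_of_le_one_left (norm_nonneg _) h4

lemma cs_card (s : Finset ℕ) (F : ℕ → ℝ) :
    (∑ n ∈ s, F n) ^ 2 ≤ (s.card : ℝ) * ∑ n ∈ s, F n ^ 2 := by
  exact sq_sum_le_card_mul_sum_sq

/-- from the lower bound for the sum to the conclusion, once the square of the sum is bounded -/
lemma finish {κ t L S R : ℝ} (hκ : 0 ≤ κ) (ht : 0 ≤ t) (hL : 0 ≤ L) (hR : 0 ≤ R)
    (h : κ * t * L ≤ S) (h2 : S ^ 2 ≤ L * R) : κ ^ 2 * t ^ 2 * L ≤ R := by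
  rcases hL.eq_or_lt with h0 | h0
  · rw [← h0]; simpa using hR
  · have h1 : (κ * t * L) ^ 2 ≤ L * R :=
      (pow_le_pow_left₀ (by positivity) h 2).trans h2
    have h3 : L * (κ ^ 2 * t ^ 2 * L) ≤ L * R := by
      calc L * (κ ^ 2 * t ^ 2 * L) = (κ * t * L) ^ 2 := by ring
        _ ≤ L * R := h1
    exact le_of_mul_le_mul_left h3 h0

end DualAux

open DualAux

theorem duality {ι : Type*} (T : Finset ι) (a b : ℕ) (hab : a ≤ b) (φ : ι → ℕ → ℂ) (w : ℕ → ℂ)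
    (hw : ∀ n, ‖w n‖ ≤ 1) (κ : ℝ) (hκ : 0 ≤ κ)
    (h : κ * T.card * ((b : ℝ) - a) ≤ ∑ j ∈ T, ‖∑ n ∈ Ico a b, w n * φ j n‖) :
    κ ^ 2 * (T.card : ℝ) ^ 2 * ((b : ℝ) - a) ≤
      ∑ j ∈ T, ∑ j' ∈ T, ‖∑ n ∈ Ico a b, φ j n * (starRingEnd ℂ) (φ j' n)‖ := by
  choose c hc1 hc2 using fun j => exists_phase (∑ n ∈ Ico a b, w n * φ j n)
  have hL : (0:ℝ) ≤ (b : ℝ) - a := by
    have : (a : ℝ) ≤ b := by exact_mod_cast hab
    linarith
  have h1 : ((∑ j ∈ T, ‖∑ n ∈ Ico a b, w n * φ j n‖ : ℝ) : ℂ) =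
      ∑ n ∈ Ico a b, w n * ∑ j ∈ T, c j * φ j n := by
    push_cast
    rw [Finset.sum_congr rfl fun j _ => (hc2 j).symm]
    simp_rw [Finset.mul_sum]
    rw [Finset.sum_comm]
    refine Finset.sum_congr rfl fun n _ => Finset.sum_congr rfl fun j _ => ?_
    ring
  have h0 : 0 ≤ ∑ j ∈ T, ‖∑ n ∈ Ico a b, w n * φ j n‖ := Finset.sum_nonneg fun j _ => norm_nonneg _
  have h2 : ∑ j ∈ T, ‖∑ n ∈ Ico a b, w n * φ j n‖ ≤
      ∑ n ∈ Ico a b, ‖∑ j ∈ T, c j * φ j n‖ := by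
    have e : ∑ j ∈ T, ‖∑ n ∈ Ico a b, w n * φ j n‖ =
        ‖((∑ j ∈ T, ‖∑ n ∈ Ico a b, w n * φ j n‖ : ℝ) : ℂ)‖ := by
      rw [Complex.norm_real, Real.norm_of_nonneg h0]
    rw [e, h1]
    refine (norm_sum_le _ _).trans (Finset.sum_le_sum fun n _ => ?_)
    rw [norm_mul]
    exact mul_le_of_le_one_left (norm_nonneg _) (hw n)
  refine finish hκ (Nat.cast_nonneg _) hL (Finset.sum_nonneg fun j _ =>
    Finset.sum_nonneg fun j' _ => norm_nonneg _) (h.trans h2) ?_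
  refine (cs_card _ _).trans ?_
  rw [Nat.card_Ico, Nat.cast_sub hab]
  exact mul_le_mul_of_nonneg_left (dual_expand T _ c hc1 φ) hL

/-- duality, with the unknown bounded `g n` replaced by the sum over all its possible values -/
theorem duality_gap {ι : Type*} (T : Finset ι) (a b : ℕ) (hab : a ≤ b) (t : ι → ℝ) (g : ℕ → ℕ) (G0 : ℕ)
    (Dn : ℕ → ℝ) (κ : ℝ) (hκ : 0 ≤ κ)
    (h : κ * T.card * ((b : ℝ) - a) ≤
      ∑ j ∈ T, ‖∑ n ∈ (Ico a b).filter (fun n => g n ≤ G0), ee (t j * ((g n : ℝ) + Dn n))‖) :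
    κ ^ 2 * (T.card : ℝ) ^ 2 * ((b : ℝ) - a) ≤
      (G0 + 1) * ∑ j ∈ T, ∑ j' ∈ T, ‖∑ n ∈ Ico a b, ee ((t j - t j') * Dn n)‖ := by
  choose c hc1 hc2 using fun j => exists_phase
    (∑ n ∈ (Ico a b).filter (fun n => g n ≤ G0), ee (t j * ((g n : ℝ) + Dn n)))
  have hL : (0:ℝ) ≤ (b : ℝ) - a := by
    have : (a : ℝ) ≤ b := by exact_mod_cast hab
    linarith
  set Fs := (Ico a b).filter (fun n => g n ≤ G0) with hFs
  have h1 : ((∑ j ∈ T, ‖∑ n ∈ Fs, ee (t j * ((g n : ℝ) + Dn n))‖ : ℝ) : ℂ) =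
      ∑ n ∈ Fs, ∑ j ∈ T, c j * ee (t j * ((g n : ℝ) + Dn n)) := by
    push_cast
    rw [Finset.sum_congr rfl fun j _ => (hc2 j).symm]
    simp_rw [Finset.mul_sum]
    rw [Finset.sum_comm]
  have h0 : 0 ≤ ∑ j ∈ T, ‖∑ n ∈ Fs, ee (t j * ((g n : ℝ) + Dn n))‖ :=
    Finset.sum_nonneg fun j _ => norm_nonneg _
  have h2 : ∑ j ∈ T, ‖∑ n ∈ Fs, ee (t j * ((g n : ℝ) + Dn n))‖ ≤
      ∑ n ∈ Fs, ‖∑ j ∈ T, c j * ee (t j * ((g n : ℝ) + Dn n))‖ := by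
    have e : ∑ j ∈ T, ‖∑ n ∈ Fs, ee (t j * ((g n : ℝ) + Dn n))‖ =
        ‖((∑ j ∈ T, ‖∑ n ∈ Fs, ee (t j * ((g n : ℝ) + Dn n))‖ : ℝ) : ℂ)‖ := by
      rw [Complex.norm_real, Real.norm_of_nonneg h0]
    rw [e, h1]
    exact norm_sum_le _ _
  have hcard : (Fs.card : ℝ) ≤ (b : ℝ) - a := by
    have := Finset.card_filter_le (Ico a b) (fun n => g n ≤ G0)
    rw [Nat.card_Ico] at this
    rw [← Nat.cast_sub hab]
    exact_mod_cast this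
  have h3 : ∑ n ∈ Fs, ‖∑ j ∈ T, c j * ee (t j * ((g n : ℝ) + Dn n))‖ ^ 2 ≤
      ∑ k ∈ range (G0 + 1), ∑ n ∈ Ico a b,
        ‖∑ j ∈ T, (c j * ee (t j * (k : ℝ))) * ee (t j * Dn n)‖ ^ 2 := by
    have h4 : ∀ n ∈ Fs, ‖∑ j ∈ T, c j * ee (t j * ((g n : ℝ) + Dn n))‖ ^ 2 ≤
        ∑ k ∈ range (G0 + 1), ‖∑ j ∈ T, (c j * ee (t j * (k : ℝ))) * ee (t j * Dn n)‖ ^ 2 := by
      intro n hn
      rw [hFs, Finset.mem_filter] at hn
      have e : ∑ j ∈ T, c j * ee (t j * ((g n : ℝ) + Dn n)) =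
          ∑ j ∈ T, (c j * ee (t j * ((g n : ℕ) : ℝ))) * ee (t j * Dn n) := by
        refine Finset.sum_congr rfl fun j _ => ?_
        rw [mul_add, ee_add, mul_assoc]
      rw [e]
      exact Finset.single_le_sum
        (f := fun k : ℕ => ‖∑ j ∈ T, (c j * ee (t j * (k : ℝ))) * ee (t j * Dn n)‖ ^ 2)
        (fun k _ => by positivity) (Finset.mem_range.2 (by omega))
    refine (Finset.sum_le_sum h4).trans ?_
    rw [Finset.sum_comm]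
    refine Finset.sum_le_sum fun k _ => ?_
    exact Finset.sum_le_sum_of_subset_of_nonneg (Finset.filter_subset _ _)
      fun n _ _ => by positivity
  have h5 : ∀ k ∈ range (G0 + 1), ∑ n ∈ Ico a b,
        ‖∑ j ∈ T, (c j * ee (t j * (k : ℝ))) * ee (t j * Dn n)‖ ^ 2 ≤
      ∑ j ∈ T, ∑ j' ∈ T, ‖∑ n ∈ Ico a b, ee ((t j - t j') * Dn n)‖ := by
    intro k _
    refine (dual_expand T (Ico a b) (fun j => c j * ee (t j * (k : ℝ))) (fun j => ?_)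
      (fun j n => ee (t j * Dn n))).trans (le_of_eq ?_)
    · rw [norm_mul, norm_ee, mul_one]; exact hc1 j
    · refine Finset.sum_congr rfl fun j _ => Finset.sum_congr rfl fun j' _ => ?_
      congr 1
      refine Finset.sum_congr rfl fun n _ => ?_
      rw [conj_ee, ← ee_add]
      congr 1
      ring
  have h6 := h3.trans (Finset.sum_le_sum h5)
  rw [Finset.sum_const, Finset.card_range, nsmul_eq_mul] at h6
  push_cast at h6
  have hR : 0 ≤ ∑ j ∈ T, ∑ j' ∈ T, ‖∑ n ∈ Ico a b, ee ((t j - t j') * Dn n)‖ :=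
    Finset.sum_nonneg fun j _ => Finset.sum_nonneg fun j' _ => norm_nonneg _
  have hG : (0:ℝ) ≤ (G0 : ℝ) + 1 := by positivity
  have h7 : (∑ n ∈ Fs, ‖∑ j ∈ T, c j * ee (t j * ((g n : ℝ) + Dn n))‖) ^ 2 ≤
      ((b : ℝ) - a) * (((G0 : ℝ) + 1) *
        ∑ j ∈ T, ∑ j' ∈ T, ‖∑ n ∈ Ico a b, ee ((t j - t j') * Dn n)‖) :=
    (cs_card Fs _).trans
      (mul_le_mul hcard h6 (Finset.sum_nonneg fun n _ => sq_nonneg _) hL)
  exact finish hκ (Nat.cast_nonneg _) hL (mul_nonneg hG hR) (h.trans h2) h7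

end Pool.Agent.PnLG
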