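import Pool.Agent.PnLG.ResSum

open Finset Filter Complex
open scoped ArithmeticFunction.Moebius ArithmeticFunction.vonMangoldt

namespace Pool.Agent.PnLG

open Pool.Agent.ANT
open Pool.Agent.PnPoly.NC (np)

/-- expansion of the exponential over the subsets of a set of primes -/
theorem expMom_expand (S : Finset ℕ) (hS : ∀ p ∈ S, p.Prime) (l : ℝ) (h : ℤ) :
    Real.exp (l * ∑ p ∈ S.filter (fun p : ℕ => (p : ℤ) ∣ h), 1 / (p : ℝ)) =
      ∑ T ∈ S.powerset, (∏ p ∈ T, (Real.exp (l / p) - 1)) *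
        (if ((∏ p ∈ T, p : ℕ) : ℤ) ∣ h then 1 else 0) := by
  rw [Finset.mul_sum, Real.exp_sum, Finset.prod_filter]
  have h1 : ∀ p ∈ S, (if (p : ℤ) ∣ h then Real.exp (l * (1 / (p:ℝ))) else 1) =
      1 + (Real.exp (l / p) - 1) * (if (p : ℤ) ∣ h then 1 else 0) := by
    intro p hp
    split_ifs with hd
    · rw [mul_one_div]; ring
    · ring
  rw [Finset.prod_congr rfl h1, Finset.prod_one_add]
  refine Finset.sum_congr rfl fun T hT => ?_
  rw [Finset.prod_mul_distrib]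
  congr 1
  rw [Finset.mem_powerset] at hT
  by_cases hd : ((∏ p ∈ T, p : ℕ) : ℤ) ∣ h
  · rw [if_pos hd]
    refine Finset.prod_eq_one fun p hp => ?_
    rw [if_pos]
    refine dvd_trans ?_ hd
    exact_mod_cast Finset.dvd_prod_of_mem (fun p => p) hp
  · rw [if_neg hd]
    have : ∃ p ∈ T, ¬ (p : ℤ) ∣ h := by
      by_contra hcon
      push Not at hcon
      apply hd
      rw [Int.natCast_dvd]
      refine Finset.prod_primes_dvd _ (fun p hp => (hS p (hT hp)).prime) fun p hp => ?_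
      rw [← Int.natCast_dvd]
      exact hcon p hp
    obtain ⟨p, hp, hnp⟩ := this
    exact Finset.prod_eq_zero hp (by rw [if_neg hnp])

/-- the size of one factor -/
theorem expMom_factor (c : ℝ) (hc : 0 < c) (hc2 : c ≤ 1 / 8) (y p : ℕ) (hy : 2 ≤ y) (hp : y < p)
    (hL : 1 ≤ (y : ℝ) * Real.log y) :
    (Real.exp (c * (y * Real.log y) / p) - 1) * (p : ℝ) ^ (-(4 * c)) ≤
      2 * (y * Real.log y) ^ (1 - c) * (p : ℝ) ^ (-(1 + c)) := by
  set L : ℝ := (y : ℝ) * Real.log y with hLdef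
  have hp0 : (0 : ℝ) < p := by
    have : 0 < p := by omega
    exact_mod_cast this
  have hy0 : (0 : ℝ) < y := by
    have : 0 < y := by omega
    exact_mod_cast this
  have hL0 : 0 < L := by linarith
  have hlogy : 0 < Real.log y := by
    apply Real.log_pos
    have : 1 < y := by omega
    exact_mod_cast this
  have hyp : (y : ℝ) ≤ p := by exact_mod_cast hp.le
  have hlog : Real.log y ≤ Real.log p := Real.log_le_log hy0 hyp
  rcases le_or_gt (p : ℝ) L with hpL | hpL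
  · -- p ≤ L
    have h1 : Real.exp (c * L / p) ≤ (p : ℝ) ^ c := by
      rw [Real.rpow_def_of_pos hp0, Real.exp_le_exp, hLdef]
      rw [div_le_iff₀ hp0]
      have : (y : ℝ) * Real.log y ≤ p * Real.log p := by gcongr
      calc c * ((y : ℝ) * Real.log y) ≤ c * (p * Real.log p) := by gcongr
        _ = Real.log p * c * p := by ring
    have h2 : (Real.exp (c * L / p) - 1) * (p : ℝ) ^ (-(4 * c)) ≤ (p : ℝ) ^ c * (p : ℝ) ^ (-(4 * c)) := by
      gcongr
      linarith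
    have h3 : (p : ℝ) ^ c * (p : ℝ) ^ (-(4 * c)) = (p : ℝ) ^ (1 - 2 * c) * (p : ℝ) ^ (-(1 + c)) := by
      rw [← Real.rpow_add hp0, ← Real.rpow_add hp0]
      congr 1
      ring
    have h4 : (p : ℝ) ^ (1 - 2 * c) ≤ L ^ (1 - c) := by
      calc (p : ℝ) ^ (1 - 2 * c) ≤ L ^ (1 - 2 * c) := by
            apply Real.rpow_le_rpow hp0.le hpL
            linarith
        _ ≤ L ^ (1 - c) := by
            apply Real.rpow_le_rpow_of_exponent_le hL
            linarith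
    have h5 : 0 ≤ L ^ (1 - c) := (Real.rpow_pos_of_pos hL0 _).le
    calc (Real.exp (c * L / p) - 1) * (p : ℝ) ^ (-(4 * c)) ≤ (p : ℝ) ^ c * (p : ℝ) ^ (-(4 * c)) := h2
      _ = (p : ℝ) ^ (1 - 2 * c) * (p : ℝ) ^ (-(1 + c)) := h3
      _ ≤ (2 * L ^ (1 - c)) * (p : ℝ) ^ (-(1 + c)) := by
          gcongr
          linarith
  · have h0 : c * L / p ≤ 1 := by
      rw [div_le_one hp0]
      nlinarith
    have h00 : 0 ≤ c * L / p := by positivity
    have h1 : Real.exp (c * L / p) - 1 ≤ 2 * L / p := by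
      have h := Real.abs_exp_sub_one_le (x := c * L / p) (by rw [abs_of_nonneg h00]; exact h0)
      rw [abs_of_nonneg h00] at h
      have h' := le_trans (le_abs_self _) h
      refine h'.trans ?_
      have : c * L / p ≤ L / p := by
        gcongr
        nlinarith
      calc 2 * (c * L / p) ≤ 2 * (L / p) := by linarith
        _ = 2 * L / p := by ring
    have h3 : 2 * L / p * (p : ℝ) ^ (-(4 * c)) = 2 * (L * (p : ℝ) ^ (-(3 * c))) * (p : ℝ) ^ (-(1 + c)) := by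
      have : (p : ℝ) ^ (-(4 * c)) = p * ((p : ℝ) ^ (-(3 * c)) * (p : ℝ) ^ (-(1 + c))) := by
        have h6 : (p : ℝ) * ((p : ℝ) ^ (-(3 * c)) * (p : ℝ) ^ (-(1 + c))) =
            (p : ℝ) ^ (1 : ℝ) * ((p : ℝ) ^ (-(3 * c)) * (p : ℝ) ^ (-(1 + c))) := by
          rw [Real.rpow_one]
        rw [h6, ← Real.rpow_add hp0, ← Real.rpow_add hp0]
        congr 1
        ring
      rw [this]
      field_simp
    have h4 : L * (p : ℝ) ^ (-(3 * c)) ≤ L ^ (1 - c) := by
      have h5 : (p : ℝ) ^ (-(3 * c)) ≤ L ^ (-(3 * c)) := by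
        apply Real.rpow_le_rpow_of_nonpos hL0 hpL.le
        linarith
      calc L * (p : ℝ) ^ (-(3 * c)) ≤ L * L ^ (-(3 * c)) := by gcongr
        _ = L ^ (1 : ℝ) * L ^ (-(3 * c)) := by rw [Real.rpow_one]
        _ = L ^ (1 - 3 * c) := by
            rw [← Real.rpow_add hL0]
            congr 1
        _ ≤ L ^ (1 - c) := by
            apply Real.rpow_le_rpow_of_exponent_le hL
            linarith
    calc (Real.exp (c * L / p) - 1) * (p : ℝ) ^ (-(4 * c)) ≤ 2 * L / p * (p : ℝ) ^ (-(4 * c)) := by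
          gcongr
      _ = 2 * (L * (p : ℝ) ^ (-(3 * c))) * (p : ℝ) ^ (-(1 + c)) := h3
      _ ≤ 2 * L ^ (1 - c) * (p : ℝ) ^ (-(1 + c)) := by gcongr

/-- `y log y ≥ 1` for `y ≥ 2` -/
theorem expMom_one_le (y : ℕ) (hy : 2 ≤ y) : 1 ≤ (y : ℝ) * Real.log y := by
  have h1 : (2 : ℝ) ≤ y := by exact_mod_cast hy
  have h2 : Real.log 2 ≤ Real.log y := Real.log_le_log (by norm_num) h1
  have h3 := Real.log_two_gt_d9
  nlinarith

/-- the product over the primes -/
theorem expMom_prod (c : ℝ) (hc : 0 < c) (hc2 : c ≤ 1 / 8) (y y1 : ℕ) (hy : 2 ≤ y) :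
    ∏ p ∈ Py y1 \ Py y, (1 + (Real.exp (c * (y * Real.log y) / p) - 1) * (p : ℝ) ^ (-(4 * c))) ≤
      Real.exp (2 * (∑' n : ℕ, (n : ℝ) ^ (-(1 + c))) * (y * Real.log y) ^ (1 - c)) := by
  have hL := expMom_one_le y hy
  have hL0 : 0 < (y : ℝ) * Real.log y := by linarith
  have hmem : ∀ p ∈ Py y1 \ Py y, y < p := by
    intro p hp
    rw [Finset.mem_sdiff] at hp
    simp only [Py, Finset.mem_filter, Finset.mem_Icc] at hp
    by_contra hcon
    exact hp.2 ⟨⟨hp.1.1.1, by omega⟩, hp.1.2⟩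
  have hsum : Summable (fun n : ℕ => (n : ℝ) ^ (-(1 + c))) := by
    rw [Real.summable_nat_rpow]
    linarith
  calc ∏ p ∈ Py y1 \ Py y, (1 + (Real.exp (c * (y * Real.log y) / p) - 1) * (p : ℝ) ^ (-(4 * c)))
      ≤ ∏ p ∈ Py y1 \ Py y, Real.exp (2 * (y * Real.log y) ^ (1 - c) * (p : ℝ) ^ (-(1 + c))) := by
        refine Finset.prod_le_prod (fun p hp => ?_) fun p hp => ?_
        · have h1 : 0 ≤ Real.exp (c * (y * Real.log y) / p) - 1 := by
            have : 0 ≤ c * (y * Real.log y) / p := by positivity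
            have := Real.one_le_exp this
            linarith
          positivity
        · have h1 := expMom_factor c hc hc2 y p hy (hmem p hp) hL
          have h2 := Real.add_one_le_exp (2 * (y * Real.log y) ^ (1 - c) * (p : ℝ) ^ (-(1 + c)))
          linarith
    _ = Real.exp (∑ p ∈ Py y1 \ Py y, 2 * (y * Real.log y) ^ (1 - c) * (p : ℝ) ^ (-(1 + c))) := by
        rw [Real.exp_sum]
    _ ≤ Real.exp (2 * (∑' n : ℕ, (n : ℝ) ^ (-(1 + c))) * (y * Real.log y) ^ (1 - c)) := by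
        rw [Real.exp_le_exp, ← Finset.mul_sum]
        have h3 : ∑ p ∈ Py y1 \ Py y, (p : ℝ) ^ (-(1 + c)) ≤ ∑' n : ℕ, (n : ℝ) ^ (-(1 + c)) :=
          hsum.sum_le_tsum _ (fun n _ => by positivity)
        have h4 : 0 ≤ 2 * ((y : ℝ) * Real.log y) ^ (1 - c) := by positivity
        calc 2 * ((y : ℝ) * Real.log y) ^ (1 - c) * ∑ p ∈ Py y1 \ Py y, (p : ℝ) ^ (-(1 + c))
            ≤ 2 * ((y : ℝ) * Real.log y) ^ (1 - c) * ∑' n : ℕ, (n : ℝ) ^ (-(1 + c)) := by gcongr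
          _ = _ := by ring

/-- exponential moment of `∑_{y<p≤y1, p ∣ s_n - s_m} 1/p` -/
theorem exp_moment (Q : Polynomial ℚ) (hQ : IntVal Q) : ∃ C c : ℝ, 0 < C ∧ 0 < c ∧ c ≤ 1 / 2 ∧
    ∀ y y1 : ℕ, 2 ≤ y → ∀ᶠ N : ℕ in atTop,
      ∑ n ∈ range N, ∑ m ∈ range N, Real.exp (c * (y * Real.log y) * Xs y y1 (sv Q n - sv Q m)) ≤
        C * (N : ℝ) ^ 2 * Real.exp (C * (y * Real.log y) ^ (1 - c)) := by
  obtain ⟨C', c', hC', hc', hc'2, hnc⟩ := nonconc_sv Q hQ
  set Z : ℝ := ∑' n : ℕ, (n : ℝ) ^ (-(1 + c' / 4)) with hZ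
  have hZ0 : 0 ≤ Z := tsum_nonneg fun n => by positivity
  refine ⟨C' + 2 * Z, c' / 4, by positivity, by positivity, by linarith, ?_⟩
  intro y y1 hy
  set S := Py y1 \ Py y with hS
  have hSp : ∀ p ∈ S, p.Prime := by
    intro p hp
    rw [hS, Finset.mem_sdiff] at hp
    simp only [Py, Finset.mem_filter] at hp
    exact hp.1.2
  set L : ℝ := (y : ℝ) * Real.log y with hLdef
  have hL1 : 1 ≤ L := expMom_one_le y hy
  have hL0 : 0 < L := by linarith
  have hev : ∀ᶠ N : ℕ in atTop, ((∏ p ∈ S, p : ℕ) : ℝ) ≤ Real.log N :=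
    (Real.tendsto_log_atTop.comp tendsto_natCast_atTop_atTop).eventually_ge_atTop _
  filter_upwards [hev] with N hN
  set c : ℝ := c' / 4 with hcdef
  have hc0 : 0 < c := by positivity
  have hc8 : c ≤ 1 / 8 := by rw [hcdef]; linarith
  have hc4 : c' = 4 * c := by rw [hcdef]; ring
  -- counting
  have hcount : ∀ T ∈ S.powerset, ∑ n ∈ range N, ∑ m ∈ range N,
      (if ((∏ p ∈ T, p : ℕ) : ℤ) ∣ (sv Q n - sv Q m) then (1 : ℝ) else 0) ≤
        C' * (N : ℝ) ^ 2 * ∏ p ∈ T, (p : ℝ) ^ (-(4 * c)) := by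
    intro T hT
    rw [Finset.mem_powerset] at hT
    have hpos : ∀ p ∈ T, 0 < p := fun p hp => (hSp p (hT hp)).pos
    have hq1 : 1 ≤ ∏ p ∈ T, p := Finset.prod_pos hpos
    have hqle : (∏ p ∈ T, p) ≤ ∏ p ∈ S, p :=
      Nat.le_of_dvd (Finset.prod_pos fun p hp => (hSp p hp).pos) (Finset.prod_dvd_prod_of_subset _ _ _ hT)
    rw [Finset.sum_comm]
    have h1 : ∀ m ∈ range N, ∑ n ∈ range N,
        (if ((∏ p ∈ T, p : ℕ) : ℤ) ∣ (sv Q n - sv Q m) then (1 : ℝ) else 0) ≤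
          C' * N * ∏ p ∈ T, (p : ℝ) ^ (-(4 * c)) := by
      intro m hm
      have h2 := hnc N (∏ p ∈ T, p) hq1 ((∏ p ∈ T, p : ℕ) : ℝ) (by exact_mod_cast hq1) le_rfl
        (le_trans (by exact_mod_cast hqle) hN) (sv Q m)
      rw [Finset.sum_boole]
      refine h2.trans (le_of_eq ?_)
      congr 1
      rw [hc4, Nat.cast_prod, Real.finsetProd_rpow _ _ (fun p hp => by positivity)]
    calc ∑ m ∈ range N, ∑ n ∈ range N,
        (if ((∏ p ∈ T, p : ℕ) : ℤ) ∣ (sv Q n - sv Q m) then (1 : ℝ) else 0)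
        ≤ ∑ m ∈ range N, C' * N * ∏ p ∈ T, (p : ℝ) ^ (-(4 * c)) := Finset.sum_le_sum h1
      _ = C' * (N : ℝ) ^ 2 * ∏ p ∈ T, (p : ℝ) ^ (-(4 * c)) := by
          rw [Finset.sum_const, Finset.card_range, nsmul_eq_mul]
          ring
  have hexp0 : ∀ p : ℕ, 0 ≤ Real.exp (c * L / p) - 1 := by
    intro p
    have h1 : 0 ≤ c * L / p := by positivity
    have := Real.one_le_exp h1
    linarith
  calc ∑ n ∈ range N, ∑ m ∈ range N, Real.exp (c * L * Xs y y1 (sv Q n - sv Q m))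
      = ∑ n ∈ range N, ∑ m ∈ range N, ∑ T ∈ S.powerset, (∏ p ∈ T, (Real.exp (c * L / p) - 1)) *
        (if ((∏ p ∈ T, p : ℕ) : ℤ) ∣ (sv Q n - sv Q m) then 1 else 0) := by
        refine Finset.sum_congr rfl fun n _ => Finset.sum_congr rfl fun m _ => ?_
        exact expMom_expand S hSp (c * L) _
    _ = ∑ T ∈ S.powerset, (∏ p ∈ T, (Real.exp (c * L / p) - 1)) * ∑ n ∈ range N, ∑ m ∈ range N,
        (if ((∏ p ∈ T, p : ℕ) : ℤ) ∣ (sv Q n - sv Q m) then 1 else 0) := by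
        have h1 : ∀ n ∈ range N, ∑ m ∈ range N, ∑ T ∈ S.powerset,
            (∏ p ∈ T, (Real.exp (c * L / p) - 1)) *
              (if ((∏ p ∈ T, p : ℕ) : ℤ) ∣ (sv Q n - sv Q m) then (1 : ℝ) else 0) =
            ∑ T ∈ S.powerset, ∑ m ∈ range N, (∏ p ∈ T, (Real.exp (c * L / p) - 1)) *
              (if ((∏ p ∈ T, p : ℕ) : ℤ) ∣ (sv Q n - sv Q m) then (1 : ℝ) else 0) :=
          fun n _ => Finset.sum_comm
        rw [Finset.sum_congr rfl h1, Finset.sum_comm]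
        refine Finset.sum_congr rfl fun T _ => ?_
        rw [Finset.mul_sum]
        refine Finset.sum_congr rfl fun n _ => ?_
        rw [Finset.mul_sum]
    _ ≤ ∑ T ∈ S.powerset, (∏ p ∈ T, (Real.exp (c * L / p) - 1)) *
          (C' * (N : ℝ) ^ 2 * ∏ p ∈ T, (p : ℝ) ^ (-(4 * c))) := by
        refine Finset.sum_le_sum fun T hT => ?_
        exact mul_le_mul_of_nonneg_left (hcount T hT) (Finset.prod_nonneg fun p _ => hexp0 p)
    _ = C' * (N : ℝ) ^ 2 * ∏ p ∈ S, (1 + (Real.exp (c * L / p) - 1) * (p : ℝ) ^ (-(4 * c))) := by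
        rw [Finset.prod_one_add, Finset.mul_sum]
        refine Finset.sum_congr rfl fun T _ => ?_
        rw [Finset.prod_mul_distrib]
        ring
    _ ≤ C' * (N : ℝ) ^ 2 * Real.exp (2 * Z * L ^ (1 - c)) := by
        have := expMom_prod c hc0 hc8 y y1 hy
        gcongr
    _ ≤ (C' + 2 * Z) * (N : ℝ) ^ 2 * Real.exp ((C' + 2 * Z) * L ^ (1 - c)) := by
        have h1 : (0 : ℝ) ≤ L ^ (1 - c) := by positivity
        gcongr <;> linarith

end Pool.Agent.PnLG
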