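import Pool.Agent.PnLG.Defs

open Finset Filter Complex
open scoped ArithmeticFunction.Moebius ArithmeticFunction.vonMangoldt

namespace Pool.Agent.PnLG

open Pool.Agent.ANT
open Pool.Agent.PnPoly.NC (np)

/-- telescoping -/
theorem gap_tele (F : ℕ → ℕ) (a b : ℕ) (hab : a ≤ b) :
    ∑ n ∈ Ico a b, F (n + 1) + F a = ∑ n ∈ Ico a b, F n + F b := by
  induction b, hab using Nat.le_induction with
  | base => simp
  | succ b hb ih =>
    rw [Finset.sum_Ico_succ_top hb, Finset.sum_Ico_succ_top hb]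
    omega

theorem gap_sum (a b i' j : ℕ) (hab : a ≤ b) :
    ∑ n ∈ Ico a b, np (n + (i' + j)) ≤ ∑ n ∈ Ico a b, np (n + i') + j * np (b + (i' + j)) := by
  induction j with
  | zero => simp
  | succ j ih =>
    have h1 := gap_tele (fun n => np (n + (i' + j))) a b hab
    have e3 : ∀ n, n + 1 + (i' + j) = n + (i' + (j + 1)) := fun n => by omega
    simp only [e3] at h1
    have h4 : np (b + (i' + j)) ≤ np (b + (i' + (j + 1))) :=
      PnPoly.NC.np_strictMono.monotone (by omega)
    have h5 : j * np (b + (i' + j)) ≤ j * np (b + (i' + (j + 1))) := Nat.mul_le_mul_left _ h4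
    have h6 : (j + 1) * np (b + (i' + (j + 1))) =
        j * np (b + (i' + (j + 1))) + np (b + (i' + (j + 1))) := by ring
    omega

/-- counting of large gaps of the prime sequence -/
theorem card_big_gap (a b i i' : ℕ) (hi : i' ≤ i) (hab : a ≤ b) (G : ℕ) :
    G * ((Ico a b).filter (fun n => G < np (n + i) - np (n + i'))).card ≤ (i - i') * np (b + i) := by
  have h1 : G * ((Ico a b).filter (fun n => G < np (n + i) - np (n + i'))).card +
      ∑ n ∈ Ico a b, np (n + i') ≤ ∑ n ∈ Ico a b, np (n + i) := by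
    rw [Finset.card_filter, Finset.mul_sum, ← Finset.sum_add_distrib]
    refine Finset.sum_le_sum fun n _ => ?_
    have h2 : np (n + i') ≤ np (n + i) := PnPoly.NC.np_strictMono.monotone (by omega)
    split_ifs with h
    · omega
    · omega
  have h2 := gap_sum a b i' (i - i') hab
  have h3 : i' + (i - i') = i := by omega
  rw [h3] at h2
  omega

/-- real form used later -/
theorem card_big_gap' : ∀ᶠ N : ℕ in atTop, ∀ n1 i i' G : ℕ, i' ≤ i → i ≤ N → n1 ≤ N → 1 ≤ G →
    (((Ico n1 N).filter (fun n => G < np (n + i) - np (n + i'))).card : ℝ) ≤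
      40 * ((i : ℝ) - i') * N * Real.log N / G := by
  have e0 : ∀ᶠ N : ℕ in atTop, (np (2 * N) : ℝ) ≤ 9 * (((2 * N : ℕ) : ℝ) * Real.log ((2 * N : ℕ) : ℝ)) :=
    (tendsto_id.const_mul_atTop' (by norm_num : 0 < 2)).eventually PnPoly.NC.np_le
  filter_upwards [e0, eventually_ge_atTop 2] with N h1 h2 n1 i i' G hi hiN hn1 hG
  have hN : (2:ℝ) ≤ N := by exact_mod_cast h2
  have hG' : (0:ℝ) < G := by exact_mod_cast hG
  have hlog : Real.log 2 ≤ Real.log N := Real.log_le_log (by norm_num) hN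
  have hlog2 : 0 < Real.log 2 := Real.log_pos (by norm_num)
  have h3 : (np (2 * N) : ℝ) ≤ 40 * (N * Real.log N) := by
    refine h1.trans ?_
    push_cast
    rw [Real.log_mul (by norm_num) (by positivity)]
    have h4 : (N:ℝ) * Real.log 2 ≤ N * Real.log N := mul_le_mul_of_nonneg_left hlog (by positivity)
    have h5 : 0 ≤ (N:ℝ) * Real.log N := mul_nonneg (by positivity) (hlog2.le.trans hlog)
    have h6 : 9 * (2 * (N:ℝ) * (Real.log 2 + Real.log N)) =
        18 * (N * Real.log 2) + 18 * (N * Real.log N) := by ring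
    rw [h6]
    linarith
  have h7 := card_big_gap n1 N i i' hi hn1 G
  have h8 : (i - i') * np (N + i) ≤ (i - i') * np (2 * N) :=
    Nat.mul_le_mul_left _ (PnPoly.NC.np_strictMono.monotone (by omega))
  have h9 : ((G * ((Ico n1 N).filter (fun n => G < np (n + i) - np (n + i'))).card : ℕ) : ℝ) ≤
      (((i - i') * np (2 * N) : ℕ) : ℝ) := by exact_mod_cast h7.trans h8
  rw [Nat.cast_mul, Nat.cast_mul, Nat.cast_sub hi] at h9
  have h10 : (0:ℝ) ≤ (i:ℝ) - i' := by
    have : (i':ℝ) ≤ i := by exact_mod_cast hi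
    linarith
  rw [le_div_iff₀ hG', mul_comm]
  calc _ ≤ ((i:ℝ) - i') * (np (2 * N) : ℝ) := h9
    _ ≤ ((i:ℝ) - i') * (40 * (N * Real.log N)) := mul_le_mul_of_nonneg_left h3 h10
    _ = 40 * ((i : ℝ) - i') * N * Real.log N := by ring

end Pool.Agent.PnLG
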