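import Pool.Agent.PnLG.Cls

open Finset Filter Complex
open scoped ArithmeticFunction.Moebius ArithmeticFunction.vonMangoldt

namespace Pool.Agent.PnLG

open Pool.Agent.ANT
open Pool.Agent.PnPoly.NC (np)
open Pool.Agent.HL26
open Pool.Agent.PnPoly.NC hiding np

namespace HitCount

/-- the hits in the window `[m, m+L]` -/
noncomputable def hitS (A : Finset ℕ) (L m : ℕ) : Finset ℕ :=
  A.filter (fun n => m ≤ np n ∧ np n ≤ m + L)

lemma mem_hitS {A : Finset ℕ} {L m n : ℕ} : n ∈ hitS A L m ↔ n ∈ A ∧ m ≤ np n ∧ np n ≤ m + L := by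
  unfold hitS; rw [mem_filter]

/-- indices of primes in one window span less than the number of primes in the window -/
lemma diam_lt {A : Finset ℕ} {L m a b : ℕ} (ha : a ∈ hitS A L m) (hb : b ∈ hitS A L m)
    (hab : a ≤ b) : b - a + 1 ≤ wind L m := by
  rw [mem_hitS] at ha hb
  unfold wind
  have h1 : (Icc a b).card = b - a + 1 := by
    rw [Nat.card_Icc]; omega
  rw [← h1]
  refine Finset.card_le_card_of_injOn (fun j => np j - m) ?_ ?_
  · intro j hj
    rw [mem_coe, mem_Icc] at hj
    have h2 : np a ≤ np j := np_strictMono.monotone hj.1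
    have h3 : np j ≤ np b := np_strictMono.monotone hj.2
    rw [mem_coe, mem_filter, mem_range]
    refine ⟨?_, ?_⟩
    · simp only; omega
    · simp only
      rw [show m + (np j - m) = np j by omega]
      exact np_prime j
  · intro i hi j hj hij
    rw [mem_coe, mem_Icc] at hi hj
    have h2 : np a ≤ np j := np_strictMono.monotone hj.1
    have h3 : np a ≤ np i := np_strictMono.monotone hi.1
    simp only at hij
    exact np_strictMono.injective (by omega)

/-- the set of differences of a set of hits -/
noncomputable def diffS (m : ℕ) (P : Finset ℕ) : Finset ℕ := P.image (fun n => np n - m)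

lemma diffS_inj {A : Finset ℕ} {L m : ℕ} {P P' : Finset ℕ} (hP : P ⊆ hitS A L m)
    (hP' : P' ⊆ hitS A L m) (h : diffS m P = diffS m P') : P = P' := by
  have key : ∀ P P' : Finset ℕ, P ⊆ hitS A L m → P' ⊆ hitS A L m → diffS m P = diffS m P' →
      P ⊆ P' := by
    intro P P' hP hP' h n hn
    have h1 : np n - m ∈ diffS m P := mem_image_of_mem _ hn
    rw [h, diffS, mem_image] at h1
    obtain ⟨n', hn', he⟩ := h1
    have h2 := (mem_hitS.1 (hP hn)).2.1
    have h3 := (mem_hitS.1 (hP' hn')).2.1
    have h4 : n' = n := np_strictMono.injective (by omega)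
    rw [← h4]; exact hn'
  exact Subset.antisymm (key P P' hP hP' h) (key P' P hP' hP h.symm)

lemma card_diffs {A : Finset ℕ} {L m : ℕ} {P : Finset ℕ} (hP : P ⊆ hitS A L m) :
    (diffS m P).card = P.card := by
  unfold diffS
  apply Finset.card_image_of_injOn
  intro i hi j hj hij
  have h2 := (mem_hitS.1 (hP hi)).2.1
  have h3 := (mem_hitS.1 (hP hj)).2.1
  simp only at hij
  exact np_strictMono.injective (by omega)

lemma prime_diffs {A : Finset ℕ} {L m : ℕ} {P : Finset ℕ} (hP : P ⊆ hitS A L m) {e : ℕ}
    (he : e ∈ diffS m P) : (m + e).Prime := by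
  unfold diffS at he
  rw [mem_image] at he
  obtain ⟨n, hn, rfl⟩ := he
  have h2 := (mem_hitS.1 (hP hn)).2.1
  rw [show m + (np n - m) = np n by omega]
  exact np_prime n

lemma adm_diffs {r m : ℕ} {E : Finset ℕ} (hE : E.card = r + 1) (hm : r + 1 < m)
    (hpr : ∀ e ∈ E, (m + e).Prime) (p : ℕ) (hp : p.Prime) : nu E p < p := by
  by_contra hcon
  push Not at hcon
  have : NeZero p := ⟨hp.ne_zero⟩
  have hcard : nu E p ≤ r + 1 := by
    rw [← hE]
    unfold nu
    exact Finset.card_image_le
  have huniv : E.image (fun e : ℕ => (e : ZMod p)) = univ := by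
    rw [← Finset.card_eq_iff_eq_univ, ZMod.card]
    refine le_antisymm ?_ hcon
    exact (Finset.card_le_univ _).trans (by rw [ZMod.card])
  have hz : (-(m : ZMod p)) ∈ E.image (fun e : ℕ => (e : ZMod p)) := by
    rw [huniv]; exact mem_univ _
  rw [mem_image] at hz
  obtain ⟨e, he, hez⟩ := hz
  have hdvd : p ∣ m + e := by
    rw [← ZMod.natCast_eq_zero_iff]
    push_cast
    rw [hez]
    ring
  have heq := (Nat.prime_dvd_prime_iff_eq hp (hpr e he)).mp hdvd
  omega

end HitCount

open HitCount in
/-- the `(r+1)`-subsets of hits in windows with few primes are counted by patterns -/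
theorem choose_hits_le (r d' q L k T : ℕ) (Z x : ℝ) (hk : (k : ℝ) ≤ Z) (A : Finset ℕ)
    (Φ : ℕ → (Fin (r + 1) → ℕ) → Fin (r + 1) → (Fin (r + 1) → ℕ) → ℤ)
    (hΦ : ∀ n : Fin (r + 1) → ℕ, StrictMono n → (∀ l, n l ∈ A) → ((n (Fin.last r) : ℝ) < n 0 + Z) →
      ∀ m : ℕ, m ≤ np (n 0) → ∃ τ < T, ∀ l : Fin (r + 1), d' ≤ (l : ℕ) →
        (q : ℤ) ∣ ((np (n l) : ℤ) - m) - Φ τ (fun l => n l - n 0) l (fun j => np (n j) - m)) :
    ∑ m ∈ (Ioc (r + 1) ⌊x⌋₊).filter (fun m => wind L m ≤ k), (hitw A L m).choose (r + 1) ≤
      ∑ τ ∈ range T, ∑ I ∈ offs r k, ∑ E ∈ clsE r L q d' (Φ τ I), tupleCount x E := by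
  classical
  have key : ∀ m ∈ (Ioc (r + 1) ⌊x⌋₊).filter (fun m => wind L m ≤ k),
      (hitw A L m).choose (r + 1) ≤ ∑ τ ∈ range T, ∑ I ∈ offs r k,
        ((clsE r L q d' (Φ τ I)).filter (fun E => ∀ e ∈ E, (m + e).Prime)).card := by
    intro m hm
    rw [mem_filter, mem_Ioc] at hm
    obtain ⟨⟨hm1, hm2⟩, hmk⟩ := hm
    have hc : (hitw A L m).choose (r + 1) = ((hitS A L m).powersetCard (r + 1)).card := by
      rw [card_powersetCard]; rfl
    rw [hc]
    have hsub : ((hitS A L m).powersetCard (r + 1)).image (diffS m) ⊆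
        (range T).biUnion (fun τ => (offs r k).biUnion (fun I =>
          (clsE r L q d' (Φ τ I)).filter (fun E => ∀ e ∈ E, (m + e).Prime))) := by
      intro E hE
      rw [mem_image] at hE
      obtain ⟨P, hP, rfl⟩ := hE
      rw [mem_powersetCard] at hP
      obtain ⟨hPs, hPc⟩ := hP
      set n : Fin (r + 1) → ℕ := fun l => P.orderEmbOfFin hPc l with hn
      have hnP : ∀ l, n l ∈ P := fun l => P.orderEmbOfFin_mem hPc l
      have hnh : ∀ l, n l ∈ hitS A L m := fun l => hPs (hnP l)
      have hmono : StrictMono n := (P.orderEmbOfFin hPc).strictMono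
      have hdiam : n (Fin.last r) - n 0 + 1 ≤ k :=
        (diam_lt (hnh 0) (hnh (Fin.last r)) (hmono.monotone (Fin.zero_le _))).trans hmk
      have hdiam' : ((n (Fin.last r) : ℝ) < n 0 + Z) := by
        have h1 : n (Fin.last r) < n 0 + k := by
          have := hmono.monotone (Fin.zero_le (Fin.last r))
          omega
        have h2 : (n (Fin.last r) : ℝ) < (n 0 : ℝ) + k := by exact_mod_cast h1
        linarith
      obtain ⟨τ, hτ, hdiv⟩ := hΦ n hmono (fun l => (mem_hitS.1 (hnh l)).1) hdiam' m
        (mem_hitS.1 (hnh 0)).2.1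
      have himg : (univ : Finset (Fin (r + 1))).image (fun j => np (n j) - m) = diffS m P := by
        unfold diffS
        have h1 : (univ : Finset (Fin (r + 1))).image n = P := by
          apply Finset.eq_of_subset_of_card_le
          · intro a ha
            rw [mem_image] at ha
            obtain ⟨l, _, rfl⟩ := ha
            exact hnP l
          · rw [Finset.card_image_of_injective _ hmono.injective, card_univ, Fintype.card_fin, hPc]
        conv_rhs => rw [← h1]
        rw [Finset.image_image]
        rfl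
      rw [mem_biUnion]
      refine ⟨τ, mem_range.2 hτ, ?_⟩
      rw [mem_biUnion]
      refine ⟨fun l => n l - n 0, ?_, ?_⟩
      · unfold offs
        rw [mem_filter, Fintype.mem_piFinset]
        refine ⟨fun l => ?_, ?_⟩
        · rw [mem_range]
          have h1 := hmono.monotone (Fin.le_last l)
          have h2 := hmono.monotone (Fin.zero_le l)
          omega
        · simp only [Nat.sub_self]
      · rw [mem_filter]
        refine ⟨?_, fun e he => prime_diffs hPs he⟩
        unfold clsE
        rw [mem_filter, mem_image]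
        refine ⟨⟨fun j => np (n j) - m, ?_, himg⟩, ?_, ?_⟩
        · unfold cls
          rw [mem_filter, Fintype.mem_piFinset]
          refine ⟨fun l => ?_, fun l hl => ?_⟩
          · rw [mem_range]
            have h1 := (mem_hitS.1 (hnh l)).2
            omega
          · have h1 := (mem_hitS.1 (hnh l)).2.1
            have h2 := hdiv l hl
            push_cast [Nat.cast_sub h1]
            exact h2
        · rw [card_diffs hPs, hPc]
        · intro p hp
          exact adm_diffs (by rw [card_diffs hPs, hPc]) hm1 (fun e he => prime_diffs hPs he) p hp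
    calc ((hitS A L m).powersetCard (r + 1)).card
        = (((hitS A L m).powersetCard (r + 1)).image (diffS m)).card := by
          rw [Finset.card_image_of_injOn]
          intro P hP P' hP' h
          rw [mem_coe, mem_powersetCard] at hP hP'
          exact diffS_inj hP.1 hP'.1 h
      _ ≤ _ := Finset.card_le_card hsub
      _ ≤ _ := Finset.card_biUnion_le
      _ ≤ _ := Finset.sum_le_sum (fun τ _ => Finset.card_biUnion_le)
  refine (Finset.sum_le_sum key).trans ?_
  rw [Finset.sum_comm]
  apply Finset.sum_le_sum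
  intro τ _
  rw [Finset.sum_comm]
  apply Finset.sum_le_sum
  intro I _
  simp only [Finset.card_filter]
  rw [Finset.sum_comm]
  apply Finset.sum_le_sum
  intro E _
  unfold tupleCount
  rw [← Finset.card_filter]
  apply Finset.card_le_card
  intro m hm
  rw [mem_filter, mem_filter, mem_Ioc] at hm
  rw [mem_filter, mem_Icc]
  exact ⟨⟨by omega, hm.1.1.2⟩, hm.2⟩

theorem card_offs_le (r k : ℕ) : (offs r k).card ≤ k ^ r := by
  classical
  have h1 : (Fintype.piFinset (fun _ : Fin r => range k)).card = k ^ r := by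
    rw [Fintype.card_piFinset]
    simp
  rw [← h1]
  refine Finset.card_le_card_of_injOn (fun I : Fin (r + 1) → ℕ => fun j : Fin r => I j.succ) ?_ ?_
  · intro I hI
    unfold offs at hI
    rw [mem_coe, mem_filter, Fintype.mem_piFinset] at hI
    rw [mem_coe, Fintype.mem_piFinset]
    exact fun j => hI.1 j.succ
  · intro I hI J hJ hIJ
    unfold offs at hI hJ
    rw [mem_coe, mem_filter] at hI hJ
    funext j
    refine Fin.cases ?_ (fun i => ?_) j
    · rw [hI.2, hJ.2]
    · exact congrFun hIJ i

end Pool.Agent.PnLG
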