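import Pool.Agent.PnLG.Defs

open Finset Filter Complex
open scoped ArithmeticFunction.Moebius ArithmeticFunction.vonMangoldt

namespace Pool.Agent.PnLG

open Pool.Agent.ANT
open Pool.Agent.PnPoly.NC (np)

namespace LamG

lemma sum_moebius (m : ℕ) :
    ∑ d ∈ m.divisors, ((μ d : ℤ) : ℝ) = if m = 1 then 1 else 0 := by
  have h1 : ∑ d ∈ m.divisors, (μ d : ℤ) = if m = 1 then 1 else 0 := by
    rw [← ArithmeticFunction.coe_mul_zeta_apply, ArithmeticFunction.moebius_mul_coe_zeta,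
      ArithmeticFunction.one_apply]
  have h2 : ((∑ d ∈ m.divisors, (μ d : ℤ) : ℤ) : ℝ) = ((if m = 1 then 1 else 0 : ℤ) : ℝ) := by
    rw [h1]
  push_cast at h2
  exact h2

lemma lambda_eq {D m : ℕ} (hD : 0 < D) (hm : 0 < m) :
    Λ m - gD D m = ∑ d ∈ m.divisors.filter (fun d => D < d), ((μ d : ℤ) : ℝ) * Real.log ((D : ℝ) / d) -
      (if m = 1 then Real.log D else 0) := by
  have hD0 : (D : ℝ) ≠ 0 := by exact_mod_cast hD.ne'
  have h1 : ∑ d ∈ m.divisors, ((μ d : ℤ) : ℝ) * Real.log ((D : ℝ) / d) =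
      (if m = 1 then Real.log D else 0) + Λ m := by
    have h2 : ∀ d ∈ m.divisors, ((μ d : ℤ) : ℝ) * Real.log ((D : ℝ) / d) =
        Real.log D * ((μ d : ℤ) : ℝ) - ((μ d : ℤ) : ℝ) * Real.log d := by
      intro d hd
      have hd0 : (d : ℝ) ≠ 0 := by exact_mod_cast (Nat.pos_of_mem_divisors hd).ne'
      rw [Real.log_div hD0 hd0]
      ring
    rw [sum_congr rfl h2, sum_sub_distrib, ← mul_sum, sum_moebius m]
    have h3 : ∑ d ∈ m.divisors, ((μ d : ℤ) : ℝ) * Real.log d = -Λ m :=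
      ArithmeticFunction.sum_moebius_mul_log_eq (n := m)
    rw [h3]
    split_ifs <;> ring
  have h4 : gD D m = ∑ d ∈ m.divisors.filter (fun d => ¬ D < d), ((μ d : ℤ) : ℝ) * Real.log ((D : ℝ) / d) := by
    unfold gD
    refine sum_congr ?_ fun _ _ => rfl
    ext d
    simp only [mem_filter, mem_Ioc, Nat.mem_divisors, not_lt]
    constructor
    · rintro ⟨⟨h5, h6⟩, h7⟩
      exact ⟨⟨h7, hm.ne'⟩, h6⟩
    · rintro ⟨⟨h5, -⟩, h6⟩
      exact ⟨⟨Nat.pos_of_dvd_of_pos h5 hm, h6⟩, h5⟩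
  have h5 := sum_filter_add_sum_filter_not m.divisors (fun d => D < d)
    (fun d => ((μ d : ℤ) : ℝ) * Real.log ((D : ℝ) / d))
  rw [h1] at h5
  rw [h4]
  linarith

lemma sum_swap {D X : ℕ} (hD : 0 < D) (F : ℕ → ℕ → ℂ) :
    ∑ m ∈ Ioc 0 X, ∑ d ∈ m.divisors.filter (fun d => D < d), F d m =
      ∑ k ∈ Ioc 0 (X / D), ∑ d ∈ Ioc D (X / k), F d (d * k) := by
  rw [sum_sigma', sum_sigma']
  refine sum_nbij' (fun x => ⟨x.1 / x.2, x.2⟩) (fun x => ⟨x.2 * x.1, x.2⟩) ?_ ?_ ?_ ?_ ?_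
  · rintro ⟨m, d⟩ hx
    simp only [mem_sigma, mem_Ioc, mem_filter, Nat.mem_divisors] at hx ⊢
    obtain ⟨⟨hm0, hmX⟩, ⟨hdm, -⟩, hDd⟩ := hx
    have hd0 : 0 < d := by omega
    have hk0 : 0 < m / d := Nat.div_pos (Nat.le_of_dvd hm0 hdm) hd0
    have hmul : m / d * d = m := Nat.div_mul_cancel hdm
    refine ⟨⟨hk0, ?_⟩, hDd, ?_⟩
    · rw [Nat.le_div_iff_mul_le hD]
      calc m / d * D ≤ m / d * d := Nat.mul_le_mul_left _ hDd.le
        _ = m := hmul
        _ ≤ X := hmX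
    · rw [Nat.le_div_iff_mul_le hk0, mul_comm, hmul]
      exact hmX
  · rintro ⟨k, d⟩ hx
    simp only [mem_sigma, mem_Ioc, mem_filter, Nat.mem_divisors] at hx ⊢
    obtain ⟨⟨hk0, hkX⟩, hDd, hdX⟩ := hx
    have hd0 : 0 < d := by omega
    have hpos : 0 < d * k := Nat.mul_pos hd0 hk0
    refine ⟨⟨hpos, ?_⟩, ⟨Dvd.intro _ rfl, hpos.ne'⟩, hDd⟩
    exact (Nat.le_div_iff_mul_le hk0).mp hdX
  · rintro ⟨m, d⟩ hx
    simp only [mem_sigma, mem_Ioc, mem_filter, Nat.mem_divisors] at hx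
    obtain ⟨⟨hm0, hmX⟩, ⟨hdm, -⟩, hDd⟩ := hx
    simp only [Sigma.mk.injEq, heq_eq_eq, and_true]
    rw [mul_comm]
    exact Nat.div_mul_cancel hdm
  · rintro ⟨k, d⟩ hx
    simp only [mem_sigma, mem_Ioc] at hx
    have hd0 : 0 < d := by omega
    simp only [Sigma.mk.injEq, heq_eq_eq, and_true]
    exact Nat.mul_div_cancel_left k hd0
  · rintro ⟨m, d⟩ hx
    simp only [mem_sigma, mem_Ioc, mem_filter, Nat.mem_divisors] at hx
    obtain ⟨⟨hm0, hmX⟩, ⟨hdm, -⟩, hDd⟩ := hx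
    simp only
    rw [mul_comm, Nat.div_mul_cancel hdm]

/-- the inner sum -/
lemma inner_le {A : ℕ} {C : ℝ} (hC : 0 < C) (h : ∀ (N : ℕ) (α : ℝ),
    ‖∑ n ∈ Finset.Ioc 0 N, muC n * ee (n * α)‖ ≤ C * phim A N) {D Y : ℕ} (hD : 0 < D) (hDY : D ≤ Y) (α : ℝ) :
    ‖∑ d ∈ Ioc D Y, ((((μ d : ℤ) : ℝ) * Real.log ((D : ℝ) / d) : ℝ) : ℂ) * ee (d * α)‖ ≤
      4 * C * phim A Y * Real.log Y := by
  set b : ℕ → ℂ := fun d => muC d * ee (d * α) with hb
  set w : ℕ → ℝ := fun d => max (Real.log Y - Real.log d) 0 with hw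
  have hD0 : (0 : ℝ) < D := by exact_mod_cast hD
  have hD1 : (1 : ℝ) ≤ D := by exact_mod_cast hD
  have hY0 : (0 : ℝ) < Y := by exact_mod_cast lt_of_lt_of_le hD hDY
  have hlD : 0 ≤ Real.log D := Real.log_nonneg hD1
  have hlDY : Real.log D ≤ Real.log Y := Real.log_le_log hD0 (by exact_mod_cast hDY)
  have hph := phim_nat_nonneg A Y
  have hpart : ∀ u, D ≤ u → u ≤ Y → ‖∑ n ∈ Ioc D u, b n‖ ≤ 2 * C * phim A Y := by
    intro u hDu huY
    have h1 : ∑ n ∈ Ioc D u, b n = ∑ n ∈ Ioc 0 u, b n - ∑ n ∈ Ioc 0 D, b n := by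
      rw [← sum_Ioc_consecutive b (Nat.zero_le D) hDu]; ring
    have h2 := h u α
    have h3 := h D α
    have h4 := phim_nat_mono A huY
    have h5 := phim_nat_mono A hDY
    rw [h1]
    calc ‖∑ n ∈ Ioc 0 u, b n - ∑ n ∈ Ioc 0 D, b n‖ ≤ ‖∑ n ∈ Ioc 0 u, b n‖ + ‖∑ n ∈ Ioc 0 D, b n‖ :=
          norm_sub_le _ _
      _ ≤ C * phim A u + C * phim A D := add_le_add h2 h3
      _ ≤ C * phim A Y + C * phim A Y := by gcongr
      _ = _ := by ring
  have hB0 : 0 ≤ 2 * C * phim A Y := by positivity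
  have h1 : ‖∑ n ∈ Ioc D Y, b n * w n‖ ≤ 2 * C * phim A Y * w (D + 1) := by
    refine abel_ineq hDY (fun n _ => le_max_right _ _) (fun n hn => ?_) hpart
    apply max_le_max_right
    have hn0 : (0 : ℝ) < n := by exact_mod_cast (by omega : 0 < n)
    have : Real.log n ≤ Real.log ((n + 1 : ℕ) : ℝ) :=
      Real.log_le_log hn0 (by push_cast; linarith)
    linarith
  have hw1 : w (D + 1) ≤ Real.log Y := by
    apply max_le _ (hlD.trans hlDY)
    have := Real.log_natCast_nonneg (D + 1)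
    linarith
  have h2 : ∑ d ∈ Ioc D Y, ((((μ d : ℤ) : ℝ) * Real.log ((D : ℝ) / d) : ℝ) : ℂ) * ee (d * α) =
      ∑ n ∈ Ioc D Y, b n * w n - (∑ n ∈ Ioc D Y, b n) * ((Real.log Y - Real.log D : ℝ) : ℂ) := by
    rw [sum_mul, ← sum_sub_distrib]
    refine sum_congr rfl fun d hd => ?_
    rw [mem_Ioc] at hd
    have hd0 : (0 : ℝ) < d := by exact_mod_cast (by omega : 0 < d)
    have hwd : w d = Real.log Y - Real.log d := by
      apply max_eq_left
      have : Real.log d ≤ Real.log Y := Real.log_le_log hd0 (by exact_mod_cast hd.2)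
      linarith
    rw [hwd, Real.log_div hD0.ne' hd0.ne', hb]
    simp only [muC]
    push_cast
    ring
  rw [h2]
  calc ‖∑ n ∈ Ioc D Y, b n * w n - (∑ n ∈ Ioc D Y, b n) * ((Real.log Y - Real.log D : ℝ) : ℂ)‖
      ≤ ‖∑ n ∈ Ioc D Y, b n * w n‖ + ‖(∑ n ∈ Ioc D Y, b n) * ((Real.log Y - Real.log D : ℝ) : ℂ)‖ :=
        norm_sub_le _ _
    _ ≤ 2 * C * phim A Y * Real.log Y + 2 * C * phim A Y * Real.log Y := by
        apply add_le_add
        · exact h1.trans (mul_le_mul_of_nonneg_left hw1 hB0)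
        · rw [norm_mul, Complex.norm_real, Real.norm_of_nonneg (by linarith)]
          exact mul_le_mul (hpart Y hDY le_rfl) (by linarith) (by linarith) hB0
    _ = _ := by ring

lemma DX_pos {X : ℕ} (hX : 1 ≤ X) : 0 < DX X := by
  unfold DX
  apply Nat.floor_pos.mpr
  exact Real.one_le_rpow (by exact_mod_cast hX) (by norm_num)

lemma log_DX {X : ℕ} (hX : 1 ≤ X) : Real.log X / 10 ≤ 1 + Real.log (DX X) := by
  have hX0 : (0 : ℝ) < X := by exact_mod_cast hX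
  have hD := DX_pos hX
  have hD1 : (1 : ℝ) ≤ DX X := by exact_mod_cast hD
  have h1 : (X : ℝ) ^ (1 / 10 : ℝ) < DX X + 1 := Nat.lt_floor_add_one _
  have h2 : Real.log ((X : ℝ) ^ (1 / 10 : ℝ)) ≤ Real.log (2 * DX X) :=
    Real.log_le_log (by positivity) (by linarith)
  rw [Real.log_rpow hX0, Real.log_mul (by norm_num) (by linarith)] at h2
  have h3 : Real.log 2 < 1 := by
    have := Real.log_two_lt_d9
    linarith
  linarith

lemma log_DX_le {X : ℕ} (hX : 1 ≤ X) : Real.log (DX X) ≤ Real.log X := by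
  have hX1 : (1 : ℝ) ≤ X := by exact_mod_cast hX
  have hD := DX_pos hX
  have h1 : (DX X : ℝ) ≤ (X : ℝ) ^ (1 / 10 : ℝ) := Nat.floor_le (by positivity)
  have h2 : (X : ℝ) ^ (1 / 10 : ℝ) ≤ X := by
    calc (X : ℝ) ^ (1 / 10 : ℝ) ≤ (X : ℝ) ^ (1 : ℝ) :=
          Real.rpow_le_rpow_of_exponent_le hX1 (by norm_num)
      _ = X := Real.rpow_one _
  exact Real.log_le_log (by exact_mod_cast hD) (h1.trans h2)

end LamG

open LamG

/-- `Λ - g_D` has small sup norm exponential sums (Davenport). -/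
theorem lambda_sub_gD (A : ℕ) : ∃ C : ℝ, 0 < C ∧ ∀ X : ℕ, 3 ≤ X → ∀ t : ℝ,
    ‖∑ m ∈ Ioc 0 X, (((Λ m - gD (DX X) m : ℝ) : ℂ)) * ee (m * t)‖ ≤ C * X / Real.log X ^ A := by
  obtain ⟨C, hC, hdav⟩ := davenport (A + 2)
  obtain ⟨K, hK, hlogp⟩ := log_pow_le_rpow (A + 1) (show (0 : ℝ) < 1 by norm_num)
  refine ⟨8 * C * 10 ^ (A + 2) + K, by positivity, fun X hX t => ?_⟩
  have hX1 : 1 ≤ X := by omega
  have hX3 : (3 : ℝ) ≤ X := by exact_mod_cast hX
  have hX0 : (0 : ℝ) < X := by linarith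
  set D := DX X with hDdef
  have hD : 0 < D := DX_pos hX1
  have hD0 : (0 : ℝ) < D := by exact_mod_cast hD
  have hD1 : (1 : ℝ) ≤ D := by exact_mod_cast hD
  set L := Real.log X with hL
  have hL1 : 1 ≤ L := one_le_log hX3
  have hL0 : 0 < L := by linarith
  have hlD : L / 10 ≤ 1 + Real.log D := log_DX hX1
  have hlDX : Real.log D ≤ L := log_DX_le hX1
  have hlD0 : 0 ≤ Real.log D := Real.log_nonneg hD1
  -- decomposition
  have h1 : ∑ m ∈ Ioc 0 X, (((Λ m - gD D m : ℝ) : ℂ)) * ee (m * t) =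
      ∑ k ∈ Ioc 0 (X / D), ∑ d ∈ Ioc D (X / k),
        ((((μ d : ℤ) : ℝ) * Real.log ((D : ℝ) / d) : ℝ) : ℂ) * ee (d * (k * t)) -
        (Real.log D : ℂ) * ee t := by
    have h2 : ∀ m ∈ Ioc 0 X, (((Λ m - gD D m : ℝ) : ℂ)) * ee (m * t) =
        ∑ d ∈ m.divisors.filter (fun d => D < d),
          ((((μ d : ℤ) : ℝ) * Real.log ((D : ℝ) / d) : ℝ) : ℂ) * ee (m * t) -
          (if m = 1 then (Real.log D : ℂ) * ee t else 0) := by
      intro m hm
      rw [mem_Ioc] at hm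
      rw [lambda_eq hD hm.1, ← sum_mul]
      split_ifs with hm1
      · rw [hm1]
        push_cast
        rw [one_mul]
        ring
      · push_cast
        ring
    rw [sum_congr rfl h2, sum_sub_distrib, sum_swap hD (fun d m =>
      ((((μ d : ℤ) : ℝ) * Real.log ((D : ℝ) / d) : ℝ) : ℂ) * ee (m * t)), sum_ite_eq' (Ioc 0 X) 1,
      if_pos (by rw [mem_Ioc]; omega)]
    congr 1
    refine sum_congr rfl fun k _ => sum_congr rfl fun d _ => ?_
    congr 2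
    push_cast
    ring
  rw [h1]
  -- each inner sum
  have h3 : ∀ k ∈ Ioc 0 (X / D), ‖∑ d ∈ Ioc D (X / k),
      ((((μ d : ℤ) : ℝ) * Real.log ((D : ℝ) / d) : ℝ) : ℂ) * ee (d * (k * t))‖ ≤
      (4 * C * 10 ^ (A + 2) * X / L ^ (A + 1)) * ((k : ℝ))⁻¹ := by
    intro k hk
    rw [mem_Ioc] at hk
    obtain ⟨hk0, hkD⟩ := hk
    have hk0' : (0 : ℝ) < k := by exact_mod_cast hk0
    have hDY : D ≤ X / k := by
      rw [Nat.le_div_iff_mul_le hk0, mul_comm]
      exact (Nat.le_div_iff_mul_le hD).mp hkD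
    have h4 := inner_le hC hdav hD hDY (k * t)
    refine h4.trans ?_
    set Y := X / k with hY
    have hY0 : (0 : ℝ) < (Y : ℝ) := by exact_mod_cast lt_of_lt_of_le hD hDY
    have hYX : (Y : ℝ) ≤ X / k := Nat.cast_div_le
    have hYX' : (Y : ℝ) ≤ X := by exact_mod_cast Nat.div_le_self X k
    have hlY : Real.log Y ≤ L := Real.log_le_log hY0 hYX'
    have hlDY : Real.log D ≤ Real.log Y := Real.log_le_log hD0 (by exact_mod_cast hDY)
    have hden : L / 10 ≤ 2 * ((A + 2 : ℕ) : ℝ) + Real.log Y := by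
      push_cast
      have : (0 : ℝ) ≤ A := Nat.cast_nonneg A
      linarith
    have h5 : phim (A + 2) Y ≤ (X / k) / (L / 10) ^ (A + 2) := by
      unfold phim
      apply div_le_div₀ (by positivity) hYX (by positivity)
      exact pow_le_pow_left₀ (by positivity) hden _
    calc 4 * C * phim (A + 2) Y * Real.log Y
        ≤ 4 * C * ((X / k) / (L / 10) ^ (A + 2)) * L := by
          have := phim_nat_nonneg (A + 2) Y
          have h6 : 0 ≤ Real.log Y := hlD0.trans hlDY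
          gcongr
      _ = (4 * C * 10 ^ (A + 2) * X / L ^ (A + 1)) * ((k : ℝ))⁻¹ := by
          rw [div_pow, pow_succ L (A + 1)]
          field_simp
  -- the sum of 1/k
  have h7 : ∑ k ∈ Ioc 0 (X / D), ((k : ℝ))⁻¹ ≤ 2 * L := by
    have h8 : ∑ k ∈ Ioc 0 (X / D), ((k : ℝ))⁻¹ ≤ ∑ k ∈ Icc 1 X, ((k : ℝ))⁻¹ := by
      apply sum_le_sum_of_subset_of_nonneg
      · intro k hk
        rw [mem_Ioc] at hk
        rw [mem_Icc]
        exact ⟨hk.1, hk.2.trans (Nat.div_le_self _ _)⟩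
      · intro k _ _
        positivity
    have h9 := harmonic_le_one_add_log X
    rw [harmonic_eq_sum_Icc] at h9
    push_cast at h9
    have h10 : 1 + Real.log X ≤ 2 * L := by rw [← hL]; linarith
    exact h8.trans (h9.trans h10)
  have h11 : Real.log D ≤ K * X / L ^ A := by
    rw [le_div_iff₀ (by positivity)]
    have h12 := hlogp X (by linarith)
    rw [Real.rpow_one, ← hL] at h12
    calc Real.log D * L ^ A ≤ L * L ^ A := by gcongr
      _ = L ^ (A + 1) := by ring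
      _ ≤ K * X := h12
  calc ‖∑ k ∈ Ioc 0 (X / D), ∑ d ∈ Ioc D (X / k),
        ((((μ d : ℤ) : ℝ) * Real.log ((D : ℝ) / d) : ℝ) : ℂ) * ee (d * (k * t)) -
        (Real.log D : ℂ) * ee t‖
      ≤ ‖∑ k ∈ Ioc 0 (X / D), ∑ d ∈ Ioc D (X / k),
        ((((μ d : ℤ) : ℝ) * Real.log ((D : ℝ) / d) : ℝ) : ℂ) * ee (d * (k * t))‖ +
        ‖(Real.log D : ℂ) * ee t‖ := norm_sub_le _ _
    _ ≤ ∑ k ∈ Ioc 0 (X / D), (4 * C * 10 ^ (A + 2) * X / L ^ (A + 1)) * ((k : ℝ))⁻¹ +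
        Real.log D := by
        apply add_le_add
        · exact (norm_sum_le _ _).trans (sum_le_sum h3)
        · rw [norm_mul, norm_ee, mul_one, Complex.norm_real, Real.norm_of_nonneg hlD0]
    _ ≤ (4 * C * 10 ^ (A + 2) * X / L ^ (A + 1)) * (2 * L) + K * X / L ^ A := by
        rw [← mul_sum]
        apply add_le_add _ h11
        exact mul_le_mul_of_nonneg_left h7 (by positivity)
    _ = (8 * C * 10 ^ (A + 2) + K) * X / L ^ A := by
        rw [pow_succ L A]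
        field_simp
        ring

end Pool.Agent.PnLG
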