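import Pool.Agent.PnLG.AApprox

open Finset Filter Complex
open scoped ArithmeticFunction.Moebius ArithmeticFunction.vonMangoldt

namespace Pool.Agent.PnLG

open Pool.Agent.ANT
open Pool.Agent.PnPoly.NC (np)

lemma LamVR_ev (B : ℕ) : ∃ X0 : ℕ, ∀ X : ℕ, X0 ≤ X →
    Real.log (X : ℝ) ^ B ≤ (X : ℝ) ^ (1 / 10 : ℝ) := by
  have h := isLittleO_log_rpow_rpow_atTop (B : ℝ) (show (0 : ℝ) < 1 / 10 by norm_num)
  have h2 := (h.bound (show (0 : ℝ) < 1 by norm_num))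
  have h3 := tendsto_natCast_atTop_atTop (R := ℝ) |>.eventually h2
  obtain ⟨X0, hX0⟩ := eventually_atTop.1 h3
  refine ⟨max X0 1, fun X hX => ?_⟩
  have h4 := hX0 X (le_trans (le_max_left _ _) hX)
  have hX1 : (1 : ℝ) ≤ X := by exact_mod_cast le_trans (le_max_right _ _) hX
  rw [one_mul, Real.rpow_natCast] at h4
  rw [Real.norm_of_nonneg (pow_nonneg (Real.log_nonneg hX1) _),
    Real.norm_of_nonneg (Real.rpow_nonneg (by linarith) _)] at h4
  exact h4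

lemma LamVR_decomp (D R m : ℕ) (hm : 0 < m) (hRD : R ≤ D) :
    ((Λ m : ℝ) : ℂ) - VR R (m : ℤ) = ((Λ m - gD D m : ℝ) : ℂ) +
      (∑ q ∈ Ioc 0 R, (((aD D q : ℝ) : ℂ) - ((μ q : ℤ) : ℂ) / (q.totient : ℂ)) * rs q (m : ℤ)) +
      ∑ q ∈ Ioc 0 D, (if R < q then ((aD D q : ℝ) : ℂ) else 0) * rs q (m : ℤ) := by
  have h1 := gD_expand D m hm
  have h2 : ∑ q ∈ Ioc 0 D, ((aD D q : ℝ) : ℂ) * rs q (m : ℤ) =
      (∑ q ∈ Ioc 0 R, ((aD D q : ℝ) : ℂ) * rs q (m : ℤ)) +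
      ∑ q ∈ Ioc 0 D, (if R < q then ((aD D q : ℝ) : ℂ) else 0) * rs q (m : ℤ) := by
    rw [← Finset.sum_filter_add_sum_filter_not (Ioc 0 D) (fun q => q ≤ R)]
    congr 1
    · apply Finset.sum_congr _ (fun _ _ => rfl)
      ext q
      simp only [mem_filter, mem_Ioc]
      omega
    · rw [← Finset.sum_filter_add_sum_filter_not (Ioc 0 D) (fun q => q ≤ R)
        (f := fun q => (if R < q then ((aD D q : ℝ) : ℂ) else 0) * rs q (m : ℤ))]
      have h3 : ∑ q ∈ (Ioc 0 D).filter (fun q => q ≤ R),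
          (if R < q then ((aD D q : ℝ) : ℂ) else 0) * rs q (m : ℤ) = 0 := by
        apply Finset.sum_eq_zero
        intro q hq
        rw [mem_filter] at hq
        rw [if_neg (by omega), zero_mul]
      rw [h3, zero_add]
      apply Finset.sum_congr rfl
      intro q hq
      rw [mem_filter] at hq
      rw [if_pos (by omega)]
  have h4 : ∑ q ∈ Ioc 0 R, (((aD D q : ℝ) : ℂ) - ((μ q : ℤ) : ℂ) / (q.totient : ℂ)) * rs q (m : ℤ) =
      (∑ q ∈ Ioc 0 R, ((aD D q : ℝ) : ℂ) * rs q (m : ℤ)) - VR R (m : ℤ) := by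
    rw [VR, ← Finset.sum_sub_distrib]
    exact Finset.sum_congr rfl (fun q _ => by ring)
  rw [h4]
  push_cast
  rw [h1, h2]
  ring

lemma LamVR_large (A B : ℕ) (hB : A + 2 ≤ B) : ∃ C : ℝ, 0 < C ∧ ∃ X0 : ℕ, ∀ X : ℕ, 3 ≤ X → X0 ≤ X →
    ∀ t : ℝ, ‖∑ m ∈ Ioc 0 X, (((Λ m : ℝ) : ℂ) - VR (RX B X) (m : ℤ)) * ee (m * t)‖ ≤
      C * X / Real.log X ^ A := by
  obtain ⟨X0, hX0⟩ := LamVR_ev B
  obtain ⟨C1, hC1, h1⟩ := lambda_sub_gD A
  obtain ⟨C2, hC2, h2⟩ := aD_approx A B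
  refine ⟨C1 + 3 * C2 + 24, by positivity, X0, fun X hX3 hX t => ?_⟩
  have hXr : (3 : ℝ) ≤ X := by exact_mod_cast hX3
  have hX0r : (0 : ℝ) < X := by linarith
  set L : ℝ := Real.log X with hL
  have hL1 : 1 ≤ L := by
    rw [hL, Real.le_log_iff_exp_le hX0r]
    have := Real.exp_one_lt_d9
    linarith
  have hL0 : 0 < L := by linarith
  have hev := hX0 X hX
  set R : ℕ := RX B X with hR
  set D : ℕ := DX X with hD
  have hRr : (R : ℝ) ≤ L ^ B := Nat.floor_le (by positivity)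
  have hR1 : 1 ≤ R := by
    rw [hR, RX]
    apply Nat.le_floor
    rw [Nat.cast_one]
    exact one_le_pow₀ hL1
  have hR1r : (1 : ℝ) ≤ R := by exact_mod_cast hR1
  have hR2 : L ^ B ≤ 2 * R := by
    have : L ^ B < (R : ℝ) + 1 := Nat.lt_floor_add_one _
    linarith
  have hRD : R ≤ D := by
    rw [hR, hD, RX, DX]
    exact Nat.floor_le_floor hev
  have hDr : (D : ℝ) ≤ (X : ℝ) ^ (1 / 10 : ℝ) := Nat.floor_le (Real.rpow_nonneg hX0r.le _)
  have hD1 : 1 ≤ D := le_trans hR1 hRD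
  have hD1r : (1 : ℝ) ≤ D := by exact_mod_cast hD1
  have hRDr : (R : ℝ) ≤ D := by exact_mod_cast hRD
  have hD4 : (D : ℝ) ^ 4 ≤ X := by
    calc (D : ℝ) ^ 4 ≤ ((X : ℝ) ^ (1 / 10 : ℝ)) ^ 4 := pow_le_pow_left₀ (by linarith) hDr 4
      _ = (X : ℝ) ^ (4 / 10 : ℝ) := by
          rw [← Real.rpow_natCast, ← Real.rpow_mul hX0r.le]; norm_num
      _ ≤ (X : ℝ) ^ (1 : ℝ) := Real.rpow_le_rpow_of_exponent_le (by linarith) (by norm_num)
      _ = X := Real.rpow_one _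
  have hR4 : (R : ℝ) ^ 4 ≤ X := le_trans (pow_le_pow_left₀ (by linarith) hRDr 4) hD4
  have hlogD : Real.log D ≤ L := by
    calc Real.log D ≤ Real.log ((X : ℝ) ^ (1 / 10 : ℝ)) := Real.log_le_log (by linarith) hDr
      _ = 1 / 10 * L := Real.log_rpow hX0r _
      _ ≤ L := by linarith
  have hlogD0 : 0 ≤ Real.log D := Real.log_nonneg hD1r
  have hsq : (1 + Real.log D) ^ 2 ≤ 4 * L ^ 2 := by
    calc (1 + Real.log D) ^ 2 ≤ (2 * L) ^ 2 := pow_le_pow_left₀ (by linarith) (by linarith) 2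
      _ = 4 * L ^ 2 := by ring
  -- the three sums
  have key : ∑ m ∈ Ioc 0 X, (((Λ m : ℝ) : ℂ) - VR R (m : ℤ)) * ee (m * t) =
      (∑ m ∈ Ioc 0 X, (((Λ m - gD D m : ℝ) : ℂ)) * ee (m * t)) +
      (∑ m ∈ Ioc 0 X, (∑ q ∈ Ioc 0 R, (((aD D q : ℝ) : ℂ) - ((μ q : ℤ) : ℂ) / (q.totient : ℂ)) *
        rs q (m : ℤ)) * ee (m * t)) +
      ∑ m ∈ Ioc 0 X, (∑ q ∈ Ioc 0 D, (if R < q then ((aD D q : ℝ) : ℂ) else 0) * rs q (m : ℤ)) *
        ee (m * t) := by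
    rw [← Finset.sum_add_distrib, ← Finset.sum_add_distrib]
    apply Finset.sum_congr rfl
    intro m hm
    rw [mem_Ioc] at hm
    rw [LamVR_decomp D R m hm.1 hRD]
    ring
  have b1 := h1 X hX3 t
  have b2 := rs_sum_le R X hR1 (fun q => ((aD D q : ℝ) : ℂ) - ((μ q : ℤ) : ℂ) / (q.totient : ℂ))
    (C2 / L ^ A) (by
      intro q hq
      have := h2 X hX3 q hq
      have e : ((aD D q : ℝ) : ℂ) - ((μ q : ℤ) : ℂ) / (q.totient : ℂ) =
          ((aD D q - ((μ q : ℤ) : ℝ) / (q.totient : ℝ) : ℝ) : ℂ) := by push_cast; ring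
      rw [e, Complex.norm_real, Real.norm_eq_abs]
      exact this) t
  have b3 := rs_sum_le D X hD1 (fun q => if R < q then ((aD D q : ℝ) : ℂ) else 0)
    (4 * L ^ 2 / R) (by
      intro q hq
      rw [mem_Ioc] at hq
      by_cases h : R < q
      · simp only [h, if_true]
        rw [Complex.norm_real, Real.norm_eq_abs]
        have hqR : (R : ℝ) ≤ q := by exact_mod_cast h.le
        calc |aD D q| ≤ (1 + Real.log D) ^ 2 / q := abs_aD_le D q hq.1 hD1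
          _ ≤ (4 * L ^ 2) / R := div_le_div₀ (by positivity) hsq (by linarith) hqR
      · simp only [h, if_false, norm_zero]
        positivity) t
  have hLA : 0 < L ^ A := by positivity
  have c2 : C2 / L ^ A * (X + 2 * (R : ℝ) ^ 4) ≤ 3 * C2 * X / L ^ A := by
    have : C2 / L ^ A * (X + 2 * (R : ℝ) ^ 4) ≤ C2 / L ^ A * (3 * X) :=
      mul_le_mul_of_nonneg_left (by linarith) (by positivity)
    calc _ ≤ _ := this
      _ = 3 * C2 * X / L ^ A := by ring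
  have c3 : 4 * L ^ 2 / R * (X + 2 * (D : ℝ) ^ 4) ≤ 24 * X / L ^ A := by
    have e1 : 4 * L ^ 2 / R * (X + 2 * (D : ℝ) ^ 4) ≤ 4 * L ^ 2 / R * (3 * X) :=
      mul_le_mul_of_nonneg_left (by linarith) (by positivity)
    have e2 : L ^ 2 * L ^ A ≤ 2 * R := by
      calc L ^ 2 * L ^ A = L ^ (A + 2) := by rw [← pow_add]; ring_nf
        _ ≤ L ^ B := pow_le_pow_right₀ hL1 hB
        _ ≤ 2 * R := hR2
    have e3 : 4 * L ^ 2 / R ≤ 8 / L ^ A := by
      rw [div_le_div_iff₀ (by linarith) hLA]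
      nlinarith
    calc _ ≤ _ := e1
      _ ≤ 8 / L ^ A * (3 * X) := mul_le_mul_of_nonneg_right e3 (by positivity)
      _ = 24 * X / L ^ A := by ring
  rw [key]
  calc _ ≤ C1 * X / L ^ A + C2 / L ^ A * (X + 2 * (R : ℝ) ^ 4) +
        4 * L ^ 2 / R * (X + 2 * (D : ℝ) ^ 4) :=
        (norm_add₃_le).trans (add_le_add (add_le_add b1 b2) b3)
    _ ≤ C1 * X / L ^ A + 3 * C2 * X / L ^ A + 24 * X / L ^ A := by
        exact add_le_add (add_le_add le_rfl c2) c3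
    _ = (C1 + 3 * C2 + 24) * X / L ^ A := by ring

/-- `Λ - V_R` has small sup norm exponential sums. -/
theorem lambda_sub_VR (A : ℕ) : ∃ B0 : ℕ, ∀ B : ℕ, B0 ≤ B → ∃ C : ℝ, 0 < C ∧ ∀ X : ℕ, 3 ≤ X → ∀ t : ℝ,
    ‖∑ m ∈ Ioc 0 X, (((Λ m : ℝ) : ℂ) - VR (RX B X) (m : ℤ)) * ee (m * t)‖ ≤ C * X / Real.log X ^ A := by
  refine ⟨A + 2, fun B hB => ?_⟩
  obtain ⟨C, hC, X0, h⟩ := LamVR_large A B hB
  set M : ℕ → ℝ := fun X => ∑ m ∈ Ioc 0 X, ‖((Λ m : ℝ) : ℂ) - VR (RX B X) (m : ℤ)‖ with hM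
  have hM0 : ∀ X, 0 ≤ M X := fun X => Finset.sum_nonneg (fun _ _ => norm_nonneg _)
  set S : ℝ := ∑ X ∈ range X0, M X * |Real.log X| ^ A with hS
  have hS0 : 0 ≤ S := Finset.sum_nonneg (fun X _ => mul_nonneg (hM0 X) (by positivity))
  refine ⟨C + S, by linarith, fun X hX3 t => ?_⟩
  have hXr : (3 : ℝ) ≤ X := by exact_mod_cast hX3
  have hL1 : 1 ≤ Real.log X := by
    rw [Real.le_log_iff_exp_le (by linarith)]
    have := Real.exp_one_lt_d9
    linarith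
  have hLA : 0 < Real.log X ^ A := by positivity
  by_cases hX : X0 ≤ X
  · calc _ ≤ C * X / Real.log X ^ A := h X hX3 hX t
      _ ≤ (C + S) * X / Real.log X ^ A := by
        apply div_le_div_of_nonneg_right _ hLA.le
        nlinarith
  · push Not at hX
    have h1 : ‖∑ m ∈ Ioc 0 X, (((Λ m : ℝ) : ℂ) - VR (RX B X) (m : ℤ)) * ee (m * t)‖ ≤ M X := by
      refine (norm_sum_le _ _).trans (Finset.sum_le_sum (fun m _ => ?_))
      rw [norm_mul, norm_ee, mul_one]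
    have h2 : M X * |Real.log X| ^ A ≤ S :=
      Finset.single_le_sum (f := fun X : ℕ => M X * |Real.log (X : ℝ)| ^ A)
        (fun X _ => mul_nonneg (hM0 X) (by positivity)) (mem_range.2 hX)
    rw [abs_of_nonneg (by linarith : (0 : ℝ) ≤ Real.log X)] at h2
    refine h1.trans ?_
    rw [le_div_iff₀ hLA]
    calc M X * Real.log X ^ A ≤ S := h2
      _ ≤ (C + S) * X := by nlinarith
end Pool.Agent.PnLG
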