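import Pool.Agent.PnLG.Defs

open Finset Filter Complex
open scoped ArithmeticFunction.Moebius ArithmeticFunction.vonMangoldt

namespace Pool.Agent.PnLG

open Pool.Agent.ANT
open Pool.Agent.PnPoly.NC (np)

theorem qv_cast_wd {Q : Polynomial ℚ} (hQ : IntVal Q) (n : ℕ) :
    ((qv Q n : ℤ) : ℝ) = (Q.map (algebraMap ℚ ℝ)).eval (n : ℝ) := by
  obtain ⟨k, hk⟩ := hQ (n : ℤ)
  have hk' : Q.eval (n : ℚ) = (k : ℚ) := by exact_mod_cast hk
  have h1 : qv Q n = k := by
    unfold qv
    rw [hk', Int.floor_intCast]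
  have h2 : (Q.map (algebraMap ℚ ℝ)).eval (n : ℝ) = ((Q.eval (n : ℚ) : ℚ) : ℝ) := by
    have := Polynomial.eval_map_algebraMap (R := ℚ) (B := ℝ) Q ((n : ℚ) : ℝ)
    rw [show ((n : ℝ)) = (((n : ℚ) : ℝ)) by push_cast; rfl, this]
    have h3 := Polynomial.aeval_algebraMap_apply ℝ (n : ℚ) Q
    simpa using h3
  rw [h1, h2, hk']
  push_cast
  rfl

theorem taylor_coeff_sub_one (P : Polynomial ℝ) (hd : 1 ≤ P.natDegree) (r : ℝ) :
    (Polynomial.taylor r P).coeff (P.natDegree - 1) =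
      P.coeff (P.natDegree - 1) + P.natDegree * P.leadingCoeff * r := by
  rw [Polynomial.taylor_coeff]
  have hdeg : (Polynomial.hasseDeriv (P.natDegree - 1) P).natDegree < 2 := by
    have := Polynomial.natDegree_hasseDeriv_le P (P.natDegree - 1)
    omega
  rw [Polynomial.eval_eq_sum_range' hdeg, Finset.sum_range_succ, Finset.sum_range_one,
    Polynomial.hasseDeriv_coeff, Polynomial.hasseDeriv_coeff]
  have e1 : 1 + (P.natDegree - 1) = P.natDegree := by omega
  rw [e1, zero_add, Nat.choose_self]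
  have e2 : (P.natDegree).choose (P.natDegree - 1) = P.natDegree := by
    rw [Nat.choose_symm (by omega)]
    exact Nat.choose_one_right _
  rw [e2, Polynomial.leadingCoeff]
  push_cast
  ring

/-- inverse Weyl inequality for the differences `2Q(n+i+1) - 2Q(n+i'+1)` -/
theorem weyl_diff (Q : Polynomial ℚ) (hQ : IntVal Q) (hd : 2 ≤ Q.natDegree) :
    ∃ C : ℕ, ∀ M : ℝ, 2 ≤ M → ∀ i i' a b : ℕ, a < b → ∀ w : ℝ,
      ((b : ℝ) - a) / M ≤ ‖∑ n ∈ Ico a b, ee (w * Dn Q i i' n)‖ →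
      ∃ r : ℕ, 0 < r ∧ (r : ℝ) ≤ M ^ C ∧
        nn (r * (w * (2 * Q.natDegree * ((i : ℝ) - i') * ((Q.leadingCoeff : ℚ) : ℝ)))) ≤
          M ^ C / ((b : ℝ) - a) ^ (Q.natDegree - 1) := by
  obtain ⟨C, hC⟩ := weyl_inverse (Q.natDegree - 1)
  refine ⟨C, ?_⟩
  intro M hM i i' a b hab w hS
  set P : Polynomial ℝ := Q.map (algebraMap ℚ ℝ) with hP
  have hPdeg : P.natDegree = Q.natDegree := Polynomial.natDegree_map _
  have hPlc : P.leadingCoeff = ((Q.leadingCoeff : ℚ) : ℝ) := by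
    rw [hP, Polynomial.leadingCoeff_map]
    rfl
  set s : ℝ := (a : ℝ) + i + 1 with hs
  set s' : ℝ := (a : ℝ) + i' + 1 with hs'
  set f : Polynomial ℝ := Polynomial.C (w * 2) * (Polynomial.taylor s P - Polynomial.taylor s' P) with hf
  have hfe : ∀ x : ℝ, f.eval x = w * 2 * (P.eval (x + s) - P.eval (x + s')) := by
    intro x
    rw [hf, Polynomial.eval_mul, Polynomial.eval_C, Polynomial.eval_sub, Polynomial.taylor_eval,
      Polynomial.taylor_eval]
  have hfc : f.coeff (Q.natDegree - 1) = w * (2 * Q.natDegree * ((i : ℝ) - i') * ((Q.leadingCoeff : ℚ) : ℝ)) := by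
    rw [hf, Polynomial.coeff_C_mul, Polynomial.coeff_sub, ← hPdeg, taylor_coeff_sub_one P (by omega),
      taylor_coeff_sub_one P (by omega), hPlc, hs, hs', hPdeg]
    ring
  have hfd : f.natDegree ≤ Q.natDegree - 1 := by
    rw [Polynomial.natDegree_le_iff_coeff_eq_zero]
    intro N hN
    rw [hf, Polynomial.coeff_C_mul, Polynomial.coeff_sub]
    rcases Nat.lt_or_ge Q.natDegree N with h | h
    · rw [Polynomial.coeff_eq_zero_of_natDegree_lt (by rw [Polynomial.natDegree_taylor, hPdeg]; exact h),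
        Polynomial.coeff_eq_zero_of_natDegree_lt (by rw [Polynomial.natDegree_taylor, hPdeg]; exact h)]
      ring
    · have hNe : N = P.natDegree := by omega
      have ht : ∀ r : ℝ, (Polynomial.taylor r P).coeff P.natDegree = P.leadingCoeff := by
        intro r
        have h1 := Polynomial.leadingCoeff_taylor (R := ℝ) r P
        rw [Polynomial.leadingCoeff, Polynomial.natDegree_taylor] at h1
        exact h1
      rw [hNe, ht, ht]
      ring
  have hba : ((b - a : ℕ) : ℝ) = (b : ℝ) - a := by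
    rw [Nat.cast_sub hab.le]
  have hsum : ∑ n ∈ Ico a b, ee (w * Dn Q i i' n) = ∑ x ∈ Finset.range (b - a), ee (f.eval (x : ℝ)) := by
    rw [Finset.sum_Ico_eq_sum_range]
    refine Finset.sum_congr rfl fun x _ => ?_
    congr 1
    rw [hfe, Dn, qv_cast_wd hQ, qv_cast_wd hQ, ← hP]
    have e1 : ((a + x + i + 1 : ℕ) : ℝ) = (x : ℝ) + s := by rw [hs]; push_cast; ring
    have e2 : ((a + x + i' + 1 : ℕ) : ℝ) = (x : ℝ) + s' := by rw [hs']; push_cast; ring
    rw [e1, e2]
    ring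
  obtain ⟨r, hr0, hrM, hr⟩ := hC M hM (b - a) (by omega) f hfd (by rw [hba, ← hsum]; exact hS)
  refine ⟨r, hr0, hrM, ?_⟩
  have h := hr (Q.natDegree - 1) (by omega) le_rfl
  rw [hfc, hba] at h
  exact h

end Pool.Agent.PnLG
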