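import Pool.Agent.PnLG.Long1
import Pool.Agent.PnLG.WeylDiff

open Finset Filter Complex
open scoped ArithmeticFunction.Moebius ArithmeticFunction.vonMangoldt

namespace Pool.Agent.PnLG

open Pool.Agent.ANT
open Pool.Agent.PnPoly.NC (np)

/-- if `|x| < 1/2` the distance to the nearest integer is `|x|` -/
theorem Long_nn_eq_abs {x : ℝ} (hx : |x| < 1 / 2) : nn x = |x| := by
  have h := abs_lt.mp hx
  have h0 : round x = 0 := by
    rw [round_eq_zero_iff]
    exact ⟨h.1.le, h.2⟩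
  unfold nn
  rw [h0, Int.cast_zero, sub_zero]

/-- the real inequality behind the long stage -/
theorem Long_core {d k5 E E3 E4 : ℕ} (hd : 2 ≤ d) {lc l N P D w : ℝ} {r : ℕ} (hr : 0 < r)
    (hlc : 0 < lc) (hl : 2 ≤ l) (hl8 : 8 * d * lc < l) (hlp : 2 ^ (d - 1) / (2 * d * lc) ≤ l)
    (hN : 1 ≤ N) (hP : N / 2 ≤ P) (hE4 : k5 + E + 1 ≤ E4)
    (hD1 : N / l ^ (E4 + E3) ≤ D) (hD2 : D ≤ N / l ^ E4)
    (hw : |w| ≤ 2 * l ^ E / N ^ (d - 1)) (hrM : (r : ℝ) ≤ l ^ k5)
    (hnn : nn (r * (w * (2 * d * D * lc))) ≤ l ^ k5 / P ^ (d - 1)) :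
    |w| ≤ l ^ (k5 + E4 + E3 + 1) / N ^ d := by
  have hl0 : 0 < l := by linarith
  have hl1 : 1 ≤ l := by linarith
  have hN0 : 0 < N := by linarith
  have hP0 : 0 < P := by linarith
  have hdR : (0 : ℝ) < d := by
    have : 0 < d := by omega
    exact_mod_cast this
  have hD0 : 0 < D := lt_of_lt_of_le (by positivity) hD1
  have hlam : 0 < 2 * d * D * lc := by positivity
  have hrR : (1 : ℝ) ≤ r := by exact_mod_cast hr
  have habs : |(r : ℝ) * (w * (2 * d * D * lc))| = r * (|w| * (2 * d * D * lc)) := by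
    rw [abs_mul, abs_mul, abs_of_pos hlam, abs_of_nonneg (by positivity : (0 : ℝ) ≤ r)]
  -- the product is small
  have hsmall : |(r : ℝ) * (w * (2 * d * D * lc))| < 1 / 2 := by
    rw [habs]
    have h1 : (r : ℝ) * (|w| * (2 * d * D * lc)) ≤
        l ^ k5 * ((2 * l ^ E / N ^ (d - 1)) * (2 * d * (N / l ^ E4) * lc)) := by
      apply mul_le_mul hrM _ (by positivity) (by positivity)
      apply mul_le_mul hw _ (by positivity) (by positivity)
      have : 2 * (d : ℝ) * D ≤ 2 * d * (N / l ^ E4) := by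
        apply mul_le_mul_of_nonneg_left hD2 (by positivity)
      exact mul_le_mul_of_nonneg_right this hlc.le
    have h2 : l ^ k5 * ((2 * l ^ E / N ^ (d - 1)) * (2 * d * (N / l ^ E4) * lc)) =
        (4 * d * lc) * (l ^ (k5 + E) / l ^ E4) * (N / N ^ (d - 1)) := by
      rw [pow_add]
      field_simp
      ring
    have h3 : N / N ^ (d - 1) ≤ 1 := by
      rw [div_le_one (by positivity)]
      calc N = N ^ 1 := (pow_one N).symm
        _ ≤ N ^ (d - 1) := pow_le_pow_right₀ hN (by omega)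
    have h4 : l ^ (k5 + E) / l ^ E4 ≤ 1 / l := by
      rw [div_le_div_iff₀ (by positivity) hl0, one_mul, ← pow_succ]
      exact pow_le_pow_right₀ hl1 hE4
    have h5 : (4 * d * lc) * (l ^ (k5 + E) / l ^ E4) * (N / N ^ (d - 1)) ≤ (4 * d * lc) * (1 / l) * 1 := by
      apply mul_le_mul _ h3 (by positivity) (by positivity)
      apply mul_le_mul_of_nonneg_left h4 (by positivity)
    have h6 : (4 * d * lc) * (1 / l) * 1 < 1 / 2 := by
      rw [mul_one, mul_one_div, div_lt_div_iff₀ hl0 (by norm_num)]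
      linarith
    calc (r : ℝ) * (|w| * (2 * d * D * lc)) ≤ _ := h1
      _ = _ := h2
      _ ≤ _ := h5
      _ < _ := h6
  rw [Long_nn_eq_abs hsmall, habs] at hnn
  have h7 : |w| * (2 * d * D * lc) ≤ l ^ k5 / P ^ (d - 1) := by
    refine le_trans ?_ hnn
    have : 0 ≤ |w| * (2 * d * D * lc) := by positivity
    nlinarith
  have h8 : |w| * (2 * d * (N / l ^ (E4 + E3)) * lc) ≤ l ^ k5 / (N / 2) ^ (d - 1) := by
    calc |w| * (2 * d * (N / l ^ (E4 + E3)) * lc) ≤ |w| * (2 * d * D * lc) := by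
          apply mul_le_mul_of_nonneg_left _ (abs_nonneg w)
          have : 2 * (d : ℝ) * (N / l ^ (E4 + E3)) ≤ 2 * d * D := by
            apply mul_le_mul_of_nonneg_left hD1 (by positivity)
          exact mul_le_mul_of_nonneg_right this hlc.le
      _ ≤ l ^ k5 / P ^ (d - 1) := h7
      _ ≤ l ^ k5 / (N / 2) ^ (d - 1) := by
          apply div_le_div_of_nonneg_left (by positivity) (by positivity)
          exact pow_le_pow_left₀ (by positivity) hP _
  have hpos : 0 < 2 * d * (N / l ^ (E4 + E3)) * lc := by positivity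
  have h9 : |w| ≤ (l ^ k5 / (N / 2) ^ (d - 1)) / (2 * d * (N / l ^ (E4 + E3)) * lc) := by
    rw [le_div_iff₀ hpos]; exact h8
  refine h9.trans ?_
  have h10 : (l ^ k5 / (N / 2) ^ (d - 1)) / (2 * d * (N / l ^ (E4 + E3)) * lc) =
      (l ^ (k5 + E4 + E3) / N ^ d) * (2 ^ (d - 1) / (2 * d * lc)) := by
    have hdd : N ^ d = N ^ (d - 1) * N := by
      rw [← pow_succ]; congr 1; omega
    rw [hdd, div_pow, add_assoc k5 E4 E3, pow_add l k5]
    field_simp
  rw [h10, pow_succ, mul_div_right_comm]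
  apply mul_le_mul_of_nonneg_left hlp (by positivity)

/-- long stage -/
theorem long_stage (Q : Polynomial ℚ) (hQ : IntVal Q) (hlc : 0 < Q.leadingCoeff) (hd : 2 ≤ Q.natDegree)
    (A1 E : ℕ) : ∃ E' : ℕ, ∀ n1 : ℕ, ∀ᶠ N : ℕ in atTop, ∀ T : Finset ℝ, ∀ τ : ℝ,
      (∀ t ∈ T, (N : ℝ) / Real.log N ^ A1 ≤ ‖SE Q n1 N t‖) →
      (∀ t ∈ T, |t - τ| ≤ Real.log N ^ E / (N : ℝ) ^ (Q.natDegree - 1)) →
      ∃ τ' : ℝ, ∃ T' ⊆ T, (T.card : ℝ) ≤ Real.log N ^ E' * T'.card ∧
        ∀ t ∈ T', |t - τ'| ≤ Real.log N ^ E' / (N : ℝ) ^ Q.natDegree := by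
  obtain ⟨E3, E0, h1⟩ := long_pairs Q hQ hd A1 E
  obtain ⟨C, h2⟩ := weyl_diff Q hQ hd
  have hlc0 : 0 < ((Q.leadingCoeff : ℚ) : ℝ) := by exact_mod_cast hlc
  set k5 := (E3 + 1) * C with hk5
  set E4 := max E0 (k5 + E + 1) with hE4
  refine ⟨k5 + E4 + E3 + 1, fun n1 => ?_⟩
  have hlog : Tendsto (fun N : ℕ => Real.log (N : ℝ)) atTop atTop :=
    Real.tendsto_log_atTop.comp tendsto_natCast_atTop_atTop
  filter_upwards [h1 E4 (le_max_left _ _) n1, hlog.eventually_ge_atTop 2,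
    hlog.eventually_gt_atTop (8 * Q.natDegree * ((Q.leadingCoeff : ℚ) : ℝ)),
    hlog.eventually_ge_atTop (2 ^ (Q.natDegree - 1) / (2 * Q.natDegree * ((Q.leadingCoeff : ℚ) : ℝ))),
    eventually_ge_atTop (2 * n1 + 2)] with N hN hl2 hl8 hlp hNn T τ hT hτ
  rcases T.eq_empty_or_nonempty with hTe | hTne
  · refine ⟨0, T, subset_rfl, ?_, ?_⟩
    · simp [hTe]
    · intro t ht
      rw [hTe] at ht
      exact absurd ht (Finset.notMem_empty t)
  obtain ⟨i, i', hi1, hi2, t0, ht0, T', hT', hcard, hbig⟩ := hN T τ hTne hT hτ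
  have hl1 : 1 ≤ Real.log (N : ℝ) := by linarith
  have hN1 : (1 : ℝ) ≤ N := by
    have : 1 ≤ N := by omega
    exact_mod_cast this
  have hNP : (N : ℝ) / 2 ≤ (N : ℝ) - n1 := by
    have : ((2 * n1 + 2 : ℕ) : ℝ) ≤ N := by exact_mod_cast hNn
    push_cast at this
    linarith
  refine ⟨t0, T', hT', ?_, ?_⟩
  · refine hcard.trans ?_
    apply mul_le_mul_of_nonneg_right _ (Nat.cast_nonneg _)
    exact pow_le_pow_right₀ hl1 (by omega)
  · intro t ht
    have hM : (2 : ℝ) ≤ 2 * Real.log N ^ E3 := by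
      have := one_le_pow₀ hl1 (n := E3)
      linarith
    have hMk : (2 * Real.log (N : ℝ) ^ E3) ^ C ≤ Real.log N ^ k5 := by
      rw [hk5, pow_mul]
      apply pow_le_pow_left₀ (by positivity)
      rw [pow_succ, mul_comm]
      exact mul_le_mul_of_nonneg_left hl2 (by positivity)
    have hlow : ((N : ℝ) - n1) / (2 * Real.log N ^ E3) ≤ ‖∑ n ∈ Ico n1 N, ee ((t - t0) * Dn Q i i' n)‖ := by
      refine le_trans ?_ (hbig t ht)
      apply div_le_div₀ (by positivity)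
      · have : (0 : ℝ) ≤ n1 := Nat.cast_nonneg _
        linarith
      · positivity
      · have := one_le_pow₀ hl1 (n := E3)
        linarith
    obtain ⟨r, hr0, hrM, hnn⟩ := h2 (2 * Real.log N ^ E3) hM i i' n1 N (by omega) (t - t0) hlow
    refine Long_core hd hr0 hlc0 hl2 hl8 hlp hN1 hNP (le_max_right E0 (k5 + E + 1)) (E3 := E3) (D := (i : ℝ) - i') ?_ ?_ ?_ (hrM.trans hMk) ?_
    · exact hi1
    · have : (0 : ℝ) ≤ i' := Nat.cast_nonneg _
      linarith
    · have h3 := hτ t (hT' ht)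
      have h4 := hτ t0 ht0
      have h5 : |t - t0| ≤ |t - τ| + |t0 - τ| := by
        have : t - t0 = (t - τ) - (t0 - τ) := by ring
        rw [this]
        exact abs_sub _ _
      have h6 : 2 * Real.log (N : ℝ) ^ E / (N : ℝ) ^ (Q.natDegree - 1) =
          Real.log (N : ℝ) ^ E / (N : ℝ) ^ (Q.natDegree - 1) + Real.log (N : ℝ) ^ E / (N : ℝ) ^ (Q.natDegree - 1) := by
        ring
      rw [h6]
      linarith
    · refine hnn.trans ?_
      have hP0 : (0 : ℝ) < (N : ℝ) - n1 := by linarith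
      exact div_le_div_of_nonneg_right hMk (by positivity)

end Pool.Agent.PnLG
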