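import Pool.Agent.PnLG.Short
import Pool.Agent.PnLG.Long
import Pool.Agent.PnLG.SvFacts
import Pool.Agent.Lib.ANT.Parseval

open Finset Filter Complex
open scoped ArithmeticFunction.Moebius ArithmeticFunction.vonMangoldt

namespace Pool.Agent.PnLG

open Pool.Agent.ANT
open Pool.Agent.PnPoly.NC (np)

/-- integers in a real interval of radius `r` -/
lemma large_card_near (S : Finset ℕ) (x r : ℝ) (hr : 0 ≤ r) (h : ∀ j ∈ S, |(j : ℝ) - x| ≤ r) :
    (S.card : ℝ) ≤ 2 * r + 1 := by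
  have h1 : (S.map Nat.castEmbedding : Finset ℤ) ⊆ Finset.Icc ⌈x - r⌉ ⌊x + r⌋ := by
    intro z hz
    rw [Finset.mem_map] at hz
    obtain ⟨j, hj, rfl⟩ := hz
    have h2 := abs_le.mp (h j hj)
    rw [Finset.mem_Icc, Int.ceil_le, Int.le_floor]
    simp only [Nat.castEmbedding_apply, Int.cast_natCast]
    constructor <;> linarith [h2.1, h2.2]
  have h3 := Finset.card_le_card h1
  rw [Finset.card_map, Int.card_Icc] at h3
  have h4 : ((⌊x + r⌋ + 1 - ⌈x - r⌉).toNat : ℝ) ≤ 2 * r + 1 := by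
    rcases le_total 0 (⌊x + r⌋ + 1 - ⌈x - r⌉) with h5 | h5
    · have h6 : (((⌊x + r⌋ + 1 - ⌈x - r⌉).toNat : ℤ) : ℝ) = ((⌊x + r⌋ + 1 - ⌈x - r⌉ : ℤ) : ℝ) := by
        rw [Int.toNat_of_nonneg h5]
      have h7 : ((⌊x + r⌋ + 1 - ⌈x - r⌉).toNat : ℝ) = (((⌊x + r⌋ + 1 - ⌈x - r⌉).toNat : ℤ) : ℝ) := by
        norm_cast
      rw [h7, h6]
      push_cast
      have h8 := Int.floor_le (x + r)
      have h9 := Int.le_ceil (x - r)
      linarith
    · rw [Int.toNat_of_nonpos h5]
      push_cast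
      linarith
  calc (S.card : ℝ) ≤ ((⌊x + r⌋ + 1 - ⌈x - r⌉).toNat : ℝ) := by exact_mod_cast h3
    _ ≤ _ := h4

/-- distinct multiples of `1/M0` in a short interval -/
lemma large_card_mult (M0 : ℕ) (T : Finset ℝ) (τ δ : ℝ) (hδ : 0 ≤ δ)
    (hT : ∀ t ∈ T, ∃ j : ℕ, j < M0 ∧ t = (j : ℝ) / M0) (h : ∀ t ∈ T, |t - τ| ≤ δ) :
    (T.card : ℝ) ≤ 2 * (δ * M0) + 1 := by
  classical
  rcases Nat.eq_zero_or_pos M0 with h0 | h0
  · subst h0
    have : T = ∅ := by
      refine Finset.eq_empty_of_forall_notMem fun t ht => ?_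
      obtain ⟨j, hj, _⟩ := hT t ht
      omega
    subst this
    simp
  have hM : (0 : ℝ) < M0 := by exact_mod_cast h0
  set S : Finset ℕ := (range M0).filter (fun j => ((j : ℝ) / M0) ∈ T) with hS
  have h1 : T ⊆ S.image (fun j : ℕ => (j : ℝ) / M0) := by
    intro t ht
    obtain ⟨j, hj, rfl⟩ := hT t ht
    rw [Finset.mem_image]
    exact ⟨j, by rw [hS, Finset.mem_filter, Finset.mem_range]; exact ⟨hj, ht⟩, rfl⟩
  have h2 : T.card ≤ S.card := (Finset.card_le_card h1).trans Finset.card_image_le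
  have h3 := large_card_near S (τ * M0) (δ * M0) (by positivity) (by
    intro j hj
    rw [hS, Finset.mem_filter] at hj
    have h4 := h _ hj.2
    have h5 : (j : ℝ) - τ * M0 = ((j : ℝ) / M0 - τ) * M0 := by field_simp
    rw [h5, abs_mul, abs_of_pos hM]
    exact mul_le_mul_of_nonneg_right h4 hM.le)
  calc (T.card : ℝ) ≤ S.card := by exact_mod_cast h2
    _ ≤ _ := h3

/-- Parseval for `SE` -/
lemma large_parseval (Q : Polynomial ℚ) (n1 N M0 : ℕ)
    (hn1 : ∀ n, n1 ≤ n → 0 ≤ qv Q (n + 1) ∧ sv Q n < sv Q (n + 1))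
    (hM : ∀ n ∈ Ico n1 N, sv Q n < M0) :
    ∑ j ∈ range M0, ‖SE Q n1 N ((j : ℝ) / M0)‖ ^ 2 ≤ (M0 : ℝ) * N := by
  classical
  have hpos : ∀ n, n1 ≤ n → 0 ≤ sv Q n := by
    intro n hn
    unfold sv
    have := (hn1 n hn).1
    positivity
  have hmono : ∀ a b, n1 ≤ a → a < b → sv Q a < sv Q b := by
    intro a b ha hab
    induction b, (show a + 1 ≤ b from hab) using Nat.le_induction with
    | base => exact (hn1 a ha).2
    | succ b hb ih => exact (ih (by omega)).trans (hn1 b (by omega)).2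
  have hinj : Set.InjOn (fun n => (sv Q n).toNat) (Ico n1 N : Finset ℕ) := by
    intro a ha b hb hab
    simp only [Finset.coe_Ico, Set.mem_Ico] at ha hb
    simp only at hab
    have h1 := hpos a ha.1
    have h2 := hpos b hb.1
    have h3 : sv Q a = sv Q b := by
      rw [← Int.toNat_of_nonneg h1, ← Int.toNat_of_nonneg h2, hab]
    rcases lt_trichotomy a b with h | h | h
    · exact absurd h3 (hmono a b ha.1 h).ne
    · exact h
    · exact absurd h3.symm (hmono b a hb.1 h).ne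
  set I : Finset ℕ := (Ico n1 N).image (fun n => (sv Q n).toNat) with hI
  have hIsub : I ⊆ range M0 := by
    intro k hk
    rw [hI, Finset.mem_image] at hk
    obtain ⟨n, hn, rfl⟩ := hk
    have h1 := hM n hn
    have h2 := hpos n (Finset.mem_Ico.mp hn).1
    rw [Finset.mem_range]
    omega
  set c : ℕ → ℂ := fun k => if k ∈ I then 1 else 0 with hc
  have hSE : ∀ j : ℕ, SE Q n1 N ((j : ℝ) / M0) = ∑ k ∈ range M0, c k * ee (k * ((j : ℝ) / M0)) := by
    intro j
    have e1 : ∑ k ∈ range M0, c k * ee (k * ((j : ℝ) / M0)) = ∑ k ∈ I, ee (k * ((j : ℝ) / M0)) := by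
      rw [hc]
      simp only [ite_mul, one_mul, zero_mul]
      rw [← Finset.sum_filter]
      refine Finset.sum_congr ?_ fun _ _ => rfl
      ext k
      rw [Finset.mem_filter]
      exact ⟨fun h => h.2, fun h => ⟨hIsub h, h⟩⟩
    rw [e1, hI, Finset.sum_image hinj]
    unfold SE
    refine Finset.sum_congr rfl fun n hn => ?_
    have h2 := hpos n (Finset.mem_Ico.mp hn).1
    congr 1
    have h3 : (((sv Q n).toNat : ℕ) : ℝ) = ((sv Q n : ℤ) : ℝ) := by
      have : (((sv Q n).toNat : ℤ) : ℝ) = ((sv Q n : ℤ) : ℝ) := by rw [Int.toNat_of_nonneg h2]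
      rw [← this]
      norm_cast
    rw [h3]
    ring
  have hP := parseval M0 c
  simp_rw [← hSE] at hP
  rw [hP]
  refine mul_le_mul_of_nonneg_left ?_ (by positivity)
  have e2 : ∑ k ∈ range M0, ‖c k‖ ^ 2 = (I.card : ℝ) := by
    have e3 : ∀ k ∈ range M0, ‖c k‖ ^ 2 = if k ∈ I then (1 : ℝ) else 0 := by
      intro k _
      rw [hc]
      simp only
      split_ifs <;> simp
    rw [Finset.sum_congr rfl e3, ← Finset.sum_filter]
    have e4 : (range M0).filter (fun k => k ∈ I) = I := by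
      ext k
      rw [Finset.mem_filter]
      exact ⟨fun h => h.2, fun h => ⟨hIsub h, h⟩⟩
    rw [e4]
    simp
  rw [e2]
  have h5 : I.card ≤ N := by
    rw [hI]
    refine Finset.card_image_le.trans ?_
    rw [Nat.card_Ico]
    omega
  exact_mod_cast h5

/-- large values of the exponential sum -/
theorem large_values (Q : Polynomial ℚ) (hQ : IntVal Q) (hlc : 0 ≤ Q.leadingCoeff) (n1 : ℕ)
    (hn1 : ∀ n, n1 ≤ n → 0 ≤ qv Q (n + 1) ∧ sv Q n < sv Q (n + 1)) (A1 C0 : ℕ) :
    ∃ C1 : ℕ, ∀ᶠ N : ℕ in atTop, ∀ M0 : ℕ,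
      (M0 : ℝ) ≤ (N : ℝ) ^ (max Q.natDegree 1) * Real.log N ^ C0 → (∀ n ∈ Ico n1 N, sv Q n < M0) →
      (((range M0).filter (fun j : ℕ => (N : ℝ) / Real.log N ^ A1 ≤ ‖SE Q n1 N ((j : ℝ) / M0)‖)).card : ℝ) ≤
        Real.log N ^ C1 := by
  classical
  have hlog : ∀ᶠ N : ℕ in atTop, 2 ≤ Real.log N :=
    (Real.tendsto_log_atTop.comp tendsto_natCast_atTop_atTop).eventually_ge_atTop 2
  by_cases hd : Q.natDegree ≤ 1
  · refine ⟨C0 + 2 * A1, ?_⟩
    filter_upwards [hlog, eventually_ge_atTop 1] with N hN hN1 M0 hM0 hsv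
    set S := (range M0).filter
      (fun j : ℕ => (N : ℝ) / Real.log N ^ A1 ≤ ‖SE Q n1 N ((j : ℝ) / M0)‖) with hS
    have hmax : max Q.natDegree 1 = 1 := max_eq_right hd
    rw [hmax, pow_one] at hM0
    have hNpos : (0 : ℝ) < N := by exact_mod_cast hN1
    have hlpos : (0 : ℝ) < Real.log N := by linarith
    have hP := large_parseval Q n1 N M0 hn1 hsv
    have h1 : (S.card : ℝ) * ((N : ℝ) / Real.log N ^ A1) ^ 2 ≤ (M0 : ℝ) * N := by
      calc (S.card : ℝ) * ((N : ℝ) / Real.log N ^ A1) ^ 2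
          = ∑ j ∈ S, ((N : ℝ) / Real.log N ^ A1) ^ 2 := by rw [Finset.sum_const, nsmul_eq_mul]
        _ ≤ ∑ j ∈ S, ‖SE Q n1 N ((j : ℝ) / M0)‖ ^ 2 := by
            refine Finset.sum_le_sum fun j hj => ?_
            rw [hS, Finset.mem_filter] at hj
            exact pow_le_pow_left₀ (by positivity) hj.2 2
        _ ≤ ∑ j ∈ range M0, ‖SE Q n1 N ((j : ℝ) / M0)‖ ^ 2 :=
            Finset.sum_le_sum_of_subset_of_nonneg (Finset.filter_subset _ _)
              (fun _ _ _ => by positivity)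
        _ ≤ _ := hP
    have h2 : (M0 : ℝ) * N ≤ (N : ℝ) ^ 2 * Real.log N ^ C0 := by
      nlinarith [mul_le_mul_of_nonneg_right hM0 hNpos.le]
    have h3 : (S.card : ℝ) * ((N : ℝ) / Real.log N ^ A1) ^ 2 =
        ((S.card : ℝ) * (N : ℝ) ^ 2) / Real.log N ^ (2 * A1) := by
      rw [div_pow, ← pow_mul, mul_comm A1 2]
      ring
    rw [h3, div_le_iff₀ (by positivity)] at h1
    have h4 : (S.card : ℝ) * (N : ℝ) ^ 2 ≤ Real.log N ^ (C0 + 2 * A1) * (N : ℝ) ^ 2 := by
      calc (S.card : ℝ) * (N : ℝ) ^ 2 ≤ (M0 : ℝ) * N * Real.log N ^ (2 * A1) := h1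
        _ ≤ ((N : ℝ) ^ 2 * Real.log N ^ C0) * Real.log N ^ (2 * A1) :=
            mul_le_mul_of_nonneg_right h2 (by positivity)
        _ = _ := by rw [pow_add]; ring
    exact le_of_mul_le_mul_right h4 (by positivity)
  · have hd2 : 2 ≤ Q.natDegree := by omega
    have hQ0 : Q ≠ 0 := by
      rintro rfl
      simp at hd2
    have hlc' : 0 < Q.leadingCoeff :=
      lt_of_le_of_ne hlc (Ne.symm (Polynomial.leadingCoeff_ne_zero.mpr hQ0))
    obtain ⟨E, hE⟩ := short_stage Q hQ hlc' hd2 A1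
    obtain ⟨E', hE'⟩ := long_stage Q hQ hlc' hd2 A1 E
    refine ⟨E + E' + (E' + C0 + 2), ?_⟩
    filter_upwards [hlog, eventually_ge_atTop 1, hE n1, hE' n1] with N hN hN1 hS1 hS2 M0 hM0 hsv
    set S := (range M0).filter
      (fun j : ℕ => (N : ℝ) / Real.log N ^ A1 ≤ ‖SE Q n1 N ((j : ℝ) / M0)‖) with hS
    have hmax : max Q.natDegree 1 = Q.natDegree := max_eq_left (by omega)
    rw [hmax] at hM0
    have hNpos : (0 : ℝ) < N := by exact_mod_cast hN1
    have hlpos : (0 : ℝ) < Real.log N := by linarith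
    set T : Finset ℝ := S.image (fun j : ℕ => (j : ℝ) / M0) with hT
    have hcard : T.card = S.card := by
      rw [hT]
      refine Finset.card_image_of_injOn ?_
      intro a ha b hb hab
      simp only [hS, Finset.coe_filter, Finset.mem_range, Set.mem_ofPred_eq] at ha hb
      have hM : (0 : ℝ) < M0 := by
        have : 0 < M0 := by omega
        exact_mod_cast this
      simp only at hab
      rw [div_left_inj' hM.ne'] at hab
      exact_mod_cast hab
    have hTm : ∀ t ∈ T, ∃ j : ℕ, j < M0 ∧ t = (j : ℝ) / M0 ∧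
        (N : ℝ) / Real.log N ^ A1 ≤ ‖SE Q n1 N t‖ := by
      intro t ht
      rw [hT, Finset.mem_image] at ht
      obtain ⟨j, hj, rfl⟩ := ht
      rw [hS, Finset.mem_filter, Finset.mem_range] at hj
      exact ⟨j, hj.1, rfl, hj.2⟩
    obtain ⟨τ, T1, hT1, hc1, hd1⟩ := hS1 T (by
      intro t ht
      obtain ⟨j, hj, h1, h2⟩ := hTm t ht
      have hM : (0 : ℝ) < M0 := by
        have : 0 < M0 := by omega
        exact_mod_cast this
      refine ⟨by rw [h1]; positivity, ?_, h2⟩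
      rw [h1, div_lt_one hM]
      exact_mod_cast hj)
    obtain ⟨τ', T2, hT2, hc2, hd2'⟩ := hS2 T1 τ (by
      intro t ht
      obtain ⟨j, hj, h1, h2⟩ := hTm t (hT1 ht)
      exact h2) hd1
    have h5 := large_card_mult M0 T2 τ' (Real.log N ^ E' / (N : ℝ) ^ Q.natDegree) (by positivity)
      (fun t ht => by
        obtain ⟨j, hj, h1, _⟩ := hTm t (hT1 (hT2 ht))
        exact ⟨j, hj, h1⟩) hd2'
    have h6 : Real.log N ^ E' / (N : ℝ) ^ Q.natDegree * M0 ≤ Real.log N ^ (E' + C0) := by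
      calc Real.log N ^ E' / (N : ℝ) ^ Q.natDegree * M0
          ≤ Real.log N ^ E' / (N : ℝ) ^ Q.natDegree * ((N : ℝ) ^ Q.natDegree * Real.log N ^ C0) :=
            mul_le_mul_of_nonneg_left hM0 (by positivity)
        _ = Real.log N ^ (E' + C0) := by
            rw [pow_add]
            field_simp
    have h7 : (1 : ℝ) ≤ Real.log N ^ (E' + C0) := one_le_pow₀ (by linarith)
    have h8 : (T2.card : ℝ) ≤ Real.log N ^ (E' + C0 + 2) := by
      calc (T2.card : ℝ) ≤ 2 * (Real.log N ^ E' / (N : ℝ) ^ Q.natDegree * M0) + 1 := h5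
        _ ≤ 4 * Real.log N ^ (E' + C0) := by linarith
        _ ≤ Real.log N ^ 2 * Real.log N ^ (E' + C0) := by
            refine mul_le_mul_of_nonneg_right ?_ (by positivity)
            nlinarith
        _ = _ := by rw [pow_add]; ring
    calc (S.card : ℝ) = T.card := by rw [hcard]
      _ ≤ Real.log N ^ E * T1.card := hc1
      _ ≤ Real.log N ^ E * (Real.log N ^ E' * T2.card) := mul_le_mul_of_nonneg_left hc2 (by positivity)
      _ ≤ Real.log N ^ E * (Real.log N ^ E' * Real.log N ^ (E' + C0 + 2)) := by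
          refine mul_le_mul_of_nonneg_left (mul_le_mul_of_nonneg_left h8 (by positivity)) (by positivity)
      _ = _ := by rw [pow_add, pow_add]; ring

end Pool.Agent.PnLG
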