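import Pool.Agent.PnLG.Defs

open Finset Filter Complex
open scoped ArithmeticFunction.Moebius ArithmeticFunction.vonMangoldt

namespace Pool.Agent.PnLG

open Pool.Agent.ANT
open Pool.Agent.PnPoly.NC (np)

lemma local_exists (p : ℕ) (hp : p.Prime) (hp2 : p ≠ 2) (a c s : ℤ) (hc : ¬ (p : ℤ) ∣ c) :
    ∃ k₀ ∈ range p, ∀ k ∈ range p, ((p : ℤ) ∣ s + 2 * (a + c * (k : ℤ)) ↔ k = k₀) := by
  have : Fact p.Prime := ⟨hp⟩
  have h2 : (2 : ZMod p) ≠ 0 := by
    intro h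
    have h1 : ((2 : ℕ) : ZMod p) = 0 := by exact_mod_cast h
    rw [ZMod.natCast_eq_zero_iff] at h1
    exact hp2 ((Nat.prime_dvd_prime_iff_eq hp Nat.prime_two).mp h1)
  have hc0 : (c : ZMod p) ≠ 0 := by
    intro h
    rw [ZMod.intCast_zmod_eq_zero_iff_dvd] at h
    exact hc h
  set x : ZMod p := -((s : ZMod p) + 2 * a) / (2 * c) with hx
  refine ⟨x.val, mem_range.mpr x.val_lt, fun k hk => ?_⟩
  rw [mem_range] at hk
  rw [← ZMod.intCast_zmod_eq_zero_iff_dvd]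
  push_cast
  constructor
  · intro h
    have h3 : (k : ZMod p) = x := by
      rw [hx, eq_div_iff (mul_ne_zero h2 hc0)]
      linear_combination h
    rw [← h3, ZMod.val_natCast_of_lt hk]
  · intro h
    have h3 : (k : ZMod p) = x := by
      rw [h, ZMod.natCast_zmod_val]
    rw [h3, hx]
    field_simp
    ring

theorem local_one (p : ℕ) (hp : p.Prime) (hp2 : p ≠ 2) (a c s : ℤ) (hc : ¬ (p : ℤ) ∣ c) :
    ∑ k ∈ range p, (if (p : ℤ) ∣ s + 2 * (a + c * (k : ℤ)) then 0 else (1 - 1 / (p : ℝ))⁻¹) = p := by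
  obtain ⟨k₀, hk₀, h⟩ := local_exists p hp hp2 a c s hc
  have hp1 : (1 : ℝ) < p := by exact_mod_cast hp.one_lt
  have h1 : ∑ k ∈ range p, (if (p : ℤ) ∣ s + 2 * (a + c * (k : ℤ)) then 0 else (1 - 1 / (p : ℝ))⁻¹)
      = ∑ k ∈ (range p).erase k₀, (1 - 1 / (p : ℝ))⁻¹ := by
    rw [← Finset.add_sum_erase _ _ hk₀, if_pos ((h k₀ hk₀).mpr rfl), zero_add]
    refine Finset.sum_congr rfl (fun k hk => ?_)
    rw [mem_erase] at hk
    rw [if_neg (fun hd => hk.1 ((h k hk.2).mp hd))]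
  rw [h1, sum_const, card_erase_of_mem hk₀, card_range, nsmul_eq_mul,
    Nat.cast_sub hp.one_lt.le, Nat.cast_one]
  have h2 : (p : ℝ) - 1 ≠ 0 := by linarith
  field_simp

theorem local_two (p : ℕ) (hp : p.Prime) (hp2 : p ≠ 2) (a c s s' : ℤ) (hc : ¬ (p : ℤ) ∣ c) :
    ∑ k ∈ range p, (if (p : ℤ) ∣ s + 2 * (a + c * (k : ℤ)) then 0 else (1 - 1 / (p : ℝ))⁻¹) *
      (if (p : ℤ) ∣ s' + 2 * (a + c * (k : ℤ)) then 0 else (1 - 1 / (p : ℝ))⁻¹) ≤
      p * (if (p : ℤ) ∣ s - s' then Real.exp (2 / p) else 1) := by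
  obtain ⟨k₀, hk₀, h⟩ := local_exists p hp hp2 a c s hc
  obtain ⟨k₁, hk₁, h'⟩ := local_exists p hp hp2 a c s' hc
  have hp1 : (2 : ℝ) ≤ p := by exact_mod_cast hp.two_le
  set A : ℝ := (1 - 1 / (p : ℝ))⁻¹ with hA
  have hAe : A = p / (p - 1) := by
    rw [hA]
    have h2 : (p : ℝ) - 1 ≠ 0 := by linarith
    field_simp
  have h1 : ∑ k ∈ range p, (if (p : ℤ) ∣ s + 2 * (a + c * (k : ℤ)) then 0 else A) *
      (if (p : ℤ) ∣ s' + 2 * (a + c * (k : ℤ)) then 0 else A)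
      = ∑ k ∈ (range p).filter (fun k => k ≠ k₀ ∧ k ≠ k₁), A ^ 2 := by
    rw [Finset.sum_filter]
    refine Finset.sum_congr rfl (fun k hk => ?_)
    rw [if_congr (h k hk) rfl rfl, if_congr (h' k hk) rfl rfl]
    by_cases h2 : k = k₀
    · rw [if_pos h2, zero_mul, if_neg (fun hh => hh.1 h2)]
    · by_cases h3 : k = k₁
      · rw [if_pos h3, mul_zero, if_neg (fun hh => hh.2 h3)]
      · rw [if_neg h2, if_neg h3, if_pos ⟨h2, h3⟩, sq]
  rw [h1, sum_const, nsmul_eq_mul]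
  have hcard : (range p).filter (fun k => k ≠ k₀ ∧ k ≠ k₁) = ((range p).erase k₀).erase k₁ := by
    ext k
    simp only [mem_filter, mem_erase, mem_range]
    tauto
  rw [hcard]
  by_cases hd : (p : ℤ) ∣ s - s'
  · rw [if_pos hd]
    have hkk : k₁ = k₀ := by
      rw [← h k₁ hk₁]
      have h3 := (h' k₁ hk₁).mpr rfl
      have h4 := dvd_add hd h3
      have h5 : s - s' + (s' + 2 * (a + c * (k₁ : ℤ))) = s + 2 * (a + c * (k₁ : ℤ)) := by ring
      rwa [h5] at h4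
    rw [hkk, erase_idem, card_erase_of_mem hk₀, card_range, Nat.cast_sub hp.one_lt.le,
      Nat.cast_one, hAe]
    have h2 : (0 : ℝ) < (p : ℝ) - 1 := by linarith
    have h3 : ((p : ℝ) - 1) * (p / (p - 1)) ^ 2 = p * (p / (p - 1)) := by
      field_simp
    rw [h3]
    refine mul_le_mul_of_nonneg_left ?_ (by linarith)
    have h4 : (p : ℝ) / (p - 1) ≤ 2 / p + 1 := by
      rw [div_add_one (by linarith), div_le_div_iff₀ h2 (by linarith)]
      nlinarith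
    exact h4.trans (Real.add_one_le_exp _)
  · rw [if_neg hd, mul_one]
    have hkk : k₁ ≠ k₀ := by
      intro hkk
      apply hd
      have h3 := (h' k₁ hk₁).mpr rfl
      have h4 := (h k₁ hk₁).mpr hkk
      have h5 := dvd_sub h4 h3
      have h6 : s + 2 * (a + c * (k₁ : ℤ)) - (s' + 2 * (a + c * (k₁ : ℤ))) = s - s' := by ring
      rwa [h6] at h5
    have hp2' : 2 ≤ p := hp.two_le
    rw [card_erase_of_mem (mem_erase.mpr ⟨hkk, hk₁⟩), card_erase_of_mem hk₀, card_range,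
      Nat.sub_sub, Nat.cast_sub hp2', hAe]
    have h2 : (0 : ℝ) < (p : ℝ) - 1 := by linarith
    push_cast
    rw [div_pow, ← mul_div_assoc, div_le_iff₀ (by positivity)]
    nlinarith

end Pool.Agent.PnLG
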