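import Pool.Agent.PnLG.VdC
import Pool.Agent.PnLG.Dual
import Pool.Agent.PnLG.Gap

open Finset Filter Complex
open scoped ArithmeticFunction.Moebius ArithmeticFunction.vonMangoldt

namespace Pool.Agent.PnLG

open Pool.Agent.ANT
open Pool.Agent.PnPoly.NC (np)

private lemma Long1_close_card (J i : ℕ) (x : ℝ) (hx : 0 ≤ x) :
    (((range J).filter (fun i' : ℕ => |(i : ℝ) - i'| ≤ x)).card : ℝ) ≤ 2 * x + 1 := by
  have hsub : (range J).filter (fun i' : ℕ => |(i : ℝ) - i'| ≤ x) ⊆ Icc (i - ⌊x⌋₊) (i + ⌊x⌋₊) := by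
    intro k hk
    rw [mem_filter] at hk
    obtain ⟨-, hk⟩ := hk
    rw [abs_le] at hk
    rw [mem_Icc]
    constructor
    · rcases le_or_gt i k with h | h
      · omega
      · have h1 : (i : ℝ) - k ≤ x := hk.2
        have h2 : ((i - k : ℕ) : ℝ) ≤ x := by rw [Nat.cast_sub h.le]; exact h1
        have h3 : i - k ≤ ⌊x⌋₊ := Nat.le_floor h2
        omega
    · rcases le_or_gt k i with h | h
      · omega
      · have h1 : (k : ℝ) - i ≤ x := by linarith [hk.1]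
        have h2 : ((k - i : ℕ) : ℝ) ≤ x := by rw [Nat.cast_sub h.le]; exact h1
        have h3 : k - i ≤ ⌊x⌋₊ := Nat.le_floor h2
        omega
  have h1 := card_le_card hsub
  rw [Nat.card_Icc] at h1
  have h2 : ((range J).filter (fun i' : ℕ => |(i : ℝ) - i'| ≤ x)).card ≤ 2 * ⌊x⌋₊ + 1 := by omega
  have h3 : ((2 * ⌊x⌋₊ + 1 : ℕ) : ℝ) ≤ 2 * x + 1 := by
    push_cast
    have := Nat.floor_le hx
    linarith
  exact le_trans (by exact_mod_cast h2) h3

private lemma Long1_far {ι : Type*} (T : Finset ι) (hT : T.Nonempty) (F : ι → ℕ → ℕ → ℝ) (M K : ℝ) (hM : 0 < M)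
    (hK : 1 ≤ K) (J : ℕ) (hJ : 32 * K ^ 2 ≤ J) (hFM : ∀ t i i', F t i i' ≤ M)
    (hsym : ∀ t i i', F t i i' = F t i' i)
    (h : ∀ t ∈ T, (J : ℝ) ^ 2 * M / (4 * K ^ 2) ≤ ∑ i ∈ range J, ∑ i' ∈ range J, F t i i') :
    ∃ i ∈ range J, ∃ i' ∈ range J, (J : ℝ) / (32 * K ^ 2) < (i : ℝ) - i' ∧
      (T.card : ℝ) * (M / (8 * K ^ 2)) ≤ ∑ t ∈ T, F t i i' := by
  have hK0 : 0 < K := by linarith
  have hK2 : 0 < K ^ 2 := by positivity
  have hJ0 : (0 : ℝ) < J := lt_of_lt_of_le (by positivity) hJ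
  have hTc : (0 : ℝ) < T.card := by exact_mod_cast hT.card_pos
  by_contra hcon
  push Not at hcon
  set x : ℝ := (J : ℝ) / (32 * K ^ 2) with hx
  have hx0 : 0 ≤ x := by positivity
  have hfar : ∀ i ∈ range J, ∀ i' ∈ range J, x < |(i : ℝ) - i'| →
      ∑ t ∈ T, F t i i' ≤ (T.card : ℝ) * (M / (8 * K ^ 2)) := by
    intro i hi i' hi' hlt
    rcases le_or_gt (i' : ℝ) (i : ℝ) with h1 | h1
    · rw [abs_of_nonneg (by linarith)] at hlt
      exact (hcon i hi i' hi' hlt).le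
    · rw [abs_of_neg (by linarith)] at hlt
      have h2 := (hcon i' hi' i hi (by linarith)).le
      rw [Finset.sum_congr rfl (fun t _ => hsym t i i')]
      exact h2
  have hclose : ∀ i ∈ range J, ∀ i' ∈ range J, ∑ t ∈ T, F t i i' ≤
      (T.card : ℝ) * (M / (8 * K ^ 2)) + (if |(i : ℝ) - i'| ≤ x then (T.card : ℝ) * M else 0) := by
    intro i hi i' hi'
    split_ifs with hc
    · have h1 : ∑ t ∈ T, F t i i' ≤ (T.card : ℝ) * M := by
        calc ∑ t ∈ T, F t i i' ≤ ∑ t ∈ T, M := Finset.sum_le_sum (fun t _ => hFM t i i')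
          _ = (T.card : ℝ) * M := by rw [sum_const, nsmul_eq_mul]
      have h2 : 0 ≤ (T.card : ℝ) * (M / (8 * K ^ 2)) := by positivity
      linarith
    · rw [add_zero]
      exact hfar i hi i' hi' (not_le.mp hc)
  have htot : (T.card : ℝ) * ((J : ℝ) ^ 2 * M / (4 * K ^ 2)) ≤ ∑ i ∈ range J, ∑ i' ∈ range J, ∑ t ∈ T, F t i i' := by
    calc (T.card : ℝ) * ((J : ℝ) ^ 2 * M / (4 * K ^ 2)) = ∑ t ∈ T, (J : ℝ) ^ 2 * M / (4 * K ^ 2) := by
          rw [sum_const, nsmul_eq_mul]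
      _ ≤ ∑ t ∈ T, ∑ i ∈ range J, ∑ i' ∈ range J, F t i i' := Finset.sum_le_sum h
      _ = ∑ i ∈ range J, ∑ t ∈ T, ∑ i' ∈ range J, F t i i' := Finset.sum_comm
      _ = ∑ i ∈ range J, ∑ i' ∈ range J, ∑ t ∈ T, F t i i' := by
          refine Finset.sum_congr rfl fun i _ => Finset.sum_comm
  have hup : ∑ i ∈ range J, ∑ i' ∈ range J, ∑ t ∈ T, F t i i' ≤
      (J : ℝ) * ((J : ℝ) * ((T.card : ℝ) * (M / (8 * K ^ 2))) + (2 * x + 1) * ((T.card : ℝ) * M)) := by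
    have hrow : ∀ i ∈ range J, ∑ i' ∈ range J, ∑ t ∈ T, F t i i' ≤
        (J : ℝ) * ((T.card : ℝ) * (M / (8 * K ^ 2))) + (2 * x + 1) * ((T.card : ℝ) * M) := by
      intro i hi
      calc ∑ i' ∈ range J, ∑ t ∈ T, F t i i' ≤ ∑ i' ∈ range J, ((T.card : ℝ) * (M / (8 * K ^ 2)) +
            (if |(i : ℝ) - i'| ≤ x then (T.card : ℝ) * M else 0)) := Finset.sum_le_sum (hclose i hi)
        _ = (J : ℝ) * ((T.card : ℝ) * (M / (8 * K ^ 2))) +
            (((range J).filter (fun i' : ℕ => |(i : ℝ) - i'| ≤ x)).card : ℝ) * ((T.card : ℝ) * M) := by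
            rw [sum_add_distrib, sum_const, card_range, nsmul_eq_mul, ← sum_filter, sum_const, nsmul_eq_mul]
        _ ≤ _ := by
            have := Long1_close_card J i x hx0
            gcongr
    calc ∑ i ∈ range J, ∑ i' ∈ range J, ∑ t ∈ T, F t i i' ≤ ∑ i ∈ range J,
          ((J : ℝ) * ((T.card : ℝ) * (M / (8 * K ^ 2))) + (2 * x + 1) * ((T.card : ℝ) * M)) := Finset.sum_le_sum hrow
      _ = _ := by rw [sum_const, card_range, nsmul_eq_mul]
  have hfin := le_trans htot hup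
  have h1 : (1 : ℝ) ≤ x := by
    rw [hx, le_div_iff₀ (by positivity)]
    linarith
  have hlow : (J : ℝ) * ((J : ℝ) * ((T.card : ℝ) * (M / (8 * K ^ 2))) + (2 * x + 1) * ((T.card : ℝ) * M)) <
      (T.card : ℝ) * ((J : ℝ) ^ 2 * M / (4 * K ^ 2)) := by
    have e1 : (T.card : ℝ) * ((J : ℝ) ^ 2 * M / (4 * K ^ 2)) = (J : ℝ) * ((8 * x) * ((T.card : ℝ) * M)) := by
      rw [hx]; field_simp; norm_num
    have e2 : (J : ℝ) * ((J : ℝ) * ((T.card : ℝ) * (M / (8 * K ^ 2))) + (2 * x + 1) * ((T.card : ℝ) * M)) =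
        (J : ℝ) * ((6 * x + 1) * ((T.card : ℝ) * M)) := by
      rw [hx]; field_simp; ring
    rw [e1, e2]
    have h2 : 6 * x + 1 < 8 * x := by linarith
    have h3 : 0 < (T.card : ℝ) * M := by positivity
    gcongr
  linarith

private lemma Long1_pigeon (T : Finset ℝ) (hT : T.Nonempty) (a : ℝ → ℝ → ℝ) (M κ : ℝ) (hM : 0 < M)
    (haM : ∀ t t', a t t' ≤ M) (h : κ ^ 2 * (T.card : ℝ) ^ 2 * M ≤ ∑ t ∈ T, ∑ t' ∈ T, a t t') :
    ∃ t0 ∈ T, ∃ T' ⊆ T, κ ^ 2 * (T.card : ℝ) ≤ 2 * T'.card ∧ ∀ t ∈ T', κ ^ 2 * M / 2 ≤ a t t0 := by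
  classical
  have hTc : (0 : ℝ) < T.card := by exact_mod_cast hT.card_pos
  have hex : ∃ t0 ∈ T, κ ^ 2 * (T.card : ℝ) * M ≤ ∑ t ∈ T, a t t0 := by
    by_contra hcon
    push Not at hcon
    have h1 : ∑ t0 ∈ T, ∑ t ∈ T, a t t0 < ∑ t0 ∈ T, κ ^ 2 * (T.card : ℝ) * M := Finset.sum_lt_sum_of_nonempty hT hcon
    rw [sum_const, nsmul_eq_mul, Finset.sum_comm] at h1
    nlinarith
  obtain ⟨t0, ht0, hs⟩ := hex
  refine ⟨t0, ht0, T.filter (fun t => κ ^ 2 * M / 2 ≤ a t t0), filter_subset _ _, ?_, fun t ht => (mem_filter.mp ht).2⟩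
  have hsplit : ∑ t ∈ T, a t t0 ≤ ∑ t ∈ T, ((if κ ^ 2 * M / 2 ≤ a t t0 then M else 0) + κ ^ 2 * M / 2) := by
    refine Finset.sum_le_sum fun t _ => ?_
    split_ifs with hc
    · have := haM t t0
      have h2 : 0 ≤ κ ^ 2 * M / 2 := by positivity
      linarith
    · linarith [not_le.mp hc]
  rw [sum_add_distrib, ← sum_filter, sum_const, sum_const, nsmul_eq_mul, nsmul_eq_mul] at hsplit
  have h3 : κ ^ 2 * (T.card : ℝ) * M ≤ 2 * ((T.filter (fun t => κ ^ 2 * M / 2 ≤ a t t0)).card : ℝ) * M := by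
    linarith
  exact le_of_mul_le_mul_right (by linarith) hM

/-- the correlation sums -/
private lemma Long1_corr (Q : Polynomial ℚ) (t : ℝ) (n i i' : ℕ) (hi : i' ≤ i) :
    ee (t * ((sv Q (n + i) : ℤ) : ℝ)) * (starRingEnd ℂ) (ee (t * ((sv Q (n + i') : ℤ) : ℝ))) =
      ee (t * (((np (n + i) - np (n + i') : ℕ) : ℝ) + Dn Q i i' n)) := by
  rw [conj_ee, ← ee_add]
  congr 1
  have hmono : np (n + i') ≤ np (n + i) := Pool.Agent.PnPoly.NC.np_strictMono.monotone (by omega)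
  rw [Nat.cast_sub hmono]
  unfold Dn sv
  push_cast
  ring

private lemma Long1_sum_le (a b : ℕ) (hab : a ≤ b) (v : ℕ → ℂ) (hv : ∀ n, ‖v n‖ ≤ 1) :
    ‖∑ n ∈ Ico a b, v n‖ ≤ (b : ℝ) - a := by
  calc ‖∑ n ∈ Ico a b, v n‖ ≤ ∑ n ∈ Ico a b, ‖v n‖ := norm_sum_le _ _
    _ ≤ ∑ n ∈ Ico a b, (1 : ℝ) := Finset.sum_le_sum (fun n _ => hv n)
    _ = (b : ℝ) - a := by
        rw [sum_const, Nat.card_Ico, nsmul_eq_mul, mul_one, Nat.cast_sub hab]

/-- replace the gaps by a common phase -/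
private lemma Long1_replace (a b G : ℕ) (g : ℕ → ℕ) (D : ℕ → ℝ) (t τ η : ℝ)
    (hη : 2 * Real.pi * (|t - τ| * G) ≤ η) (hη0 : 0 ≤ η) :
    ‖∑ n ∈ Ico a b, ee (t * ((g n : ℝ) + D n))‖ ≤
      ‖∑ n ∈ Ico a b, (if g n ≤ G then ee (τ * ((g n : ℝ) + D n)) else 0) * ee ((t - τ) * D n)‖ +
        (((b - a : ℕ) : ℝ) * η + (((Ico a b).filter (fun n => G < g n)).card : ℝ)) := by
  have hterm : ∀ n, ‖ee (t * ((g n : ℝ) + D n)) -
      (if g n ≤ G then ee (τ * ((g n : ℝ) + D n)) else 0) * ee ((t - τ) * D n)‖ ≤ η + (if G < g n then (1 : ℝ) else 0) := by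
    intro n
    by_cases hg : g n ≤ G
    · rw [if_pos hg, if_neg (not_lt.mpr hg), add_zero]
      have e1 : ee (t * ((g n : ℝ) + D n)) - ee (τ * ((g n : ℝ) + D n)) * ee ((t - τ) * D n) =
          ee (τ * ((g n : ℝ) + D n)) * ee ((t - τ) * D n) * (ee ((t - τ) * g n) - 1) := by
        rw [mul_sub, mul_one, ← ee_add, ← ee_add]
        congr 2
        ring
      rw [e1, norm_mul, norm_mul, norm_ee, norm_ee, one_mul, one_mul]
      refine (norm_ee_sub_one_le _).trans (le_trans ?_ hη)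
      rw [abs_mul, Nat.abs_cast]
      have : (g n : ℝ) ≤ G := by exact_mod_cast hg
      have hpi := Real.pi_pos
      gcongr
    · rw [if_neg hg, if_pos (not_le.mp hg), zero_mul, sub_zero, norm_ee]
      linarith
  have e2 : ∑ n ∈ Ico a b, ee (t * ((g n : ℝ) + D n)) =
      ∑ n ∈ Ico a b, (if g n ≤ G then ee (τ * ((g n : ℝ) + D n)) else 0) * ee ((t - τ) * D n) +
      ∑ n ∈ Ico a b, (ee (t * ((g n : ℝ) + D n)) -
        (if g n ≤ G then ee (τ * ((g n : ℝ) + D n)) else 0) * ee ((t - τ) * D n)) := by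
    rw [← sum_add_distrib]
    refine Finset.sum_congr rfl fun n _ => ?_
    ring
  rw [e2]
  refine (norm_add_le _ _).trans ?_
  gcongr
  calc ‖∑ n ∈ Ico a b, (ee (t * ((g n : ℝ) + D n)) -
        (if g n ≤ G then ee (τ * ((g n : ℝ) + D n)) else 0) * ee ((t - τ) * D n))‖ ≤
      ∑ n ∈ Ico a b, (η + (if G < g n then (1 : ℝ) else 0)) := (norm_sum_le _ _).trans (Finset.sum_le_sum fun n _ => hterm n)
    _ = _ := by
      rw [sum_add_distrib, sum_const, Nat.card_Ico, nsmul_eq_mul, ← sum_filter, sum_const, nsmul_eq_mul, mul_one]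

private lemma Long1_tendsto_log : Tendsto (fun N : ℕ => Real.log N) atTop atTop :=
  Real.tendsto_log_atTop.comp tendsto_natCast_atTop_atTop

private lemma Long1_pow_log (k : ℕ) (C : ℝ) : ∀ᶠ N : ℕ in atTop, C * Real.log N ^ k ≤ N := by
  have h2 : (fun x : ℝ => Real.log x ^ k) =o[atTop] (fun x : ℝ => x) := Real.isLittleO_pow_log_id_atTop
  have h3 := h2.comp_tendsto (tendsto_natCast_atTop_atTop (R := ℝ))
  have h4 := h3.bound (c := 1 / (|C| + 1)) (by positivity)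
  filter_upwards [h4] with N hN
  simp only [Function.comp_apply, Real.norm_eq_abs, Nat.abs_cast] at hN
  have h5 : C * Real.log N ^ k ≤ (|C| + 1) * |Real.log N ^ k| := by
    calc C * Real.log N ^ k ≤ |C * Real.log N ^ k| := le_abs_self _
      _ = |C| * |Real.log N ^ k| := abs_mul _ _
      _ ≤ _ := by gcongr; linarith
  have h6 : (|C| + 1) * |Real.log N ^ k| ≤ (|C| + 1) * (1 / (|C| + 1) * N) := by gcongr
  have h7 : (|C| + 1) * (1 / (|C| + 1) * N) = N := by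
    have : |C| + 1 ≠ 0 := by positivity
    field_simp
  linarith

/-- long shifts: with localised frequencies the prime gaps only give a common phase -/
theorem long_pairs (Q : Polynomial ℚ) (hQ : IntVal Q) (hd : 2 ≤ Q.natDegree) (A1 E : ℕ) :
    ∃ E3 E0 : ℕ, ∀ E4 : ℕ, E0 ≤ E4 → ∀ n1 : ℕ, ∀ᶠ N : ℕ in atTop, ∀ T : Finset ℝ, ∀ τ : ℝ, T.Nonempty →
      (∀ t ∈ T, (N : ℝ) / Real.log N ^ A1 ≤ ‖SE Q n1 N t‖) →
      (∀ t ∈ T, |t - τ| ≤ Real.log N ^ E / (N : ℝ) ^ (Q.natDegree - 1)) →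
      ∃ i i' : ℕ, (N : ℝ) / Real.log N ^ (E4 + E3) ≤ (i : ℝ) - i' ∧ (i : ℝ) ≤ N / Real.log N ^ E4 ∧
        ∃ t0 ∈ T, ∃ T' ⊆ T, (T.card : ℝ) ≤ Real.log N ^ E3 * T'.card ∧
        ∀ t ∈ T', (N : ℝ) / Real.log N ^ E3 ≤ ‖∑ n ∈ Ico n1 N, ee ((t - t0) * Dn Q i i' n)‖ := by
  refine ⟨4 * A1 + 2, E + 4 * A1 + 2, ?_⟩
  intro E4 hE4 n1
  filter_upwards [Long1_tendsto_log.eventually_ge_atTop 2000000, eventually_ge_atTop (2 * n1 + 1),
    Long1_pow_log (2 * A1 + E4) 128, Long1_pow_log (E + 2 * A1) 512, card_big_gap'] with N hL hN1 hJN hEN hgap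
  intro T τ hT hlarge hloc
  set L : ℝ := Real.log N with hLdef
  have hL0 : 0 < L := by linarith
  have hL1 : 1 ≤ L := by linarith
  set K : ℝ := L ^ A1 with hKdef
  have hK1 : 1 ≤ K := one_le_pow₀ hL1
  have hK0 : 0 < K := by linarith
  have hK2 : L ^ (2 * A1) = K ^ 2 := by rw [hKdef, ← pow_mul, mul_comm]
  have hK4 : L ^ (4 * A1) = K ^ 4 := by rw [hKdef, ← pow_mul, mul_comm]
  have hNpos : (0 : ℝ) < N := by
    have : 0 < N := by omega
    exact_mod_cast this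
  have hn1N : n1 ≤ N := by omega
  set M : ℝ := (N : ℝ) - n1 with hM
  have hM2 : (N : ℝ) ≤ 2 * M := by
    have : (2 * n1 + 1 : ℕ) ≤ (N : ℝ) := by exact_mod_cast hN1
    push_cast at this
    rw [hM]; linarith
  have hM0 : 0 < M := by linarith
  have hMN : M ≤ N := by
    rw [hM]
    have : (0 : ℝ) ≤ n1 := Nat.cast_nonneg _
    linarith
  have hcastM : ((N - n1 : ℕ) : ℝ) = M := by rw [Nat.cast_sub hn1N]
  have hLE4 : 0 < L ^ E4 := by positivity
  set J : ℕ := ⌊(N : ℝ) / L ^ E4⌋₊ with hJdef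
  have hJle : (J : ℝ) ≤ N / L ^ E4 := Nat.floor_le (by positivity)
  have hJge : (N : ℝ) / L ^ E4 - 1 ≤ J := by
    have := Nat.lt_floor_add_one ((N : ℝ) / L ^ E4)
    rw [← hJdef] at this
    linarith
  have hNL : 128 * K ^ 2 ≤ (N : ℝ) / L ^ E4 := by
    rw [le_div_iff₀ hLE4, ← hK2, mul_assoc, ← pow_add]
    exact hJN
  have hK2one : 1 ≤ K ^ 2 := one_le_pow₀ hK1
  have hJhalf : (N : ℝ) / L ^ E4 / 2 ≤ J := by linarith
  have hJ32 : 32 * K ^ 2 ≤ (J : ℝ) := by linarith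
  have hJ0 : (0 : ℝ) < J := by linarith
  -- van der Corput
  set u : ℝ → ℕ → ℂ := fun t n => ee (t * ((sv Q n : ℤ) : ℝ)) with hu
  have hu1 : ∀ t n, ‖u t n‖ ≤ 1 := fun t n => (norm_ee _).le
  set F : ℝ → ℕ → ℕ → ℝ := fun t i i' => ‖∑ n ∈ Ico n1 N, u t (n + i) * (starRingEnd ℂ) (u t (n + i'))‖ with hF
  have hKJ : 2 * K * J ≤ (N : ℝ) - n1 := by
    have h1 : 4 * K ≤ L ^ E4 := by
      have h2 : 4 * K ≤ L ^ (A1 + 1) := by
        rw [pow_succ, ← hKdef]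
        nlinarith
      exact h2.trans (pow_le_pow_right₀ hL1 (by omega))
    have h3 : 2 * K * J ≤ 2 * K * (N / L ^ E4) := by gcongr
    have h4 : 2 * K * (N / L ^ E4) ≤ N / 2 := by
      rw [← mul_div_assoc, div_le_div_iff₀ hLE4 (by norm_num)]
      nlinarith
    have : M = (N : ℝ) - n1 := rfl
    linarith
  have hvdc : ∀ t ∈ T, (J : ℝ) ^ 2 * M / (4 * K ^ 2) ≤ ∑ i ∈ range J, ∑ i' ∈ range J, F t i i' := by
    intro t ht
    have h1 := hlarge t ht
    refine vdC (u t) (hu1 t) n1 N J hn1N K hK0 hKJ ?_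
    refine le_trans ?_ h1
    gcongr
  have hFM : ∀ t i i', F t i i' ≤ M := by
    intro t i i'
    refine Long1_sum_le n1 N hn1N _ (fun n => ?_)
    rw [norm_mul, RCLike.norm_conj]
    calc ‖u t (n + i)‖ * ‖u t (n + i')‖ ≤ 1 * 1 := by
          gcongr
          · exact hu1 _ _
          · exact hu1 _ _
      _ = 1 := one_mul 1
  have hsym : ∀ t i i', F t i i' = F t i' i := by
    intro t i i'
    simp only [hF]
    rw [← RCLike.norm_conj, map_sum]
    congr 1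
    refine Finset.sum_congr rfl fun n _ => ?_
    rw [map_mul, Complex.conj_conj, mul_comm]
  obtain ⟨i, hi, i', hi', hfar, hsum⟩ := Long1_far T hT F M K hM0 hK1 J hJ32 hFM hsym hvdc
  have hii' : i' ≤ i := by
    have h1 : (0 : ℝ) ≤ (J : ℝ) / (32 * K ^ 2) := by positivity
    have h2 : (i' : ℝ) < i := by linarith
    exact_mod_cast h2.le
  have hiJ : (i : ℝ) ≤ J := by
    have := (mem_range.mp hi).le
    exact_mod_cast this
  have hi'0 : (0 : ℝ) ≤ i' := Nat.cast_nonneg _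
  have hiN : i ≤ N := by
    have h1 : (J : ℝ) ≤ N := by
      refine hJle.trans (div_le_self hNpos.le (one_le_pow₀ hL1))
    have h2 : (i : ℝ) ≤ N := hiJ.trans h1
    exact_mod_cast h2
  -- gaps
  set g : ℕ → ℕ := fun n => np (n + i) - np (n + i') with hg
  set G : ℕ := ⌈2560 * K ^ 2 * L * J⌉₊ with hG
  have hGpos : 0 < 2560 * K ^ 2 * L * (J : ℝ) := by positivity
  have hG1 : 1 ≤ G := Nat.one_le_ceil_iff.mpr hGpos
  have hGge : 2560 * K ^ 2 * L * (J : ℝ) ≤ G := Nat.le_ceil _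
  have hGle : (G : ℝ) ≤ 2560 * K ^ 2 * L * J + 1 := (Nat.ceil_lt_add_one hGpos.le).le
  have hbig : (((Ico n1 N).filter (fun n => G < g n)).card : ℝ) ≤ M / (32 * K ^ 2) := by
    refine (hgap n1 i i' G hii' hiN hn1N hG1).trans ?_
    have hGR : (0 : ℝ) < G := by exact_mod_cast hG1
    rw [div_le_div_iff₀ hGR (by positivity)]
    have h1 : (i : ℝ) - i' ≤ J := by linarith
    calc 40 * ((i : ℝ) - i') * N * L * (32 * K ^ 2) ≤ 40 * (J : ℝ) * N * L * (32 * K ^ 2) := by gcongr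
      _ ≤ 40 * (J : ℝ) * (2 * M) * L * (32 * K ^ 2) := by gcongr
      _ = M * (2560 * K ^ 2 * L * J) := by ring
      _ ≤ M * G := by gcongr
  -- the phase error
  set η : ℝ := 1 / (32 * K ^ 2) with hηdef
  have hη0 : 0 ≤ η := by positivity
  have hphase : ∀ t ∈ T, 2 * Real.pi * (|t - τ| * G) ≤ η := by
    intro t ht
    have h1 := hloc t ht
    have hpi : 2 * Real.pi ≤ 8 := by linarith [Real.pi_le_four]
    have hNd : (N : ℝ) ≤ (N : ℝ) ^ (Q.natDegree - 1) := by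
      have hN1' : (1 : ℝ) ≤ N := by
        have : 1 ≤ N := by omega
        exact_mod_cast this
      calc (N : ℝ) = (N : ℝ) ^ 1 := (pow_one _).symm
        _ ≤ _ := pow_le_pow_right₀ hN1' (by omega)
    have h2 : |t - τ| ≤ L ^ E / N := h1.trans (by gcongr)
    have h3 : |t - τ| * G ≤ L ^ E / N * (2560 * K ^ 2 * L * (N / L ^ E4) + 1) := by
      have : (G : ℝ) ≤ 2560 * K ^ 2 * L * (N / L ^ E4) + 1 := hGle.trans (by gcongr)
      gcongr
    have h4 : L ^ E / N * (2560 * K ^ 2 * L * (N / L ^ E4) + 1) = 2560 * (L ^ E * K ^ 2 * L / L ^ E4) + L ^ E / N := by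
      field_simp
    have h5 : L ^ E * K ^ 2 * L / L ^ E4 ≤ 1 / (L * K ^ 2) := by
      rw [div_le_div_iff₀ hLE4 (by positivity), one_mul]
      calc L ^ E * K ^ 2 * L * (L * K ^ 2) = L ^ (E + 4 * A1 + 2) := by
            rw [← hK2]; ring
        _ ≤ L ^ E4 := pow_le_pow_right₀ hL1 hE4
    have h6 : L ^ E / N ≤ 1 / (512 * K ^ 2) := by
      rw [div_le_div_iff₀ hNpos (by positivity), one_mul]
      calc L ^ E * (512 * K ^ 2) = 512 * L ^ (E + 2 * A1) := by rw [← hK2]; ring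
        _ ≤ N := hEN
    have h7 : 1 / (L * K ^ 2) ≤ 1 / (2000000 * K ^ 2) := by gcongr
    calc 2 * Real.pi * (|t - τ| * G) ≤ 8 * (2560 * (1 / (2000000 * K ^ 2)) + 1 / (512 * K ^ 2)) := by
          have h8 : |t - τ| * G ≤ 2560 * (1 / (2000000 * K ^ 2)) + 1 / (512 * K ^ 2) := by
            rw [h4] at h3
            linarith
          have h9 : 0 ≤ |t - τ| * (G : ℝ) := by positivity
          calc 2 * Real.pi * (|t - τ| * G) ≤ 8 * (|t - τ| * G) := by gcongr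
            _ ≤ _ := by gcongr
      _ = (8 * 2560 / 2000000 + 8 / 512) / K ^ 2 := by field_simp
      _ ≤ (1 / 32) / K ^ 2 := by gcongr; norm_num
      _ = η := by rw [hηdef]; field_simp
  set w : ℕ → ℂ := fun n => if g n ≤ G then ee (τ * ((g n : ℝ) + Dn Q i i' n)) else 0 with hw
  have hw1 : ∀ n, ‖w n‖ ≤ 1 := by
    intro n
    simp only [hw]
    split_ifs
    · exact (norm_ee _).le
    · simp
  set φ : ℝ → ℕ → ℂ := fun t n => ee ((t - τ) * Dn Q i i' n) with hφ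
  have hFle : ∀ t ∈ T, F t i i' ≤ ‖∑ n ∈ Ico n1 N, w n * φ t n‖ + M / (16 * K ^ 2) := by
    intro t ht
    have h1 : F t i i' = ‖∑ n ∈ Ico n1 N, ee (t * ((g n : ℝ) + Dn Q i i' n))‖ := by
      simp only [hF, hu]
      congr 1
      refine Finset.sum_congr rfl fun n _ => ?_
      exact Long1_corr Q t n i i' hii'
    rw [h1]
    refine (Long1_replace n1 N G g (Dn Q i i') t τ η (hphase t ht) hη0).trans ?_
    have h2 : ((N - n1 : ℕ) : ℝ) * η + (((Ico n1 N).filter (fun n => G < g n)).card : ℝ) ≤ M / (16 * K ^ 2) := by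
      rw [hcastM]
      have h3 : M * η = M / (32 * K ^ 2) := by rw [hηdef]; ring
      have h4 : M / (16 * K ^ 2) = M / (32 * K ^ 2) + M / (32 * K ^ 2) := by field_simp; norm_num
      rw [h3, h4]
      gcongr
    simp only [hw, hφ]
    linarith
  set κ : ℝ := 1 / (16 * K ^ 2) with hκ
  have hκ0 : 0 ≤ κ := by positivity
  have hdual : κ * T.card * ((N : ℝ) - n1) ≤ ∑ t ∈ T, ‖∑ n ∈ Ico n1 N, w n * φ t n‖ := by
    have h1 : ∑ t ∈ T, F t i i' ≤ ∑ t ∈ T, (‖∑ n ∈ Ico n1 N, w n * φ t n‖ + M / (16 * K ^ 2)) :=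
      Finset.sum_le_sum hFle
    rw [sum_add_distrib, sum_const, nsmul_eq_mul] at h1
    have h2 : (T.card : ℝ) * (M / (8 * K ^ 2)) = κ * T.card * ((N : ℝ) - n1) + (T.card : ℝ) * (M / (16 * K ^ 2)) := by
      rw [hκ, ← hM]; field_simp; norm_num
    linarith
  have hd2 := duality T n1 N hn1N φ w hw1 κ hκ0 hdual
  set a : ℝ → ℝ → ℝ := fun t t' => ‖∑ n ∈ Ico n1 N, ee ((t - t') * Dn Q i i' n)‖ with ha
  have haeq : ∀ t t', ‖∑ n ∈ Ico n1 N, φ t n * (starRingEnd ℂ) (φ t' n)‖ = a t t' := by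
    intro t t'
    simp only [ha, hφ]
    congr 1
    refine Finset.sum_congr rfl fun n _ => ?_
    rw [conj_ee, ← ee_add]
    congr 1
    ring
  have hd3 : κ ^ 2 * (T.card : ℝ) ^ 2 * M ≤ ∑ t ∈ T, ∑ t' ∈ T, a t t' := by
    refine hd2.trans (le_of_eq ?_)
    refine Finset.sum_congr rfl fun t _ => Finset.sum_congr rfl fun t' _ => haeq t t'
  have haM : ∀ t t', a t t' ≤ M := fun t t' => Long1_sum_le n1 N hn1N _ (fun n => (norm_ee _).le)
  obtain ⟨t0, ht0, T', hT', hcard, hT'a⟩ := Long1_pigeon T hT a M κ hM0 haM hd3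
  refine ⟨i, i', ?_, hiJ.trans hJle, t0, ht0, T', hT', ?_, ?_⟩
  · -- lower bound for i - i'
    have h1 : (N : ℝ) / L ^ E4 / 2 / (32 * K ^ 2) ≤ (J : ℝ) / (32 * K ^ 2) := by gcongr
    have h2 : (N : ℝ) / L ^ (E4 + (4 * A1 + 2)) ≤ (N : ℝ) / L ^ E4 / 2 / (32 * K ^ 2) := by
      rw [div_div, div_div]
      gcongr
      calc L ^ E4 * (2 * (32 * K ^ 2)) = L ^ E4 * (64 * K ^ 2) := by ring
        _ ≤ L ^ E4 * L ^ (4 * A1 + 2) := by
            gcongr
            rw [pow_add, hK4]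
            have h3 : K ^ 2 ≤ K ^ 4 := pow_le_pow_right₀ hK1 (by norm_num)
            have h4 : (64 : ℝ) ≤ L ^ 2 := by nlinarith
            calc 64 * K ^ 2 = K ^ 2 * 64 := by ring
              _ ≤ K ^ 4 * L ^ 2 := by gcongr
        _ = L ^ (E4 + (4 * A1 + 2)) := by rw [← pow_add]
    linarith
  · -- cardinality
    have h1 : κ ^ 2 = 1 / (256 * K ^ 4) := by rw [hκ]; field_simp; norm_num
    rw [h1] at hcard
    have h2 : (T.card : ℝ) ≤ 512 * K ^ 4 * T'.card := by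
      have h3 : 1 / (256 * K ^ 4) * (T.card : ℝ) = (T.card : ℝ) / (256 * K ^ 4) := by ring
      rw [h3, div_le_iff₀ (by positivity)] at hcard
      linarith
    refine h2.trans ?_
    gcongr
    rw [pow_add, hK4]
    have h4 : (512 : ℝ) ≤ L ^ 2 := by nlinarith
    calc 512 * K ^ 4 = K ^ 4 * 512 := by ring
      _ ≤ K ^ 4 * L ^ 2 := by gcongr
  · intro t ht
    have h1 := hT'a t ht
    refine le_trans ?_ h1
    have h2 : κ ^ 2 * M / 2 = M / (512 * K ^ 4) := by rw [hκ]; field_simp; norm_num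
    rw [h2]
    calc (N : ℝ) / L ^ (4 * A1 + 2) ≤ N / (1024 * K ^ 4) := by
          gcongr
          rw [pow_add, hK4]
          have h4 : (1024 : ℝ) ≤ L ^ 2 := by nlinarith
          calc 1024 * K ^ 4 = K ^ 4 * 1024 := by ring
            _ ≤ K ^ 4 * L ^ 2 := by gcongr
      _ ≤ (2 * M) / (1024 * K ^ 4) := by gcongr
      _ = M / (512 * K ^ 4) := by field_simp; norm_num

end Pool.Agent.PnLG
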