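import Pool.Agent.PnLG.Defs

open Finset Filter Complex
open scoped ArithmeticFunction.Moebius ArithmeticFunction.vonMangoldt

namespace Pool.Agent.PnLG

open Pool.Agent.ANT
open Pool.Agent.PnPoly.NC (np)

/-- the numerators do not vanish -/
theorem LsTw_num {q r a b : ℕ} (hq : Squarefree q) (hr : Squarefree r) (hpar : q % 2 = r % 2)
    (haq : a < q) (hbr : b < r) (hca : Nat.Coprime a q) (hcb : Nat.Coprime b r) (hne : ¬(q = r ∧ a = b)) (k : ℤ) :
    2 * (a : ℤ) * r - 2 * b * q - k * (q * r) ≠ 0 := by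
  intro h0
  apply hne
  have hq0 : 0 < q := by omega
  have hr0 : 0 < r := by omega
  rcases Nat.mod_two_eq_zero_or_one q with he | ho
  · -- even
    have hre : r % 2 = 0 := by omega
    obtain ⟨q', rfl⟩ : ∃ q', q = 2 * q' := ⟨q / 2, by omega⟩
    obtain ⟨r', rfl⟩ : ∃ r', r = 2 * r' := ⟨r / 2, by omega⟩
    have hq'odd : q' % 2 = 1 := by
      by_contra h
      obtain ⟨t, rfl⟩ : ∃ t, q' = 2 * t := ⟨q' / 2, by omega⟩
      have := hq 2 ⟨t, by ring⟩
      rw [Nat.isUnit_iff] at this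
      omega
    have ha : a % 2 = 1 := by
      by_contra h
      have : 2 ∣ Nat.gcd a (2 * q') := Nat.dvd_gcd (by omega) ⟨q', rfl⟩
      rw [hca] at this
      omega
    have hb : b % 2 = 1 := by
      by_contra h
      have : 2 ∣ Nat.gcd b (2 * r') := Nat.dvd_gcd (by omega) ⟨r', rfl⟩
      rw [hcb] at this
      omega
    have hca' : Nat.Coprime a q' := hca.coprime_mul_left_right
    have hcb' : Nat.Coprime b r' := hcb.coprime_mul_left_right
    have h1 : (a : ℤ) * r' = q' * (b + k * r') := by push_cast at h0; linarith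
    have h2 : (q' : ℤ) ∣ a * r' := ⟨_, h1⟩
    have h3 : q' ∣ a * r' := by exact_mod_cast h2
    have h4 : q' ∣ r' := Nat.Coprime.dvd_of_dvd_mul_left hca'.symm h3
    have h5 : (b : ℤ) * q' = r' * (a - k * q') := by linarith
    have h6 : (r' : ℤ) ∣ b * q' := ⟨_, h5⟩
    have h7 : r' ∣ b * q' := by exact_mod_cast h6
    have h8 : r' ∣ q' := Nat.Coprime.dvd_of_dvd_mul_left hcb'.symm h7
    have h9 : q' = r' := Nat.dvd_antisymm h4 h8
    subst h9
    have hq'0 : 0 < q' := by omega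
    have h10 : (a : ℤ) - b = k * q' := by
      have : (q' : ℤ) * (a - b) = q' * (k * q') := by linarith
      exact mul_left_cancel₀ (by exact_mod_cast hq'0.ne') this
    have hkeven : Even k := by
      have h11 : Even ((a : ℤ) - b) := by
        rw [Int.even_iff]
        omega
      rw [h10, Int.even_mul] at h11
      rcases h11 with h | h
      · exact h
      · exfalso
        rw [Int.even_iff] at h
        omega
    obtain ⟨j, rfl⟩ := hkeven
    have h11 : j = 0 := by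
      by_contra hj0
      have h12 : (2 * q' : ℤ) ≤ |(a : ℤ) - b| := by
        rw [h10, abs_mul]
        have : (1 : ℤ) ≤ |j| := Int.one_le_abs hj0
        have h13 : |(q' : ℤ)| = q' := abs_of_nonneg (by positivity)
        have h14 : |j + j| = 2 * |j| := by rw [← two_mul, abs_mul]; rfl
        rw [h13, h14]
        nlinarith
      have h14 : |(a : ℤ) - b| < 2 * q' := by rw [abs_lt]; constructor <;> omega
      omega
    subst h11
    rw [add_zero, zero_mul] at h10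
    exact ⟨rfl, by omega⟩
  · have hro : r % 2 = 1 := by omega
    have hq2 : Nat.Coprime q 2 := Nat.coprime_two_right.mpr (Nat.odd_iff.mpr ho)
    have hr2 : Nat.Coprime r 2 := Nat.coprime_two_right.mpr (Nat.odd_iff.mpr hro)
    have h1 : 2 * ((a : ℤ) * r) = q * (2 * b + k * r) := by linarith
    have h2 : (q : ℤ) ∣ 2 * (a * r) := ⟨_, h1⟩
    have h3 : q ∣ 2 * (a * r) := by exact_mod_cast h2
    have h4 : q ∣ r := Nat.Coprime.dvd_of_dvd_mul_left hca.symm (Nat.Coprime.dvd_of_dvd_mul_left hq2 h3)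
    have h5 : 2 * ((b : ℤ) * q) = r * (2 * a - k * q) := by linarith
    have h6 : (r : ℤ) ∣ 2 * (b * q) := ⟨_, h5⟩
    have h7 : r ∣ 2 * (b * q) := by exact_mod_cast h6
    have h8 : r ∣ q := Nat.Coprime.dvd_of_dvd_mul_left hcb.symm (Nat.Coprime.dvd_of_dvd_mul_left hr2 h7)
    have h9 : q = r := Nat.dvd_antisymm h4 h8
    subst h9
    have h10 : 2 * ((a : ℤ) - b) = k * q := by
      have : (q : ℤ) * (2 * (a - b)) = q * (k * q) := by linarith
      exact mul_left_cancel₀ (by exact_mod_cast hq0.ne') this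
    have h11 : (q : ℤ) ∣ 2 * ((a : ℤ) - b) := ⟨k, by linarith⟩
    have h12 : (q : ℤ) ∣ (a : ℤ) - b := by
      refine IsCoprime.dvd_of_dvd_mul_left ?_ h11
      have := Nat.isCoprime_iff_coprime.mpr hq2
      exact_mod_cast this
    have h13 : (a : ℤ) - b = 0 := by
      refine Int.eq_zero_of_abs_lt_dvd h12 ?_
      rw [abs_lt]
      constructor <;> omega
    exact ⟨rfl, by omega⟩

/-- large sieve for one parity class -/
theorem LsTw_part (R H : ℕ) (hR : 1 ≤ R) (S : Finset ℕ) (hS : ∀ q ∈ S, 1 ≤ q ∧ q ≤ R ∧ Squarefree q)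
    (hpar : ∀ q ∈ S, ∀ r ∈ S, q % 2 = r % 2) (b : ℕ → ℕ → ℂ) :
    ∑ c ∈ Icc 1 H, ‖∑ q ∈ S, ∑ a ∈ (range q).filter (fun a => Nat.Coprime a q),
        b q a * ee (2 * (c : ℝ) * ((a : ℝ) / q))‖ ^ 2 ≤
      12 * (2 * H + (R : ℝ) ^ 2) * ∑ q ∈ S, ∑ a ∈ (range q).filter (fun a => Nat.Coprime a q), ‖b q a‖ ^ 2 := by
  classical
  set U : Finset (Σ _ : ℕ, ℕ) := S.sigma (fun q => (range q).filter (fun a => Nat.Coprime a q)) with hU
  have hL : 0 < R ^ 2 := by positivity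
  have hsp : ∀ x ∈ U, ∀ y ∈ U, x ≠ y →
      1 / ((R ^ 2 : ℕ) : ℝ) ≤ nn (2 * ((x.2 : ℝ) / x.1) - 2 * ((y.2 : ℝ) / y.1)) := by
    rintro ⟨q, a⟩ hx ⟨r, b'⟩ hy hne
    simp only [hU, Finset.mem_sigma, Finset.mem_filter, Finset.mem_range] at hx hy
    obtain ⟨hqS, haq, hca⟩ := hx
    obtain ⟨hrS, hbr, hcb⟩ := hy
    obtain ⟨hq1, hqR, hqsf⟩ := hS q hqS
    obtain ⟨hr1, hrR, hrsf⟩ := hS r hrS
    simp only
    have hqP : (0 : ℝ) < q := by exact_mod_cast hq1
    have hrP : (0 : ℝ) < r := by exact_mod_cast hr1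
    unfold nn
    set k := round (2 * ((a : ℝ) / q) - 2 * ((b' : ℝ) / r)) with hk
    have e : 2 * ((a : ℝ) / q) - 2 * ((b' : ℝ) / r) - k =
        ((2 * (a : ℤ) * r - 2 * b' * q - k * (q * r) : ℤ) : ℝ) / (q * r) := by
      push_cast; field_simp
    rw [e, abs_div, abs_of_pos (mul_pos hqP hrP)]
    have hnz : 2 * (a : ℤ) * r - 2 * b' * q - k * (q * r) ≠ 0 :=
      LsTw_num hqsf hrsf (hpar q hqS r hrS) haq hbr hca hcb (by
        rintro ⟨rfl, rfl⟩
        exact hne rfl) k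
    have h1 : (1 : ℝ) ≤ |((2 * (a : ℤ) * r - 2 * b' * q - k * (q * r) : ℤ) : ℝ)| := by
      rw [← Int.cast_abs]; exact_mod_cast Int.one_le_abs hnz
    have h2 : (q : ℝ) * r ≤ ((R ^ 2 : ℕ) : ℝ) := by
      push_cast
      have hq2 : (q : ℝ) ≤ R := by exact_mod_cast hqR
      have hr2 : (r : ℝ) ≤ R := by exact_mod_cast hrR
      nlinarith
    calc 1 / ((R ^ 2 : ℕ) : ℝ) ≤ 1 / (q * r) := by
          apply one_div_le_one_div_of_le (mul_pos hqP hrP) h2
      _ ≤ _ := by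
          apply div_le_div_of_nonneg_right h1 (mul_pos hqP hrP).le
  have key := dual_large_sieve (S := U) (α := fun x => 2 * ((x.2 : ℝ) / x.1)) hL hsp H
    (fun x => b x.1 x.2)
  have hIcc : Icc 1 H = Finset.Ioc 0 H := by
    ext c
    simp only [Finset.mem_Icc, Finset.mem_Ioc]
    omega
  rw [hIcc]
  have e1 : ∀ c : ℕ, ∑ q ∈ S, ∑ a ∈ (range q).filter (fun a => Nat.Coprime a q),
      b q a * ee (2 * (c : ℝ) * ((a : ℝ) / q)) =
      ∑ x ∈ U, b x.1 x.2 * ee (c * (2 * ((x.2 : ℝ) / x.1))) := by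
    intro c
    rw [hU, Finset.sum_sigma]
    refine Finset.sum_congr rfl fun q _ => Finset.sum_congr rfl fun a _ => ?_
    congr 2
    ring
  have e2 : ∑ q ∈ S, ∑ a ∈ (range q).filter (fun a => Nat.Coprime a q), ‖b q a‖ ^ 2 =
      ∑ x ∈ U, ‖b x.1 x.2‖ ^ 2 := by
    rw [hU, Finset.sum_sigma]
  rw [e2]
  simp only [e1]
  refine key.trans (le_of_eq ?_)
  push_cast
  ring

/-- large sieve with frequencies `2a/q`, `q` squarefree -/
theorem ls_twist (R H : ℕ) (hR : 1 ≤ R) (S : Finset ℕ) (hS : ∀ q ∈ S, 1 ≤ q ∧ q ≤ R ∧ Squarefree q)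
    (b : ℕ → ℕ → ℂ) :
    ∑ c ∈ Icc 1 H, ‖∑ q ∈ S, ∑ a ∈ (range q).filter (fun a => Nat.Coprime a q),
        b q a * ee (2 * (c : ℝ) * ((a : ℝ) / q))‖ ^ 2 ≤
      48 * (2 * H + (R : ℝ) ^ 2) * ∑ q ∈ S, ∑ a ∈ (range q).filter (fun a => Nat.Coprime a q), ‖b q a‖ ^ 2 := by
  set S0 := S.filter (fun q => q % 2 = 0) with hS0
  set S1 := S.filter (fun q => ¬ q % 2 = 0) with hS1
  have h0 := LsTw_part R H hR S0 (fun q hq => hS q (Finset.mem_filter.mp hq).1) (by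
    intro q hq r hr
    have h1 := (Finset.mem_filter.mp hq).2
    have h2 := (Finset.mem_filter.mp hr).2
    omega) b
  have h1 := LsTw_part R H hR S1 (fun q hq => hS q (Finset.mem_filter.mp hq).1) (by
    intro q hq r hr
    have h1 := (Finset.mem_filter.mp hq).2
    have h2 := (Finset.mem_filter.mp hr).2
    omega) b
  have hsplit : ∀ F : ℕ → ℂ, ∑ q ∈ S, F q = ∑ q ∈ S0, F q + ∑ q ∈ S1, F q := fun F =>
    (Finset.sum_filter_add_sum_filter_not S _ F).symm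
  have hsplitR : ∀ F : ℕ → ℝ, ∑ q ∈ S, F q = ∑ q ∈ S0, F q + ∑ q ∈ S1, F q := fun F =>
    (Finset.sum_filter_add_sum_filter_not S _ F).symm
  have hpt : ∀ x y : ℂ, ‖x + y‖ ^ 2 ≤ 2 * ‖x‖ ^ 2 + 2 * ‖y‖ ^ 2 := by
    intro x y
    have h2 := norm_add_le x y
    have h3 : ‖x + y‖ ^ 2 ≤ (‖x‖ + ‖y‖) ^ 2 := by gcongr
    nlinarith [sq_nonneg (‖x‖ - ‖y‖)]
  have h2 : ∑ c ∈ Icc 1 H, ‖∑ q ∈ S, ∑ a ∈ (range q).filter (fun a => Nat.Coprime a q),
        b q a * ee (2 * (c : ℝ) * ((a : ℝ) / q))‖ ^ 2 ≤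
      2 * (∑ c ∈ Icc 1 H, ‖∑ q ∈ S0, ∑ a ∈ (range q).filter (fun a => Nat.Coprime a q),
        b q a * ee (2 * (c : ℝ) * ((a : ℝ) / q))‖ ^ 2) +
      2 * (∑ c ∈ Icc 1 H, ‖∑ q ∈ S1, ∑ a ∈ (range q).filter (fun a => Nat.Coprime a q),
        b q a * ee (2 * (c : ℝ) * ((a : ℝ) / q))‖ ^ 2) := by
    rw [Finset.mul_sum, Finset.mul_sum, ← Finset.sum_add_distrib]
    refine Finset.sum_le_sum fun c _ => ?_
    rw [hsplit]
    exact hpt _ _
  have h3 : ∀ T : Finset ℕ, 0 ≤ ∑ q ∈ T, ∑ a ∈ (range q).filter (fun a => Nat.Coprime a q), ‖b q a‖ ^ 2 :=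
    fun T => Finset.sum_nonneg fun _ _ => Finset.sum_nonneg fun _ _ => by positivity
  have h4 : 0 ≤ (2 * H + (R : ℝ) ^ 2) := by positivity
  rw [hsplitR]
  have h5 := mul_nonneg h4 (h3 S0)
  have h6 := mul_nonneg h4 (h3 S1)
  linarith

end Pool.Agent.PnLG
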