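import Pool.Agent.PnLG.Defs
import Pool.Agent.PnPoly.NC.Mert

open Finset Filter Complex
open scoped ArithmeticFunction.Moebius ArithmeticFunction.vonMangoldt

namespace Pool.Agent.PnLG

open Pool.Agent.ANT
open Pool.Agent.PnPoly.NC (np)

/-- sum over squarefree numbers and product over primes -/
theorem PhiSum_le_prod (f : ℕ → ℝ) (hf : ∀ p, p.Prime → 0 ≤ f p) (R : ℕ) :
    ∑ q ∈ (Ioc 0 R).filter Squarefree, ∏ p ∈ q.primeFactors, f p ≤
      ∏ p ∈ Pool.Agent.HL26.PPy R, (1 + f p) := by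
  classical
  rw [Finset.prod_one_add]
  have hinj : Set.InjOn (fun q : ℕ => q.primeFactors)
      (((Ioc 0 R).filter Squarefree : Finset ℕ) : Set ℕ) := by
    intro q hq q' hq' h
    rw [mem_coe, mem_filter] at hq hq'
    rw [← Nat.prod_primeFactors_of_squarefree hq.2, ← Nat.prod_primeFactors_of_squarefree hq'.2]
    exact congrArg (fun S : Finset ℕ => ∏ p ∈ S, p) h
  rw [← Finset.sum_image (f := fun S : Finset ℕ => ∏ p ∈ S, f p) hinj]
  refine Finset.sum_le_sum_of_subset_of_nonneg ?_ ?_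
  · intro S hS
    rw [mem_image] at hS
    obtain ⟨q, hq, rfl⟩ := hS
    rw [mem_filter, mem_Ioc] at hq
    rw [mem_powerset]
    intro p hp
    unfold Pool.Agent.HL26.PPy
    rw [mem_filter, mem_range]
    have h1 := Nat.le_of_mem_primeFactors hp
    exact ⟨by omega, Nat.prime_of_mem_primeFactors hp⟩
  · intro S hS _
    rw [mem_powerset] at hS
    exact Finset.prod_nonneg fun p hp => hf p (Pool.Agent.HL26.PPy_prime R p (hS hp))

theorem PhiSum_term (a : ℝ) {q : ℕ} (hq : Squarefree q) :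
    (q : ℝ) ^ a / (q.totient : ℝ) ^ 2 = ∏ p ∈ q.primeFactors, (p : ℝ) ^ a / ((p : ℝ) - 1) ^ 2 := by
  have h1 : (q : ℝ) = ∏ p ∈ q.primeFactors, (p : ℝ) := by
    rw [← Nat.cast_prod, Nat.prod_primeFactors_of_squarefree hq]
  have h2 : (q.totient : ℝ) = ∏ p ∈ q.primeFactors, ((p : ℝ) - 1) := by
    have h3 : q.totient = ∏ p ∈ q.primeFactors, (p - 1) := by
      rw [Nat.totient_eq_prod_factorization hq.ne_zero, Nat.prod_factorization_eq_prod_primeFactors]
      refine Finset.prod_congr rfl fun p hp => ?_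
      have hpp := Nat.prime_of_mem_primeFactors hp
      have h4 : q.factorization p = 1 :=
        le_antisymm ((Nat.squarefree_iff_factorization_le_one hq.ne_zero).1 hq p)
          ((hpp.dvd_iff_one_le_factorization hq.ne_zero).1 (Nat.dvd_of_mem_primeFactors hp))
      rw [h4]; simp
    rw [h3, Nat.cast_prod]
    refine Finset.prod_congr rfl fun p hp => ?_
    rw [Nat.cast_sub (Nat.prime_of_mem_primeFactors hp).one_le, Nat.cast_one]
  rw [Finset.prod_div_distrib, Finset.prod_pow, ← h2,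
    Real.finsetProd_rpow _ _ (fun p _ => by positivity), ← h1]

theorem sum_phi_tail (c : ℝ) (hc : 0 < c) : ∃ C : ℝ, 0 < C ∧ ∀ y Z : ℕ, 1 ≤ y →
    ∑ q ∈ (Ioc y Z).filter Squarefree, (q : ℝ) ^ (1 - c) / (q.totient : ℝ) ^ 2 ≤ C * (y : ℝ) ^ (-(c / 2)) := by
  have hsum : Summable (fun n : ℕ => 4 * (n:ℝ) ^ (-(1 + c / 2))) :=
    (Real.summable_nat_rpow.mpr (by linarith)).mul_left 4
  refine ⟨Real.exp (∑' n : ℕ, 4 * (n:ℝ) ^ (-(1 + c / 2))), Real.exp_pos _, fun y Z hy => ?_⟩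
  have hy0 : (0 : ℝ) < y := by exact_mod_cast hy
  have hstep : ∀ q ∈ (Ioc y Z).filter Squarefree,
      (q : ℝ) ^ (1 - c) / (q.totient : ℝ) ^ 2 ≤
        (y : ℝ) ^ (-(c / 2)) * ((q : ℝ) ^ (1 - c / 2) / (q.totient : ℝ) ^ 2) := by
    intro q hq
    rw [mem_filter, mem_Ioc] at hq
    have hq0 : (0 : ℝ) < q := by
      have : 0 < q := by omega
      exact_mod_cast this
    have hyq : (y : ℝ) ≤ q := by exact_mod_cast hq.1.1.le
    rw [← mul_div_assoc]
    apply div_le_div_of_nonneg_right _ (by positivity)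
    rw [show (1 - c) = (-(c / 2)) + (1 - c / 2) by ring, Real.rpow_add hq0]
    apply mul_le_mul_of_nonneg_right _ (by positivity)
    exact Real.rpow_le_rpow_of_nonpos hy0 hyq (by linarith)
  refine (Finset.sum_le_sum hstep).trans ?_
  rw [← Finset.mul_sum, mul_comm]
  apply mul_le_mul_of_nonneg_right _ (by positivity)
  calc ∑ q ∈ (Ioc y Z).filter Squarefree, (q : ℝ) ^ (1 - c / 2) / (q.totient : ℝ) ^ 2
      ≤ ∑ q ∈ (Ioc 0 Z).filter Squarefree, (q : ℝ) ^ (1 - c / 2) / (q.totient : ℝ) ^ 2 := by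
        refine Finset.sum_le_sum_of_subset_of_nonneg ?_ fun _ _ _ => by positivity
        intro q hq
        rw [mem_filter, mem_Ioc] at hq ⊢
        exact ⟨⟨by omega, hq.1.2⟩, hq.2⟩
    _ = ∑ q ∈ (Ioc 0 Z).filter Squarefree,
          ∏ p ∈ q.primeFactors, (p : ℝ) ^ (1 - c / 2) / ((p : ℝ) - 1) ^ 2 := by
        refine Finset.sum_congr rfl fun q hq => ?_
        exact PhiSum_term _ (mem_filter.1 hq).2
    _ ≤ ∏ p ∈ Pool.Agent.HL26.PPy Z, (1 + (p : ℝ) ^ (1 - c / 2) / ((p : ℝ) - 1) ^ 2) :=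
        PhiSum_le_prod (fun p => (p : ℝ) ^ (1 - c / 2) / ((p : ℝ) - 1) ^ 2)
          (fun p _ => by positivity) Z
    _ ≤ ∏ p ∈ Pool.Agent.HL26.PPy Z, Real.exp (4 * (p:ℝ) ^ (-(1 + c / 2))) := by
        refine Finset.prod_le_prod (fun p hp => by positivity) fun p hp => ?_
        have h2 : (2:ℝ) ≤ p := by exact_mod_cast (Pool.Agent.HL26.PPy_prime Z p hp).two_le
        have h3 : 0 < (p:ℝ) - 1 := by linarith
        have h0 : 0 < (p:ℝ) := by linarith
        have h4 : (p : ℝ) ^ (1 - c / 2) / ((p : ℝ) - 1) ^ 2 ≤ 4 * (p:ℝ) ^ (-(1 + c / 2)) := by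
          rw [div_le_iff₀ (by positivity)]
          have h5 : (p : ℝ) ^ (1 - c / 2) = (p:ℝ) ^ (-(1 + c / 2)) * (p : ℝ) ^ 2 := by
            rw [← Real.rpow_natCast (p : ℝ) 2, ← Real.rpow_add h0]
            congr 1
            push_cast
            ring
          rw [h5]
          have h6 : 0 < (p:ℝ) ^ (-(1 + c / 2)) := Real.rpow_pos_of_pos h0 _
          have h7 : (p : ℝ) ^ 2 ≤ 4 * ((p : ℝ) - 1) ^ 2 := by nlinarith
          nlinarith
        calc 1 + (p : ℝ) ^ (1 - c / 2) / ((p : ℝ) - 1) ^ 2 ≤ 4 * (p:ℝ) ^ (-(1 + c / 2)) + 1 := by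
              linarith
          _ ≤ _ := Real.add_one_le_exp _
    _ = Real.exp (∑ p ∈ Pool.Agent.HL26.PPy Z, 4 * (p:ℝ) ^ (-(1 + c / 2))) := by rw [Real.exp_sum]
    _ ≤ _ := by
        apply Real.exp_le_exp.mpr
        exact hsum.sum_le_tsum _ fun n _ => by positivity

theorem sum_phi_log : ∃ C : ℝ, 0 < C ∧ ∀ R : ℕ, 1 ≤ R →
    ∑ q ∈ (Ioc 0 R).filter Squarefree, (q : ℝ) / (q.totient : ℝ) ^ 2 ≤ C * (1 + Real.log R) := by
  refine ⟨Real.exp 6, Real.exp_pos _, fun R hR => ?_⟩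
  have he : ∑ q ∈ (Ioc 0 R).filter Squarefree, (q : ℝ) / (q.totient : ℝ) ^ 2 ≤
      ∏ p ∈ Pool.Agent.HL26.PPy R, (1 + (p : ℝ) ^ (1 : ℝ) / ((p : ℝ) - 1) ^ 2) := by
    refine le_trans (le_of_eq ?_) (PhiSum_le_prod (fun p => (p : ℝ) ^ (1 : ℝ) / ((p : ℝ) - 1) ^ 2)
      (fun p _ => by positivity) R)
    refine Finset.sum_congr rfl fun q hq => ?_
    have := PhiSum_term 1 (mem_filter.1 hq).2
    rw [Real.rpow_one] at this
    exact this
  refine he.trans ?_
  rcases Nat.lt_or_ge R 2 with h1 | h2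
  · have hR1 : R = 1 := by omega
    subst hR1
    have : Pool.Agent.HL26.PPy 1 = ∅ := by decide
    rw [this]
    simp only [Finset.prod_empty, Nat.cast_one, Real.log_one, add_zero, mul_one]
    exact Real.one_le_exp (by norm_num)
  · have hl : 0 < Real.log R := Real.log_pos (by exact_mod_cast h2)
    calc ∏ p ∈ Pool.Agent.HL26.PPy R, (1 + (p : ℝ) ^ (1 : ℝ) / ((p : ℝ) - 1) ^ 2)
        ≤ ∏ p ∈ Pool.Agent.HL26.PPy R, ((1 - 1 / (p:ℝ))⁻¹ * Real.exp (1 / ((p:ℝ) * (p - 1)))) := by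
          refine Finset.prod_le_prod (fun p hp => by positivity) fun p hp => ?_
          have hpp := Pool.Agent.HL26.PPy_prime R p hp
          have h2 : (2:ℝ) ≤ p := by exact_mod_cast hpp.two_le
          have h3 : 0 < (p:ℝ) - 1 := by linarith
          have h0 : 0 < (p:ℝ) := by linarith
          rw [Pool.Agent.PnPoly.NC.fac_eq p hpp, Real.rpow_one]
          have h4 : 1 + (p : ℝ) / ((p : ℝ) - 1) ^ 2 =
              (1 + 1 / ((p:ℝ) - 1)) * (1 / ((p:ℝ) * (p - 1)) + 1) := by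
            field_simp
            ring
          rw [h4]
          apply mul_le_mul_of_nonneg_left (Real.add_one_le_exp _)
          positivity
      _ = (∏ p ∈ Pool.Agent.HL26.PPy R, (1 - 1 / (p:ℝ))⁻¹) *
          Real.exp (∑ p ∈ Pool.Agent.HL26.PPy R, 1 / ((p:ℝ) * (p - 1))) := by
          rw [Finset.prod_mul_distrib, Real.exp_sum]
      _ ≤ (Real.exp 5 * Real.log R) * Real.exp 1 := by
          apply mul_le_mul (Pool.Agent.PnPoly.NC.prod_fac_le R h2) _ (Real.exp_pos _).le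
            (by positivity)
          exact Real.exp_le_exp.mpr (Pool.Agent.PnPoly.NC.sum_inv_mul_le R)
      _ = Real.exp 6 * Real.log R := by
          rw [show (6 : ℝ) = 5 + 1 by norm_num, Real.exp_add]
          ring
      _ ≤ _ := by
          apply mul_le_mul_of_nonneg_left _ (Real.exp_pos _).le
          linarith

end Pool.Agent.PnLG
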