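import Pool.Agent.PnLG.Defs

open Finset Filter Complex
open scoped ArithmeticFunction.Moebius ArithmeticFunction.vonMangoldt

namespace Pool.Agent.PnLG

open Pool.Agent.ANT
open Pool.Agent.PnPoly.NC (np)

namespace ResSum

/-- Orthogonality over the fractions `a / q`. -/
lemma sum_ee_frac (q : ℕ) (hq : 1 ≤ q) (k : ℤ) :
    ∑ a ∈ range q, ee ((k : ℝ) * ((a : ℝ) / q)) = if (q : ℤ) ∣ k then (q : ℂ) else 0 := by
  have hq0 : (q : ℝ) ≠ 0 := by
    have : (0 : ℝ) < q := by exact_mod_cast hq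
    exact this.ne'
  have h1 : ∀ a ∈ range q, ee ((k : ℝ) * ((a : ℝ) / q)) = ee ((k : ℝ) / q) ^ a := by
    intro a _
    rw [← ee_nat_mul]
    congr 1
    ring
  rw [sum_congr rfl h1]
  split_ifs with h
  · obtain ⟨z, hz⟩ := h
    have h2 : (k : ℝ) / q = (z : ℝ) := by
      rw [hz]; push_cast; field_simp
    rw [h2, ee_int]
    simp
  · have hne : ee ((k : ℝ) / q) ≠ 1 := by
      intro h3
      unfold ee at h3
      rw [Complex.exp_eq_one_iff] at h3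
      obtain ⟨n, hn⟩ := h3
      apply h
      have hpi : (Real.pi : ℂ) ≠ 0 := by exact_mod_cast Real.pi_ne_zero
      have h4 : (((k : ℝ) / q : ℝ) : ℂ) = (n : ℂ) := by
        have h5 : (2 * (Real.pi : ℂ) * I) * (((k : ℝ) / q : ℝ) : ℂ) = (2 * (Real.pi : ℂ) * I) * (n : ℂ) := by
          have : I * ((2 * Real.pi * ((k : ℝ) / q) : ℝ) : ℂ) =
              (2 * (Real.pi : ℂ) * I) * (((k : ℝ) / q : ℝ) : ℂ) := by
            push_cast; ring
          rw [← this, hn]; ring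
        exact mul_left_cancel₀ (by simp [hpi, Complex.I_ne_zero]) h5
      have h6 : (k : ℝ) / q = (n : ℝ) := by exact_mod_cast h4
      rw [div_eq_iff hq0] at h6
      refine ⟨n, ?_⟩
      have h7 : (k : ℝ) = ((q * n : ℤ) : ℝ) := by push_cast; rw [h6]; ring
      exact_mod_cast h7
    have h8 : ee ((k : ℝ) / q) ^ q = 1 := by
      rw [← ee_nat_mul]
      have : (q : ℝ) * ((k : ℝ) / q) = (k : ℝ) := by field_simp
      rw [this, ee_int]
    have h9 := mul_geom_sum (ee ((k : ℝ) / q)) q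
    rw [h8, sub_self] at h9
    rcases mul_eq_zero.mp h9 with h10 | h10
    · exact absurd (sub_eq_zero.mp h10) hne
    · exact h10

lemma sv_cast (Q : Polynomial ℚ) (hQ : IntVal Q) (n : ℕ) :
    ((sv Q n : ℤ) : ℚ) = (np n : ℚ) + 2 * Q.eval ((n : ℚ) + 1) := by
  unfold sv qv
  obtain ⟨k, hk⟩ := hQ ((n : ℤ) + 1)
  have h1 : Q.eval (((n + 1 : ℕ) : ℚ)) = (k : ℚ) := by
    have h2 : (((n + 1 : ℕ) : ℚ)) = (((n : ℤ) + 1 : ℤ) : ℚ) := by push_cast; ring
    rw [h2]; exact hk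
  have h3 : Q.eval ((n : ℚ) + 1) = (k : ℚ) := by
    rw [← h1]; push_cast; ring_nf
  rw [h3, h1, Int.floor_intCast]
  push_cast
  ring

end ResSum

open ResSum

/-- the landed NonConcentration, for `s_n` -/
theorem nonconc_sv (Q : Polynomial ℚ) (hQ : IntVal Q) : ∃ C c : ℝ, 0 < C ∧ 0 < c ∧ c ≤ 1 / 2 ∧
    ∀ N q : ℕ, 1 ≤ q → ∀ Z : ℝ, 1 ≤ Z → Z ≤ q → Z ≤ Real.log N → ∀ a : ℤ,
      (((range N).filter (fun n => (q : ℤ) ∣ sv Q n - a)).card : ℝ) ≤ C * N * Z ^ (-c) := by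
  obtain ⟨C, hC, h⟩ := Pool.Agent.PnPoly.NC.nonconc Q.natDegree
  have hd : (0 : ℝ) ≤ Q.natDegree := Nat.cast_nonneg _
  refine ⟨C, 1 / (28 * ((Q.natDegree : ℝ) + 1) ^ 2), hC, by positivity, ?_, ?_⟩
  · rw [div_le_div_iff₀ (by positivity) (by norm_num)]
    nlinarith
  intro N q hq Z hZ1 hZq hZN a
  refine h N q Z hq hZ1 hZq hZN
    (Polynomial.C 2 * Q.comp (Polynomial.X + Polynomial.C 1) - Polynomial.C (a : ℚ)) ?_
    _ (filter_subset _ _) ?_
  · refine (Polynomial.natDegree_sub_le _ _).trans ?_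
    rw [Polynomial.natDegree_C, Nat.max_zero]
    refine (Polynomial.natDegree_C_mul_le _ _).trans ?_
    refine Polynomial.natDegree_comp_le.trans ?_
    rw [Polynomial.natDegree_X_add_C, mul_one]
  · intro n hn
    rw [mem_filter] at hn
    obtain ⟨z, hz⟩ := hn.2
    refine ⟨z, ?_⟩
    have h1 := sv_cast Q hQ n
    have h2 : ((sv Q n : ℤ) : ℚ) - a = q * z := by exact_mod_cast hz
    rw [Polynomial.eval_sub, Polynomial.eval_mul, Polynomial.eval_C, Polynomial.eval_C,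
      Polynomial.eval_comp, Polynomial.eval_add, Polynomial.eval_X, Polynomial.eval_C]
    rw [← h2, h1]
    ring

/-- mean square over the fractions with denominator `q` -/
theorem sum_residues (s : ℕ → ℤ) (I : Finset ℕ) (q : ℕ) (hq : 1 ≤ q) (K : ℝ)
    (hK : ∀ a : ℤ, ((I.filter (fun n => (q : ℤ) ∣ s n - a)).card : ℝ) ≤ K) :
    ∑ a ∈ range q, ‖∑ n ∈ I, ee (((s n : ℤ) : ℝ) * ((a : ℝ) / q))‖ ^ 2 ≤ q * I.card * K := by
  have h1 : ∀ a : ℕ, ((‖∑ n ∈ I, ee (((s n : ℤ) : ℝ) * ((a : ℝ) / q))‖ ^ 2 : ℝ) : ℂ) =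
      ∑ n ∈ I, ∑ m ∈ I, ee (((s m - s n : ℤ) : ℝ) * ((a : ℝ) / q)) := by
    intro a
    push_cast
    rw [← Complex.mul_conj', map_sum, Finset.sum_mul_sum, Finset.sum_comm]
    refine sum_congr rfl fun n _ => sum_congr rfl fun m _ => ?_
    rw [conj_ee, ← ee_add]
    congr 1
    ring
  have h2 : ((∑ a ∈ range q, ‖∑ n ∈ I, ee (((s n : ℤ) : ℝ) * ((a : ℝ) / q))‖ ^ 2 : ℝ) : ℂ) =
      ((∑ n ∈ I, (q : ℝ) * ((I.filter (fun m => (q : ℤ) ∣ s m - s n)).card : ℝ) : ℝ) : ℂ) := by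
    rw [Complex.ofReal_sum, sum_congr rfl fun a _ => h1 a, sum_comm, Complex.ofReal_sum]
    refine sum_congr rfl fun n _ => ?_
    rw [sum_comm, sum_congr rfl fun m _ => sum_ee_frac q hq (s m - s n), ← sum_filter, sum_const,
      nsmul_eq_mul]
    push_cast
    ring
  have h3 : ∑ a ∈ range q, ‖∑ n ∈ I, ee (((s n : ℤ) : ℝ) * ((a : ℝ) / q))‖ ^ 2 =
      ∑ n ∈ I, (q : ℝ) * ((I.filter (fun m => (q : ℤ) ∣ s m - s n)).card : ℝ) := by
    exact_mod_cast h2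
  rw [h3]
  calc ∑ n ∈ I, (q : ℝ) * ((I.filter (fun m => (q : ℤ) ∣ s m - s n)).card : ℝ)
      ≤ ∑ n ∈ I, (q : ℝ) * K := by
        refine sum_le_sum fun n _ => ?_
        exact mul_le_mul_of_nonneg_left (hK (s n)) (Nat.cast_nonneg _)
    _ = q * I.card * K := by rw [sum_const, nsmul_eq_mul]; ring

end Pool.Agent.PnLG
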