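import Pool.Agent.PnLG.LyExp
import Pool.Agent.PnLG.LsTw
import Pool.Agent.PnLG.ResSum
import Pool.Agent.PnLG.PhiSum
import Pool.Agent.PnLG.SvFacts

open Finset Filter Complex
open scoped ArithmeticFunction.Moebius ArithmeticFunction.vonMangoldt

namespace Pool.Agent.PnLG

open Pool.Agent.ANT
open Pool.Agent.PnPoly.NC (np)

/-- squarefree numbers `≤ y` divide the primorial -/
theorem MomLy_dvd {q y : ℕ} (hq : Squarefree q) (hqy : q ≤ y) : q ∣ ∏ p ∈ Py y, p := by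
  rw [← Nat.prod_primeFactors_of_squarefree hq]
  refine prod_dvd_prod_of_subset _ _ _ (fun p hp => ?_)
  have h1 := Nat.prime_of_mem_primeFactors hp
  have h2 := Nat.le_of_mem_primeFactors hp
  unfold Py
  rw [mem_filter, mem_Icc]
  exact ⟨⟨h1.one_le, h2.trans hqy⟩, h1⟩

theorem MomLy_Ppos (y : ℕ) : 0 < ∏ p ∈ Py y, p := by
  refine prod_pos (fun p hp => ?_)
  unfold Py at hp
  exact (mem_filter.1 hp).2.pos

/-- the moduli in the difference -/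
noncomputable def MomLyS (y R : ℕ) : Finset ℕ :=
  (Ioc 0 R).filter (fun q => Squarefree q ∧ ¬ q ∣ ∏ p ∈ Py y, p)

theorem MomLy_diff {y R : ℕ} (hR : ∏ p ∈ Py y, p ≤ R) (m : ℤ) :
    VR R m - ((Ly y m : ℝ) : ℂ) = ∑ q ∈ MomLyS y R, (((μ q : ℤ) : ℂ) / (q.totient : ℂ)) * rs q m := by
  classical
  rw [Ly_expand]
  unfold VR
  have hsub : (∏ p ∈ Py y, p).divisors ⊆ Ioc 0 R := by
    intro q hq
    have h1 := Nat.dvd_of_mem_divisors hq
    rw [mem_Ioc]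
    exact ⟨Nat.pos_of_dvd_of_pos h1 (MomLy_Ppos y), (Nat.le_of_dvd (MomLy_Ppos y) h1).trans hR⟩
  rw [← sum_sdiff hsub, add_sub_cancel_right]
  symm
  refine sum_subset ?_ ?_
  · intro q hq
    unfold MomLyS at hq
    rw [mem_filter] at hq
    rw [Finset.mem_sdiff, Nat.mem_divisors]
    exact ⟨hq.1, fun h => hq.2.2 h.1⟩
  · intro q hq hq'
    rw [Finset.mem_sdiff, Nat.mem_divisors] at hq
    have h1 : ¬ Squarefree q := by
      intro h
      apply hq'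
      unfold MomLyS
      rw [mem_filter]
      exact ⟨hq.1, h, fun h2 => hq.2 ⟨h2, (MomLy_Ppos y).ne'⟩⟩
    rw [ArithmeticFunction.moebius_eq_zero_of_not_squarefree h1]
    simp

theorem MomLy_sum {y R : ℕ} (hR : ∏ p ∈ Py y, p ≤ R) (s : ℕ → ℤ) (I : Finset ℕ) (c : ℕ) :
    ∑ n ∈ I, (VR R (s n + 2 * (c : ℤ)) - ((Ly y (s n + 2 * (c : ℤ)) : ℝ) : ℂ)) =
      ∑ q ∈ MomLyS y R, ∑ a ∈ (range q).filter (fun a => Nat.Coprime a q),
        ((((μ q : ℤ) : ℂ) / (q.totient : ℂ)) * ∑ n ∈ I, ee (((s n : ℤ) : ℝ) * ((a : ℝ) / q))) *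
          ee (2 * (c : ℝ) * ((a : ℝ) / q)) := by
  rw [sum_congr rfl (fun n _ => MomLy_diff hR _), sum_comm]
  refine sum_congr rfl (fun q _ => ?_)
  unfold rs
  rw [← mul_sum, sum_comm, mul_sum]
  refine sum_congr rfl (fun a _ => ?_)
  rw [mul_assoc, sum_mul]
  congr 1
  refine sum_congr rfl (fun n _ => ?_)
  rw [← ee_add]
  congr 1
  push_cast
  ring

theorem MomLy_core (Q : Polynomial ℚ) {C c C1 C2 : ℝ} (hC : 0 < C)
    (hnc : ∀ N q : ℕ, 1 ≤ q → ∀ Z : ℝ, 1 ≤ Z → Z ≤ q → Z ≤ Real.log N → ∀ a : ℤ,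
      (((range N).filter (fun n => (q : ℤ) ∣ sv Q n - a)).card : ℝ) ≤ C * N * Z ^ (-c))
    (hpt : ∀ y Z : ℕ, 1 ≤ y →
      ∑ q ∈ (Ioc y Z).filter Squarefree, (q : ℝ) ^ (1 - c) / (q.totient : ℝ) ^ 2 ≤ C1 * (y : ℝ) ^ (-(c / 2)))
    (hpl : ∀ R : ℕ, 1 ≤ R →
      ∑ q ∈ (Ioc 0 R).filter Squarefree, (q : ℝ) / (q.totient : ℝ) ^ 2 ≤ C2 * (1 + Real.log R))
    {y R : ℕ} (hy : 1 ≤ y) (hR : ∏ p ∈ Py y, p ≤ R) (n1 H N : ℕ) (hN : 3 ≤ N) :
    ∑ c ∈ Icc 1 H, ‖∑ n ∈ Ico n1 N, (VR R (sv Q n + 2 * (c : ℤ)) -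
        ((Ly y (sv Q n + 2 * (c : ℤ)) : ℝ) : ℂ))‖ ^ 2 ≤
      48 * (2 * H + (R : ℝ) ^ 2) * (C * (N : ℝ) ^ 2 * (C1 * (y : ℝ) ^ (-(c / 2)) +
        Real.log N ^ (-c) * (C2 * (1 + Real.log R)))) := by
  classical
  have hR1 : 1 ≤ R := (MomLy_Ppos y).trans_le hR
  have hlogN : 1 ≤ Real.log N := by
    rw [Real.le_log_iff_exp_le (by positivity)]
    have h3 : (3 : ℝ) ≤ N := by exact_mod_cast hN
    linarith [Real.exp_one_lt_d9]
  have hS : ∀ q ∈ MomLyS y R, 1 ≤ q ∧ q ≤ R ∧ Squarefree q := by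
    intro q hq
    unfold MomLyS at hq
    rw [mem_filter, mem_Ioc] at hq
    exact ⟨hq.1.1, hq.1.2, hq.2.1⟩
  rw [sum_congr rfl (fun c _ => by rw [MomLy_sum hR (sv Q) (Ico n1 N) c])]
  refine (ls_twist R H hR1 (MomLyS y R) hS _).trans ?_
  refine mul_le_mul_of_nonneg_left ?_ (by positivity)
  -- the sum over `a`
  have key : ∀ q ∈ MomLyS y R, ∑ a ∈ (range q).filter (fun a => Nat.Coprime a q),
      ‖(((μ q : ℤ) : ℂ) / (q.totient : ℂ)) * ∑ n ∈ Ico n1 N, ee (((sv Q n : ℤ) : ℝ) * ((a : ℝ) / q))‖ ^ 2 ≤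
      C * (N : ℝ) ^ 2 * ((q : ℝ) ^ (1 - c) / (q.totient : ℝ) ^ 2 +
        Real.log N ^ (-c) * ((q : ℝ) / (q.totient : ℝ) ^ 2)) := by
    intro q hq
    obtain ⟨hq1, hqR, hqs⟩ := hS q hq
    have hq1' : (1 : ℝ) ≤ q := by exact_mod_cast hq1
    have hphi : (0 : ℝ) < q.totient := by exact_mod_cast Nat.totient_pos.2 hq1
    have hK : ∀ a : ℤ, (((Ico n1 N).filter (fun n => (q : ℤ) ∣ sv Q n - a)).card : ℝ) ≤
        C * N * (min (q : ℝ) (Real.log N)) ^ (-c) := by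
      intro a
      refine le_trans ?_ (hnc N q hq1 (min (q : ℝ) (Real.log N)) (le_min hq1' hlogN) (min_le_left _ _)
        (min_le_right _ _) a)
      have hsub : (Ico n1 N).filter (fun n => (q : ℤ) ∣ sv Q n - a) ⊆
          (range N).filter (fun n => (q : ℤ) ∣ sv Q n - a) := by
        refine filter_subset_filter _ (fun n hn => ?_)
        rw [mem_Ico] at hn
        exact mem_range.2 hn.2
      exact_mod_cast card_le_card hsub
    have h1 := sum_residues (sv Q) (Ico n1 N) q hq1 _ hK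
    have hmin : (min (q : ℝ) (Real.log N)) ^ (-c) ≤ (q : ℝ) ^ (-c) + Real.log N ^ (-c) := by
      have e1 : 0 ≤ (q : ℝ) ^ (-c) := by positivity
      have e2 : 0 ≤ Real.log N ^ (-c) := Real.rpow_nonneg (by linarith) _
      rcases min_choice (q : ℝ) (Real.log N) with h | h <;> rw [h] <;> linarith
    have hcard : ((Ico n1 N).card : ℝ) ≤ N := by
      rw [Nat.card_Ico]; exact_mod_cast Nat.sub_le _ _
    have hmu : ‖(((μ q : ℤ) : ℂ) / (q.totient : ℂ))‖ ^ 2 ≤ 1 / (q.totient : ℝ) ^ 2 := by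
      rw [norm_div, div_pow, Complex.norm_natCast, Complex.norm_intCast]
      gcongr
      have h2 : |μ q| ≤ 1 := ArithmeticFunction.abs_moebius_le_one
      have h3 : |((μ q : ℤ) : ℝ)| ≤ 1 := by exact_mod_cast h2
      exact pow_le_one₀ (abs_nonneg _) h3
    calc _ = ∑ a ∈ (range q).filter (fun a => Nat.Coprime a q),
          ‖(((μ q : ℤ) : ℂ) / (q.totient : ℂ))‖ ^ 2 *
            ‖∑ n ∈ Ico n1 N, ee (((sv Q n : ℤ) : ℝ) * ((a : ℝ) / q))‖ ^ 2 := by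
          refine sum_congr rfl (fun a _ => ?_)
          rw [norm_mul, mul_pow]
      _ ≤ ∑ a ∈ (range q).filter (fun a => Nat.Coprime a q),
          (1 / (q.totient : ℝ) ^ 2) *
            ‖∑ n ∈ Ico n1 N, ee (((sv Q n : ℤ) : ℝ) * ((a : ℝ) / q))‖ ^ 2 :=
          sum_le_sum fun a _ => mul_le_mul_of_nonneg_right hmu (by positivity)
      _ = (1 / (q.totient : ℝ) ^ 2) * ∑ a ∈ (range q).filter (fun a => Nat.Coprime a q),
            ‖∑ n ∈ Ico n1 N, ee (((sv Q n : ℤ) : ℝ) * ((a : ℝ) / q))‖ ^ 2 := by rw [mul_sum]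
      _ ≤ (1 / (q.totient : ℝ) ^ 2) * ∑ a ∈ range q,
            ‖∑ n ∈ Ico n1 N, ee (((sv Q n : ℤ) : ℝ) * ((a : ℝ) / q))‖ ^ 2 := by
          refine mul_le_mul_of_nonneg_left ?_ (by positivity)
          exact sum_le_sum_of_subset_of_nonneg (filter_subset _ _) (fun _ _ _ => by positivity)
      _ ≤ (1 / (q.totient : ℝ) ^ 2) * (q * (Ico n1 N).card * (C * N * (min (q : ℝ) (Real.log N)) ^ (-c))) :=
          mul_le_mul_of_nonneg_left h1 (by positivity)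
      _ ≤ (1 / (q.totient : ℝ) ^ 2) * (q * N * (C * N * ((q : ℝ) ^ (-c) + Real.log N ^ (-c)))) := by
          have e0 : 0 ≤ (min (q : ℝ) (Real.log N)) ^ (-c) :=
            Real.rpow_nonneg (le_min (by linarith) (by linarith)) _
          gcongr
      _ = _ := by
          have e3 : (q : ℝ) ^ (1 - c) = q * (q : ℝ) ^ (-c) := by
            rw [sub_eq_add_neg, Real.rpow_add (by linarith), Real.rpow_one]
          rw [e3]
          field_simp
  refine (sum_le_sum key).trans ?_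
  rw [← mul_sum, sum_add_distrib, ← mul_sum]
  refine mul_le_mul_of_nonneg_left ?_ (by positivity)
  have hsub1 : MomLyS y R ⊆ (Ioc y R).filter Squarefree := by
    intro q hq
    have h1 := hS q hq
    unfold MomLyS at hq
    rw [mem_filter] at hq
    rw [mem_filter, mem_Ioc]
    refine ⟨⟨?_, h1.2.1⟩, h1.2.2⟩
    by_contra h
    exact hq.2.2 (MomLy_dvd h1.2.2 (not_lt.1 h))
  have hsub2 : MomLyS y R ⊆ (Ioc 0 R).filter Squarefree := by
    intro q hq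
    have h1 := hS q hq
    rw [mem_filter, mem_Ioc]
    exact ⟨⟨h1.1, h1.2.1⟩, h1.2.2⟩
  have g1 : ∑ q ∈ MomLyS y R, (q : ℝ) ^ (1 - c) / (q.totient : ℝ) ^ 2 ≤ C1 * (y : ℝ) ^ (-(c / 2)) :=
    (sum_le_sum_of_subset_of_nonneg hsub1 (fun _ _ _ => by positivity)).trans (hpt y R hy)
  have g2 : ∑ q ∈ MomLyS y R, (q : ℝ) / (q.totient : ℝ) ^ 2 ≤ C2 * (1 + Real.log R) :=
    (sum_le_sum_of_subset_of_nonneg hsub2 (fun _ _ _ => by positivity)).trans (hpl R hR1)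
  have g3 : 0 ≤ Real.log N ^ (-c) := Real.rpow_nonneg (by linarith) _
  exact add_le_add g1 (mul_le_mul_of_nonneg_left g2 g3)

theorem MomLy_ev1 (B : ℕ) (hB : 1 ≤ B) (K : ℕ) : ∀ᶠ H : ℕ in atTop, K ≤ RX B (3 * H) := by
  have h1 : Tendsto (fun H : ℕ => Real.log ((3 * H : ℕ) : ℝ)) atTop atTop := by
    refine Real.tendsto_log_atTop.comp (tendsto_natCast_atTop_atTop.comp ?_)
    exact tendsto_id.const_mul_atTop' (by norm_num)
  filter_upwards [h1.eventually_ge_atTop (max 1 (K : ℝ))] with H hH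
  unfold RX
  refine Nat.le_floor ?_
  have h2 : 1 ≤ Real.log ((3 * H : ℕ) : ℝ) := (le_max_left _ _).trans hH
  have h3 : (K : ℝ) ≤ Real.log ((3 * H : ℕ) : ℝ) := (le_max_right _ _).trans hH
  exact h3.trans (le_self_pow₀ h2 (by omega))

theorem MomLy_ev2 (B : ℕ) : ∀ᶠ H : ℕ in atTop, ((RX B (3 * H) : ℕ) : ℝ) ^ 2 ≤ H := by
  have h0 : Tendsto (fun H : ℕ => ((3 * H : ℕ) : ℝ)) atTop atTop :=
    tendsto_natCast_atTop_atTop.comp (tendsto_id.const_mul_atTop' (by norm_num))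
  have h1 := (Real.isLittleO_pow_log_id_atTop (n := 2 * B)).bound (c := 1 / 3) (by norm_num)
  filter_upwards [h0.eventually h1, h0.eventually_ge_atTop 1] with H hH h2
  unfold RX
  have h3 : 0 ≤ Real.log ((3 * H : ℕ) : ℝ) := Real.log_nonneg h2
  have h4 : ((⌊Real.log ((3 * H : ℕ) : ℝ) ^ B⌋₊ : ℕ) : ℝ) ≤ Real.log ((3 * H : ℕ) : ℝ) ^ B :=
    Nat.floor_le (by positivity)
  calc _ ≤ (Real.log ((3 * H : ℕ) : ℝ) ^ B) ^ 2 := by gcongr
    _ = Real.log ((3 * H : ℕ) : ℝ) ^ (2 * B) := by rw [← pow_mul, mul_comm B 2]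
    _ ≤ ‖Real.log ((3 * H : ℕ) : ℝ) ^ (2 * B)‖ := Real.le_norm_self _
    _ ≤ 1 / 3 * ‖((3 * H : ℕ) : ℝ)‖ := hH
    _ = H := by
      rw [Real.norm_of_nonneg (by positivity)]; push_cast; ring

theorem MomLy_ev3 (B : ℕ) (hB : 1 ≤ B) {c : ℝ} (hc : 0 < c) {K ε : ℝ} (hK : 0 < K) (hε : 0 < ε) :
    ∀ᶠ H : ℕ in atTop, K * ((1 + Real.log (RX B (3 * H) : ℕ)) * Real.log H ^ (-c)) ≤ ε := by
  have hlog : Tendsto (fun H : ℕ => Real.log (H : ℝ)) atTop atTop :=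
    Real.tendsto_log_atTop.comp tendsto_natCast_atTop_atTop
  have hB0 : (0 : ℝ) < B := by exact_mod_cast hB
  have e1 := (isLittleO_log_rpow_atTop hc).bound (c := ε / (K * (2 * B))) (by positivity)
  have e2 := (tendsto_rpow_atTop hc).eventually_ge_atTop (K * 2 * (1 + B * Real.log 2) / ε)
  filter_upwards [hlog.eventually e1, hlog.eventually e2, hlog.eventually_ge_atTop 2, eventually_ge_atTop 3,
    MomLy_ev1 B hB 1] with H h1 h2 h3 h4 h5
  have hH3 : (3 : ℝ) ≤ H := by exact_mod_cast h4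
  set u := Real.log (H : ℝ) with hu
  have hu0 : 0 < u := by linarith
  have huc : 0 < u ^ c := Real.rpow_pos_of_pos hu0 _
  have hR : Real.log (RX B (3 * H) : ℕ) ≤ B * (Real.log 2 + Real.log u) := by
    have e3 : Real.log ((3 * H : ℕ) : ℝ) ≤ 2 * u := by
      push_cast
      rw [Real.log_mul (by norm_num) (by positivity)]
      have : Real.log 3 ≤ Real.log H := Real.log_le_log (by norm_num) hH3
      linarith
    have e4 : 0 < Real.log ((3 * H : ℕ) : ℝ) := Real.log_pos (by push_cast; linarith)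
    have e5 : ((RX B (3 * H) : ℕ) : ℝ) ≤ Real.log ((3 * H : ℕ) : ℝ) ^ B := by
      unfold RX
      exact Nat.floor_le (by positivity)
    have e6 : (0 : ℝ) < (RX B (3 * H) : ℕ) := by exact_mod_cast h5
    calc _ ≤ Real.log (Real.log ((3 * H : ℕ) : ℝ) ^ B) := Real.log_le_log e6 e5
      _ = B * Real.log (Real.log ((3 * H : ℕ) : ℝ)) := Real.log_pow _ _
      _ ≤ B * Real.log (2 * u) := by gcongr
      _ = _ := by rw [Real.log_mul (by norm_num) hu0.ne']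
  rw [Real.norm_of_nonneg (Real.log_nonneg (by linarith)), Real.norm_of_nonneg huc.le] at h1
  rw [Real.rpow_neg hu0.le]
  have h6 : K * (1 + B * (Real.log 2 + Real.log u)) ≤ ε * u ^ c := by
    have h7 : K * (B * Real.log u) ≤ ε / 2 * u ^ c := by
      calc K * (B * Real.log u) ≤ K * (B * (ε / (K * (2 * B)) * u ^ c)) := by gcongr
        _ = ε / 2 * u ^ c := by field_simp
    have h8 : K * (1 + B * Real.log 2) ≤ ε / 2 * u ^ c := by
      rw [div_le_iff₀ hε] at h2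
      linarith
    linarith
  calc K * ((1 + Real.log (RX B (3 * H) : ℕ)) * (u ^ c)⁻¹) =
        K * (1 + Real.log (RX B (3 * H) : ℕ)) * (u ^ c)⁻¹ := by ring
    _ ≤ K * (1 + B * (Real.log 2 + Real.log u)) * (u ^ c)⁻¹ := by gcongr
    _ ≤ ε * u ^ c * (u ^ c)⁻¹ := by gcongr
    _ = ε := by field_simp

/-- `V_R` versus `Λ_y` in mean square over the constant term -/
theorem second_moment_Ly (Q : Polynomial ℚ) (hQ : IntVal Q) (hlc : 0 ≤ Q.leadingCoeff) (n1 C0 B : ℕ)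
    (hB : 1 ≤ B) (η : ℝ) (hη : 0 < η) : ∃ y0 : ℕ, ∀ y : ℕ, y0 ≤ y → ∀ᶠ H : ℕ in atTop, ∀ N : ℕ, OK Q C0 H N →
      ∑ c ∈ Icc 1 H, ‖∑ n ∈ Ico n1 N, (VR (RX B (3 * H)) (sv Q n + 2 * (c : ℤ)) -
        ((Ly y (sv Q n + 2 * (c : ℤ)) : ℝ) : ℂ))‖ ^ 2 ≤ η * H * (N : ℝ) ^ 2 := by
  obtain ⟨C, c, hC, hc, hc2, hnc⟩ := nonconc_sv Q hQ
  obtain ⟨C1, hC1, hpt⟩ := sum_phi_tail c hc
  obtain ⟨C2, hC2, hpl⟩ := sum_phi_log
  set D : ℝ := ((max Q.natDegree 1 : ℕ) : ℝ) + 1 with hD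
  have hD0 : 0 < D := by positivity
  have hy1 : Tendsto (fun y : ℕ => (y : ℝ) ^ (-(c / 2))) atTop (nhds 0) :=
    (tendsto_rpow_neg_atTop (by positivity)).comp tendsto_natCast_atTop_atTop
  have hy2 : ∀ᶠ y : ℕ in atTop, (y : ℝ) ^ (-(c / 2)) ≤ η / (2 * (144 * C * C1)) :=
    (hy1.eventually_lt_const (by positivity)).mono fun _ h => h.le
  obtain ⟨y0, hy0⟩ := eventually_atTop.1 (hy2.and (eventually_ge_atTop 1))
  refine ⟨y0, fun y hy => ?_⟩
  obtain ⟨hy3, hy4⟩ := hy0 y hy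
  filter_upwards [MomLy_ev1 B hB (∏ p ∈ Py y, p), MomLy_ev2 B,
    MomLy_ev3 B hB hc (K := 144 * C * C2 * D ^ c) (ε := η / 2) (by positivity) (by positivity),
    OK_facts Q C0 3, eventually_ge_atTop 3] with H h1 h2 h3 h4 h5 N hOK
  obtain ⟨hN3, hlog, -, -⟩ := h4 N hOK
  have hH3 : (3 : ℝ) ≤ H := by exact_mod_cast h5
  refine (MomLy_core Q hC hnc hpt hpl hy4 h1 n1 H N hN3).trans ?_
  have hlogH : 0 < Real.log (H : ℝ) := Real.log_pos (by linarith)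
  have hR1 : (1 : ℝ) ≤ (RX B (3 * H) : ℕ) := by exact_mod_cast (MomLy_Ppos y).trans_le h1
  have hlR : 0 ≤ Real.log (RX B (3 * H) : ℕ) := Real.log_nonneg hR1
  have hlogN : Real.log (H : ℝ) / D ≤ Real.log N := by
    rw [div_le_iff₀ hD0, mul_comm]
    exact hlog
  have hlN : Real.log N ^ (-c) ≤ D ^ c * Real.log H ^ (-c) := by
    calc Real.log N ^ (-c) ≤ (Real.log (H : ℝ) / D) ^ (-c) :=
          Real.rpow_le_rpow_of_nonpos (by positivity) hlogN (by linarith)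
      _ = D ^ c * Real.log H ^ (-c) := by
          rw [Real.div_rpow hlogH.le hD0.le, Real.rpow_neg hD0.le, Real.rpow_neg hlogH.le]
          field_simp
  have g1 : 144 * C * C1 * (y : ℝ) ^ (-(c / 2)) ≤ η / 2 := by
    calc _ ≤ 144 * C * C1 * (η / (2 * (144 * C * C1))) := by gcongr
      _ = η / 2 := by field_simp
  have g2 : 144 * C * (Real.log N ^ (-c) * (C2 * (1 + Real.log (RX B (3 * H) : ℕ)))) ≤ η / 2 := by
    calc _ ≤ 144 * C * ((D ^ c * Real.log H ^ (-c)) * (C2 * (1 + Real.log (RX B (3 * H) : ℕ)))) := by gcongr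
      _ = 144 * C * C2 * D ^ c * ((1 + Real.log (RX B (3 * H) : ℕ)) * Real.log H ^ (-c)) := by ring
      _ ≤ _ := h3
  have hl0 : 0 ≤ Real.log N ^ (-c) := Real.rpow_nonneg ((div_nonneg hlogH.le hD0.le).trans hlogN) _
  calc _ ≤ 48 * (2 * H + H) * (C * (N : ℝ) ^ 2 * (C1 * (y : ℝ) ^ (-(c / 2)) +
        Real.log N ^ (-c) * (C2 * (1 + Real.log (RX B (3 * H) : ℕ))))) := by gcongr
    _ = H * (N : ℝ) ^ 2 * (144 * C * C1 * (y : ℝ) ^ (-(c / 2)) +
        144 * C * (Real.log N ^ (-c) * (C2 * (1 + Real.log (RX B (3 * H) : ℕ))))) := by ring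
    _ ≤ H * (N : ℝ) ^ 2 * (η / 2 + η / 2) := by gcongr
    _ = _ := by ring

end Pool.Agent.PnLG
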