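import Pool.Agent.PnLG.MomVR
import Pool.Agent.PnLG.MomLy

open Finset Filter Complex
open scoped ArithmeticFunction.Moebius ArithmeticFunction.vonMangoldt

namespace Pool.Agent.PnLG

open Pool.Agent.ANT
open Pool.Agent.PnPoly.NC (np)

theorem Mom_sq_add_le (x y : ℂ) : ‖x + y‖ ^ 2 ≤ 2 * ‖x‖ ^ 2 + 2 * ‖y‖ ^ 2 := by
  have h1 : ‖x + y‖ ^ 2 ≤ (‖x‖ + ‖y‖) ^ 2 := by
    gcongr
    exact norm_add_le x y
  nlinarith [sq_nonneg (‖x‖ - ‖y‖)]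

/-- the main mean square estimate -/
theorem second_moment (Q : Polynomial ℚ) (hQ : IntVal Q) (hlc : 0 ≤ Q.leadingCoeff) (n1 C0 : ℕ)
    (hn1 : ∀ n, n1 ≤ n → 0 ≤ qv Q (n + 1) ∧ sv Q n < sv Q (n + 1))
    (η : ℝ) (hη : 0 < η) : ∃ y0 : ℕ, ∀ y : ℕ, y0 ≤ y → ∀ᶠ H : ℕ in atTop, ∀ N : ℕ, OK Q C0 H N →
      ∑ c ∈ Icc 1 H, (∑ n ∈ Ico n1 N, (Λ (sv Q n + 2 * (c : ℤ)).toNat -
        Ly y (sv Q n + 2 * (c : ℤ)))) ^ 2 ≤ η * H * (N : ℝ) ^ 2 := by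
  obtain ⟨B, hB, C, hC, hVR⟩ := second_moment_VR Q hQ hlc n1 hn1 C0
  obtain ⟨y0, hy0⟩ := second_moment_Ly Q hQ hlc n1 C0 B hB (η / 4) (by linarith)
  refine ⟨y0, fun y hy => ?_⟩
  have hlog : ∀ᶠ H : ℕ in atTop, 4 * C / η ≤ Real.log H ∧ 1 ≤ Real.log H := by
    have h1 : Tendsto (fun H : ℕ => Real.log (H : ℝ)) atTop atTop :=
      Real.tendsto_log_atTop.comp tendsto_natCast_atTop_atTop
    exact (h1.eventually_ge_atTop (4 * C / η)).and (h1.eventually_ge_atTop 1)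
  filter_upwards [hVR, hy0 y hy, hlog] with H h1 h2 h3 N hN
  obtain ⟨h3, h4⟩ := h3
  have h5 := h1 N hN
  have h6 := h2 N hN
  have hterm : ∀ c ∈ Icc 1 H, (∑ n ∈ Ico n1 N, (Λ (sv Q n + 2 * (c : ℤ)).toNat -
        Ly y (sv Q n + 2 * (c : ℤ)))) ^ 2 ≤
      2 * ‖∑ n ∈ Ico n1 N, (((Λ (sv Q n + 2 * (c : ℤ)).toNat : ℝ) : ℂ) -
        VR (RX B (3 * H)) (sv Q n + 2 * (c : ℤ)))‖ ^ 2 +
      2 * ‖∑ n ∈ Ico n1 N, (VR (RX B (3 * H)) (sv Q n + 2 * (c : ℤ)) -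
        ((Ly y (sv Q n + 2 * (c : ℤ)) : ℝ) : ℂ))‖ ^ 2 := by
    intro c _
    have h7 : ((∑ n ∈ Ico n1 N, (Λ (sv Q n + 2 * (c : ℤ)).toNat -
        Ly y (sv Q n + 2 * (c : ℤ))) : ℝ) : ℂ) =
        ∑ n ∈ Ico n1 N, (((Λ (sv Q n + 2 * (c : ℤ)).toNat : ℝ) : ℂ) -
          VR (RX B (3 * H)) (sv Q n + 2 * (c : ℤ))) +
        ∑ n ∈ Ico n1 N, (VR (RX B (3 * H)) (sv Q n + 2 * (c : ℤ)) -
          ((Ly y (sv Q n + 2 * (c : ℤ)) : ℝ) : ℂ)) := by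
      rw [← Finset.sum_add_distrib, Complex.ofReal_sum]
      refine Finset.sum_congr rfl fun n _ => ?_
      rw [Complex.ofReal_sub]
      ring
    have h8 : (∑ n ∈ Ico n1 N, (Λ (sv Q n + 2 * (c : ℤ)).toNat -
        Ly y (sv Q n + 2 * (c : ℤ)))) ^ 2 =
        ‖((∑ n ∈ Ico n1 N, (Λ (sv Q n + 2 * (c : ℤ)).toNat -
        Ly y (sv Q n + 2 * (c : ℤ))) : ℝ) : ℂ)‖ ^ 2 := by
      rw [Complex.norm_real, Real.norm_eq_abs, sq_abs]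
    rw [h8, h7]
    exact Mom_sq_add_le _ _
  have hH : (0 : ℝ) ≤ H := Nat.cast_nonneg H
  have hHN : (0 : ℝ) ≤ H * (N : ℝ) ^ 2 := by positivity
  have h9 : C * H * (N : ℝ) ^ 2 / Real.log H ≤ η / 4 * (H * (N : ℝ) ^ 2) := by
    rw [div_le_iff₀ (by linarith)]
    have h10 : C ≤ η / 4 * Real.log H := by
      rw [div_le_iff₀ hη] at h3
      linarith
    calc C * H * (N : ℝ) ^ 2 = C * (H * (N : ℝ) ^ 2) := by ring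
      _ ≤ (η / 4 * Real.log H) * (H * (N : ℝ) ^ 2) := mul_le_mul_of_nonneg_right h10 hHN
      _ = η / 4 * (H * (N : ℝ) ^ 2) * Real.log H := by ring
  calc ∑ c ∈ Icc 1 H, (∑ n ∈ Ico n1 N, (Λ (sv Q n + 2 * (c : ℤ)).toNat -
        Ly y (sv Q n + 2 * (c : ℤ)))) ^ 2
      ≤ ∑ c ∈ Icc 1 H, (2 * ‖∑ n ∈ Ico n1 N, (((Λ (sv Q n + 2 * (c : ℤ)).toNat : ℝ) : ℂ) -
        VR (RX B (3 * H)) (sv Q n + 2 * (c : ℤ)))‖ ^ 2 +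
      2 * ‖∑ n ∈ Ico n1 N, (VR (RX B (3 * H)) (sv Q n + 2 * (c : ℤ)) -
        ((Ly y (sv Q n + 2 * (c : ℤ)) : ℝ) : ℂ))‖ ^ 2) := Finset.sum_le_sum hterm
    _ = 2 * ∑ c ∈ Icc 1 H, ‖∑ n ∈ Ico n1 N, (((Λ (sv Q n + 2 * (c : ℤ)).toNat : ℝ) : ℂ) -
        VR (RX B (3 * H)) (sv Q n + 2 * (c : ℤ)))‖ ^ 2 +
      2 * ∑ c ∈ Icc 1 H, ‖∑ n ∈ Ico n1 N, (VR (RX B (3 * H)) (sv Q n + 2 * (c : ℤ)) -
        ((Ly y (sv Q n + 2 * (c : ℤ)) : ℝ) : ℂ))‖ ^ 2 := by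
        rw [Finset.sum_add_distrib, ← Finset.mul_sum, ← Finset.mul_sum]
    _ ≤ 2 * (η / 4 * (H * (N : ℝ) ^ 2)) + 2 * (η / 4 * H * (N : ℝ) ^ 2) := by
        gcongr
        exact h5.trans h9
    _ = η * H * (N : ℝ) ^ 2 := by ring

end Pool.Agent.PnLG
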