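import Pool.Agent.PnLG.Defs

open Finset Filter Complex
open scoped ArithmeticFunction.Moebius ArithmeticFunction.vonMangoldt

namespace Pool.Agent.PnLG

open Pool.Agent.ANT
open Pool.Agent.PnPoly.NC (np)

private lemma orth_nat {M a b : ℕ} (ha : a < M) (hb : b < M) :
    ∑ j ∈ range M, ee ((a : ℝ) * ((j : ℝ) / M)) * ee (-((j : ℝ) / M * (b : ℝ))) =
      if a = b then (M : ℂ) else 0 := by
  rw [← orth_ee ha hb]
  refine sum_congr rfl fun j _ => ?_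
  rw [conj_ee]
  congr 2
  ring

/-- discrete Parseval for the shifted sums -/
theorem parseval_shift (X H M0 : ℕ) (hX : X < M0) (hH : 2 * H < M0) (f : ℤ → ℂ)
    (a b : ℕ) (s : ℕ → ℤ) (hs : ∀ n ∈ Ico a b, 0 ≤ s n ∧ s n + 2 * H ≤ X) :
    ∑ c ∈ Icc 1 H, ‖∑ n ∈ Ico a b, f (s n + 2 * (c : ℤ))‖ ^ 2 ≤
      (1 / (M0 : ℝ)) * ∑ j ∈ range M0, ‖∑ m ∈ Ioc 0 X, f (m : ℤ) * ee (-((j : ℝ) / M0 * m))‖ ^ 2 *
        ‖∑ n ∈ Ico a b, ee ((j : ℝ) / M0 * ((s n : ℤ) : ℝ))‖ ^ 2 := by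
  have hM : (0 : ℝ) < M0 := by exact_mod_cast (by omega : 0 < M0)
  set F : ℕ → ℂ := fun j => ∑ m ∈ Ioc 0 X, f (m : ℤ) * ee (-((j : ℝ) / M0 * m)) with hF
  set S : ℕ → ℂ := fun j => ∑ n ∈ Ico a b, ee ((j : ℝ) / M0 * ((s n : ℤ) : ℝ)) with hS
  set A : ℕ → ℂ := fun k => ∑ j ∈ range M0, (F j * S j) * ee ((j : ℝ) * ((k : ℝ) / M0)) with hA
  have key : ∀ c ∈ Icc 1 H, A (2 * c) = (M0 : ℂ) * ∑ n ∈ Ico a b, f (s n + 2 * (c : ℤ)) := by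
    intro c hc
    obtain ⟨hc1, hc2⟩ := mem_Icc.mp hc
    have e1 : ∀ j ∈ range M0, (F j * S j) * ee ((j : ℝ) * (((2 * c : ℕ) : ℝ) / M0)) =
        ∑ n ∈ Ico a b, ∑ m ∈ Ioc 0 X, f (m : ℤ) *
          (ee ((((s n + 2 * (c : ℤ)).toNat : ℕ) : ℝ) * ((j : ℝ) / M0)) *
            ee (-((j : ℝ) / M0 * (m : ℝ)))) := by
      intro j _
      simp only [hF, hS]
      rw [sum_mul_sum, sum_comm, sum_mul]
      refine sum_congr rfl fun n hn => ?_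
      rw [sum_mul]
      refine sum_congr rfl fun m _ => ?_
      obtain ⟨h0, _⟩ := hs n hn
      have h1 : (((s n + 2 * (c : ℤ)).toNat : ℕ) : ℝ) = ((s n : ℤ) : ℝ) + 2 * (c : ℝ) := by
        have h2 : (((s n + 2 * (c : ℤ)).toNat : ℕ) : ℤ) = s n + 2 * (c : ℤ) :=
          Int.toNat_of_nonneg (by omega)
        have h3 : ((((s n + 2 * (c : ℤ)).toNat : ℕ) : ℤ) : ℝ) = ((s n + 2 * (c : ℤ) : ℤ) : ℝ) := by
          rw [h2]
        push_cast at h3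
        exact h3
      rw [h1]
      have h4 : ee ((((s n : ℤ) : ℝ) + 2 * (c : ℝ)) * ((j : ℝ) / M0)) =
          ee ((j : ℝ) / M0 * ((s n : ℤ) : ℝ)) * ee ((j : ℝ) * (((2 * c : ℕ) : ℝ) / M0)) := by
        rw [← ee_add]
        congr 1
        push_cast
        ring
      rw [h4]
      ring
    simp only [hA]
    rw [sum_congr rfl e1, sum_comm, mul_sum]
    refine sum_congr rfl fun n hn => ?_
    obtain ⟨h0, h1⟩ := hs n hn
    rw [sum_comm]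
    have hx : (s n + 2 * (c : ℤ)).toNat ∈ Ioc 0 X := by
      rw [mem_Ioc]; constructor <;> omega
    have hlt : (s n + 2 * (c : ℤ)).toNat < M0 := by omega
    rw [sum_eq_single ((s n + 2 * (c : ℤ)).toNat)]
    · rw [← mul_sum, orth_nat hlt hlt, if_pos rfl]
      have h2 : (((s n + 2 * (c : ℤ)).toNat : ℕ) : ℤ) = s n + 2 * (c : ℤ) :=
        Int.toNat_of_nonneg (by omega)
      rw [h2]
      ring
    · intro m hm hne
      obtain ⟨hm1, hm2⟩ := mem_Ioc.mp hm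
      rw [← mul_sum, orth_nat hlt (by omega), if_neg (Ne.symm hne), mul_zero]
    · intro h
      exact absurd hx h
  have hpar : ∑ k ∈ range M0, ‖A k‖ ^ 2 = (M0 : ℝ) * ∑ j ∈ range M0, ‖F j * S j‖ ^ 2 := by
    have := parseval M0 (fun j => F j * S j)
    simpa [hA] using this
  have hle : ∑ c ∈ Icc 1 H, ‖A (2 * c)‖ ^ 2 ≤ ∑ k ∈ range M0, ‖A k‖ ^ 2 := by
    have hinj : Set.InjOn (fun c : ℕ => 2 * c) (Icc 1 H : Finset ℕ) := by
      intro x _ y _ h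
      simp only at h
      omega
    have h1 : ∑ c ∈ Icc 1 H, ‖A (2 * c)‖ ^ 2 =
        ∑ k ∈ (Icc 1 H).image (fun c : ℕ => 2 * c), ‖A k‖ ^ 2 := by
      rw [sum_image hinj]
    rw [h1]
    refine sum_le_sum_of_subset_of_nonneg ?_ (fun _ _ _ => by positivity)
    intro k hk
    obtain ⟨c, hc, rfl⟩ := mem_image.mp hk
    obtain ⟨_, hc2⟩ := mem_Icc.mp hc
    simp only [mem_range]
    omega
  have h2 : ∑ c ∈ Icc 1 H, ‖A (2 * c)‖ ^ 2 =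
      (M0 : ℝ) ^ 2 * ∑ c ∈ Icc 1 H, ‖∑ n ∈ Ico a b, f (s n + 2 * (c : ℤ))‖ ^ 2 := by
    rw [mul_sum]
    refine sum_congr rfl fun c hc => ?_
    rw [key c hc, norm_mul, mul_pow]
    simp
  rw [h2, hpar] at hle
  have h3 : ∑ j ∈ range M0, ‖F j * S j‖ ^ 2 = ∑ j ∈ range M0, ‖F j‖ ^ 2 * ‖S j‖ ^ 2 :=
    sum_congr rfl fun j _ => by rw [norm_mul, mul_pow]
  rw [h3] at hle
  rw [one_div, le_inv_mul_iff₀ hM]
  have h4 : (M0 : ℝ) * ((M0 : ℝ) * ∑ c ∈ Icc 1 H, ‖∑ n ∈ Ico a b, f (s n + 2 * (c : ℤ))‖ ^ 2) ≤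
      (M0 : ℝ) * ∑ j ∈ range M0, ‖F j‖ ^ 2 * ‖S j‖ ^ 2 := by
    calc _ = (M0 : ℝ) ^ 2 * ∑ c ∈ Icc 1 H, ‖∑ n ∈ Ico a b, f (s n + 2 * (c : ℤ))‖ ^ 2 := by ring
      _ ≤ _ := hle
  exact le_of_mul_le_mul_left h4 hM

/-- Parseval for one function -/
theorem parseval_one (X M0 : ℕ) (hX : X < M0) (f : ℤ → ℂ) :
    ∑ j ∈ range M0, ‖∑ m ∈ Ioc 0 X, f (m : ℤ) * ee (-((j : ℝ) / M0 * m))‖ ^ 2 =
      M0 * ∑ m ∈ Ioc 0 X, ‖f (m : ℤ)‖ ^ 2 := by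
  set c : ℕ → ℂ := fun n => if n ∈ Ioc 0 X then (starRingEnd ℂ) (f (n : ℤ)) else 0 with hc
  have hsub : Ioc 0 X ⊆ range M0 := by
    intro m hm
    obtain ⟨_, h2⟩ := mem_Ioc.mp hm
    exact mem_range.mpr (by omega)
  have e1 : ∀ j ∈ range M0, ‖∑ m ∈ Ioc 0 X, f (m : ℤ) * ee (-((j : ℝ) / M0 * m))‖ =
      ‖∑ n ∈ range M0, c n * ee (n * ((j : ℝ) / M0))‖ := by
    intro j _
    rw [← RCLike.norm_conj (∑ m ∈ Ioc 0 X, f (m : ℤ) * ee (-((j : ℝ) / M0 * m))), map_sum]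
    congr 1
    rw [← sum_subset hsub]
    · refine sum_congr rfl fun m hm => ?_
      simp only [hc, if_pos hm, map_mul, conj_ee, neg_neg]
      congr 2
      ring
    · intro n _ hn
      simp only [hc, if_neg hn, zero_mul]
  rw [sum_congr rfl fun j hj => by rw [e1 j hj], parseval M0 c]
  congr 1
  rw [← sum_subset hsub]
  · refine sum_congr rfl fun m hm => ?_
    simp only [hc, if_pos hm, RCLike.norm_conj]
  · intro n _ hn
    have h0 : c n = 0 := if_neg hn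
    rw [h0]
    simp

end Pool.Agent.PnLG
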