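import Pool.Agent.PnLG.PhiSum

open Finset Filter Complex
open scoped ArithmeticFunction.Moebius ArithmeticFunction.vonMangoldt

namespace Pool.Agent.PnLG

open Pool.Agent.ANT
open Pool.Agent.PnPoly.NC (np)

lemma SumVR_VR_eq (R m : ℕ) : VR R (m : ℤ) =
    ∑ r ∈ Farey R, (((μ r.1 : ℤ) : ℂ) / (r.1.totient : ℂ)) * ee ((m : ℝ) * ((r.2 : ℝ) / r.1)) := by
  unfold VR Farey rs
  rw [Finset.sum_sigma]
  refine Finset.sum_congr rfl fun q _ => ?_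
  rw [Finset.mul_sum]
  simp

lemma SumVR_sum_b (R : ℕ) :
    ∑ r ∈ Farey R, ‖(((μ r.1 : ℤ) : ℂ) / (r.1.totient : ℂ))‖ ^ 2 ≤
      ∑ q ∈ (Ioc 0 R).filter Squarefree, (q : ℝ) / (q.totient : ℝ) ^ 2 := by
  unfold Farey
  rw [Finset.sum_sigma, Finset.sum_filter]
  refine Finset.sum_le_sum fun q hq => ?_
  have hq0 : 0 < q := (Finset.mem_Ioc.1 hq).1
  have hphi : (0 : ℝ) < q.totient := by exact_mod_cast Nat.totient_pos.2 hq0
  simp only [Finset.sum_const, nsmul_eq_mul]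
  have hcard : ((range q).filter (fun a => Nat.Coprime a q)).card = q.totient := by
    rw [Nat.totient_eq_card_coprime]
    congr 1
    refine Finset.filter_congr fun a _ => ?_
    exact Nat.coprime_comm
  rw [hcard]
  split_ifs with hs
  · have h1 : ‖(((μ q : ℤ) : ℂ) / (q.totient : ℂ))‖ ^ 2 = 1 / (q.totient : ℝ) ^ 2 := by
      rw [norm_div, div_pow, Complex.norm_natCast, Complex.norm_intCast, sq_abs]
      have h2 : ((μ q : ℤ) : ℝ) ^ 2 = 1 := by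
        have := ArithmeticFunction.moebius_sq_eq_one_of_squarefree hs
        exact_mod_cast this
      rw [h2]
    rw [h1, mul_one_div]
    gcongr
    exact Nat.totient_le q
  · rw [ArithmeticFunction.moebius_eq_zero_of_not_squarefree hs]
    simp

/-- mean square of `V_R` -/
theorem sum_sq_VR : ∃ C : ℝ, 0 < C ∧ ∀ R X : ℕ, 1 ≤ R →
    ∑ m ∈ Ioc 0 X, ‖VR R (m : ℤ)‖ ^ 2 ≤ C * (X + (R : ℝ) ^ 2) * (1 + Real.log R) := by
  obtain ⟨C, hC, h⟩ := sum_phi_log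
  refine ⟨24 * C, by positivity, fun R X hR => ?_⟩
  have hL : 0 < R ^ 2 := by positivity
  have h1 := dual_large_sieve (S := Farey R) (α := fun r : (Σ _ : ℕ, ℕ) => (r.2 : ℝ) / r.1)
    (L := R ^ 2) hL (fun r hr s hs hrs => farey_spaced r s hr hs hrs) X
    (fun r => (((μ r.1 : ℤ) : ℂ) / (r.1.totient : ℂ)))
  have h2 : ∑ m ∈ Ioc 0 X, ‖VR R (m : ℤ)‖ ^ 2 = ∑ n ∈ Ioc 0 X,
      ‖∑ r ∈ Farey R, (((μ r.1 : ℤ) : ℂ) / (r.1.totient : ℂ)) * ee ((n : ℝ) * ((r.2 : ℝ) / r.1))‖ ^ 2 :=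
    Finset.sum_congr rfl fun m _ => by rw [SumVR_VR_eq]
  rw [h2]
  have hlog : 0 ≤ Real.log R := Real.log_natCast_nonneg R
  calc _ ≤ 12 * (2 * (X : ℝ) + ((R ^ 2 : ℕ) : ℝ)) *
        ∑ r ∈ Farey R, ‖(((μ r.1 : ℤ) : ℂ) / (r.1.totient : ℂ))‖ ^ 2 := h1
    _ ≤ 12 * (2 * (X : ℝ) + ((R ^ 2 : ℕ) : ℝ)) * (C * (1 + Real.log R)) := by
        gcongr
        exact (SumVR_sum_b R).trans (h R hR)
    _ ≤ 24 * C * (X + (R : ℝ) ^ 2) * (1 + Real.log R) := by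
        push_cast
        have : 0 ≤ C * (1 + Real.log R) * (R : ℝ) ^ 2 := by positivity
        nlinarith

end Pool.Agent.PnLG
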