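import Pool.Agent.PnLG.LamVR
import Pool.Agent.PnLG.Large
import Pool.Agent.PnLG.Pars
import Pool.Agent.PnLG.SumVR

open Finset Filter Complex
open scoped ArithmeticFunction.Moebius ArithmeticFunction.vonMangoldt

namespace Pool.Agent.PnLG

open Pool.Agent.ANT
open Pool.Agent.PnPoly.NC (np)

lemma MomVR_one_le_log {X : ℕ} (hX : 3 ≤ X) : 1 ≤ Real.log X := by
  have h0 : (0:ℝ) < X := by have : 0 < X := by omega
                            exact_mod_cast this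
  rw [Real.le_log_iff_exp_le h0]
  have h1 : Real.exp 1 ≤ 3 := by have := Real.exp_one_lt_d9; linarith
  have h2 : (3:ℝ) ≤ X := by exact_mod_cast hX
  linarith

lemma MomVR_f_sq {C3 : ℝ} (hC3 : 0 < C3) (hV : ∀ R X : ℕ, 1 ≤ R →
    ∑ m ∈ Ioc 0 X, ‖VR R (m : ℤ)‖ ^ 2 ≤ C3 * (X + (R : ℝ) ^ 2) * (1 + Real.log R))
    {B X : ℕ} (hX : 3 ≤ X) (hB : Real.log X ^ (2 * B) ≤ X) :
    ∑ m ∈ Ioc 0 X, ‖(((Λ ((m : ℕ) : ℤ).toNat : ℝ) : ℂ) - VR (RX B X) (m : ℤ))‖ ^ 2 ≤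
      (2 + 8 * C3) * X * Real.log X ^ 2 := by
  have hl := MomVR_one_le_log hX
  have hX0 : (0:ℝ) < X := by have : 0 < X := by omega
                             exact_mod_cast this
  have hpt : ∀ m ∈ Ioc 0 X, ‖(((Λ ((m : ℕ) : ℤ).toNat : ℝ) : ℂ) - VR (RX B X) (m : ℤ))‖ ^ 2 ≤
      2 * Real.log X ^ 2 + 2 * ‖VR (RX B X) (m : ℤ)‖ ^ 2 := by
    intro m hm
    rw [mem_Ioc] at hm
    have h1 : ‖(((Λ ((m : ℕ) : ℤ).toNat : ℝ) : ℂ) - VR (RX B X) (m : ℤ))‖ ≤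
        Real.log X + ‖VR (RX B X) (m : ℤ)‖ := by
      refine (norm_sub_le _ _).trans ?_
      gcongr
      rw [Complex.norm_real, Real.norm_of_nonneg ArithmeticFunction.vonMangoldt_nonneg, Int.toNat_natCast]
      refine ArithmeticFunction.vonMangoldt_le_log.trans ?_
      have hm0 : (0:ℝ) < m := by exact_mod_cast hm.1
      exact Real.log_le_log hm0 (by exact_mod_cast hm.2)
    calc ‖(((Λ ((m : ℕ) : ℤ).toNat : ℝ) : ℂ) - VR (RX B X) (m : ℤ))‖ ^ 2
        ≤ (Real.log X + ‖VR (RX B X) (m : ℤ)‖) ^ 2 := pow_le_pow_left₀ (norm_nonneg _) h1 2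
      _ ≤ 2 * Real.log X ^ 2 + 2 * ‖VR (RX B X) (m : ℤ)‖ ^ 2 := by
          nlinarith [sq_nonneg (Real.log X - ‖VR (RX B X) (m : ℤ)‖)]
  refine (sum_le_sum hpt).trans ?_
  rw [sum_add_distrib, sum_const, Nat.card_Ioc, ← mul_sum, nsmul_eq_mul, Nat.sub_zero]
  have hlB : 1 ≤ Real.log X ^ B := one_le_pow₀ hl
  have hR1 : 1 ≤ RX B X := by
    unfold RX
    exact (Nat.one_le_floor_iff _).mpr hlB
  have hRle : ((RX B X : ℕ) : ℝ) ≤ Real.log X ^ B := Nat.floor_le (by positivity)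
  have hR1' : (1:ℝ) ≤ (RX B X : ℕ) := by exact_mod_cast hR1
  have hR2 : ((RX B X : ℕ) : ℝ) ^ 2 ≤ X := by
    refine (pow_le_pow_left₀ (by positivity) hRle 2).trans ?_
    rw [← pow_mul, mul_comm B 2]
    exact hB
  have hRX : ((RX B X : ℕ) : ℝ) ≤ X := by nlinarith
  have hlR : Real.log (RX B X : ℕ) ≤ Real.log X := Real.log_le_log (by linarith) hRX
  have hV' := hV (RX B X) X hR1
  have h3 : C3 * (X + ((RX B X : ℕ) : ℝ) ^ 2) * (1 + Real.log (RX B X : ℕ)) ≤ C3 * (2 * X) * (2 * Real.log X) := by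
    have hlR0 : 0 ≤ Real.log (RX B X : ℕ) := Real.log_nonneg hR1'
    refine mul_le_mul ?_ (by linarith) (by linarith) (by positivity)
    refine mul_le_mul_of_nonneg_left (by linarith) hC3.le
  have h4 : C3 * (2 * X) * (2 * Real.log X) ≤ 4 * C3 * X * Real.log X ^ 2 := by
    have : Real.log X ≤ Real.log X ^ 2 := by nlinarith
    have h5 : 0 ≤ 4 * C3 * X := by positivity
    nlinarith [mul_le_mul_of_nonneg_left this h5]
  nlinarith [hV'.trans (h3.trans h4)]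

/-- `Λ` versus `V_R` in mean square over the constant term -/
theorem second_moment_VR (Q : Polynomial ℚ) (hQ : IntVal Q) (hlc : 0 ≤ Q.leadingCoeff) (n1 : ℕ)
    (hn1 : ∀ n, n1 ≤ n → 0 ≤ qv Q (n + 1) ∧ sv Q n < sv Q (n + 1)) (C0 : ℕ) :
    ∃ B : ℕ, 1 ≤ B ∧ ∃ C : ℝ, 0 < C ∧ ∀ᶠ H : ℕ in atTop, ∀ N : ℕ, OK Q C0 H N →
      ∑ c ∈ Icc 1 H, ‖∑ n ∈ Ico n1 N, (((Λ (sv Q n + 2 * (c : ℤ)).toNat : ℝ) : ℂ) -
        VR (RX B (3 * H)) (sv Q n + 2 * (c : ℤ)))‖ ^ 2 ≤ C * H * (N : ℝ) ^ 2 / Real.log H := by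
  classical
  obtain ⟨C1, hLV⟩ := large_values Q hQ hlc n1 hn1 3 (C0 + 2)
  obtain ⟨B0, hB0⟩ := lambda_sub_VR (C1 + 1)
  obtain ⟨C2, hC2, hF⟩ := hB0 (max B0 1) (le_max_left _ _)
  set B := max B0 1 with hB
  obtain ⟨C3, hC3, hV⟩ := sum_sq_VR
  obtain ⟨N0, hN0⟩ := eventually_atTop.mp hLV
  set D : ℕ := max Q.natDegree 1 with hD
  refine ⟨B, le_max_right _ _, 3 * C2 ^ 2 + (24 + 96 * C3) * ((D:ℝ) + 1) ^ 6, by positivity, ?_⟩
  have hOK := OK_facts Q C0 (max N0 100)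
  have hlog : ∀ᶠ H : ℕ in atTop, Real.log ((3 * H : ℕ) : ℝ) ^ (2 * B) ≤ ((3 * H : ℕ) : ℝ) := by
    have h1 : ∀ᶠ x : ℝ in atTop, Real.log x ^ (2 * B) ≤ x := by
      have h := (Real.isLittleO_pow_log_id_atTop (n := 2 * B)).bound one_pos
      filter_upwards [h, eventually_ge_atTop (1:ℝ)] with x hx hx1
      have h2 : 0 ≤ Real.log x := Real.log_nonneg hx1
      rw [Real.norm_of_nonneg (by positivity), one_mul, id, Real.norm_of_nonneg (by linarith)] at hx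
      exact hx
    have h2 : Tendsto (fun H : ℕ => ((3 * H : ℕ) : ℝ)) atTop atTop := by
      refine tendsto_natCast_atTop_atTop.comp ?_
      exact tendsto_id.const_mul_atTop' (by norm_num)
    exact h2.eventually h1
  filter_upwards [hOK, hlog, eventually_ge_atTop (max n1 10)] with H h1 h2 h3 N hN
  obtain ⟨hKN, hlN, hHN, -⟩ := h1 N hN
  have hrange := OK_range Q n1 hn1 C0 H N hN
  have hH10 : 10 ≤ H := (le_max_right _ _).trans h3
  have hHn1 : n1 ≤ H := (le_max_left _ _).trans h3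
  have hH0 : (0:ℝ) < H := by have : 0 < H := by omega
                             exact_mod_cast this
  have hN100 : 100 ≤ N := (le_max_right _ _).trans hKN
  have hNN0 : N0 ≤ N := (le_max_left _ _).trans hKN
  have hN0' : (0:ℝ) < N := by have : 0 < N := by omega
                              exact_mod_cast this
  have hlH : 1 ≤ Real.log H := MomVR_one_le_log (by omega)
  have hlX : 1 ≤ Real.log ((3 * H : ℕ) : ℝ) := MomVR_one_le_log (by omega)
  have hlN4 : 4 ≤ Real.log N := by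
    rw [Real.le_log_iff_exp_le hN0']
    have he : Real.exp 1 < 2.7182818286 := Real.exp_one_lt_d9
    have h4 : Real.exp 4 = Real.exp 1 ^ 4 := by rw [← Real.exp_nat_mul]; norm_num
    have h5 : Real.exp 1 ^ 4 ≤ 2.7182818286 ^ 4 := pow_le_pow_left₀ (Real.exp_pos 1).le he.le 4
    have h6 : (100:ℝ) ≤ N := by exact_mod_cast hN100
    rw [h4]
    refine h5.trans (le_trans ?_ h6)
    norm_num
  have hlHX : Real.log H ≤ Real.log ((3 * H : ℕ) : ℝ) := by
    refine Real.log_le_log hH0 ?_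
    push_cast; linarith
  have hlX2 : Real.log ((3 * H : ℕ) : ℝ) ≤ 2 * Real.log H := by
    rw [show 2 * Real.log H = Real.log ((H:ℝ) ^ 2) by rw [Real.log_pow]; norm_num]
    refine Real.log_le_log (by positivity) ?_
    have : (10:ℝ) ≤ H := by exact_mod_cast hH10
    push_cast; nlinarith
  by_cases hemp : Ico n1 N = ∅
  · rw [hemp]
    simp only [sum_empty, norm_zero]
    simp only [ne_eq, OfNat.ofNat_ne_zero, not_false_eq_true, zero_pow, sum_const_zero]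
    positivity
  obtain ⟨m0, hm0⟩ := Finset.nonempty_iff_ne_empty.mpr hemp
  have hNH : N ≤ H + n1 := (hrange m0 hm0).2.2
  have hlNX : Real.log N ≤ Real.log ((3 * H : ℕ) : ℝ) := by
    refine Real.log_le_log hN0' ?_
    have : N ≤ 3 * H := by omega
    exact_mod_cast this
  -- Parseval
  set f : ℤ → ℂ := fun m => (((Λ m.toNat : ℝ) : ℂ) - VR (RX B (3 * H)) m) with hf
  have hP := parseval_shift (3 * H) H (3 * H + 1) (by omega) (by omega) f n1 N (sv Q)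
    (fun n hn => ⟨(hrange n hn).1.le, by have := (hrange n hn).2.1; push_cast; linarith⟩)
  refine hP.trans ?_
  have hP1 := parseval_one (3 * H) (3 * H + 1) (by omega) f
  set F : ℕ → ℝ := fun j => ‖∑ m ∈ Ioc 0 (3 * H), f (m : ℤ) * ee (-((j : ℝ) / ((3 * H + 1 : ℕ) : ℝ) * m))‖ ^ 2 with hFdef
  set S : ℕ → ℝ := fun j => ‖∑ n ∈ Ico n1 N, ee ((j : ℝ) / ((3 * H + 1 : ℕ) : ℝ) * ((sv Q n : ℤ) : ℝ))‖ with hSdef
  have hS0 : ∀ j, 0 ≤ S j := fun j => norm_nonneg _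
  have hF0 : ∀ j, 0 ≤ F j := fun j => by positivity
  have hSN : ∀ j, S j ≤ N := by
    intro j
    refine (norm_sum_le _ _).trans ?_
    have : ∀ n ∈ Ico n1 N, ‖ee ((j : ℝ) / ((3 * H + 1 : ℕ) : ℝ) * ((sv Q n : ℤ) : ℝ))‖ ≤ 1 := by
      intro n _
      rw [norm_ee]
    refine (sum_le_sum this).trans ?_
    rw [sum_const, Nat.card_Ico, nsmul_eq_mul, mul_one]
    exact_mod_cast Nat.sub_le _ _
  have hFle : ∀ j, F j ≤ (C2 * ((3 * H : ℕ) : ℝ) / Real.log ((3 * H : ℕ) : ℝ) ^ (C1 + 1)) ^ 2 := by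
    intro j
    have h := hF (3 * H) (by omega) (-((j : ℝ) / ((3 * H + 1 : ℕ) : ℝ)))
    refine pow_le_pow_left₀ (norm_nonneg _) ?_ 2
    refine le_trans (le_of_eq ?_) h
    congr 1
    refine sum_congr rfl (fun m _ => ?_)
    simp only [hf, Int.toNat_natCast]
    congr 2
    ring
  have hM0 : ((3 * H + 1 : ℕ) : ℝ) ≤ (N : ℝ) ^ D * Real.log N ^ (C0 + 2) := by
    have h4 : ((3 * H + 1 : ℕ) : ℝ) ≤ 4 * H := by
      have : (10:ℝ) ≤ H := by exact_mod_cast hH10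
      push_cast; linarith
    refine h4.trans ?_
    have h5 : (N : ℝ) ^ D * Real.log N ^ (C0 + 2) = Real.log N * ((N : ℝ) ^ D * Real.log N ^ (C0 + 1)) := by ring
    rw [h5]
    exact mul_le_mul hlN4 hHN hH0.le (by linarith)
  have hcard := hN0 N hNN0 (3 * H + 1) hM0 (fun n hn => by have := (hrange n hn).2.1; push_cast; linarith)
  set T := (range (3 * H + 1)).filter (fun j : ℕ => (N : ℝ) / Real.log N ^ 3 ≤ S j) with hT
  have hcard' : ((T.card : ℕ) : ℝ) ≤ Real.log N ^ C1 := hcard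
  have hsplit := (sum_filter_add_sum_filter_not (range (3 * H + 1)) (fun j : ℕ => (N : ℝ) / Real.log N ^ 3 ≤ S j)
    (fun j => F j * S j ^ 2)).symm
  set XX : ℝ := ((3 * H : ℕ) : ℝ) with hXX
  set M : ℝ := ((3 * H + 1 : ℕ) : ℝ) with hM
  have hXM : XX ≤ M := by rw [hXX, hM]; push_cast; linarith
  have hXX0 : 0 < XX := by rw [hXX]; push_cast; linarith
  have hM0' : 0 < M := lt_of_lt_of_le hXX0 hXM
  have hA : ∑ j ∈ T, F j * S j ^ 2 ≤ Real.log N ^ C1 * ((C2 * XX / Real.log XX ^ (C1 + 1)) ^ 2 * (N:ℝ) ^ 2) := by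
    have : ∀ j ∈ T, F j * S j ^ 2 ≤ (C2 * XX / Real.log XX ^ (C1 + 1)) ^ 2 * (N:ℝ) ^ 2 := by
      intro j _
      exact mul_le_mul (hFle j) (pow_le_pow_left₀ (hS0 j) (hSN j) 2) (by positivity) (by positivity)
    refine (sum_le_sum this).trans ?_
    rw [sum_const, nsmul_eq_mul]
    exact mul_le_mul_of_nonneg_right hcard' (by positivity)
  have hB' : ∑ j ∈ (range (3 * H + 1)).filter (fun j : ℕ => ¬ (N : ℝ) / Real.log N ^ 3 ≤ S j), F j * S j ^ 2 ≤
      (N:ℝ) ^ 2 / Real.log N ^ 6 * (M * ((2 + 8 * C3) * XX * Real.log XX ^ 2)) := by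
    have : ∀ j ∈ (range (3 * H + 1)).filter (fun j : ℕ => ¬ (N : ℝ) / Real.log N ^ 3 ≤ S j), F j * S j ^ 2 ≤
        (N:ℝ) ^ 2 / Real.log N ^ 6 * F j := by
      intro j hj
      rw [mem_filter, not_le] at hj
      have h4 : S j ^ 2 ≤ ((N : ℝ) / Real.log N ^ 3) ^ 2 := pow_le_pow_left₀ (hS0 j) hj.2.le 2
      have h5 : ((N : ℝ) / Real.log N ^ 3) ^ 2 = (N:ℝ) ^ 2 / Real.log N ^ 6 := by
        rw [div_pow, ← pow_mul]
      rw [h5] at h4
      rw [mul_comm]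
      exact mul_le_mul_of_nonneg_right h4 (hF0 j)
    refine (sum_le_sum this).trans ?_
    rw [← mul_sum]
    refine mul_le_mul_of_nonneg_left ?_ (by positivity)
    refine (sum_le_sum_of_subset_of_nonneg (filter_subset _ _) (fun j _ _ => hF0 j)).trans ?_
    have h6 : ∑ j ∈ range (3 * H + 1), F j = M * ∑ m ∈ Ioc 0 (3 * H), ‖f (m : ℤ)‖ ^ 2 := hP1
    rw [h6]
    refine mul_le_mul_of_nonneg_left ?_ hM0'.le
    exact MomVR_f_sq hC3 hV (by omega) h2
  have htot : ∑ j ∈ range (3 * H + 1), F j * S j ^ 2 ≤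
      Real.log N ^ C1 * ((C2 * XX / Real.log XX ^ (C1 + 1)) ^ 2 * (N:ℝ) ^ 2) +
      (N:ℝ) ^ 2 / Real.log N ^ 6 * (M * ((2 + 8 * C3) * XX * Real.log XX ^ 2)) := by
    rw [hsplit]
    exact add_le_add hA hB'
  have hgoal : (1 / M) * ∑ j ∈ range (3 * H + 1), F j * S j ^ 2 ≤
      (3 * C2 ^ 2 + (24 + 96 * C3) * ((D:ℝ) + 1) ^ 6) * H * (N : ℝ) ^ 2 / Real.log H := by
    have hstep : (1 / M) * ∑ j ∈ range (3 * H + 1), F j * S j ^ 2 ≤
        (1 / M) * (Real.log N ^ C1 * ((C2 * XX / Real.log XX ^ (C1 + 1)) ^ 2 * (N:ℝ) ^ 2)) +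
        (N:ℝ) ^ 2 / Real.log N ^ 6 * ((2 + 8 * C3) * XX * Real.log XX ^ 2) := by
      refine (mul_le_mul_of_nonneg_left htot (by positivity)).trans (le_of_eq ?_)
      field_simp
    refine hstep.trans ?_
    have h7 : (1 / M) * (Real.log N ^ C1 * ((C2 * XX / Real.log XX ^ (C1 + 1)) ^ 2 * (N:ℝ) ^ 2)) ≤
        3 * C2 ^ 2 * H * (N : ℝ) ^ 2 / Real.log H := by
      have e1 : (1 / M) * (Real.log N ^ C1 * ((C2 * XX / Real.log XX ^ (C1 + 1)) ^ 2 * (N:ℝ) ^ 2)) =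
          (XX / M) * (C2 ^ 2 * XX * (N:ℝ) ^ 2) * (Real.log N ^ C1 / Real.log XX ^ (2 * (C1 + 1))) := by
        rw [mul_comm 2 (C1 + 1), pow_mul]
        field_simp
      rw [e1]
      have e2 : XX / M ≤ 1 := (div_le_one hM0').mpr hXM
      have e3 : Real.log N ^ C1 / Real.log XX ^ (2 * (C1 + 1)) ≤ 1 / Real.log H := by
        rw [div_le_div_iff₀ (by positivity) (by linarith), one_mul]
        have e4 : Real.log N ^ C1 ≤ Real.log XX ^ C1 := pow_le_pow_left₀ (by linarith) hlNX C1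
        calc Real.log N ^ C1 * Real.log H ≤ Real.log XX ^ C1 * Real.log XX :=
              mul_le_mul e4 hlHX (by linarith) (by positivity)
          _ = Real.log XX ^ (C1 + 1) := by ring
          _ ≤ Real.log XX ^ (2 * (C1 + 1)) := pow_le_pow_right₀ hlX (by omega)
      have e5 : (XX / M) * (C2 ^ 2 * XX * (N:ℝ) ^ 2) ≤ C2 ^ 2 * XX * (N:ℝ) ^ 2 :=
        mul_le_of_le_one_left (by positivity) e2
      calc (XX / M) * (C2 ^ 2 * XX * (N:ℝ) ^ 2) * (Real.log N ^ C1 / Real.log XX ^ (2 * (C1 + 1)))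
          ≤ (C2 ^ 2 * XX * (N:ℝ) ^ 2) * (1 / Real.log H) := mul_le_mul e5 e3 (by positivity) (by positivity)
        _ = 3 * C2 ^ 2 * H * (N : ℝ) ^ 2 / Real.log H := by rw [hXX]; push_cast; ring
    have h8 : (N:ℝ) ^ 2 / Real.log N ^ 6 * ((2 + 8 * C3) * XX * Real.log XX ^ 2) ≤
        (24 + 96 * C3) * ((D:ℝ) + 1) ^ 6 * H * (N : ℝ) ^ 2 / Real.log H := by
      have e1 : 1 / Real.log N ^ 6 ≤ ((D:ℝ) + 1) ^ 6 / Real.log H ^ 6 := by
        rw [div_le_div_iff₀ (by positivity) (by positivity), one_mul, ← mul_pow]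
        exact pow_le_pow_left₀ (by linarith) hlN 6
      have e2 : Real.log XX ^ 2 ≤ (2 * Real.log H) ^ 2 := pow_le_pow_left₀ (by linarith) hlX2 2
      have e3 : 1 / Real.log H ^ 4 ≤ 1 / Real.log H := by
        refine one_div_le_one_div_of_le (by linarith) ?_
        calc Real.log H = Real.log H ^ 1 := (pow_one _).symm
          _ ≤ Real.log H ^ 4 := pow_le_pow_right₀ hlH (by norm_num)
      calc (N:ℝ) ^ 2 / Real.log N ^ 6 * ((2 + 8 * C3) * XX * Real.log XX ^ 2)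
          = (1 / Real.log N ^ 6) * ((N:ℝ) ^ 2 * ((2 + 8 * C3) * XX * Real.log XX ^ 2)) := by ring
        _ ≤ (((D:ℝ) + 1) ^ 6 / Real.log H ^ 6) * ((N:ℝ) ^ 2 * ((2 + 8 * C3) * XX * (2 * Real.log H) ^ 2)) := by
            refine mul_le_mul e1 ?_ (by positivity) (by positivity)
            refine mul_le_mul_of_nonneg_left ?_ (by positivity)
            exact mul_le_mul_of_nonneg_left e2 (by positivity)
        _ = ((24 + 96 * C3) * ((D:ℝ) + 1) ^ 6 * H * (N : ℝ) ^ 2) * (1 / Real.log H ^ 4) := by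
            have hne : Real.log H ≠ 0 := by linarith
            rw [hXX]; push_cast; field_simp; ring
        _ ≤ ((24 + 96 * C3) * ((D:ℝ) + 1) ^ 6 * H * (N : ℝ) ^ 2) * (1 / Real.log H) :=
            mul_le_mul_of_nonneg_left e3 (by positivity)
        _ = (24 + 96 * C3) * ((D:ℝ) + 1) ^ 6 * H * (N : ℝ) ^ 2 / Real.log H := by ring
    calc _ ≤ _ := add_le_add h7 h8
      _ = _ := by ring
  exact hgoal

end Pool.Agent.PnLG
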