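import Pool.Agent.PnLG.NCSet

open Finset Filter Complex
open scoped ArithmeticFunction.Moebius ArithmeticFunction.vonMangoldt

namespace Pool.Agent.PnLG

open Pool.Agent.ANT
open Pool.Agent.PnPoly.NC (np)
open Pool.Agent.HL26
open Pool.Agent.PnPoly.NC hiding np

/-- a periodic function is unchanged by multiples of the period -/
theorem ncper_mul (F : ℕ → ℤ) (M : ℕ) (hF : ∀ n, F (n + M) = F n) (k n : ℕ) :
    F (n + k * M) = F n := by
  induction k with
  | zero => simp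
  | succ k ih =>
    have h : n + (k + 1) * M = (n + k * M) + M := by ring
    rw [h, hF, ih]

/-- the hits of a periodic function follow `M` patterns -/
theorem ncper_pat (r q M : ℕ) (hM : 1 ≤ M) (Z : ℝ) (F : ℕ → ℤ) (hF : ∀ n, F (n + M) = F n)
    (S : Finset ℕ) (hS : ∀ n ∈ S, (q : ℤ) ∣ (np n : ℤ) - F n) : Pat r 1 q M Z S := by
  refine ⟨fun τ I l e => (e 0 : ℤ) + F (τ + I l) - F τ, ?_, ?_⟩
  · intro τ I l e e' h
    have h0 : e 0 = e' 0 := h 0 (by simp)
    simp only [h0]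
  · intro n hn hnS _ m hm
    refine ⟨n 0 % M, Nat.mod_lt _ hM, fun l _ => ?_⟩
    have h0l : n 0 ≤ n l := hn.monotone (Fin.zero_le l)
    have h1 : F (n 0 % M) = F (n 0) := by
      have h2 := ncper_mul F M hF (n 0 / M) (n 0 % M)
      rw [Nat.mod_add_div'] at h2
      exact h2.symm
    have h3 : F (n 0 % M + (n l - n 0)) = F (n l) := by
      have h4 := ncper_mul F M hF (n 0 / M) (n 0 % M + (n l - n 0))
      have h5 : n 0 % M + (n l - n 0) + n 0 / M * M = n l := by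
        have h6 := Nat.mod_add_div' (n 0) M
        omega
      rw [h5] at h4
      exact h4.symm
    have h7 : ((np (n 0) - m : ℕ) : ℤ) = (np (n 0) : ℤ) - m := by
      push_cast [Nat.cast_sub hm]
      ring
    simp only
    rw [h1, h3, h7]
    have h8 : (np (n l) : ℤ) - m - ((np (n 0) : ℤ) - m + F (n l) - F (n 0)) =
        ((np (n l) : ℤ) - F (n l)) - ((np (n 0) : ℤ) - F (n 0)) := by ring
    rw [h8]
    exact dvd_sub (hS _ (hnS l)) (hS _ (hnS 0))

/-- non-concentration for every periodic function -/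
theorem nc_periodic (A : ℕ) (ε : ℝ) (hε : 0 < ε) : ∃ C : ℝ, 0 < C ∧ ∀ N q M : ℕ, ∀ Z : ℝ, 1 ≤ q → 1 ≤ Z →
    Z ≤ q → Z ≤ Real.log N → 1 ≤ M → (M : ℝ) ≤ A * Z ^ A → ∀ F : ℕ → ℤ, (∀ n, F (n + M) = F n) →
    (((range N).filter (fun n => (q : ℤ) ∣ (np n : ℤ) - F n)).card : ℝ) ≤ C * N * Z ^ (-(1 / 2) + ε) := by
  obtain ⟨r, C, hC, h⟩ := nc_set A A 1 le_rfl ε hε
  refine ⟨C, hC, fun N q M Z hq hZ hZq hZN hM hMA F hF => ?_⟩
  refine h N q Z hq hZ hZq hZN M hMA _ (Finset.filter_subset _ _) ?_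
  exact ncper_pat r q M hM Z F hF _ fun n hn => (Finset.mem_filter.mp hn).2

end Pool.Agent.PnLG
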