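import Pool.Agent.PnLG.WindMom
import Pool.Agent.PnLG.ClsSum
import Pool.Agent.PnLG.HitCount

open Finset Filter Complex
open scoped ArithmeticFunction.Moebius ArithmeticFunction.vonMangoldt

namespace Pool.Agent.PnLG

open Pool.Agent.ANT
open Pool.Agent.PnPoly.NC (np)
open Pool.Agent.HL26
open Pool.Agent.PnPoly.NC hiding np

namespace NCSet

lemma hitw_le_wind (A : Finset ℕ) (L m : ℕ) : hitw A L m ≤ wind L m := by
  unfold hitw wind
  refine Finset.card_le_card_of_injOn (fun n => np n - m) ?_ ?_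
  · intro n hn
    rw [mem_coe, mem_filter] at hn
    rw [mem_coe, mem_filter, mem_range]
    refine ⟨by simp only; omega, ?_⟩
    simp only
    rw [show m + (np n - m) = np n by omega]
    exact np_prime n
  · intro i hi j hj hij
    rw [mem_coe, mem_filter] at hi hj
    simp only at hij
    exact np_strictMono.injective (by omega)

lemma wind_le (L m : ℕ) : wind L m ≤ L + 1 := by
  unfold wind
  exact (Finset.card_filter_le _ _).trans (by rw [card_range])

lemma le_choose (r h : ℕ) : h ≤ r + h.choose (r + 1) := by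
  induction h with
  | zero => omega
  | succ h ih =>
    rcases Nat.lt_or_ge h r with h1 | h1
    · omega
    · have h2 : (h + 1).choose (r + 1) = h.choose r + h.choose (r + 1) := Nat.choose_succ_succ h r
      have h3 : 0 < h.choose r := Nat.choose_pos h1
      omega

lemma lower (S : Finset ℕ) (L N : ℕ) (hS : S ⊆ range N) :
    (L + 1) * (S.filter (fun n => L < np n)).card ≤ ∑ m ∈ Icc 1 (np N), hitw S L m := by
  unfold hitw
  simp_rw [Finset.card_filter]
  rw [Finset.sum_comm, Finset.mul_sum]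
  apply Finset.sum_le_sum
  intro n hn
  split_ifs with h
  · rw [mul_one, ← Finset.card_filter]
    have h1 : (Icc (np n - L) (np n)).card = L + 1 := by rw [Nat.card_Icc]; omega
    rw [← h1]
    apply Finset.card_le_card
    intro m hm
    rw [mem_Icc] at hm
    rw [mem_filter, mem_Icc]
    have h2 : np n ≤ np N := np_strictMono.monotone (mem_range.1 (hS hn)).le
    omega
  · simp

lemma split (S : Finset ℕ) (L X r k : ℕ) :
    ∑ m ∈ Icc 1 X, hitw S L m ≤ (r + 1) * (L + 1) + r * X +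
      ∑ m ∈ (Icc 1 X).filter (fun m => k < wind L m), wind L m +
      ∑ m ∈ (Ioc (r + 1) X).filter (fun m => wind L m ≤ k), (hitw S L m).choose (r + 1) := by
  have h1 : ∀ m ∈ Icc 1 X, hitw S L m ≤ (if m ≤ r + 1 then L + 1 else 0) + r +
      (if k < wind L m then wind L m else 0) +
      (if r + 1 < m ∧ wind L m ≤ k then (hitw S L m).choose (r + 1) else 0) := by
    intro m _
    have h2 := hitw_le_wind S L m
    have h3 := wind_le L m
    have h4 := le_choose r (hitw S L m)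
    split_ifs with a b c <;> omega
  refine (Finset.sum_le_sum h1).trans ?_
  rw [Finset.sum_add_distrib, Finset.sum_add_distrib, Finset.sum_add_distrib]
  have e1 : ∑ m ∈ Icc 1 X, (if m ≤ r + 1 then L + 1 else 0) ≤ (r + 1) * (L + 1) := by
    rw [← Finset.sum_filter, Finset.sum_const, smul_eq_mul]
    apply Nat.mul_le_mul_right
    calc ((Icc 1 X).filter (fun m => m ≤ r + 1)).card ≤ (Icc 1 (r + 1)).card := by
          apply Finset.card_le_card
          intro m hm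
          rw [mem_filter, mem_Icc] at hm
          rw [mem_Icc]
          omega
      _ = r + 1 := by rw [Nat.card_Icc]; omega
  have e2 : ∑ m ∈ Icc 1 X, r = r * X := by
    rw [Finset.sum_const, Nat.card_Icc, smul_eq_mul, Nat.add_sub_cancel, mul_comm]
  have e3 : ∑ m ∈ Icc 1 X, (if k < wind L m then wind L m else 0) =
      ∑ m ∈ (Icc 1 X).filter (fun m => k < wind L m), wind L m := by
    rw [← Finset.sum_filter]
  have e4 : ∑ m ∈ Icc 1 X, (if r + 1 < m ∧ wind L m ≤ k then (hitw S L m).choose (r + 1) else 0) ≤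
      ∑ m ∈ (Ioc (r + 1) X).filter (fun m => wind L m ≤ k), (hitw S L m).choose (r + 1) := by
    rw [← Finset.sum_filter]
    apply Finset.sum_le_sum_of_subset
    intro m hm
    rw [mem_filter, mem_Icc] at hm
    rw [mem_filter, mem_Ioc]
    omega
  omega

/-- the estimate for the patterns -/
lemma pat_bound {Z e x l Cr : ℝ} {L k r T A K0 d' t : ℕ} (hZ : 1 ≤ Z) (hl : 0 < l) (hx : 0 ≤ x)
    (hCr : 0 ≤ Cr) (hT : (T : ℝ) ≤ K0 * Z ^ A) (hk : (k : ℝ) ≤ 2 * Z ^ (1 / 2 - e))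
    (hL : (L : ℝ) + 1 ≤ 2 * Z ^ (1 / 2 - 2 * e) * l) (he : 0 < e) (he1 : e ≤ 1 / 16)
    (ht : 1 / (t : ℝ) ≤ e)
    (hr : (A : ℝ) + d' ≤ 2 * e * (r + 1)) (hd : d' ≤ r + 1) :
    ((T : ℝ) * (k : ℝ) ^ r) * (Cr * (x / l ^ (r + 1)) * ((L : ℝ) + 1) ^ (r + 1) *
          (Z ^ (r + 1 - d')) ^ (-(1 - 1 / (t : ℝ)))) ≤ K0 * Cr * 2 ^ (2 * r + 1) * x := by
  have hZ0 : 0 < Z := by linarith
  have h1 : (Z ^ (r + 1 - d')) ^ (-(1 - 1 / (t : ℝ))) ≤ Z ^ (-(((r : ℝ) + 1 - d') * (1 - e))) := by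
    rw [← Real.rpow_natCast Z, ← Real.rpow_mul hZ0.le]
    apply Real.rpow_le_rpow_of_exponent_le hZ
    rw [Nat.cast_sub hd]
    push_cast
    have h2 : (0 : ℝ) ≤ (r : ℝ) + 1 - d' := by
      have : (d' : ℝ) ≤ ((r + 1 : ℕ) : ℝ) := by exact_mod_cast hd
      push_cast at this
      linarith
    have h3 := mul_le_mul_of_nonneg_left ht h2
    linarith
  have h2 : x / l ^ (r + 1) * ((L : ℝ) + 1) ^ (r + 1) ≤ x * (2 * Z ^ (1 / 2 - 2 * e)) ^ (r + 1) := by
    calc x / l ^ (r + 1) * ((L : ℝ) + 1) ^ (r + 1)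
        ≤ x / l ^ (r + 1) * (2 * Z ^ (1 / 2 - 2 * e) * l) ^ (r + 1) := by gcongr
      _ = x * (2 * Z ^ (1 / 2 - 2 * e)) ^ (r + 1) := by
          rw [mul_pow _ l]; field_simp
  have hT' : (T : ℝ) * (k : ℝ) ^ r ≤ (K0 * Z ^ A) * (2 * Z ^ (1 / 2 - e)) ^ r := by gcongr
  calc ((T : ℝ) * (k : ℝ) ^ r) * (Cr * (x / l ^ (r + 1)) * ((L : ℝ) + 1) ^ (r + 1) *
          (Z ^ (r + 1 - d')) ^ (-(1 - 1 / (t : ℝ))))
      = ((T : ℝ) * (k : ℝ) ^ r) * (Cr * ((x / l ^ (r + 1)) * ((L : ℝ) + 1) ^ (r + 1)) *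
          (Z ^ (r + 1 - d')) ^ (-(1 - 1 / (t : ℝ)))) := by ring
    _ ≤ ((K0 * Z ^ A) * (2 * Z ^ (1 / 2 - e)) ^ r) * (Cr * (x * (2 * Z ^ (1 / 2 - 2 * e)) ^ (r + 1)) *
          Z ^ (-(((r : ℝ) + 1 - d') * (1 - e)))) := by gcongr
    _ = (K0 * Cr * 2 ^ (2 * r + 1) * x) * (Z ^ (A : ℝ) * Z ^ ((1 / 2 - e) * r) *
          Z ^ ((1 / 2 - 2 * e) * ((r : ℝ) + 1)) * Z ^ (-(((r : ℝ) + 1 - d') * (1 - e)))) := by
        rw [mul_pow, mul_pow, Real.rpow_natCast, ← Real.rpow_natCast (Z ^ (1 / 2 - e)),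
          ← Real.rpow_natCast (Z ^ (1 / 2 - 2 * e)), ← Real.rpow_mul hZ0.le, ← Real.rpow_mul hZ0.le]
        push_cast
        ring
    _ ≤ (K0 * Cr * 2 ^ (2 * r + 1) * x) * 1 := by
        apply mul_le_mul_of_nonneg_left _ (by positivity)
        rw [← Real.rpow_add hZ0, ← Real.rpow_add hZ0, ← Real.rpow_add hZ0]
        apply Real.rpow_le_one_of_one_le_of_nonpos hZ
        have hd0 : (0 : ℝ) ≤ d' := by positivity
        nlinarith
    _ = _ := by ring

/-- the estimate for the tail -/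
lemma tail_bound {Z e x l Cs : ℝ} {L k s : ℕ} (hZ : 1 ≤ Z) (hl : 1 ≤ l) (hx : 0 ≤ x)
    (hZl : Z ≤ l) (hCs : 0 ≤ Cs) (hkZ : (k : ℝ) ≤ Z) (hk : Z ^ (1 / 2 - e) ≤ k)
    (hL : (L : ℝ) + 1 ≤ 2 * Z ^ (1 / 2 - 2 * e) * l) (he : 0 < e)
    (hs : 1 ≤ e * s) (hxl : l ^ (s + 1) ≤ x) :
    Cs * k * (x * (((L : ℝ) + 1) / (k * l)) ^ s + (((L : ℝ) + 1) / k) ^ s) ≤
      Cs * (2 * 2 ^ s * x) := by
  have hZ0 : 0 < Z := by linarith
  have hl0 : 0 < l := by linarith
  have hk0 : (0 : ℝ) < k := lt_of_lt_of_le (by positivity) hk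
  have h1 : ((L : ℝ) + 1) / (k * l) ≤ 2 * Z ^ (-e) := by
    rw [div_le_iff₀ (by positivity)]
    refine hL.trans ?_
    have h2 : Z ^ (1 / 2 - 2 * e) = Z ^ (-e) * Z ^ (1 / 2 - e) := by
      rw [← Real.rpow_add hZ0]; congr 1; ring
    rw [h2]
    have h3 : 2 * (Z ^ (-e) * Z ^ (1 / 2 - e)) * l ≤ 2 * (Z ^ (-e) * k) * l := by gcongr
    linarith
  have h2 : ((L : ℝ) + 1) / k ≤ 2 * l := by
    have h3 : ((L : ℝ) + 1) / k = ((L : ℝ) + 1) / (k * l) * l := by field_simp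
    rw [h3]
    have h4 : Z ^ (-e) ≤ 1 := Real.rpow_le_one_of_one_le_of_nonpos hZ (by linarith)
    have h5 : ((L : ℝ) + 1) / (k * l) ≤ 2 := by linarith
    exact mul_le_mul_of_nonneg_right h5 hl0.le
  have h3 : (k : ℝ) * (((L : ℝ) + 1) / (k * l)) ^ s ≤ 2 ^ s := by
    calc (k : ℝ) * (((L : ℝ) + 1) / (k * l)) ^ s ≤ Z * (2 * Z ^ (-e)) ^ s := by gcongr
      _ = 2 ^ s * (Z ^ (1 : ℝ) * Z ^ (-e * s)) := by
          rw [mul_pow, ← Real.rpow_natCast (Z ^ (-e)), ← Real.rpow_mul hZ0.le, Real.rpow_one]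
          ring
      _ ≤ 2 ^ s * 1 := by
          apply mul_le_mul_of_nonneg_left _ (by positivity)
          rw [← Real.rpow_add hZ0]
          apply Real.rpow_le_one_of_one_le_of_nonpos hZ
          linarith
      _ = 2 ^ s := mul_one _
  have h4 : (k : ℝ) * (((L : ℝ) + 1) / k) ^ s ≤ 2 ^ s * x := by
    calc (k : ℝ) * (((L : ℝ) + 1) / k) ^ s ≤ l * (2 * l) ^ s := by
          gcongr
          linarith
      _ = 2 ^ s * l ^ (s + 1) := by rw [mul_pow]; ring
      _ ≤ 2 ^ s * x := by gcongr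
  have h5 : Cs * k * (x * (((L : ℝ) + 1) / (k * l)) ^ s + (((L : ℝ) + 1) / k) ^ s) =
      Cs * (x * (k * (((L : ℝ) + 1) / (k * l)) ^ s) + k * (((L : ℝ) + 1) / k) ^ s) := by ring
  rw [h5]
  apply mul_le_mul_of_nonneg_left _ hCs
  have h6 := mul_le_mul_of_nonneg_left h3 hx
  linarith

end NCSet

open NCSet in
/-- **abstract non-concentration** -/
theorem nc_set (A K0 d' : ℕ) (hd' : 1 ≤ d') (ε : ℝ) (hε : 0 < ε) : ∃ r : ℕ, ∃ C : ℝ, 0 < C ∧ ∀ N q : ℕ,
    ∀ Z : ℝ, 1 ≤ q → 1 ≤ Z → Z ≤ q → Z ≤ Real.log N → ∀ T : ℕ, (T : ℝ) ≤ K0 * Z ^ A →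
    ∀ S ⊆ range N, Pat r d' q T Z S → (S.card : ℝ) ≤ C * N * Z ^ (-(1 / 2) + ε) := by
  -- the parameters
  obtain ⟨e, he, he1, heε⟩ : ∃ e : ℝ, 0 < e ∧ e ≤ 1 / 16 ∧ 2 * e ≤ ε :=
    ⟨min (ε / 2) (1 / 16), by positivity, min_le_right _ _, by
      have := min_le_left (ε / 2) (1 / 16)
      linarith⟩
  obtain ⟨s, hs2, hs⟩ : ∃ s : ℕ, 2 ≤ s ∧ 1 ≤ e * s := by
    refine ⟨⌈1 / e⌉₊ + 2, by omega, ?_⟩
    have h1 := Nat.le_ceil (1 / e)
    push_cast
    have h2 : e * (1 / e) = 1 := by field_simp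
    rw [mul_add]
    have h3 := mul_le_mul_of_nonneg_left h1 he.le
    linarith
  obtain ⟨t, ht1, ht⟩ : ∃ t : ℕ, 1 ≤ t ∧ 1 / (t : ℝ) ≤ e := by
    refine ⟨⌈1 / e⌉₊ + 1, by omega, ?_⟩
    have h1 := Nat.le_ceil (1 / e)
    rw [div_le_iff₀ (by positivity)]
    push_cast
    have h2 : e * (1 / e) = 1 := by field_simp
    rw [mul_add]
    have h3 := mul_le_mul_of_nonneg_left h1 he.le
    linarith
  obtain ⟨r, hr⟩ : ∃ r : ℕ, (A : ℝ) + d' ≤ 2 * e * (r + 1) := by
    refine ⟨⌈((A : ℝ) + d') / (2 * e)⌉₊, ?_⟩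
    have h1 := Nat.le_ceil (((A : ℝ) + d') / (2 * e))
    rw [div_le_iff₀ (by positivity)] at h1
    have h2 : (⌈((A : ℝ) + d') / (2 * e)⌉₊ : ℝ) * (2 * e) ≤
      2 * e * ((⌈((A : ℝ) + d') / (2 * e)⌉₊ : ℝ) + 1) := by
      rw [mul_add, mul_comm]
      linarith
    linarith
  have hd'1 : (1 : ℝ) ≤ d' := by exact_mod_cast hd'
  have hr8 : ((A : ℝ) + d') * 8 ≤ r + 1 := by
    have h1 : 2 * e * ((r : ℝ) + 1) ≤ 2 * (1 / 16) * ((r : ℝ) + 1) := by gcongr
    linarith
  have hr1 : 1 ≤ r := by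
    have h1 : (1 : ℝ) ≤ r := by
      have : (0 : ℝ) ≤ A := by positivity
      linarith
    exact_mod_cast h1
  have hdr : d' ≤ r + 1 := by
    have h1 : (d' : ℝ) ≤ r + 1 := by
      have : (0 : ℝ) ≤ A := by positivity
      linarith
    exact_mod_cast h1
  obtain ⟨Cs, hCs, htail⟩ := tail_wind s hs2
  obtain ⟨Cr, hCr, hcls⟩ := sum_clsE_le r d' t hr1 hdr ht1
  -- the eventual conditions
  have hnp : Tendsto (fun N : ℕ => (np N : ℝ)) atTop atTop :=
    tendsto_natCast_atTop_atTop.comp np_strictMono.tendsto_atTop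
  have hev : ∀ᶠ N : ℕ in atTop, (∀ L k : ℕ, s ≤ k →
      ∑ m ∈ (Icc 1 ⌊(np N : ℝ)⌋₊).filter (fun m => k < wind L m), (wind L m : ℝ) ≤
      Cs * k * (np N * (((L : ℝ) + 1) / (k * Real.log (np N))) ^ s + (((L : ℝ) + 1) / k) ^ s)) ∧
      (∀ L q : ℕ, 1 ≤ q → ∀ Z : ℝ, 1 ≤ Z → Z ≤ q → Z ≤ L →
        ∀ g : Fin (r + 1) → (Fin (r + 1) → ℕ) → ℤ,
        (∀ l e e', (∀ j : Fin (r + 1), (j : ℕ) < d' → e j = e' j) → g l e = g l e') →
          ∑ E ∈ clsE r L q d' g, (tupleCount (np N) E : ℝ) ≤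
            Cr * (np N / Real.log (np N) ^ (r + 1)) * ((L : ℝ) + 1) ^ (r + 1) *
              (Z ^ (r + 1 - d')) ^ (-(1 - 1 / (t : ℝ)))) ∧
      (np N : ℝ) ≤ 9 * (N * Real.log N) ∧
      Real.log (np N) ^ (s + 1) ≤ np N ∧
      Real.log (np N) ≤ 2 * Real.log N ∧
      8 * Real.log N ^ 2 ≤ N ∧ 2 ≤ Real.log N ∧ ((r : ℝ) + 1) * Real.log N ≤ N := by
    have e1 := hnp.eventually htail
    have e2 := hnp.eventually hcls
    have e3 : ∀ᶠ N : ℕ in atTop, Real.log (np N) ^ (s + 1) ≤ 1 * (np N : ℕ) :=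
      np_strictMono.tendsto_atTop.eventually (log_pow_le_nat (s + 1) one_pos)
    have e4 : ∀ᶠ N : ℕ in atTop, Real.log N ^ 2 ≤ (1 / 8) * N := log_pow_le_nat 2 (by norm_num)
    have e5 : ∀ᶠ N : ℕ in atTop, Real.log N ^ 1 ≤ (1 / ((r : ℝ) + 1)) * N :=
      log_pow_le_nat 1 (by positivity)
    have e6 : ∀ᶠ N : ℕ in atTop, Real.log N ^ 1 ≤ (1 / 9) * N := log_pow_le_nat 1 (by norm_num)
    filter_upwards [e1, e2, e3, e4, e5, e6, np_le, tendsto_log_natCast.eventually_ge_atTop 2,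
      eventually_ge_atTop 1] with N h1 h2 h3 h4 h5 h6 h7 h8 h9
    refine ⟨h1, h2, h7, by linarith, ?_, by linarith, h8, ?_⟩
    · have hN : (1 : ℝ) ≤ N := by exact_mod_cast h9
      have hp : (0 : ℝ) < np N := by exact_mod_cast (np_prime N).pos
      have h10 : (np N : ℝ) ≤ (N : ℝ) ^ 2 := by
        refine h7.trans ?_
        rw [pow_one] at h6
        nlinarith
      calc Real.log (np N) ≤ Real.log ((N : ℝ) ^ 2) := Real.log_le_log hp h10
        _ = 2 * Real.log N := by rw [Real.log_pow]; norm_num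
    · rw [pow_one, one_div, ← div_eq_inv_mul, le_div_iff₀ (by positivity)] at h5
      linarith
  rw [eventually_atTop] at hev
  obtain ⟨N0, hev⟩ := hev
  set Z0 : ℝ := max (Real.log N0 + 1) (max 4 (((s : ℝ) + 1) ^ 4)) with hZ0def
  have hZ04 : 4 ≤ Z0 := (le_max_left _ _).trans (le_max_right _ _)
  have hZ0s : ((s : ℝ) + 1) ^ 4 ≤ Z0 := (le_max_right _ _).trans (le_max_right _ _)
  have hZ0N : Real.log N0 + 1 ≤ Z0 := le_max_left _ _
  set C1 : ℝ := r + Cs * (2 * 2 ^ s) + K0 * Cr * 2 ^ (2 * r + 1) with hC1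
  have hC1' : 0 ≤ C1 := by positivity
  refine ⟨r, Z0 + (9 * C1 + 2), by positivity, ?_⟩
  intro N q Z hq hZ1 hZq hZN T hT S hS hpat
  have hZp : 0 < Z := by linarith
  -- reduction to the exponent `2 e`
  have hmono : Z ^ (-(1 / 2) + 2 * e) ≤ Z ^ (-(1 / 2) + ε) :=
    Real.rpow_le_rpow_of_exponent_le hZ1 (by linarith)
  have hN0 : (0 : ℝ) ≤ N := by positivity
  suffices hmain : (S.card : ℝ) ≤ (Z0 + (9 * C1 + 2)) * N * Z ^ (-(1 / 2) + 2 * e) by
    refine hmain.trans ?_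
    apply mul_le_mul_of_nonneg_left hmono
    positivity
  have hPp : 0 < Z ^ (-(1 / 2) + 2 * e) := by positivity
  rcases lt_or_ge Z Z0 with hlt | hge
  · -- small `Z`
    have h1 : (S.card : ℝ) ≤ N := by
      have := Finset.card_le_card hS
      rw [card_range] at this
      exact_mod_cast this
    have h2 : 1 ≤ Z0 * Z ^ (-(1 / 2) + 2 * e) := by
      have h3 : Z ^ (-(1 : ℝ)) ≤ Z ^ (-(1 / 2) + 2 * e) :=
        Real.rpow_le_rpow_of_exponent_le hZ1 (by linarith)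
      rw [Real.rpow_neg_one] at h3
      have h4 : 1 ≤ Z0 * Z⁻¹ := by
        rw [← div_eq_mul_inv, le_div_iff₀ hZp]
        linarith
      have h5 : Z0 * Z⁻¹ ≤ Z0 * Z ^ (-(1 / 2) + 2 * e) := by gcongr
      linarith
    have h6 : (N : ℝ) * 1 ≤ N * (Z0 * Z ^ (-(1 / 2) + 2 * e)) := by gcongr
    have h7 : 0 ≤ (9 * C1 + 2) * N * Z ^ (-(1 / 2) + 2 * e) := by positivity
    linarith
  · -- large `Z`
    have hNN : N0 ≤ N := by
      by_contra hcon
      push Not at hcon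
      rcases Nat.eq_zero_or_pos N with h0 | h0
      · subst h0
        simp only [Nat.cast_zero, Real.log_zero] at hZN
        linarith
      · have h1 : Real.log N ≤ Real.log N0 := by
          apply Real.log_le_log (by exact_mod_cast h0)
          exact_mod_cast hcon.le
        linarith
    obtain ⟨h1, h2, h3, h4, h5, h6, h7, h8⟩ := hev N hNN
    have hNpos : (0 : ℝ) < N := by
      rcases hN0.lt_or_eq with h | h
      · exact h
      · rw [← h] at h7; simp at h7; linarith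
    set x : ℝ := (np N : ℝ) with hx
    set l : ℝ := Real.log x with hl
    have hxN : (N : ℝ) ≤ x := by rw [hx]; exact_mod_cast (lt_np N).le
    have hlN : Real.log N ≤ l := Real.log_le_log hNpos hxN
    have hl2 : 2 ≤ l := h7.trans hlN
    have hx0 : 0 < x := lt_of_lt_of_le hNpos hxN
    set K : ℝ := Z ^ (1 / 2 - 2 * e) with hK
    have hK1 : 1 ≤ K := Real.one_le_rpow hZ1 (by linarith)
    have hKinv : Z ^ (-(1 / 2) + 2 * e) = K⁻¹ := by
      rw [hK, ← Real.rpow_neg hZp.le]; congr 1; ring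
    set L : ℕ := ⌈K * l⌉₊ with hLdef
    have hLlow : K * l ≤ L := Nat.le_ceil _
    have hLup : (L : ℝ) + 1 ≤ 2 * K * l := by
      have h9 := Nat.ceil_lt_add_one (show 0 ≤ K * l by positivity)
      rw [← hLdef] at h9
      have h10 : (1 : ℝ) * 2 ≤ K * l := mul_le_mul hK1 hl2 (by norm_num) (by linarith)
      linarith
    have hlKl : l ≤ K * l := le_mul_of_one_le_left (by linarith) hK1
    have hZL : Z ≤ L := by linarith
    -- the parameter `k`
    have hquart : ((s : ℝ) + 1) ≤ Z ^ (1 / 2 - e) := by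
      have h9 : Z ^ ((1 : ℝ) / 4) ≤ Z ^ (1 / 2 - e) :=
        Real.rpow_le_rpow_of_exponent_le hZ1 (by linarith)
      refine le_trans ?_ h9
      have h10 : ((s : ℝ) + 1) = (((s : ℝ) + 1) ^ 4) ^ ((1 : ℝ) / 4) := by
        rw [← Real.rpow_natCast, ← Real.rpow_mul (by positivity)]
        norm_num
      rw [h10]
      exact Real.rpow_le_rpow (by positivity) (hZ0s.trans hge) (by norm_num)
    obtain ⟨k, hkdef⟩ : ∃ k : ℕ, k = ⌈Z ^ (1 / 2 - e)⌉₊ + s := ⟨_, rfl⟩
    have hklow : Z ^ (1 / 2 - e) ≤ k := by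
      have := Nat.le_ceil (Z ^ (1 / 2 - e))
      rw [hkdef]; push_cast
      have : (0 : ℝ) ≤ s := by positivity
      linarith
    have hkup : (k : ℝ) ≤ 2 * Z ^ (1 / 2 - e) := by
      have h9 := Nat.ceil_lt_add_one (show 0 ≤ Z ^ (1 / 2 - e) by positivity)
      rw [hkdef]; push_cast
      linarith
    have hkZ : (k : ℝ) ≤ Z := by
      refine hkup.trans ?_
      have h9 : Z ^ (1 / 2 - e) ≤ Z ^ ((1 : ℝ) / 2) :=
        Real.rpow_le_rpow_of_exponent_le hZ1 (by linarith)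
      have h10 : Z ^ ((1 : ℝ) / 2) * Z ^ ((1 : ℝ) / 2) = Z := by
        rw [← Real.rpow_add hZp]; norm_num
      have h11 : 2 ≤ Z ^ ((1 : ℝ) / 2) := by
        have h12 : (4 : ℝ) ^ ((1 : ℝ) / 2) ≤ Z ^ ((1 : ℝ) / 2) :=
          Real.rpow_le_rpow (by norm_num) (hZ04.trans hge) (by norm_num)
        have h13 : (4 : ℝ) ^ ((1 : ℝ) / 2) = 2 := by
          rw [show (4 : ℝ) = 2 ^ (2 : ℝ) by norm_num, ← Real.rpow_mul (by norm_num)]
          norm_num
        linarith
      calc 2 * Z ^ (1 / 2 - e) ≤ Z ^ ((1 : ℝ) / 2) * Z ^ ((1 : ℝ) / 2) :=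
            mul_le_mul h11 h9 (by positivity) (by positivity)
        _ = Z := h10
    -- the sum of the hits
    have hfl : ⌊x⌋₊ = np N := by rw [hx]; exact Nat.floor_natCast _
    have hlow := lower S L N hS
    have hsplit := split S L (np N) r k
    obtain ⟨Φ, hΦ1, hΦ2⟩ := hpat
    have hch := choose_hits_le r d' q L k T Z x hkZ S Φ hΦ2
    rw [hfl] at hch
    have hch' : ((∑ m ∈ (Ioc (r + 1) (np N)).filter (fun m => wind L m ≤ k),
        (hitw S L m).choose (r + 1) : ℕ) : ℝ) ≤ K0 * Cr * 2 ^ (2 * r + 1) * x := by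
      refine le_trans ?_ (pat_bound (L := L) (k := k) (T := T) (l := l) (t := t) (A := A) hZ1
        (by linarith) hx0.le hCr.le hT hkup (by rw [← hK]; exact hLup) he he1 ht hr hdr)
      have h9 : ((∑ m ∈ (Ioc (r + 1) (np N)).filter (fun m => wind L m ≤ k),
        (hitw S L m).choose (r + 1) : ℕ) : ℝ) ≤
        ((∑ τ ∈ range T, ∑ I ∈ offs r k, ∑ E ∈ clsE r L q d' (Φ τ I), tupleCount x E : ℕ) : ℝ) := by
        exact_mod_cast hch
      refine h9.trans ?_
      push_cast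
      set B : ℝ := Cr * (x / l ^ (r + 1)) * ((L : ℝ) + 1) ^ (r + 1) *
          (Z ^ (r + 1 - d')) ^ (-(1 - 1 / (t : ℝ))) with hB
      have hB0 : 0 ≤ B := by
        have : 0 < l := by linarith
        positivity
      calc ∑ τ ∈ range T, ∑ I ∈ offs r k, ∑ E ∈ clsE r L q d' (Φ τ I), (tupleCount x E : ℝ)
          ≤ ∑ τ ∈ range T, ∑ I ∈ offs r k, B := by
            apply Finset.sum_le_sum
            intro τ _
            apply Finset.sum_le_sum
            intro I _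
            exact h2 L q hq Z hZ1 hZq hZL (Φ τ I) (fun l e e' h => hΦ1 τ I l e e' h)
        _ = (T : ℝ) * ((offs r k).card : ℝ) * B := by
            rw [Finset.sum_const, Finset.sum_const, card_range]
            simp only [nsmul_eq_mul]
            ring
        _ ≤ (T : ℝ) * (k : ℝ) ^ r * B := by
            have h10 : ((offs r k).card : ℝ) ≤ (k : ℝ) ^ r := by exact_mod_cast card_offs_le r k
            gcongr
    have htl : ((∑ m ∈ (Icc 1 (np N)).filter (fun m => k < wind L m), wind L m : ℕ) : ℝ) ≤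
        Cs * (2 * 2 ^ s * x) := by
      have h9 := h1 L k (by omega)
      rw [hfl] at h9
      push_cast
      refine h9.trans ?_
      exact tail_bound hZ1 (by linarith) hx0.le (hZN.trans hlN) hCs.le hkZ hklow
        (by rw [← hK]; exact hLup) he hs h4
    -- the final count
    have hsum : ((L : ℝ) + 1) * ((S.filter (fun n => L < np n)).card : ℝ) ≤
        ((r : ℝ) + 1) * (L + 1) + C1 * x := by
      have h9 : (((L + 1) * (S.filter (fun n => L < np n)).card : ℕ) : ℝ) ≤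
          (((r + 1) * (L + 1) + r * np N +
      ∑ m ∈ (Icc 1 (np N)).filter (fun m => k < wind L m), wind L m +
      ∑ m ∈ (Ioc (r + 1) (np N)).filter (fun m => wind L m ≤ k), (hitw S L m).choose (r + 1) : ℕ) : ℝ) := by
        exact_mod_cast hlow.trans hsplit
      rw [Nat.cast_add, Nat.cast_add, Nat.cast_add] at h9
      push_cast at h9 hch' htl
      have h10 : C1 * x = r * x + Cs * (2 * 2 ^ s * x) + K0 * Cr * 2 ^ (2 * r + 1) * x := by
        rw [hC1]; ring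
      rw [h10]
      linarith
    have hsmall : ((S.filter (fun n => ¬ L < np n)).card : ℝ) ≤ L := by
      have h9 : (S.filter (fun n => ¬ L < np n)).card ≤ (range L).card := by
        apply Finset.card_le_card
        intro n hn
        rw [mem_filter] at hn
        rw [mem_range]
        have := lt_np n
        omega
      rw [card_range] at h9
      exact_mod_cast h9
    have hcard : (S.card : ℝ) = ((S.filter (fun n => L < np n)).card : ℝ) +
        ((S.filter (fun n => ¬ L < np n)).card : ℝ) := by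
      exact_mod_cast (Finset.card_filter_add_card_filter_not (s := S) (fun n => L < np n)).symm
    have hbig : ((S.filter (fun n => L < np n)).card : ℝ) ≤ (r + 1) + 9 * C1 * N * K⁻¹ := by
      have hLp : (0 : ℝ) < (L : ℝ) + 1 := by positivity
      have h9 : ((S.filter (fun n => L < np n)).card : ℝ) ≤ (r + 1) + C1 * (x / ((L : ℝ) + 1)) := by
        rw [← mul_le_mul_iff_right₀ hLp]
        refine hsum.trans (le_of_eq ?_)
        field_simp
      refine h9.trans ?_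
      have h10 : x / ((L : ℝ) + 1) ≤ 9 * N * K⁻¹ := by
        rw [div_le_iff₀ hLp]
        have h11 : K * Real.log N ≤ (L : ℝ) + 1 := by
          have h13 : K * Real.log N ≤ K * l := by gcongr
          linarith
        calc x ≤ 9 * (N * Real.log N) := h3
          _ = 9 * N * K⁻¹ * (K * Real.log N) := by field_simp
          _ ≤ 9 * N * K⁻¹ * ((L : ℝ) + 1) := by gcongr
      have h12 := mul_le_mul_of_nonneg_left h10 hC1'
      linarith
    have hKZ : K * K ≤ Z := by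
      rw [hK, ← Real.rpow_add hZp]
      calc Z ^ (1 / 2 - 2 * e + (1 / 2 - 2 * e)) ≤ Z ^ (1 : ℝ) :=
            Real.rpow_le_rpow_of_exponent_le hZ1 (by linarith)
        _ = Z := Real.rpow_one _
    have hLK : (L : ℝ) ≤ N * K⁻¹ := by
      rw [← div_eq_mul_inv, le_div_iff₀ (by positivity)]
      have h9 : (L : ℝ) ≤ 2 * K * l := by linarith
      calc (L : ℝ) * K ≤ (2 * K * l) * K := by gcongr
        _ = 2 * (K * K) * l := by ring
        _ ≤ 2 * Z * l := by gcongr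
        _ ≤ 2 * Real.log N * (2 * Real.log N) := by gcongr
        _ = 4 * Real.log N ^ 2 := by ring
        _ ≤ N := by linarith [sq_nonneg (Real.log N)]
    have hrK : ((r : ℝ) + 1) ≤ N * K⁻¹ := by
      rw [← div_eq_mul_inv, le_div_iff₀ (by positivity)]
      have h9 : K ≤ Real.log N := by
        have h10 : K ≤ K * K := le_mul_of_one_le_left (by linarith) hK1
        linarith
      calc ((r : ℝ) + 1) * K ≤ (r + 1) * Real.log N := by gcongr
        _ ≤ N := h8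
    rw [hcard, hKinv]
    have hZ0p : 0 ≤ Z0 * N * K⁻¹ := by positivity
    linarith

end Pool.Agent.PnLG
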