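import Pool.Agent.PnLG.Defs2
import Pool.Agent.HL26.Second

open Finset Filter Complex
open scoped ArithmeticFunction.Moebius ArithmeticFunction.vonMangoldt

namespace Pool.Agent.PnLG

open Pool.Agent.ANT
open Pool.Agent.PnPoly.NC (np)
open Pool.Agent.HL26
open Pool.Agent.PnPoly.NC hiding np

lemma sspow_singularSeries_nonneg (E : Finset ℕ) : 0 ≤ singularSeries E := by
  have h := (multipliable_loc E).hasProd
  rw [← singularSeries_eq] at h
  unfold HasProd at h
  refine ge_of_tendsto h ?_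
  filter_upwards with s
  exact Finset.prod_nonneg (fun p _ => loc_nonneg E p p.2)

/-- all moments of the singular series -/
theorem sum_singularSeries_pow_le (r t : ℕ) (hr : 2 ≤ r) (ht : 1 ≤ t) : ∃ C : ℝ, 0 < C ∧ ∀ H : ℕ,
    ∑ E ∈ (Finset.range (H + 1)).powersetCard r, (singularSeries E) ^ t ≤ C * ((H : ℝ) + 1) ^ r := by
  classical
  set M : ℕ := t * (r - 1) * r ^ 2 with hM
  refine ⟨Real.exp ((r:ℝ) ^ 3) ^ t * Real.exp (2 ^ (M + 1)), by positivity, ?_⟩
  intro H
  set R := Finset.range (H + 1) with hR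
  have h1 : ∀ E ∈ R.powersetCard r, (singularSeries E) ^ t ≤
      Real.exp ((r:ℝ) ^ 3) ^ t * ∑ q ∈ prs E, (G0 (q.2 - q.1)) ^ M := by
    intro E hE
    rw [Finset.mem_powersetCard] at hE
    have hEne : E.Nonempty := by rw [← Finset.card_pos]; omega
    have hp : (prs E).Nonempty := by
      obtain ⟨a, ha, b, hb, hab⟩ := Finset.one_lt_card.mp (by omega : 1 < E.card)
      unfold prs
      rcases Nat.lt_or_gt_of_ne hab with h | h
      · exact ⟨(a, b), Finset.mem_filter.mpr ⟨Finset.mem_product.mpr ⟨ha, hb⟩, h⟩⟩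
      · exact ⟨(b, a), Finset.mem_filter.mpr ⟨Finset.mem_product.mpr ⟨hb, ha⟩, h⟩⟩
    have hcard : (prs E).card ≤ r ^ 2 := by
      unfold prs
      refine (Finset.card_filter_le _ _).trans ?_
      rw [Finset.card_product, hE.2, sq]
    have h2 := singularSeries_le_prod E hEne
    rw [hE.2] at h2
    calc (singularSeries E) ^ t ≤ (Real.exp ((r : ℝ) ^ 3) * ∏ q ∈ prs E, (G0 (q.2 - q.1)) ^ (r - 1)) ^ t :=
          pow_le_pow_left₀ (by
            have h := (multipliable_loc E).hasProd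
            rw [← singularSeries_eq] at h
            unfold HasProd at h
            refine ge_of_tendsto h ?_
            filter_upwards with s
            exact Finset.prod_nonneg (fun p _ => loc_nonneg E p p.2)) h2 t
      _ = Real.exp ((r : ℝ) ^ 3) ^ t * ∏ q ∈ prs E, ((G0 (q.2 - q.1)) ^ (t * (r - 1))) := by
          rw [mul_pow, ← Finset.prod_pow]
          congr 1
          apply Finset.prod_congr rfl
          intro q _
          rw [← pow_mul, mul_comm (r - 1) t]
      _ ≤ Real.exp ((r : ℝ) ^ 3) ^ t * ∑ q ∈ prs E, ((G0 (q.2 - q.1)) ^ (t * (r - 1))) ^ (r ^ 2) := by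
          apply mul_le_mul_of_nonneg_left _ (by positivity)
          exact prod_le_sum_pow _ hp _ (fun q _ => one_le_pow₀ (one_le_G0 _)) _ hcard
      _ = _ := by
          congr 1
          apply Finset.sum_congr rfl
          intro q _
          rw [← pow_mul]
  refine (Finset.sum_le_sum h1).trans ?_
  rw [← Finset.mul_sum, mul_assoc]
  apply mul_le_mul_of_nonneg_left _ (by positivity)
  -- double counting
  set f : ℕ × ℕ → ℝ := fun q => (G0 (q.2 - q.1)) ^ M with hf
  have hf0 : ∀ q, 0 ≤ f q := fun q => by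
    have := one_le_G0 (q.2 - q.1)
    simp only [hf]; positivity
  have h2 : ∑ E ∈ R.powersetCard r, ∑ q ∈ prs E, f q =
      ∑ q ∈ prs R, ∑ E ∈ R.powersetCard r, if q.1 ∈ E ∧ q.2 ∈ E then f q else 0 := by
    rw [Finset.sum_comm]
    apply Finset.sum_congr rfl
    intro E hE
    rw [Finset.mem_powersetCard] at hE
    rw [← Finset.sum_filter]
    apply Finset.sum_congr _ (fun _ _ => rfl)
    ext q
    unfold prs
    simp only [Finset.mem_filter, Finset.mem_product]
    constructor
    · rintro ⟨⟨h1, h2⟩, h3⟩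
      exact ⟨⟨⟨hE.1 h1, hE.1 h2⟩, h3⟩, h1, h2⟩
    · rintro ⟨⟨_, h3⟩, h1, h2⟩
      exact ⟨⟨h1, h2⟩, h3⟩
  have h3 : ∀ q ∈ prs R, (∑ E ∈ R.powersetCard r, if q.1 ∈ E ∧ q.2 ∈ E then f q else 0) ≤
      ((H:ℝ) + 1) ^ (r - 2) * f q := by
    intro q hq
    unfold prs at hq
    rw [Finset.mem_filter, Finset.mem_product] at hq
    rw [← Finset.sum_filter, Finset.sum_const, nsmul_eq_mul]
    apply mul_le_mul_of_nonneg_right _ (hf0 q)
    have h4 : ((R.powersetCard r).filter (fun E => q.1 ∈ E ∧ q.2 ∈ E)).card ≤ (R.powersetCard (r - 2)).card := by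
      apply Finset.card_le_card_of_injOn (fun E => (E.erase q.1).erase q.2)
      · intro E hE
        rw [Finset.mem_coe, Finset.mem_filter, Finset.mem_powersetCard] at hE
        simp only
        rw [Finset.mem_coe, Finset.mem_powersetCard]
        refine ⟨(Finset.erase_subset _ _).trans ((Finset.erase_subset _ _).trans hE.1.1), ?_⟩
        rw [Finset.card_erase_of_mem, Finset.card_erase_of_mem hE.2.1, hE.1.2]
        · omega
        · rw [Finset.mem_erase]
          exact ⟨by omega, hE.2.2⟩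
      · intro E hE E' hE' hEE
        rw [Finset.mem_coe, Finset.mem_filter] at hE hE'
        simp only at hEE
        have e1 : ∀ F : Finset ℕ, q.1 ∈ F → q.2 ∈ F → insert q.1 (insert q.2 ((F.erase q.1).erase q.2)) = F := by
          intro F h1 h2
          rw [Finset.insert_erase (Finset.mem_erase.mpr ⟨by omega, h2⟩), Finset.insert_erase h1]
        rw [← e1 E hE.2.1 hE.2.2, hEE, e1 E' hE'.2.1 hE'.2.2]
    have h5 : (R.powersetCard (r - 2)).card ≤ (H + 1) ^ (r - 2) := by
      rw [Finset.card_powersetCard, hR, Finset.card_range]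
      exact Nat.choose_le_pow _ _
    exact_mod_cast h4.trans h5
  rw [h2]
  refine (Finset.sum_le_sum h3).trans ?_
  rw [← Finset.mul_sum]
  have h6 : ∑ q ∈ prs R, f q ≤ ((H:ℝ) + 1) * (H * Real.exp (2 ^ (M + 1))) := by
    calc ∑ q ∈ prs R, f q ≤ ∑ q ∈ R ×ˢ Finset.Icc 1 H, (G0 q.2) ^ M := by
          have hinj : Set.InjOn (fun q : ℕ × ℕ => (q.1, q.2 - q.1)) (prs R : Set (ℕ × ℕ)) := by
            intro q hq q' hq' h
            unfold prs at hq hq'
            rw [Finset.mem_coe, Finset.mem_filter] at hq hq'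
            simp only [Prod.mk.injEq] at h
            apply Prod.ext
            · exact h.1
            · omega
          have e : ∑ q ∈ prs R, f q = ∑ q ∈ (prs R).image (fun q : ℕ × ℕ => (q.1, q.2 - q.1)), (G0 q.2) ^ M := by
            rw [Finset.sum_image hinj]
          rw [e]
          apply Finset.sum_le_sum_of_subset_of_nonneg
          · intro q hq
            rw [Finset.mem_image] at hq
            obtain ⟨q', hq', rfl⟩ := hq
            unfold prs at hq'
            rw [Finset.mem_filter, Finset.mem_product, hR, Finset.mem_range, Finset.mem_range] at hq'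
            rw [Finset.mem_product, Finset.mem_Icc, hR, Finset.mem_range]
            simp only
            omega
          · intro q _ _
            have := one_le_G0 q.2
            positivity
      _ = ∑ a ∈ R, ∑ d ∈ Finset.Icc 1 H, (G0 d) ^ M := by rw [Finset.sum_product]
      _ ≤ ∑ a ∈ R, (H * Real.exp (2 ^ (M + 1))) := Finset.sum_le_sum (fun _ _ => sum_G0_pow_le M H)
      _ = _ := by rw [Finset.sum_const, hR, Finset.card_range, nsmul_eq_mul]; push_cast; ring
  have hH0 : (0:ℝ) ≤ H := by positivity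
  calc ((H:ℝ) + 1) ^ (r - 2) * ∑ q ∈ prs R, f q
      ≤ ((H:ℝ) + 1) ^ (r - 2) * (((H:ℝ) + 1) * (H * Real.exp (2 ^ (M + 1)))) :=
        mul_le_mul_of_nonneg_left h6 (by positivity)
    _ ≤ ((H:ℝ) + 1) ^ (r - 2) * (((H:ℝ) + 1) * (((H:ℝ) + 1) * Real.exp (2 ^ (M + 1)))) := by
        gcongr
        linarith
    _ = Real.exp (2 ^ (M + 1)) * (((H:ℝ) + 1) ^ (r - 2) * ((H:ℝ) + 1) ^ 2) := by ring
    _ = _ := by rw [← pow_add, Nat.sub_add_cancel hr]


/-- Hölder -/
theorem sum_singularSeries_sub_le (r t : ℕ) (hr : 2 ≤ r) (ht : 1 ≤ t) : ∃ C : ℝ, 0 < C ∧ ∀ L : ℕ,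
    ∀ S ⊆ (Finset.range (L + 1)).powersetCard r,
      ∑ E ∈ S, singularSeries E ≤ C * (S.card : ℝ) ^ (1 - 1 / (t : ℝ)) * (((L : ℝ) + 1) ^ r) ^ (1 / (t : ℝ)) := by
  classical
  obtain ⟨C, hC, h⟩ := sum_singularSeries_pow_le r t hr ht
  refine ⟨C ^ (1 / (t : ℝ)), by positivity, ?_⟩
  intro L S hS
  have htr : (1:ℝ) ≤ t := by exact_mod_cast ht
  have ht0 : (0:ℝ) < t := by linarith
  have hne : (t : ℝ) ≠ 0 := ht0.ne'
  have hnn : ∀ E ∈ S, 0 ≤ singularSeries E := fun E _ => sspow_singularSeries_nonneg E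
  have hsum0 : 0 ≤ ∑ E ∈ S, singularSeries E := Finset.sum_nonneg hnn
  -- power mean
  have h1 : (∑ E ∈ S, singularSeries E) ^ (t : ℝ) ≤ (S.card : ℝ) ^ ((t : ℝ) - 1) * ∑ E ∈ S, (singularSeries E) ^ (t : ℝ) := by
    exact Real.rpow_sum_le_const_mul_sum_rpow_of_nonneg S htr hnn
  have h2 : ∑ E ∈ S, (singularSeries E) ^ (t : ℝ) ≤ C * ((L : ℝ) + 1) ^ r := by
    calc ∑ E ∈ S, (singularSeries E) ^ (t : ℝ) = ∑ E ∈ S, (singularSeries E) ^ t := by
          apply Finset.sum_congr rfl
          intro E _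
          rw [Real.rpow_natCast]
      _ ≤ ∑ E ∈ (Finset.range (L + 1)).powersetCard r, (singularSeries E) ^ t := by
          apply Finset.sum_le_sum_of_subset_of_nonneg hS
          intro E _ _
          exact pow_nonneg (sspow_singularSeries_nonneg E) _
      _ ≤ _ := h L
  have hcard0 : (0:ℝ) ≤ (S.card : ℝ) := by positivity
  have h3 : (∑ E ∈ S, singularSeries E) ^ (t : ℝ) ≤ (S.card : ℝ) ^ ((t : ℝ) - 1) * (C * ((L : ℝ) + 1) ^ r) :=
    h1.trans (mul_le_mul_of_nonneg_left h2 (by positivity))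
  have h4 : ((∑ E ∈ S, singularSeries E) ^ (t : ℝ)) ^ (1 / (t : ℝ)) ≤
      ((S.card : ℝ) ^ ((t : ℝ) - 1) * (C * ((L : ℝ) + 1) ^ r)) ^ (1 / (t : ℝ)) :=
    Real.rpow_le_rpow (by positivity) h3 (by positivity)
  rw [← Real.rpow_mul hsum0, mul_one_div_cancel hne, Real.rpow_one,
    Real.mul_rpow (by positivity) (by positivity), Real.mul_rpow hC.le (by positivity),
    ← Real.rpow_mul hcard0] at h4
  have e1 : ((t : ℝ) - 1) * (1 / (t : ℝ)) = 1 - 1 / (t : ℝ) := by field_simp
  rw [e1] at h4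
  calc _ ≤ _ := h4
    _ = _ := by ring

end Pool.Agent.PnLG
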