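import Pool.Agent.PnLG.Short1
import Pool.Agent.PnLG.WeylDiff

open Finset Filter Complex
open scoped ArithmeticFunction.Moebius ArithmeticFunction.vonMangoldt

namespace Pool.Agent.PnLG

open Pool.Agent.ANT
open Pool.Agent.PnPoly.NC (np)

/-- short stage: large values localise near one point, up to powers of log -/
theorem short_stage (Q : Polynomial ℚ) (hQ : IntVal Q) (hlc : 0 < Q.leadingCoeff) (hd : 2 ≤ Q.natDegree)
    (A1 : ℕ) : ∃ E : ℕ, ∀ n1 : ℕ, ∀ᶠ N : ℕ in atTop, ∀ T : Finset ℝ,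
      (∀ t ∈ T, 0 ≤ t ∧ t < 1 ∧ (N : ℝ) / Real.log N ^ A1 ≤ ‖SE Q n1 N t‖) →
      ∃ τ : ℝ, ∃ T' ⊆ T, (T.card : ℝ) ≤ Real.log N ^ E * T'.card ∧
        ∀ t ∈ T', |t - τ| ≤ Real.log N ^ E / (N : ℝ) ^ (Q.natDegree - 1) := by
  classical
  obtain ⟨E0, h0⟩ := short_pairs Q hQ A1
  obtain ⟨C, hC⟩ := weyl_diff Q hQ hd
  set d := Q.natDegree with hdd
  set lc : ℝ := ((Q.leadingCoeff : ℚ) : ℝ) with hlcd
  have hlc' : 0 < lc := by rw [hlcd]; exact_mod_cast hlc
  have hdR : (0:ℝ) < (d:ℝ) := by exact_mod_cast (by omega : 0 < d)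
  set κ : ℝ := 2 * d * lc with hκ
  have hκ0 : 0 < κ := by rw [hκ]; positivity
  set c1 : ℝ := 2 ^ C * (2 ^ (C + 1) * κ + 5) with hc1
  set c2 : ℝ := 2 ^ C * 2 ^ (d - 1) / κ with hc2
  refine ⟨2 * E0 * C + 2 * E0 + 1, fun n1 => ?_⟩
  have hlog : Tendsto (fun N : ℕ => Real.log (N : ℝ)) atTop atTop :=
    Real.tendsto_log_atTop.comp tendsto_natCast_atTop_atTop
  filter_upwards [h0 n1, hlog.eventually_ge_atTop (max 1 (max c1 c2)),
    eventually_ge_atTop (2 * n1 + 1)] with N hN hL hNn T hT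
  rcases T.eq_empty_or_nonempty with rfl | hTn
  · exact ⟨0, ∅, by simp, by simp, by simp⟩
  have hL1 : 1 ≤ Real.log N := (le_max_left _ _).trans hL
  have hLc1 : c1 ≤ Real.log N := (le_max_left _ _).trans ((le_max_right _ _).trans hL)
  have hLc2 : c2 ≤ Real.log N := (le_max_right _ _).trans ((le_max_right _ _).trans hL)
  set L : ℝ := Real.log N with hLdef
  have hL0 : 0 < L := by linarith
  obtain ⟨i, i', hi, hiE, t0, ht0, T1, hT1, hcard, hbig⟩ := hN T hTn (fun t ht => (hT t ht).2.2)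
  set v : ℝ := L ^ E0 with hv
  have hv1 : 1 ≤ v := one_le_pow₀ hL1
  set u : ℝ := v ^ C with hu
  have hu1 : 1 ≤ u := one_le_pow₀ hv1
  set M : ℝ := 2 * v with hM
  have hM2 : 2 ≤ M := by rw [hM]; linarith
  have hMC : M ^ C = 2 ^ C * u := by rw [hM, mul_pow]
  have hNR : (2 * (n1:ℝ) + 1) ≤ N := by exact_mod_cast hNn
  have hn1R : (0:ℝ) ≤ n1 := by positivity
  have hab : n1 < N := by omega
  have hsub : (N:ℝ) / 2 ≤ (N:ℝ) - n1 := by linarith
  have hN0 : (0:ℝ) < N := by linarith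
  have hpw : (0:ℝ) < (N:ℝ) ^ (d - 1) := by positivity
  set lam : ℝ := 2 * d * ((i : ℝ) - i') * lc with hlam
  have hii1 : (1:ℝ) ≤ (i:ℝ) - i' := by
    have : (i':ℝ) + 1 ≤ i := by exact_mod_cast hi
    linarith
  have hii2 : (i:ℝ) - i' ≤ v := by
    have : (0:ℝ) ≤ i' := by positivity
    linarith
  have hlamκ : lam = κ * ((i:ℝ) - i') := by rw [hlam, hκ]; ring
  have hlam1 : κ ≤ lam := by rw [hlamκ]; nlinarith only [hii1, hκ0]
  have hlam2 : lam ≤ κ * v := by rw [hlamκ]; exact mul_le_mul_of_nonneg_left hii2 hκ0.le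
  have hlam0 : 0 < lam := by linarith
  -- the Weyl step
  have key : ∀ t ∈ T1, ∃ r : ℕ, 0 < r ∧ (r:ℝ) ≤ 2 ^ C * u ∧
      nn (r * ((t - t0) * lam)) ≤ 2 ^ C * u * 2 ^ (d - 1) / (N:ℝ) ^ (d - 1) := by
    intro t ht
    have h1 := hbig t ht
    have h2 : ((N:ℝ) - n1) / M ≤ ‖∑ n ∈ Ico n1 N, ee ((t - t0) * Dn Q i i' n)‖ := by
      refine le_trans ?_ h1
      have : (N:ℝ) - n1 ≤ N := by linarith
      calc ((N:ℝ) - n1) / M ≤ N / M := by gcongr
        _ ≤ N / v := by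
            apply div_le_div_of_nonneg_left hN0.le (by linarith)
            rw [hM]; linarith
    obtain ⟨r, hr0, hr1, hr2⟩ := hC M hM2 i i' n1 N hab (t - t0) h2
    refine ⟨r, hr0, by rw [← hMC]; exact hr1, ?_⟩
    refine hr2.trans ?_
    rw [hMC]
    have h3 : ((N:ℝ) / 2) ^ (d - 1) ≤ ((N:ℝ) - n1) ^ (d - 1) := by
      gcongr
    calc 2 ^ C * u / ((N:ℝ) - n1) ^ (d - 1) ≤ 2 ^ C * u / ((N:ℝ) / 2) ^ (d - 1) := by
          apply div_le_div_of_nonneg_left (by positivity) (by positivity) h3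
      _ = 2 ^ C * u * 2 ^ (d - 1) / (N:ℝ) ^ (d - 1) := by
          rw [div_pow]; field_simp
  choose! r hr0 hr1 hr2 using key
  have hu0 : 0 < u := by linarith
  have hv0 : 0 < v := by linarith
  set W : ℝ := 2 ^ C * u * (κ * v) with hW
  have hW0 : 0 ≤ W := by positivity
  -- the boxes
  set R : ℕ := ⌊2 ^ C * u⌋₊ with hR
  set Z : ℕ := ⌈W⌉₊ + 1 with hZ
  have hZ2 : (Z:ℝ) ≤ W + 2 := by
    rw [hZ]; push_cast
    linarith [Nat.ceil_lt_add_one hW0]
  set S : Finset (ℕ × ℤ) := (Icc 1 R) ×ˢ (Icc (-(Z:ℤ)) Z) with hS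
  have hScard : (S.card : ℝ) ≤ 2 ^ C * u * (2 * W + 5) := by
    rw [hS, card_product, Nat.card_Icc, Int.card_Icc]
    have e1 : (((Z:ℤ) + 1 - -(Z:ℤ)).toNat) = 2 * Z + 1 := by omega
    rw [e1]
    push_cast
    have e2 : ((R + 1 - 1 : ℕ) : ℝ) ≤ 2 ^ C * u := by
      rw [Nat.add_sub_cancel]
      exact Nat.floor_le (by positivity)
    calc ((R + 1 - 1 : ℕ) : ℝ) * (2 * (Z:ℝ) + 1) ≤ (2 ^ C * u) * (2 * (W + 2) + 1) := by
          gcongr
      _ = 2 ^ C * u * (2 * W + 5) := by ring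
  have hmaps : ∀ t ∈ T1, (r t, round ((r t : ℝ) * ((t - t0) * lam))) ∈ S := by
    intro t ht
    rw [hS, mem_product, mem_Icc, mem_Icc]
    have htT := hT t (hT1 ht)
    have ht0T := hT t0 ht0
    have habs : |t - t0| ≤ 1 := by
      rw [abs_le]; constructor <;> linarith [htT.1, htT.2.1, ht0T.1, ht0T.2.1]
    have hb : |(r t : ℝ) * ((t - t0) * lam)| ≤ W := by
      rw [abs_mul, abs_mul, abs_of_nonneg (Nat.cast_nonneg (r t)), abs_of_pos hlam0]
      calc (r t : ℝ) * (|t - t0| * lam) ≤ (2 ^ C * u) * (1 * (κ * v)) := by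
            gcongr
            exact hr1 t ht
        _ = W := by rw [hW]; ring
    refine ⟨⟨hr0 t ht, Nat.le_floor (hr1 t ht)⟩, ?_⟩
    have hro := abs_sub_round ((r t : ℝ) * ((t - t0) * lam))
    have hce : W ≤ (⌈W⌉₊ : ℝ) := Nat.le_ceil W
    have hZr : (Z:ℝ) = (⌈W⌉₊ : ℝ) + 1 := by rw [hZ]; push_cast; ring
    rw [abs_le] at hb hro
    constructor
    · have : (-(Z:ℝ)) ≤ ((round ((r t : ℝ) * ((t - t0) * lam)) : ℤ) : ℝ) := by
        linarith [hb.1, hro.1, hro.2]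
      exact_mod_cast this
    · have : ((round ((r t : ℝ) * ((t - t0) * lam)) : ℤ) : ℝ) ≤ (Z:ℝ) := by
        linarith [hb.2, hro.1, hro.2]
      exact_mod_cast this
  have hT1n : T1.Nonempty := by
    rw [nonempty_iff_ne_empty]
    rintro rfl
    have : (0:ℝ) < T.card := by exact_mod_cast hTn.card_pos
    simp at hcard
    exact absurd hcard hTn.ne_empty
  have hSn : S.Nonempty := by
    obtain ⟨t, ht⟩ := hT1n
    exact ⟨_, hmaps t ht⟩
  have hScpos : (0:ℝ) < S.card := by exact_mod_cast hSn.card_pos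
  obtain ⟨y, -, hy⟩ := Finset.exists_le_card_fiber_of_nsmul_le_card_of_maps_to
    (b := (T1.card : ℝ) / S.card) hmaps hSn (by
      rw [nsmul_eq_mul, mul_div_cancel₀ _ hScpos.ne'])
  set T2 := T1.filter (fun t => (r t, round ((r t : ℝ) * ((t - t0) * lam))) = y) with hT2
  have hT1le : (T1.card : ℝ) ≤ S.card * T2.card := by
    rw [div_le_iff₀ hScpos] at hy
    linarith
  -- final bounds
  have hexp : L ^ (2 * E0 * C + 2 * E0 + 1) = u ^ 2 * v ^ 2 * L := by
    rw [hu, hv, ← pow_mul, ← pow_mul, ← pow_mul, ← pow_add, ← pow_succ]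
    congr 1; ring
  by_cases hT2n : T2.Nonempty
  swap
  · exfalso
    rw [not_nonempty_iff_eq_empty] at hT2n
    rw [hT2n] at hT1le
    have : (0:ℝ) < T1.card := by exact_mod_cast hT1n.card_pos
    simp at hT1le
    exact absurd hT1le hT1n.ne_empty
  obtain ⟨t1, ht1⟩ := hT2n
  have ht1' := (mem_filter.mp (hT2 ▸ ht1))
  have hr1pos : 0 < r t1 := hr0 t1 ht1'.1
  refine ⟨t0 + (y.2 : ℝ) / ((y.1 : ℝ) * lam), T2, (filter_subset _ _).trans hT1, ?_, ?_⟩
  · calc (T.card : ℝ) ≤ v * T1.card := hcard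
      _ ≤ v * (S.card * T2.card) := by gcongr
      _ ≤ v * ((2 ^ C * u * (2 * W + 5)) * T2.card) := by gcongr
      _ ≤ L ^ (2 * E0 * C + 2 * E0 + 1) * T2.card := by
          rw [hexp, ← mul_assoc]
          apply mul_le_mul_of_nonneg_right _ (Nat.cast_nonneg _)
          have huv : 1 ≤ u * v := one_le_mul_of_one_le_of_one_le hu1 hv1
          have h5 : 2 * W + 5 ≤ (2 ^ (C + 1) * κ + 5) * (u * v) := by
            rw [hW, pow_succ]; nlinarith only [huv]
          calc v * (2 ^ C * u * (2 * W + 5))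
              ≤ v * (2 ^ C * u * ((2 ^ (C + 1) * κ + 5) * (u * v))) := by gcongr
            _ = u ^ 2 * v ^ 2 * c1 := by rw [hc1]; ring
            _ ≤ u ^ 2 * v ^ 2 * L := by gcongr
  · intro t ht
    have ht' := (mem_filter.mp (hT2 ▸ ht))
    have hrp : 0 < r t := hr0 t ht'.1
    have hy1 : r t = y.1 := by rw [← ht'.2]
    have hy2 : round ((r t : ℝ) * ((t - t0) * lam)) = y.2 := by
      have := congrArg Prod.snd ht'.2
      exact this
    rw [← hy1, ← hy2]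
    have hrR : (1:ℝ) ≤ r t := by exact_mod_cast hrp
    have hden : 0 < (r t : ℝ) * lam := by positivity
    have hnn := hr2 t ht'.1
    unfold nn at hnn
    have e1 : t - (t0 + ((round ((r t : ℝ) * ((t - t0) * lam)) : ℤ) : ℝ) / ((r t : ℝ) * lam)) =
        ((r t : ℝ) * ((t - t0) * lam) - ((round ((r t : ℝ) * ((t - t0) * lam)) : ℤ) : ℝ)) /
          ((r t : ℝ) * lam) := by
      field_simp
      ring
    rw [e1, abs_div, abs_of_pos hden]
    calc |(r t : ℝ) * ((t - t0) * lam) - ((round ((r t : ℝ) * ((t - t0) * lam)) : ℤ) : ℝ)| /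
          ((r t : ℝ) * lam)
        ≤ (2 ^ C * u * 2 ^ (d - 1) / (N:ℝ) ^ (d - 1)) / κ := by
          apply div_le_div₀ (by positivity) hnn hκ0
          exact hlam1.trans (le_mul_of_one_le_left hlam0.le hrR)
      _ = (u * c2) / (N:ℝ) ^ (d - 1) := by rw [hc2]; field_simp
      _ ≤ L ^ (2 * E0 * C + 2 * E0 + 1) / (N:ℝ) ^ (d - 1) := by
          gcongr
          rw [hexp]
          have hc20 : 0 ≤ c2 := by rw [hc2]; positivity
          calc u * c2 ≤ (u ^ 2 * v ^ 2) * L := by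
                apply mul_le_mul _ hLc2 hc20 (by positivity)
                exact (le_self_pow₀ hu1 two_ne_zero).trans
                  (le_mul_of_one_le_right (sq_nonneg u) (one_le_pow₀ hv1))
            _ = u ^ 2 * v ^ 2 * L := rfl

end Pool.Agent.PnLG
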