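import Pool.Agent.PnLG.VdC
import Pool.Agent.PnLG.Dual
import Pool.Agent.PnLG.Gap

open Finset Filter Complex
open scoped ArithmeticFunction.Moebius ArithmeticFunction.vonMangoldt

namespace Pool.Agent.PnLG

open Pool.Agent.ANT
open Pool.Agent.PnPoly.NC (np)

/-- the product of the shifted phases -/
theorem short1_phase (Q : Polynomial ℚ) (t : ℝ) (n i i' : ℕ) (hi : i' ≤ i) :
    ee (t * ((sv Q (n + i) : ℤ) : ℝ)) * (starRingEnd ℂ) (ee (t * ((sv Q (n + i') : ℤ) : ℝ))) =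
      ee (t * (((np (n + i) - np (n + i') : ℕ) : ℝ) + Dn Q i i' n)) := by
  rw [conj_ee, ← ee_add]
  congr 1
  have hm : np (n + i') ≤ np (n + i) :=
    Pool.Agent.PnPoly.NC.np_strictMono.monotone (by omega)
  rw [Nat.cast_sub hm]
  unfold sv Dn
  push_cast
  rw [show n + i + 1 = n + i + 1 from rfl]
  ring

/-- one large value gives a pair of shifts -/
theorem short1_pair (Q : Polynomial ℚ) (t : ℝ) (a b J : ℕ) (hab : a < b) (K : ℝ) (hK : 1 ≤ K)
    (hJK : 8 * K ^ 2 ≤ J) (hJ : 2 * K * J ≤ (b : ℝ) - a) (h : ((b : ℝ) - a) / K ≤ ‖SE Q a b t‖) :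
    ∃ i i' : ℕ, i' < i ∧ i < J ∧ ((b : ℝ) - a) / (8 * K ^ 2) ≤
      ‖∑ n ∈ Ico a b, ee (t * (((np (n + i) - np (n + i') : ℕ) : ℝ) + Dn Q i i' n))‖ := by
  set u : ℕ → ℂ := fun n => ee (t * ((sv Q n : ℤ) : ℝ)) with hu
  have hu1 : ∀ n, ‖u n‖ ≤ 1 := fun n => le_of_eq (norm_ee _)
  have h0 := vdC u hu1 a b J hab.le K (by linarith) hJ h
  set F : ℕ → ℕ → ℝ := fun i i' => ‖∑ n ∈ Ico a b, u (n + i) * (starRingEnd ℂ) (u (n + i'))‖ with hF
  have hsymm : ∀ i i', F i i' = F i' i := by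
    intro i i'
    simp only [hF]
    rw [← Complex.norm_conj, map_sum]
    congr 1
    refine Finset.sum_congr rfl fun n _ => ?_
    rw [map_mul, Complex.conj_conj, mul_comm]
  have hba : (0 : ℝ) < (b : ℝ) - a := by
    have : (a : ℝ) < b := by exact_mod_cast hab
    linarith
  have hK2 : (0 : ℝ) < K ^ 2 := by positivity
  have hJ0 : (0 : ℝ) < J := by
    have : (8 : ℝ) ≤ 8 * K ^ 2 := by nlinarith
    linarith
  by_contra hcon
  push Not at hcon
  have hoff : ∀ i ∈ range J, ∀ i' ∈ range J, i' < i → F i i' < ((b : ℝ) - a) / (8 * K ^ 2) := by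
    intro i hi i' _ hlt
    have h1 := hcon i i' hlt (mem_range.1 hi)
    have h2 : F i i' =
        ‖∑ n ∈ Ico a b, ee (t * (((np (n + i) - np (n + i') : ℕ) : ℝ) + Dn Q i i' n))‖ := by
      simp only [hF, hu]
      congr 1
      exact Finset.sum_congr rfl fun n _ => short1_phase Q t n i i' hlt.le
    rw [h2]
    exact h1
  have hF1 : ∀ i i', F i i' ≤ (b : ℝ) - a := by
    intro i i'
    simp only [hF]
    refine (norm_sum_le _ _).trans ?_
    calc ∑ n ∈ Ico a b, ‖u (n + i) * (starRingEnd ℂ) (u (n + i'))‖ ≤ ∑ _n ∈ Ico a b, (1 : ℝ) := by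
          refine Finset.sum_le_sum fun n _ => ?_
          rw [norm_mul, Complex.norm_conj]
          exact mul_le_one₀ (hu1 _) (norm_nonneg _) (hu1 _)
      _ = (b : ℝ) - a := by
          rw [Finset.sum_const, Nat.card_Ico, nsmul_eq_mul, mul_one, Nat.cast_sub hab.le]
  set B : ℝ := ((b : ℝ) - a) / (8 * K ^ 2) with hB
  have hB0 : 0 < B := by positivity
  have hrow : ∀ i ∈ range J, ∑ i' ∈ range J, F i i' < ((b : ℝ) - a) + J * B := by
    intro i hi
    have h1 : ∑ i' ∈ range J, F i i' ≤ ∑ i' ∈ range J, ((if i' = i then (b : ℝ) - a else 0) + B) := by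
      refine Finset.sum_le_sum fun i' hi' => ?_
      split_ifs with he
      · have := hF1 i i'
        linarith
      · rcases lt_or_gt_of_ne he with hlt | hgt
        · have := hoff i hi i' hi' hlt
          linarith
        · have := hoff i' hi' i hi hgt
          rw [hsymm] 
          linarith
    have hstrict : ∑ i' ∈ range J, F i i' < ∑ i' ∈ range J, ((if i' = i then (b : ℝ) - a else 0) + B) := by
      refine Finset.sum_lt_sum (fun i' hi' => ?_) ⟨i, hi, ?_⟩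
      · split_ifs with he
        · have := hF1 i i'
          linarith
        · rcases lt_or_gt_of_ne he with hlt | hgt
          · have := hoff i hi i' hi' hlt
            linarith
          · have := hoff i' hi' i hi hgt
            rw [hsymm]
            linarith
      · rw [if_pos rfl]
        have := hF1 i i
        linarith
    rw [Finset.sum_add_distrib, Finset.sum_ite_eq' (range J) i, if_pos hi, Finset.sum_const, card_range,
      nsmul_eq_mul] at hstrict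
    exact hstrict
  have hne : (range J).Nonempty := by
    rw [Finset.nonempty_range_iff]
    intro h0
    rw [h0] at hJ0
    simp at hJ0
  have htot : ∑ i ∈ range J, ∑ i' ∈ range J, F i i' < J * (((b : ℝ) - a) + J * B) := by
    have := Finset.sum_lt_sum_of_nonempty hne hrow
    rwa [Finset.sum_const, card_range, nsmul_eq_mul] at this
  have h3 : (J : ℝ) ^ 2 * ((b : ℝ) - a) / (4 * K ^ 2) = 2 * (J ^ 2 * B) := by
    rw [hB]
    field_simp
    ring
  have h4 : (J : ℝ) * ((b : ℝ) - a) ≤ J ^ 2 * B := by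
    rw [hB]
    rw [mul_div_assoc', le_div_iff₀ (by positivity)]
    have h5 : (J : ℝ) * ((b : ℝ) - a) * (8 * K ^ 2) ≤ J * ((b : ℝ) - a) * J :=
      mul_le_mul_of_nonneg_left hJK (by positivity)
    nlinarith [h5]
  rw [h3] at h0
  have h6 : ∑ i ∈ range J, ∑ i' ∈ range J, F i i' =
      ∑ i ∈ range J, ∑ i' ∈ range J, ‖∑ n ∈ Ico a b, u (n + i) * (starRingEnd ℂ) (u (n + i'))‖ := rfl
  rw [← h6] at h0
  nlinarith [h0, htot, h4]

/-- pigeonhole -/
theorem short1_pigeon {T : Finset ℝ} {J : ℕ} (P : ℝ → ℕ → ℕ → Prop) (hT : T.Nonempty)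
    (h : ∀ t ∈ T, ∃ i i' : ℕ, i' < i ∧ i < J ∧ P t i i') :
    ∃ i i' : ℕ, i' < i ∧ i < J ∧ ∃ T1 ⊆ T, T1.Nonempty ∧ T.card ≤ J ^ 2 * T1.card ∧ ∀ t ∈ T1, P t i i' := by
  classical
  choose! f g hfg hf hP using h
  set S : Finset (ℕ × ℕ) := range J ×ˢ range J
  have hmaps : ∀ t ∈ T, (f t, g t) ∈ S := by
    intro t ht
    rw [Finset.mem_product, mem_range, mem_range]
    exact ⟨hf t ht, (hfg t ht).trans (hf t ht)⟩
  have hcard : T.card = ∑ p ∈ S, (T.filter (fun t => (f t, g t) = p)).card :=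
    Finset.card_eq_sum_card_fiberwise hmaps
  have hex : ∃ p ∈ S, T.card ≤ J ^ 2 * (T.filter (fun t => (f t, g t) = p)).card := by
    by_contra hcon
    push Not at hcon
    have h1 : J ^ 2 * T.card = ∑ p ∈ S, J ^ 2 * (T.filter (fun t => (f t, g t) = p)).card := by
      rw [← Finset.mul_sum, ← hcard]
    have hSne : S.Nonempty := by
      obtain ⟨t, ht⟩ := hT
      exact ⟨_, hmaps t ht⟩
    have h2 := Finset.sum_lt_sum_of_nonempty hSne hcon
    rw [← h1, Finset.sum_const, Finset.card_product, card_range, smul_eq_mul, ← sq] at h2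
    exact lt_irrefl _ h2
  obtain ⟨p, hp, hpc⟩ := hex
  have hTc : 0 < T.card := hT.card_pos
  have hne : (T.filter (fun t => (f t, g t) = p)).Nonempty := by
    rw [← Finset.card_pos]
    by_contra h0
    push Not at h0
    have h1 : (T.filter (fun t => (f t, g t) = p)).card = 0 := by omega
    rw [h1] at hpc
    omega
  obtain ⟨t1, ht1⟩ := hne
  have ht1' := Finset.mem_filter.1 ht1
  refine ⟨p.1, p.2, ?_, ?_, T.filter (fun t => (f t, g t) = p), Finset.filter_subset _ _, ⟨t1, ht1⟩, hpc, ?_⟩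
  · have := hfg t1 ht1'.1
    rw [← ht1'.2]
    exact this
  · have := hf t1 ht1'.1
    rw [← ht1'.2]
    exact this
  · intro t ht
    have ht' := Finset.mem_filter.1 ht
    have := hP t ht'.1
    rw [← ht'.2]
    exact this

/-- from the duality inequality to a large set of differences -/
theorem short1_end (T1 : Finset ℝ) (hT1 : T1.Nonempty) (V : ℝ → ℝ → ℝ) (M δ : ℝ) (hM : 0 < M)
    (hV : ∀ t ∈ T1, ∀ t' ∈ T1, V t t' ≤ M)
    (h : 2 * δ * (T1.card : ℝ) ^ 2 * M ≤ ∑ t ∈ T1, ∑ t' ∈ T1, V t t') :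
    ∃ t0 ∈ T1, ∃ T' ⊆ T1, δ * T1.card ≤ T'.card ∧ ∀ t ∈ T', δ * M ≤ V t t0 := by
  classical
  have hc : (0 : ℝ) < T1.card := by exact_mod_cast hT1.card_pos
  have hex : ∃ t0 ∈ T1, 2 * δ * (T1.card : ℝ) * M ≤ ∑ t ∈ T1, V t t0 := by
    by_contra hcon
    push Not at hcon
    have h1 := Finset.sum_lt_sum_of_nonempty hT1 hcon
    rw [Finset.sum_const, nsmul_eq_mul, Finset.sum_comm] at h1
    nlinarith [h, h1]
  obtain ⟨t0, ht0, hs⟩ := hex
  refine ⟨t0, ht0, T1.filter (fun t => δ * M ≤ V t t0), Finset.filter_subset _ _, ?_, ?_⟩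
  · have h2 : ∑ t ∈ T1, V t t0 ≤ ∑ t ∈ T1.filter (fun t => δ * M ≤ V t t0), M + ∑ t ∈ T1.filter (fun t => ¬ δ * M ≤ V t t0), δ * M := by
      rw [← Finset.sum_filter_add_sum_filter_not T1 (fun t => δ * M ≤ V t t0)]
      refine add_le_add (Finset.sum_le_sum fun t ht => hV t (Finset.mem_filter.1 ht).1 t0 ht0)
        (Finset.sum_le_sum fun t ht => ?_)
      have := (Finset.mem_filter.1 ht).2
      push Not at this
      exact this.le
    rw [Finset.sum_const, Finset.sum_const, nsmul_eq_mul, nsmul_eq_mul] at h2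
    have h3 : (((T1.filter (fun t => ¬ δ * M ≤ V t t0)).card : ℕ) : ℝ) ≤ T1.card := by
      exact_mod_cast Finset.card_filter_le _ _
    by_cases hδ : 0 ≤ δ
    · have h4 : ((T1.filter (fun t => ¬ δ * M ≤ V t t0)).card : ℝ) * (δ * M) ≤ T1.card * (δ * M) :=
        mul_le_mul_of_nonneg_right h3 (by positivity)
      have h5 : (δ * T1.card) * M ≤ ((T1.filter (fun t => δ * M ≤ V t t0)).card : ℝ) * M := by
        nlinarith [hs, h2, h4]
      exact le_of_mul_le_mul_right h5 hM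
    · push Not at hδ
      have : δ * T1.card ≤ 0 := by nlinarith
      exact this.trans (Nat.cast_nonneg _)
  · intro t ht
    exact (Finset.mem_filter.1 ht).2

/-- numerical conditions for large `N` -/
theorem short1_event (A1 n1 : ℕ) : ∀ᶠ N : ℕ in atTop, (10 : ℝ) ^ 10 ≤ Real.log N ∧
    36 * (Real.log N) ^ (3 * A1) ≤ N ∧ 2 * (n1 : ℝ) ≤ N ∧ 9 * Real.log N ^ (2 * A1) ≤ N := by
  have h1 : Tendsto (fun N : ℕ => Real.log (N : ℝ)) atTop atTop :=
    Real.tendsto_log_atTop.comp tendsto_natCast_atTop_atTop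
  have h2 : ∀ k : ℕ, ∀ c : ℝ, ∀ᶠ N : ℕ in atTop, c * (Real.log N) ^ k ≤ N := by
    intro k c
    have h3 : (fun x : ℝ => Real.log x ^ (k : ℝ)) =o[atTop] fun x => x ^ (1 : ℝ) :=
      isLittleO_log_rpow_rpow_atTop (k : ℝ) one_pos
    have h4 := h3.def (show (0 : ℝ) < 1 / (|c| + 1) by positivity)
    have h5 := tendsto_natCast_atTop_atTop (R := ℝ) |>.eventually h4
    filter_upwards [h5, h1.eventually_ge_atTop 0] with N hN hl
    rw [Real.rpow_one, Real.rpow_natCast, Real.norm_of_nonneg (by positivity),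
      Real.norm_of_nonneg (Nat.cast_nonneg _)] at hN
    have h6 : c * Real.log N ^ k ≤ (|c| + 1) * Real.log N ^ k :=
      mul_le_mul_of_nonneg_right (by linarith [le_abs_self c]) (by positivity)
    have h7 : (|c| + 1) * Real.log N ^ k ≤ (|c| + 1) * (1 / (|c| + 1) * N) :=
      mul_le_mul_of_nonneg_left hN (by positivity)
    have h8 : (|c| + 1) * (1 / (|c| + 1) * (N : ℝ)) = N := by
      field_simp
    linarith
  filter_upwards [h1.eventually_ge_atTop ((10 : ℝ) ^ 10), h2 (3 * A1) 36, h2 (2 * A1) 9,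
    eventually_ge_atTop (2 * n1)] with N ha hb hc hd
  exact ⟨ha, hb, by exact_mod_cast hd, hc⟩

/-- short shifts: many large values give a large Weyl sum at differences -/
theorem short_pairs (Q : Polynomial ℚ) (hQ : IntVal Q) (A1 : ℕ) : ∃ E : ℕ, ∀ n1 : ℕ, ∀ᶠ N : ℕ in atTop,
    ∀ T : Finset ℝ, T.Nonempty → (∀ t ∈ T, (N : ℝ) / Real.log N ^ A1 ≤ ‖SE Q n1 N t‖) →
    ∃ i i' : ℕ, i' < i ∧ (i : ℝ) ≤ Real.log N ^ E ∧ ∃ t0 ∈ T, ∃ T' ⊆ T,
      (T.card : ℝ) ≤ Real.log N ^ E * T'.card ∧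
      ∀ t ∈ T', (N : ℝ) / Real.log N ^ E ≤ ‖∑ n ∈ Ico n1 N, ee ((t - t0) * Dn Q i i' n)‖ := by
  refine ⟨12 * A1 + 2, fun n1 => ?_⟩
  filter_upwards [short1_event A1 n1, card_big_gap', eventually_ge_atTop 1] with N hN hgap hN1 T hT hlarge
  obtain ⟨hL, hN2, hN3, hN4⟩ := hN
  set L : ℝ := Real.log N with hLdef
  have hL1 : (1 : ℝ) ≤ L := by linarith [show (1 : ℝ) ≤ 10 ^ 10 by norm_num]
  have hL0 : (0 : ℝ) < L := by linarith
  set K : ℝ := L ^ A1 with hK
  have hK1 : 1 ≤ K := one_le_pow₀ hL1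
  have hK0 : 0 < K := by linarith
  have hNpos : (0 : ℝ) < N := by exact_mod_cast hN1
  set J : ℕ := ⌈8 * K ^ 2⌉₊ with hJ
  have hJ1 : 8 * K ^ 2 ≤ J := Nat.le_ceil _
  have hJ2 : (J : ℝ) ≤ 9 * K ^ 2 := by
    have h1 := Nat.ceil_lt_add_one (show (0 : ℝ) ≤ 8 * K ^ 2 by positivity)
    have h2 : (1 : ℝ) ≤ K ^ 2 := one_le_pow₀ hK1
    linarith
  have hJ0 : (0 : ℝ) < J := by linarith only [one_le_pow₀ hK1 (n := 2), hJ1]
  have hb : (N : ℝ) / 2 ≤ (N : ℝ) - n1 := by linarith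
  have hlt : n1 < N := by
    have : (n1 : ℝ) < N := by linarith
    exact_mod_cast this
  have hba : (N : ℝ) - n1 ≤ N := by linarith [Nat.cast_nonneg (α := ℝ) n1]
  have hba0 : (0 : ℝ) < (N : ℝ) - n1 := by linarith
  have hvJ : 2 * K * J ≤ (N : ℝ) - n1 := by
    have h1 : 2 * K * J ≤ 2 * K * (9 * K ^ 2) := mul_le_mul_of_nonneg_left hJ2 (by positivity)
    have h2 : 2 * K * (9 * K ^ 2) = 18 * L ^ (3 * A1) := by
      rw [hK]; ring
    linarith
  have hpair : ∀ t ∈ T, ∃ i i' : ℕ, i' < i ∧ i < J ∧ ((N : ℝ) - n1) / (8 * K ^ 2) ≤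
      ‖∑ n ∈ Ico n1 N, ee (t * (((np (n + i) - np (n + i') : ℕ) : ℝ) + Dn Q i i' n))‖ := by
    intro t ht
    refine short1_pair Q t n1 N J hlt K hK1 hJ1 hvJ ?_
    exact (div_le_div_of_nonneg_right hba hK0.le).trans (hlarge t ht)
  obtain ⟨i, i', hii, hiJ, T1, hT1T, hT1, hT1c, hT1P⟩ := short1_pigeon
    (fun t i i' => ((N : ℝ) - n1) / (8 * K ^ 2) ≤
      ‖∑ n ∈ Ico n1 N, ee (t * (((np (n + i) - np (n + i') : ℕ) : ℝ) + Dn Q i i' n))‖) hT hpair
  have hiJr : (i : ℝ) ≤ J := by exact_mod_cast hiJ.le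
  have hiN : i ≤ N := by
    have : (i : ℝ) ≤ N := by
      have h1 : (9 : ℝ) * K ^ 2 = 9 * L ^ (2 * A1) := by rw [hK]; ring
      linarith
    exact_mod_cast this
  set G0 : ℕ := ⌈1280 * (J : ℝ) * K ^ 2 * L⌉₊ with hG0
  have hG1 : 1280 * (J : ℝ) * K ^ 2 * L ≤ G0 := Nat.le_ceil _
  have hJK1 : (1 : ℝ) ≤ (J : ℝ) * K ^ 2 * L := by
    have h1 : (1 : ℝ) ≤ J := by linarith only [one_le_pow₀ hK1 (n := 2), hJ1]
    have h2 : (1 : ℝ) ≤ K ^ 2 := one_le_pow₀ hK1
    have h3 : (1 : ℝ) ≤ (J : ℝ) * K ^ 2 := one_le_mul_of_one_le_of_one_le h1 h2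
    exact one_le_mul_of_one_le_of_one_le h3 hL1
  have hG1' : 1 ≤ G0 := by
    have : (1 : ℝ) ≤ G0 := by linarith only [hG1, hJK1]
    exact_mod_cast this
  have hG2 : (G0 : ℝ) + 1 ≤ 1282 * ((J : ℝ) * K ^ 2 * L) := by
    have h1 := Nat.ceil_lt_add_one (show (0 : ℝ) ≤ 1280 * (J : ℝ) * K ^ 2 * L by positivity)
    have h2 : 1280 * (J : ℝ) * K ^ 2 * L = 1280 * ((J : ℝ) * K ^ 2 * L) := by ring
    rw [← hG0] at h1
    linarith
  have hG3 : (G0 : ℝ) + 1 ≤ 11538 * (K ^ 4 * L) := by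
    have h1 : (J : ℝ) * K ^ 2 * L ≤ 9 * K ^ 2 * K ^ 2 * L := by gcongr
    nlinarith only [h1, hG2]
  set g : ℕ → ℕ := fun n => np (n + i) - np (n + i') with hg
  have hcount := hgap n1 i i' G0 hii.le hiN hlt.le hG1'
  have hcount2 : (((Ico n1 N).filter (fun n => G0 < np (n + i) - np (n + i'))).card : ℝ) ≤
      ((N : ℝ) - n1) / (16 * K ^ 2) := by
    refine hcount.trans ?_
    have hG0pos : (0 : ℝ) < G0 := by exact_mod_cast hG1'
    rw [div_le_div_iff₀ hG0pos (by positivity)]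
    have h1 : (i : ℝ) - i' ≤ J := by linarith [Nat.cast_nonneg (α := ℝ) i']
    have h2 : 40 * ((i : ℝ) - i') * N * Real.log N * (16 * K ^ 2) ≤ 40 * J * N * L * (16 * K ^ 2) := by
      rw [← hLdef]
      gcongr
    have h3 : 40 * (J : ℝ) * N * L * (16 * K ^ 2) = (N / 2) * (1280 * (J : ℝ) * K ^ 2 * L) := by ring
    have h4 : ((N : ℝ) / 2) * (1280 * (J : ℝ) * K ^ 2 * L) ≤ ((N : ℝ) - n1) * G0 := by
      apply mul_le_mul hb hG1 (by positivity) hba0.le
    linarith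
  -- the sums over `g ≤ G0`
  have hT1large : ∀ t ∈ T1, ((N : ℝ) - n1) / (16 * K ^ 2) ≤
      ‖∑ n ∈ (Ico n1 N).filter (fun n => g n ≤ G0), ee (t * ((g n : ℝ) + Dn Q i i' n))‖ := by
    intro t ht
    have h1 := hT1P t ht
    have h2 : ∑ n ∈ Ico n1 N, ee (t * (((np (n + i) - np (n + i') : ℕ) : ℝ) + Dn Q i i' n)) =
        ∑ n ∈ (Ico n1 N).filter (fun n => g n ≤ G0), ee (t * ((g n : ℝ) + Dn Q i i' n)) +
        ∑ n ∈ (Ico n1 N).filter (fun n => ¬ g n ≤ G0), ee (t * ((g n : ℝ) + Dn Q i i' n)) := by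
      rw [Finset.sum_filter_add_sum_filter_not]
    rw [h2] at h1
    have h3 := norm_add_le (∑ n ∈ (Ico n1 N).filter (fun n => g n ≤ G0), ee (t * ((g n : ℝ) + Dn Q i i' n)))
      (∑ n ∈ (Ico n1 N).filter (fun n => ¬ g n ≤ G0), ee (t * ((g n : ℝ) + Dn Q i i' n)))
    have h4 : ‖∑ n ∈ (Ico n1 N).filter (fun n => ¬ g n ≤ G0), ee (t * ((g n : ℝ) + Dn Q i i' n))‖ ≤
        ((N : ℝ) - n1) / (16 * K ^ 2) := by
      refine (norm_sum_le _ _).trans ?_
      calc ∑ n ∈ (Ico n1 N).filter (fun n => ¬ g n ≤ G0), ‖ee (t * ((g n : ℝ) + Dn Q i i' n))‖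
          = (((Ico n1 N).filter (fun n => G0 < np (n + i) - np (n + i'))).card : ℝ) := by
            rw [Finset.sum_congr rfl (fun n _ => norm_ee _), Finset.sum_const, nsmul_eq_mul, mul_one]
            congr 2
            refine Finset.filter_congr fun n _ => ?_
            rw [not_le]
        _ ≤ _ := hcount2
    have h5 : ((N : ℝ) - n1) / (8 * K ^ 2) = 2 * (((N : ℝ) - n1) / (16 * K ^ 2)) := by
      field_simp
      ring
    rw [h5] at h1
    linarith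
  set κ : ℝ := 1 / (16 * K ^ 2) with hκ
  have hκ0 : 0 < κ := by positivity
  have hdual := duality_gap T1 n1 N hlt.le (fun t : ℝ => t) g G0 (Dn Q i i') κ hκ0.le (by
    calc κ * T1.card * ((N : ℝ) - n1) = ∑ _t ∈ T1, ((N : ℝ) - n1) / (16 * K ^ 2) := by
          rw [Finset.sum_const, nsmul_eq_mul, hκ]; ring
      _ ≤ _ := Finset.sum_le_sum fun t ht => hT1large t ht)
  have hGp : (0 : ℝ) < (G0 : ℝ) + 1 := by positivity
  set δ : ℝ := κ ^ 2 / (2 * ((G0 : ℝ) + 1)) with hδ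
  have hδ0 : 0 < δ := by positivity
  have hVb : ∀ t ∈ T1, ∀ t' ∈ T1, ‖∑ n ∈ Ico n1 N, ee ((t - t') * Dn Q i i' n)‖ ≤ (N : ℝ) - n1 := by
    intro t _ t' _
    refine (norm_sum_le _ _).trans (le_of_eq ?_)
    rw [Finset.sum_congr rfl (fun n _ => norm_ee _), Finset.sum_const, Nat.card_Ico, nsmul_eq_mul, mul_one,
      Nat.cast_sub hlt.le]
  obtain ⟨t0, ht0, T', hT'1, hT'c, hT'V⟩ := short1_end T1 hT1
    (fun t t' => ‖∑ n ∈ Ico n1 N, ee ((t - t') * Dn Q i i' n)‖) ((N : ℝ) - n1) δ hba0 hVb (by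
      have h1 : 2 * δ * (T1.card : ℝ) ^ 2 * ((N : ℝ) - n1) =
          (κ ^ 2 * (T1.card : ℝ) ^ 2 * ((N : ℝ) - n1)) / ((G0 : ℝ) + 1) := by
        rw [hδ]
        field_simp
      rw [h1, div_le_iff₀ hGp, mul_comm _ ((G0 : ℝ) + 1)]
      exact hdual)
  -- numerics
  have hKL : K ^ 8 * (K ^ 4 * L) = L ^ (12 * A1 + 1) := by
    rw [hK]; ring
  have hpow : ∀ k ≤ 12 * A1 + 1, ∀ c ≤ (10 : ℝ) ^ 10, c * L ^ k ≤ L ^ (12 * A1 + 2) := by
    intro k hk c hc
    have h1 : c * L ^ k ≤ L * L ^ (12 * A1 + 1) := by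
      have h2 : L ^ k ≤ L ^ (12 * A1 + 1) := pow_le_pow_right₀ hL1 hk
      have h3 : c ≤ L := hc.trans hL
      exact mul_le_mul h3 h2 (by positivity) hL0.le
    calc c * L ^ k ≤ L * L ^ (12 * A1 + 1) := h1
      _ = L ^ (12 * A1 + 2) := by ring
  have hδinv : 1 / δ ≤ 5907456 * (K ^ 8 * L) := by
    rw [hδ, hκ]
    have h1 : 1 / ((1 / (16 * K ^ 2)) ^ 2 / (2 * ((G0 : ℝ) + 1))) = 512 * K ^ 4 * ((G0 : ℝ) + 1) := by
      field_simp
      ring
    rw [h1]
    have h2 : 512 * K ^ 4 * ((G0 : ℝ) + 1) ≤ 512 * K ^ 4 * (11538 * (K ^ 4 * L)) :=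
      mul_le_mul_of_nonneg_left hG3 (by positivity)
    nlinarith only [h2]
  refine ⟨i, i', hii, ?_, t0, hT1T ht0, T', hT'1.trans hT1T, ?_, ?_⟩
  · have h1 : (9 : ℝ) * K ^ 2 = 9 * L ^ (2 * A1) := by rw [hK]; ring
    have h2 := hpow (2 * A1) (by omega) 9 (by norm_num)
    linarith
  · -- cardinalities
    have h1 : (T.card : ℝ) ≤ (J : ℝ) ^ 2 * T1.card := by exact_mod_cast hT1c
    have h2 : (T1.card : ℝ) ≤ (1 / δ) * T'.card := by
      rw [div_mul_eq_mul_div, le_div_iff₀ hδ0]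
      linarith [hT'c]
    have hJsq : (J : ℝ) ^ 2 ≤ 81 * K ^ 4 := by
      have := pow_le_pow_left₀ hJ0.le hJ2 2
      nlinarith only [this]
    calc (T.card : ℝ) ≤ (J : ℝ) ^ 2 * T1.card := h1
      _ ≤ (J : ℝ) ^ 2 * ((1 / δ) * T'.card) := mul_le_mul_of_nonneg_left h2 (by positivity)
      _ = ((J : ℝ) ^ 2 * (1 / δ)) * T'.card := by ring
      _ ≤ L ^ (12 * A1 + 2) * T'.card := by
          refine mul_le_mul_of_nonneg_right ?_ (Nat.cast_nonneg _)
          calc (J : ℝ) ^ 2 * (1 / δ) ≤ (81 * K ^ 4) * (5907456 * (K ^ 8 * L)) := by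
                apply mul_le_mul hJsq hδinv (by positivity) (by positivity)
            _ = 478503936 * (K ^ 8 * (K ^ 4 * L)) := by ring
            _ = 478503936 * L ^ (12 * A1 + 1) := by rw [hKL]
            _ ≤ L ^ (12 * A1 + 2) := hpow _ le_rfl _ (by norm_num)
  · intro t ht
    refine le_trans ?_ (hT'V t ht)
    have h1 : (N : ℝ) / L ^ (12 * A1 + 2) ≤ δ * (N / 2) := by
      rw [div_le_iff₀ (by positivity)]
      have h2 : 2 * (1 / δ) ≤ L ^ (12 * A1 + 2) := by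
        calc 2 * (1 / δ) ≤ 2 * (5907456 * (K ^ 8 * L)) := by linarith
          _ = 11814912 * L ^ (8 * A1 + 1) := by rw [hK]; ring
          _ ≤ _ := hpow _ (by omega) _ (by norm_num)
      have h3 : (1 : ℝ) ≤ δ / 2 * L ^ (12 * A1 + 2) := by
        calc (1 : ℝ) = δ / 2 * (2 * (1 / δ)) := by field_simp
          _ ≤ _ := mul_le_mul_of_nonneg_left h2 (by positivity)
      nlinarith only [h3, hNpos]
    exact h1.trans (mul_le_mul_of_nonneg_left hb hδ0.le)

end Pool.Agent.PnLG
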