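import Pool.Agent.PnLG.Defs

open Finset Filter Complex
open scoped ArithmeticFunction.Moebius ArithmeticFunction.vonMangoldt

namespace Pool.Agent.PnLG

open Pool.Agent.ANT
open Pool.Agent.PnPoly.NC (np)

namespace VdCaux

theorem tele (f : ℕ → ℂ) (a b : ℕ) (hab : a ≤ b) :
    ∑ n ∈ Ico a b, f n - ∑ n ∈ Ico a b, f (n + 1) = f a - f b := by
  induction b, hab using Nat.le_induction with
  | base => simp
  | succ b hb ih =>
    rw [Finset.sum_Ico_succ_top hb, Finset.sum_Ico_succ_top hb]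
    linear_combination ih

theorem shift (u : ℕ → ℂ) (hu : ∀ n, ‖u n‖ ≤ 1) (a b : ℕ) (hab : a ≤ b) (i : ℕ) :
    ‖∑ n ∈ Ico a b, u n - ∑ n ∈ Ico a b, u (n + i)‖ ≤ 2 * i := by
  induction i with
  | zero => simp
  | succ i ih =>
    have h1 : ∑ n ∈ Ico a b, u (n + i) - ∑ n ∈ Ico a b, u (n + (i + 1)) = u (a + i) - u (b + i) := by
      have h2 := tele (fun n => u (n + i)) a b hab
      rw [← h2]
      congr 1
      refine Finset.sum_congr rfl fun n _ => ?_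
      congr 1
      ring
    have h3 : ∑ n ∈ Ico a b, u n - ∑ n ∈ Ico a b, u (n + (i + 1))
        = (∑ n ∈ Ico a b, u n - ∑ n ∈ Ico a b, u (n + i)) + (u (a + i) - u (b + i)) := by
      rw [← h1]; ring
    rw [h3]
    calc _ ≤ ‖∑ n ∈ Ico a b, u n - ∑ n ∈ Ico a b, u (n + i)‖ + ‖u (a + i) - u (b + i)‖ :=
          norm_add_le _ _
      _ ≤ 2 * i + (1 + 1) := by
          refine add_le_add ih ?_
          exact (norm_sub_le _ _).trans (add_le_add (hu _) (hu _))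
      _ = 2 * ((i + 1 : ℕ) : ℝ) := by push_cast; ring

end VdCaux

/-- van der Corput's inequality in the large value form. -/
theorem vdC (u : ℕ → ℂ) (hu : ∀ n, ‖u n‖ ≤ 1) (a b J : ℕ) (hab : a ≤ b) (K : ℝ) (hK : 0 < K)
    (hJ : 2 * K * J ≤ (b : ℝ) - a) (h : ((b : ℝ) - a) / K ≤ ‖∑ n ∈ Ico a b, u n‖) :
    (J : ℝ) ^ 2 * ((b : ℝ) - a) / (4 * K ^ 2) ≤ ∑ i ∈ range J, ∑ i' ∈ range J,
      ‖∑ n ∈ Ico a b, u (n + i) * (starRingEnd ℂ) (u (n + i'))‖ := by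
  set S : ℂ := ∑ n ∈ Ico a b, u n with hS
  set N : ℝ := (b : ℝ) - a with hN
  have hN0 : 0 ≤ N := by
    have : (a : ℝ) ≤ b := by exact_mod_cast hab
    rw [hN]; linarith
  set W : ℕ → ℂ := fun n => ∑ i ∈ range J, u (n + i) with hW
  -- the double sum
  have e1 : (J : ℂ) * S - ∑ n ∈ Ico a b, W n
      = ∑ i ∈ range J, (S - ∑ n ∈ Ico a b, u (n + i)) := by
    rw [Finset.sum_sub_distrib, Finset.sum_const, Finset.card_range, nsmul_eq_mul, hW,
      Finset.sum_comm]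
  have e2 : ‖(J : ℂ) * S - ∑ n ∈ Ico a b, W n‖ ≤ (J : ℝ) ^ 2 := by
    rw [e1]
    refine (norm_sum_le _ _).trans ?_
    have h1 : ∑ i ∈ range J, ‖S - ∑ n ∈ Ico a b, u (n + i)‖ ≤ ∑ i ∈ range J, (2 * i : ℝ) :=
      Finset.sum_le_sum fun i _ => VdCaux.shift u hu a b hab i
    refine h1.trans ?_
    have h2 : ∀ m : ℕ, ∑ i ∈ range m, (2 * i : ℝ) ≤ (m : ℝ) ^ 2 := by
      intro m
      induction m with
      | zero => simp
      | succ m ih =>
        rw [Finset.sum_range_succ]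
        push_cast
        nlinarith
    exact h2 J
  have e3 : (J : ℝ) * (N / (2 * K)) ≤ ‖∑ n ∈ Ico a b, W n‖ := by
    have h1 : ‖(J : ℂ) * S‖ ≤ ‖∑ n ∈ Ico a b, W n‖ + (J : ℝ) ^ 2 := by
      have : (J : ℂ) * S = ∑ n ∈ Ico a b, W n + ((J : ℂ) * S - ∑ n ∈ Ico a b, W n) := by ring
      rw [this]
      exact (norm_add_le _ _).trans (add_le_add le_rfl e2)
    rw [norm_mul, Complex.norm_natCast] at h1
    have hJ0 : (0 : ℝ) ≤ J := Nat.cast_nonneg J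
    have h2 : (J : ℝ) * (N / K) ≤ (J : ℝ) * ‖S‖ := mul_le_mul_of_nonneg_left h hJ0
    have h3 : (J : ℝ) ≤ N / (2 * K) := by
      rw [le_div_iff₀ (by positivity)]
      linarith
    have h4 : (J : ℝ) ^ 2 ≤ (J : ℝ) * (N / (2 * K)) := by
      rw [sq]; exact mul_le_mul_of_nonneg_left h3 hJ0
    have h5 : N / K = N / (2 * K) + N / (2 * K) := by field_simp; ring
    rw [h5] at h2
    nlinarith
  -- Cauchy-Schwarz
  have e4 : ‖∑ n ∈ Ico a b, W n‖ ^ 2 ≤ N * ∑ n ∈ Ico a b, ‖W n‖ ^ 2 := by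
    have h1 : ‖∑ n ∈ Ico a b, W n‖ ^ 2 ≤ (∑ n ∈ Ico a b, ‖W n‖) ^ 2 :=
      pow_le_pow_left₀ (norm_nonneg _) (norm_sum_le _ _) 2
    refine h1.trans ?_
    have h2 := sq_sum_le_card_mul_sum_sq (s := Ico a b) (f := fun n => ‖W n‖)
    have h3 : ((Ico a b).card : ℝ) = N := by
      rw [Nat.card_Ico, Nat.cast_sub hab]
    rw [h3] at h2
    exact h2
  have e5 : ∑ n ∈ Ico a b, ‖W n‖ ^ 2 ≤ ∑ i ∈ range J, ∑ i' ∈ range J,
      ‖∑ n ∈ Ico a b, u (n + i) * (starRingEnd ℂ) (u (n + i'))‖ := by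
    have h1 : ((∑ n ∈ Ico a b, ‖W n‖ ^ 2 : ℝ) : ℂ)
        = ∑ i ∈ range J, ∑ i' ∈ range J,
          ∑ n ∈ Ico a b, u (n + i) * (starRingEnd ℂ) (u (n + i')) := by
      have h2 : ∀ n, ((‖W n‖ ^ 2 : ℝ) : ℂ)
          = ∑ i ∈ range J, ∑ i' ∈ range J, u (n + i) * (starRingEnd ℂ) (u (n + i')) := by
        intro n
        have h3 : ((‖W n‖ ^ 2 : ℝ) : ℂ) = W n * (starRingEnd ℂ) (W n) := by
          rw [Complex.mul_conj, Complex.normSq_eq_norm_sq]
        rw [h3, hW]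
        simp only
        rw [map_sum, Finset.sum_mul_sum]
      rw [Complex.ofReal_sum, Finset.sum_congr rfl fun n _ => h2 n, Finset.sum_comm]
      refine Finset.sum_congr rfl fun i _ => ?_
      rw [Finset.sum_comm]
    have h4 : ∑ n ∈ Ico a b, ‖W n‖ ^ 2 = ‖((∑ n ∈ Ico a b, ‖W n‖ ^ 2 : ℝ) : ℂ)‖ := by
      rw [Complex.norm_real, Real.norm_of_nonneg]
      exact Finset.sum_nonneg fun n _ => by positivity
    rw [h4, h1]
    refine (norm_sum_le _ _).trans (Finset.sum_le_sum fun i _ => ?_)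
    exact norm_sum_le _ _
  refine le_trans ?_ e5
  rcases hN0.eq_or_lt with hz | hp
  · rw [← hz]
    simp only [mul_zero, zero_div]
    exact Finset.sum_nonneg fun n _ => by positivity
  · have h6 : ((J : ℝ) * (N / (2 * K))) ^ 2 ≤ N * ∑ n ∈ Ico a b, ‖W n‖ ^ 2 :=
      (pow_le_pow_left₀ (by positivity) e3 2).trans e4
    have h7 : ((J : ℝ) * (N / (2 * K))) ^ 2 = N * ((J : ℝ) ^ 2 * N / (4 * K ^ 2)) := by
      field_simp; ring
    rw [h7] at h6
    exact le_of_mul_le_mul_left h6 hp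

end Pool.Agent.PnLG
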