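import Pool.Agent.PnLG.CrtSum
import Pool.Agent.PnLG.Local

open Finset Filter Complex
open scoped ArithmeticFunction.Moebius ArithmeticFunction.vonMangoldt

namespace Pool.Agent.PnLG

open Pool.Agent.ANT
open Pool.Agent.PnPoly.NC (np)

theorem WMom_mem {y y1 p : ℕ} (hp : p ∈ Py y1 \ Py y) : p.Prime ∧ y < p := by
  rw [Finset.mem_sdiff] at hp
  obtain ⟨h1, h2⟩ := hp
  have h3 : p.Prime := (Finset.mem_filter.1 h1).2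
  refine ⟨h3, ?_⟩
  by_contra hlt
  push Not at hlt
  exact h2 (Finset.mem_filter.2 ⟨Finset.mem_Icc.2 ⟨h3.one_lt.le, hlt⟩, h3⟩)

theorem WMom_ndvd {y y1 p : ℕ} (hp : p ∈ Py y1 \ Py y) :
    ¬ (p : ℤ) ∣ ((∏ q ∈ Py y, q : ℕ) : ℤ) := by
  obtain ⟨hpp, hy⟩ := WMom_mem hp
  intro h
  have h' : p ∣ ∏ q ∈ Py y, q := by exact_mod_cast h
  obtain ⟨q, hq, hpq⟩ := (Prime.dvd_finsetProd_iff hpp.prime _).1 h'
  have hqp : q.Prime := (Finset.mem_filter.1 hq).2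
  have h5 : p = q := (Nat.prime_dvd_prime_iff_eq hpp hqp).1 hpq
  have h6 : q ≤ y := (Finset.mem_Icc.1 (Finset.mem_filter.1 hq).1).2
  omega

theorem WMom_per (p : ℕ) (s β M : ℤ) (k : ℕ) :
    ((p : ℤ) ∣ s + 2 * (β + M * ((k + p : ℕ) : ℤ))) ↔ ((p : ℤ) ∣ s + 2 * (β + M * (k : ℤ))) := by
  have h1 : s + 2 * (β + M * ((k + p : ℕ) : ℤ)) = s + 2 * (β + M * (k : ℤ)) + (p : ℤ) * (2 * M) := by
    push_cast; ring
  rw [h1]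
  exact (Int.dvd_add_left (Dvd.intro _ rfl))

theorem WMom_one' (y y1 : ℕ) (hy : 2 ≤ y) (β s M : ℤ) (hM : ∀ p ∈ Py y1 \ Py y, ¬ (p : ℤ) ∣ M) :
    ∑ k ∈ range (∏ p ∈ Py y1 \ Py y, p), Lw y y1 (s + 2 * (β + M * (k : ℤ))) =
      ((∏ p ∈ Py y1 \ Py y, p : ℕ) : ℝ) := by
  unfold Lw
  rw [sum_prod_crt (Py y1 \ Py y) (fun p hp => (WMom_mem hp).1)
    (fun p k => if (p : ℤ) ∣ s + 2 * (β + M * (k : ℤ)) then 0 else (1 - 1 / (p : ℝ))⁻¹)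
    (fun p _ k => by simp only [WMom_per])]
  have h0 : ((∏ p ∈ Py y1 \ Py y, p : ℕ) : ℝ) = ∏ p ∈ Py y1 \ Py y, (p : ℝ) := Nat.cast_prod _ _
  rw [h0]
  refine Finset.prod_congr rfl fun p hp => ?_
  have h := WMom_mem hp
  exact local_one p h.1 (by omega) β _ s (hM p hp)

theorem WMom_one (y y1 : ℕ) (hy : 2 ≤ y) (β s : ℤ) :
    ∑ k ∈ range (∏ p ∈ Py y1 \ Py y, p), Lw y y1 (s + 2 * (β + (∏ p ∈ Py y, p : ℕ) * (k : ℤ))) =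
      ((∏ p ∈ Py y1 \ Py y, p : ℕ) : ℝ) :=
  WMom_one' y y1 hy β s _ fun _ hp => WMom_ndvd hp

theorem WMom_exp (y y1 : ℕ) (h : ℤ) :
    ∏ p ∈ Py y1 \ Py y, (if (p : ℤ) ∣ h then Real.exp (2 / p) else 1) = Real.exp (2 * Xs y y1 h) := by
  unfold Xs
  rw [Finset.mul_sum, Real.exp_sum, Finset.prod_filter]
  refine Finset.prod_congr rfl fun p _ => ?_
  split_ifs
  · congr 1; ring
  · rfl

theorem WMom_nonneg {y y1 : ℕ} {p : ℕ} (hp : p ∈ Py y1 \ Py y) (m : ℤ) :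
    0 ≤ (if (p : ℤ) ∣ m then 0 else (1 - 1 / (p : ℝ))⁻¹) := by
  split_ifs
  · exact le_rfl
  · have h1 : (1 : ℝ) ≤ p := by exact_mod_cast (WMom_mem hp).1.one_lt.le
    have h2 : 1 / (p : ℝ) ≤ 1 := by
      rw [div_le_one (by linarith)]; exact h1
    exact inv_nonneg.2 (by linarith)

theorem WMom_two' (y y1 : ℕ) (hy : 2 ≤ y) (β s s' M : ℤ) (hM : ∀ p ∈ Py y1 \ Py y, ¬ (p : ℤ) ∣ M) :
    ∑ k ∈ range (∏ p ∈ Py y1 \ Py y, p), Lw y y1 (s + 2 * (β + M * (k : ℤ))) *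
      Lw y y1 (s' + 2 * (β + M * (k : ℤ))) ≤
      ((∏ p ∈ Py y1 \ Py y, p : ℕ) : ℝ) * Real.exp (2 * Xs y y1 (s - s')) := by
  unfold Lw
  simp_rw [← Finset.prod_mul_distrib]
  rw [sum_prod_crt (Py y1 \ Py y) (fun p hp => (WMom_mem hp).1)
    (fun p k => (if (p : ℤ) ∣ s + 2 * (β + M * (k : ℤ)) then 0 else (1 - 1 / (p : ℝ))⁻¹) *
      (if (p : ℤ) ∣ s' + 2 * (β + M * (k : ℤ)) then 0 else (1 - 1 / (p : ℝ))⁻¹))
    (fun p _ k => by simp only [WMom_per])]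
  have h0 : ((∏ p ∈ Py y1 \ Py y, p : ℕ) : ℝ) = ∏ p ∈ Py y1 \ Py y, (p : ℝ) := Nat.cast_prod _ _
  rw [← WMom_exp, h0, ← Finset.prod_mul_distrib]
  refine Finset.prod_le_prod (fun p hp => Finset.sum_nonneg fun k _ =>
    mul_nonneg (WMom_nonneg hp _) (WMom_nonneg hp _)) fun p hp => ?_
  have h := WMom_mem hp
  exact local_two p h.1 (by omega) β _ s s' (hM p hp)

theorem WMom_two (y y1 : ℕ) (hy : 2 ≤ y) (β s s' : ℤ) :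
    ∑ k ∈ range (∏ p ∈ Py y1 \ Py y, p), Lw y y1 (s + 2 * (β + (∏ p ∈ Py y, p : ℕ) * (k : ℤ))) *
      Lw y y1 (s' + 2 * (β + (∏ p ∈ Py y, p : ℕ) * (k : ℤ))) ≤
      ((∏ p ∈ Py y1 \ Py y, p : ℕ) : ℝ) * Real.exp (2 * Xs y y1 (s - s')) :=
  WMom_two' y y1 hy β s s' _ fun _ hp => WMom_ndvd hp

theorem W_mean (y y1 : ℕ) (hy : 2 ≤ y) (β : ℤ) (S : Finset ℕ) (s : ℕ → ℤ) :
    ∑ k ∈ range (∏ p ∈ Py y1 \ Py y, p), ∑ n ∈ S, Lw y y1 (s n + 2 * (β + (∏ p ∈ Py y, p : ℕ) * (k : ℤ))) =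
      ((∏ p ∈ Py y1 \ Py y, p : ℕ) : ℝ) * S.card := by
  rw [Finset.sum_comm]
  rw [Finset.sum_congr rfl (fun n _ => WMom_one y y1 hy β (s n))]
  rw [Finset.sum_const, nsmul_eq_mul, mul_comm]

theorem W_sq (y y1 : ℕ) (hy : 2 ≤ y) (β : ℤ) (S : Finset ℕ) (s : ℕ → ℤ) :
    ∑ k ∈ range (∏ p ∈ Py y1 \ Py y, p),
      (∑ n ∈ S, Lw y y1 (s n + 2 * (β + (∏ p ∈ Py y, p : ℕ) * (k : ℤ)))) ^ 2 ≤
      ((∏ p ∈ Py y1 \ Py y, p : ℕ) : ℝ) * ∑ n ∈ S, ∑ m ∈ S, Real.exp (2 * Xs y y1 (s n - s m)) := by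
  have h1 : ∑ k ∈ range (∏ p ∈ Py y1 \ Py y, p),
      (∑ n ∈ S, Lw y y1 (s n + 2 * (β + (∏ p ∈ Py y, p : ℕ) * (k : ℤ)))) ^ 2 =
      ∑ n ∈ S, ∑ m ∈ S, ∑ k ∈ range (∏ p ∈ Py y1 \ Py y, p),
        Lw y y1 (s n + 2 * (β + (∏ p ∈ Py y, p : ℕ) * (k : ℤ))) *
        Lw y y1 (s m + 2 * (β + (∏ p ∈ Py y, p : ℕ) * (k : ℤ))) := by
    rw [Finset.sum_congr rfl (fun k _ => by rw [sq, Finset.sum_mul_sum])]
    rw [Finset.sum_comm]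
    refine Finset.sum_congr rfl fun n _ => ?_
    rw [Finset.sum_comm]
  rw [h1, Finset.mul_sum]
  refine Finset.sum_le_sum fun n _ => ?_
  rw [Finset.mul_sum]
  exact Finset.sum_le_sum fun m _ => WMom_two y y1 hy β (s n) (s m)

/-- Chebyshev -/
theorem W_small (y y1 : ℕ) (hy : 2 ≤ y) (β : ℤ) (S : Finset ℕ) (s : ℕ → ℤ) (η : ℝ) (hη : 0 ≤ η)
    (hS : S.Nonempty)
    (h : ∑ n ∈ S, ∑ m ∈ S, Real.exp (2 * Xs y y1 (s n - s m)) ≤ (1 + η) * (S.card : ℝ) ^ 2) :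
    (((range (∏ p ∈ Py y1 \ Py y, p)).filter (fun k : ℕ =>
      ∑ n ∈ S, Lw y y1 (s n + 2 * (β + (∏ p ∈ Py y, p : ℕ) * (k : ℤ))) < (S.card : ℝ) / 2)).card : ℝ) ≤
      4 * η * ((∏ p ∈ Py y1 \ Py y, p : ℕ) : ℝ) := by
  set P : ℕ := ∏ p ∈ Py y1 \ Py y, p with hP
  set W : ℕ → ℝ := fun k => ∑ n ∈ S, Lw y y1 (s n + 2 * (β + (∏ p ∈ Py y, p : ℕ) * (k : ℤ))) with hW
  have hm : ∑ k ∈ range P, W k = (P : ℝ) * S.card := W_mean y y1 hy β S s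
  have hs : ∑ k ∈ range P, W k ^ 2 ≤ (P : ℝ) * ((1 + η) * (S.card : ℝ) ^ 2) :=
    (W_sq y y1 hy β S s).trans (mul_le_mul_of_nonneg_left h (Nat.cast_nonneg _))
  have hc : (0 : ℝ) < S.card := by exact_mod_cast hS.card_pos
  have hv : ∑ k ∈ range P, (W k - S.card) ^ 2 ≤ η * (S.card : ℝ) ^ 2 * P := by
    have h2 : ∑ k ∈ range P, (W k - S.card) ^ 2 =
        ∑ k ∈ range P, W k ^ 2 - 2 * S.card * ∑ k ∈ range P, W k + P * (S.card : ℝ) ^ 2 := by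
      rw [Finset.mul_sum, ← Finset.sum_sub_distrib]
      have h3 : (P : ℝ) * (S.card : ℝ) ^ 2 = ∑ k ∈ range P, (S.card : ℝ) ^ 2 := by
        rw [Finset.sum_const, card_range, nsmul_eq_mul]
      rw [h3, ← Finset.sum_add_distrib]
      refine Finset.sum_congr rfl fun k _ => by ring
    rw [h2, hm]
    nlinarith
  have hlow : (((range P).filter (fun k : ℕ => W k < (S.card : ℝ) / 2)).card : ℝ) *
      ((S.card : ℝ) ^ 2 / 4) ≤ ∑ k ∈ range P, (W k - S.card) ^ 2 := by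
    rw [← nsmul_eq_mul, ← Finset.sum_const]
    refine (Finset.sum_le_sum fun k hk => ?_).trans
      (Finset.sum_le_sum_of_subset_of_nonneg (Finset.filter_subset _ _) fun k _ _ => sq_nonneg _)
    have h4 := (Finset.mem_filter.1 hk).2
    nlinarith
  have h5 := hlow.trans hv
  have h6 : 0 < (S.card : ℝ) ^ 2 := by positivity
  by_contra hcon
  push Not at hcon
  have h7 := mul_lt_mul_of_pos_right hcon (by positivity : (0 : ℝ) < (S.card : ℝ) ^ 2 / 4)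
  nlinarith

end Pool.Agent.PnLG
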