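import Pool.Agent.PnLG.SSPow

open Finset Filter Complex
open scoped ArithmeticFunction.Moebius ArithmeticFunction.vonMangoldt

namespace Pool.Agent.PnLG

open Pool.Agent.ANT
open Pool.Agent.PnPoly.NC (np)
open Pool.Agent.HL26
open Pool.Agent.PnPoly.NC hiding np

theorem WindMom_exchange (s L : ℕ) (x : ℝ) :
    ∑ m ∈ Icc 1 ⌊x⌋₊, (wind L m).choose s =
      ∑ E ∈ (range (L + 1)).powersetCard s, tupleCount x E := by
  classical
  have h1 : ∀ m, (wind L m).choose s =
      ∑ E ∈ (range (L + 1)).powersetCard s, if ∀ e ∈ E, (m + e).Prime then 1 else 0 := by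
    intro m
    rw [wind, ← card_powersetCard, ← Finset.card_filter]
    congr 1
    ext E
    simp only [mem_powersetCard, mem_filter, Finset.subset_iff]
    constructor
    · rintro ⟨h1, h2⟩
      exact ⟨⟨fun e he => (h1 he).1, h2⟩, fun e he => (h1 he).2⟩
    · rintro ⟨⟨h1, h2⟩, h3⟩
      exact ⟨fun e he => ⟨h1 he, h3 e he⟩, h2⟩
  simp_rw [h1]
  rw [Finset.sum_comm]
  refine Finset.sum_congr rfl fun E _ => ?_
  rw [tupleCount, Finset.card_filter]

/-- `s`-th binomial moment of the number of primes in a short window -/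
theorem choose_wind_le (s : ℕ) (hs : 2 ≤ s) : ∃ C : ℝ, 0 < C ∧ ∀ᶠ x : ℝ in atTop, ∀ L : ℕ,
    ∑ m ∈ Icc 1 ⌊x⌋₊, ((wind L m).choose s : ℝ) ≤
      C * x * (((L : ℝ) + 1) / Real.log x) ^ s + C * ((L : ℝ) + 1) ^ s := by
  obtain ⟨C1, hC1, hev⟩ := exists_sieve_bound s (by omega)
  obtain ⟨C2, hC2, hss⟩ := sum_singularSeries_pow_le s 1 hs le_rfl
  refine ⟨C1 * C2 + s, by positivity, ?_⟩
  filter_upwards [hev, eventually_ge_atTop 3] with x hx hx3
  intro L
  have hx0 : 0 < x := by linarith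
  have hlog : 0 < Real.log x := Real.log_pos (by linarith)
  have hX : 0 ≤ x / (Real.log x) ^ s := by positivity
  have h1 := WindMom_exchange s L x
  have h2 : ∑ m ∈ Icc 1 ⌊x⌋₊, ((wind L m).choose s : ℝ) =
      ∑ E ∈ (range (L + 1)).powersetCard s, (tupleCount x E : ℝ) := by exact_mod_cast h1
  rw [h2]
  have h3 : ∀ E ∈ (range (L + 1)).powersetCard s, (tupleCount x E : ℝ) ≤
      C1 * (x / (Real.log x) ^ s) * singularSeries E ^ 1 + s := by
    intro E hE
    have hcard := (mem_powersetCard.1 hE).2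
    rcases (singularSeries_nonneg E).lt_or_eq with h4 | h4
    · have h5 := hx E hcard (fun p hp => admissible_of_pos _ h4 p hp)
      have h6 : C1 * (singularSeries E * (x / Real.log x ^ s)) =
        C1 * (x / (Real.log x) ^ s) * singularSeries E ^ 1 := by ring
      rw [h6] at h5
      have : (0:ℝ) ≤ s := by positivity
      linarith
    · have h5 := tupleCount_le_of_zero E h4.symm x
      rw [hcard] at h5
      have h6 : (tupleCount x E : ℝ) ≤ s := by exact_mod_cast h5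
      have h7 : 0 ≤ C1 * (x / (Real.log x) ^ s) * singularSeries E ^ 1 := by
        rw [← h4]; simp
      linarith
  refine (Finset.sum_le_sum h3).trans ?_
  rw [Finset.sum_add_distrib, ← Finset.mul_sum, Finset.sum_const, card_powersetCard, card_range,
    nsmul_eq_mul]
  have h4 := hss L
  have h5 : ((L + 1).choose s : ℝ) ≤ ((L : ℝ) + 1) ^ s := by
    have := Nat.choose_le_pow (L + 1) s
    exact_mod_cast this
  have h6 : C1 * (x / (Real.log x) ^ s) *
      ∑ E ∈ (range (L + 1)).powersetCard s, singularSeries E ^ 1 ≤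
      C1 * (x / (Real.log x) ^ s) * (C2 * ((L : ℝ) + 1) ^ s) :=
    mul_le_mul_of_nonneg_left h4 (by positivity)
  have h7 : ((L + 1).choose s : ℝ) * s ≤ ((L : ℝ) + 1) ^ s * s :=
    mul_le_mul_of_nonneg_right h5 (by positivity)
  have h8 : C1 * (x / (Real.log x) ^ s) * (C2 * ((L : ℝ) + 1) ^ s) =
      C1 * C2 * (x * (((L : ℝ) + 1) / Real.log x) ^ s) := by
    rw [div_pow]; ring
  have h9 : 0 ≤ (s : ℝ) * (x * (((L : ℝ) + 1) / Real.log x) ^ s) := by positivity
  have h10 : 0 ≤ C1 * C2 * ((L : ℝ) + 1) ^ s := by positivity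
  nlinarith [h6, h7, h8, h9, h10]

theorem WindMom_choose (s k w : ℕ) (hs : 2 ≤ s) (hk : s ≤ k) (hw : k < w) :
    (w : ℝ) ≤ (s : ℝ) ^ s * s.factorial * (k / (k : ℝ) ^ s) * (w.choose s : ℝ) := by
  have hk0 : (0 : ℝ) < k := by exact_mod_cast (by omega : 0 < k)
  have hs0 : (0 : ℝ) < s := by exact_mod_cast (by omega : 0 < s)
  have hw0 : (0 : ℝ) < w := by exact_mod_cast (by omega : 0 < w)
  have h1 : (((w + 1 - s : ℕ) : ℝ)) ^ s ≤ s.factorial * (w.choose s : ℝ) := by
    have := Nat.pow_sub_le_descFactorial w s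
    rw [Nat.descFactorial_eq_factorial_mul_choose] at this
    exact_mod_cast this
  have h2 : (w : ℝ) / s ≤ ((w + 1 - s : ℕ) : ℝ) := by
    rw [Nat.cast_sub (by omega), div_le_iff₀ hs0]
    push_cast
    have h3 : (s : ℝ) ≤ w := by exact_mod_cast (by omega : s ≤ w)
    have h4 : (2 : ℝ) ≤ s := by exact_mod_cast hs
    nlinarith
  have h3 : ((w : ℝ) / s) ^ s ≤ s.factorial * (w.choose s : ℝ) :=
    (pow_le_pow_left₀ (by positivity) h2 s).trans h1
  have h4 : (w : ℝ) / k ≤ ((w : ℝ) / k) ^ s := by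
    have h5 : 1 ≤ (w : ℝ) / k := by
      rw [le_div_iff₀ hk0]
      exact_mod_cast (by omega : 1 * k ≤ w)
    calc (w : ℝ) / k = ((w : ℝ) / k) ^ 1 := (pow_one _).symm
      _ ≤ ((w : ℝ) / k) ^ s := pow_le_pow_right₀ h5 (by omega)
  calc (w : ℝ) = k * ((w : ℝ) / k) := by field_simp
    _ ≤ k * ((w : ℝ) / k) ^ s := mul_le_mul_of_nonneg_left h4 hk0.le
    _ = (s : ℝ) ^ s * (k / (k : ℝ) ^ s) * ((w : ℝ) / s) ^ s := by
        rw [div_pow, div_pow]; field_simp
    _ ≤ (s : ℝ) ^ s * (k / (k : ℝ) ^ s) * (s.factorial * (w.choose s : ℝ)) :=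
        mul_le_mul_of_nonneg_left h3 (by positivity)
    _ = _ := by ring

/-- windows with many primes -/
theorem tail_wind (s : ℕ) (hs : 2 ≤ s) : ∃ C : ℝ, 0 < C ∧ ∀ᶠ x : ℝ in atTop, ∀ L k : ℕ, s ≤ k →
    ∑ m ∈ (Icc 1 ⌊x⌋₊).filter (fun m => k < wind L m), (wind L m : ℝ) ≤
      C * k * (x * (((L : ℝ) + 1) / (k * Real.log x)) ^ s + (((L : ℝ) + 1) / k) ^ s) := by
  obtain ⟨C, hC, hev⟩ := choose_wind_le s hs
  have hs0 : (0 : ℝ) < s := by exact_mod_cast (by omega : 0 < s)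
  have hfac : (0 : ℝ) < s.factorial := by exact_mod_cast Nat.factorial_pos s
  refine ⟨(s : ℝ) ^ s * s.factorial * C, by positivity, ?_⟩
  filter_upwards [hev, eventually_ge_atTop 3] with x hx hx3
  intro L k hk
  have hk0 : (0 : ℝ) < k := by exact_mod_cast (by omega : 0 < k)
  have hlog : 0 < Real.log x := Real.log_pos (by linarith)
  have h1 : ∑ m ∈ (Icc 1 ⌊x⌋₊).filter (fun m => k < wind L m), (wind L m : ℝ) ≤
      ∑ m ∈ (Icc 1 ⌊x⌋₊).filter (fun m => k < wind L m),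
        (s : ℝ) ^ s * s.factorial * (k / (k : ℝ) ^ s) * ((wind L m).choose s : ℝ) :=
    Finset.sum_le_sum fun m hm => WindMom_choose s k _ hs hk (mem_filter.1 hm).2
  refine h1.trans ?_
  rw [← Finset.mul_sum]
  have h2 : ∑ m ∈ (Icc 1 ⌊x⌋₊).filter (fun m => k < wind L m), ((wind L m).choose s : ℝ) ≤
      ∑ m ∈ Icc 1 ⌊x⌋₊, ((wind L m).choose s : ℝ) :=
    Finset.sum_le_sum_of_subset_of_nonneg (filter_subset _ _) fun _ _ _ => by positivity
  have h3 := mul_le_mul_of_nonneg_left (h2.trans (hx L))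
    (show 0 ≤ (s : ℝ) ^ s * s.factorial * (k / (k : ℝ) ^ s) by positivity)
  refine h3.trans (le_of_eq ?_)
  rw [div_pow, div_pow, div_pow, mul_pow]
  field_simp

end Pool.Agent.PnLG
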