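import Pool.Agent.PnLG.Zero

open Finset Filter Complex
open scoped ArithmeticFunction.Moebius ArithmeticFunction.vonMangoldt

namespace Pool.Agent.PnLG

open Pool.Agent.ANT
open Pool.Agent.PnPoly.NC (np)

/-- the counting functions agree for `Q = a X` -/
lemma ZeroLin_cntP (a N b : ℕ) :
    cntP (Polynomial.C (a : ℚ) * Polynomial.X) N ((a * b : ℕ) : ℤ) =
      {n : ℕ | 1 ≤ n ∧ n ≤ N ∧
        (Nat.nth Nat.Prime (n - 1) + 2 * (a * (n + b))).Prime}.ncard := by
  unfold cntP
  congr 1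
  ext n
  refine and_congr_right (fun _ => and_congr_right (fun _ => ?_))
  have h1 : ((Nat.nth Nat.Prime (n - 1) : ℕ) : ℚ) +
      2 * (Polynomial.C (a : ℚ) * Polynomial.X +
        Polynomial.C (((a * b : ℕ) : ℤ) : ℚ)).eval (n : ℚ) =
      ((Nat.nth Nat.Prime (n - 1) + 2 * (a * (n + b)) : ℕ) : ℚ) := by
    simp only [Polynomial.eval_add, Polynomial.eval_mul, Polynomial.eval_C, Polynomial.eval_X]
    push_cast
    ring
  rw [h1]
  constructor
  · rintro ⟨r, hr, h⟩
    have : r = Nat.nth Nat.Prime (n - 1) + 2 * (a * (n + b)) := by exact_mod_cast h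
    rwa [← this]
  · intro h
    exact ⟨_, h, rfl⟩

/-- special case: `P(x) = a (x + b)`: almost all `b` -/
theorem zero_linear (a : ℕ) (ha : 1 ≤ a) (C0 : ℕ) (ε : ℝ) (hε : 0 < ε) :
    ∃ c : ℝ, 0 < c ∧ ∀ᶠ H : ℕ in atTop, ∀ N : ℕ, (H : ℝ) ≤ (N : ℝ) * Real.log H ^ C0 →
      (Nat.nth Nat.Prime (N - 1) : ℝ) + 2 * a * N ≤ H →
      (((Icc 1 H).filter (fun b : ℕ =>
        ((({n : ℕ | 1 ≤ n ∧ n ≤ N ∧ (Nat.nth Nat.Prime (n - 1) + 2 * (a * (n + b))).Prime}.ncard : ℕ) : ℝ) <
          c * (N / Real.log H)))).card : ℝ) ≤ ε * H := by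
  classical
  have hapos : (0:ℝ) < a := by exact_mod_cast ha
  have haq : (a : ℚ) ≠ 0 := by
    have : a ≠ 0 := by omega
    exact_mod_cast this
  have hQ : IntVal (Polynomial.C (a : ℚ) * Polynomial.X) := by
    intro m
    refine ⟨(a : ℤ) * m, ?_⟩
    simp
  have hlc : 0 ≤ (Polynomial.C (a : ℚ) * Polynomial.X).leadingCoeff := by
    rw [Polynomial.leadingCoeff_mul, Polynomial.leadingCoeff_C, Polynomial.leadingCoeff_X, mul_one]
    exact Nat.cast_nonneg a
  have hdeg : (Polynomial.C (a : ℚ) * Polynomial.X).natDegree = 1 :=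
    Polynomial.natDegree_C_mul_X _ haq
  obtain ⟨y, c, hc, hev⟩ := zero_classes (Polynomial.C (a : ℚ) * Polynomial.X) hQ hlc (C0 + 1)
    (ε / a) (by positivity)
  refine ⟨c / 2, by positivity, ?_⟩
  have htend : Tendsto (fun H : ℕ => a * H) atTop atTop :=
    Filter.tendsto_id.const_mul_atTop' (by omega)
  have hlogt : Tendsto (fun H : ℕ => Real.log (H : ℝ)) atTop atTop :=
    Real.tendsto_log_atTop.comp tendsto_natCast_atTop_atTop
  filter_upwards [htend.eventually hev, hlogt.eventually_ge_atTop (a : ℝ),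
    Filter.eventually_ge_atTop (max a 2)] with H h1 h2 h3
  intro N hN1 hN2
  have hHa : a ≤ H := (le_max_left _ _).trans h3
  have hH2 : 2 ≤ H := (le_max_right _ _).trans h3
  have hHpos : (0:ℝ) < H := by
    have : 0 < H := by omega
    exact_mod_cast this
  have hN0 : 1 ≤ N := by
    by_contra hcon
    have hN00 : N = 0 := by omega
    rw [hN00] at hN1
    simp only [Nat.cast_zero, zero_mul] at hN1
    linarith
  have hlogpos : 0 < Real.log H := Real.log_pos (by exact_mod_cast hH2)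
  have hlogmul : Real.log ((a * H : ℕ) : ℝ) = Real.log a + Real.log H := by
    push_cast
    rw [Real.log_mul hapos.ne' hHpos.ne']
  have hloga : 0 ≤ Real.log a := Real.log_nonneg (by exact_mod_cast ha)
  have hlogaH : Real.log a ≤ Real.log H := Real.log_le_log hapos (by exact_mod_cast hHa)
  -- admissibility of the pair
  have hOK : OK (Polynomial.C (a : ℚ) * Polynomial.X) (C0 + 1) (a * H) N := by
    constructor
    · rw [hdeg, max_self, pow_one, hlogmul]
      have hNn : (0:ℝ) ≤ (N:ℝ) := Nat.cast_nonneg N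
      calc ((a * H : ℕ) : ℝ) = (a:ℝ) * H := by push_cast; ring
        _ ≤ Real.log H * (N * Real.log H ^ C0) := by
            gcongr
        _ = (N:ℝ) * Real.log H ^ (C0 + 1) := by ring
        _ ≤ (N:ℝ) * (Real.log a + Real.log H) ^ (C0 + 1) := by
            gcongr
            linarith
    · have hqv : qv (Polynomial.C (a : ℚ) * Polynomial.X) (N - 1 + 1) = (a:ℤ) * N := by
        unfold qv
        rw [Nat.sub_add_cancel hN0]
        have : (Polynomial.C (a : ℚ) * Polynomial.X).eval (N : ℚ) = (((a:ℤ) * N : ℤ) : ℚ) := by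
          simp
        rw [this, Int.floor_intCast]
      unfold sv
      rw [hqv]
      have h4 : ((Nat.nth Nat.Prime (N - 1) + 2 * (a * N) : ℕ) : ℝ) ≤ ((H:ℕ) : ℝ) := by
        push_cast
        linarith
      have h5 : Nat.nth Nat.Prime (N - 1) + 2 * (a * N) ≤ H := by exact_mod_cast h4
      have h6 : H ≤ a * H := Nat.le_mul_of_pos_left H (by omega)
      have h7 : ((Nat.nth Nat.Prime (N - 1) + 2 * (a * N) : ℕ) : ℤ) ≤ ((a * H : ℕ) : ℤ) := by
        exact_mod_cast h5.trans h6
      have h8 : ((np (N - 1) : ℕ) : ℤ) + 2 * ((a:ℤ) * N) =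
          ((Nat.nth Nat.Prime (N - 1) + 2 * (a * N) : ℕ) : ℤ) := by
        unfold np
        push_cast
        ring
      rw [h8]
      exact h7
  have hmain := h1 N hOK
  -- injection `b ↦ a b`
  have hend : ε / a * ((a * H : ℕ) : ℝ) = ε * H := by
    push_cast
    field_simp
  rw [hend] at hmain
  refine le_trans ?_ hmain
  rw [Nat.cast_le]
  apply Finset.card_le_card_of_injOn (fun b => a * b)
  · intro b hb
    rw [Finset.mem_coe, Finset.mem_filter, Finset.mem_Icc] at hb
    obtain ⟨⟨hb1, hb2⟩, hb3⟩ := hb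
    rw [Finset.mem_coe, Finset.mem_filter, Finset.mem_Icc]
    refine ⟨⟨?_, ?_⟩, ?_, ?_⟩
    · exact Nat.one_le_iff_ne_zero.2 (by positivity)
    · exact Nat.mul_le_mul_left a hb2
    · intro p _
      refine ⟨-(b:ℤ), ?_⟩
      have h10 : (Polynomial.C (a : ℚ) * Polynomial.X).eval ((-(b:ℤ) : ℤ) : ℚ) =
          ((-((a:ℤ) * b) : ℤ) : ℚ) := by
        simp
      rw [h10, Int.floor_intCast]
      push_cast
      simp
    · rw [ZeroLin_cntP]
      refine hb3.trans_le ?_
      have hNn : (0:ℝ) ≤ (N:ℝ) := Nat.cast_nonneg N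
      have hl : Real.log ((a * H : ℕ) : ℝ) ≤ 2 * Real.log H := by
        rw [hlogmul]; linarith
      have hlp : 0 < Real.log ((a * H : ℕ) : ℝ) := by
        rw [hlogmul]; linarith
      have h9 : (N:ℝ) / (2 * Real.log H) ≤ N / Real.log ((a * H : ℕ) : ℝ) :=
        div_le_div_of_nonneg_left hNn hlp hl
      calc c / 2 * (N / Real.log H) = c * (N / (2 * Real.log H)) := by
            field_simp
        _ ≤ c * (N / Real.log ((a * H : ℕ) : ℝ)) := mul_le_mul_of_nonneg_left h9 hc.le
  · intro b1 _ b2 _ h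
    exact Nat.eq_of_mul_eq_mul_left (by omega) h

end Pool.Agent.PnLG
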